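import Mathlib
import Pool.Agent.Lib.MP_4ca46c_ag.Two.SpecU
import Pool.Agent.Lib.MP_4ca46c_ag.Two.NetVar
import Pool.Agent.Lib.MP_4ca46c_ag.T2.SpecT

/-!
# The sign conjecture in bounded transcendence degree: definitions

`C` is a plane curve over `k`, `S = ℙ¹ × C ⊆ ℙ⁵`. `Φ : W ⟶ ℙ¹` is a fibration with a section
(`Two.Fib`), `Ψ : Z ⟶ C` a fibration over `C` (`FibC`), `Y = W × Z ⟶ S`. For a vector `a ∈ M⁶` the
member `U_a ⊆ Y` is the preimage of the hyperplane section `D_a` of `S`.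
-/

set_option autoImplicit false

namespace Pool.Agent.Lib.MP_4ca46c_ag.C5

open CategoryTheory Limits AlgebraicGeometry TensorProduct MonoidalCategory
  CartesianMonoidalCategory
open Pool.Agent.Lib.MP_4ca46c_ag.Sign Pool.Agent.Lib.MP_4ca46c_ag.Hyp
open Pool.Agent.Lib.MP_4ca46c_ag.Std Pool.Agent.Lib.MP_4ca46c_ag.Geo
open Pool.Agent.Lib.MP_4ca46c_ag.Geo.WeilCohomology
open Pool.Agent.Lib.MP_4ca46c_ag.Two (IsMem Fib Net)

section abstract

variable {K : Type} [Field K] [CharZero K] {𝒱 : Type 1} [Category.{0} 𝒱]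
  [CartesianMonoidalCategory 𝒱] (W : WeilCohomology K 𝒱)

/-- Multiplication by `a` has a quasi-inverse with coefficients in `K`. -/
def VR (X : 𝒱) (a : W.H X) : Prop := ∃ G ∈ W.R X (-1), ∀ z, a * G (a * z) = a * z

/-- Cohomology of the generic member `U` of a family of divisors with class `δ` on `Y`, compare
`Two.NetH`. `S` is a set of classes on `Y` with which the correspondence `β` commutes. -/
structure NetC {𝒱' : Type 1} [Category.{0} 𝒱'] [CartesianMonoidalCategory 𝒱']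
    (W' : WeilCohomology K 𝒱') (Y : 𝒱) (U : 𝒱') (δ : W.H Y) (S : Set (W.H Y)) where
  res : W.H Y →ₐ[K] W'.H U
  res_gr : ∀ i z, z ∈ W.gr Y i → res z ∈ W'.gr U i
  δ_gr : δ ∈ W.gr Y 2
  tr_res : ∀ z, W'.tr U (res z) = W.tr Y (δ * z)
  gys : W'.H U →ₗ[K] W.H Y
  gys_spec : ∀ y z, W.tr Y (gys y * z) = W'.tr U (y * res z)
  split : W'.even U ∈ W'.Cor U U 0 → ∃ w ∈ W.Cor Y Y (-1), ∃ β : W'.H U →ₗ[K] W'.H U,
    (∀ e ∈ S, ∀ y, β (res e * y) = res e * β y) ∧ ∀ y, W'.eps U y = res (w (gys y)) + β y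

/-- The relation on `H(X × Z)`: `2 (a ⊗ e) s = (a ⊗ e) w δ - δ w (a ⊗ e)` for all `e ∈ S`, with
`δ = a ⊗ 1 + 1 ⊗ c` and `s = (-1)^deg`. -/
def RelC (X Z : 𝒱) (a : W.H X) (c : W.H Z) (S : Set (W.H Z)) : Prop :=
  ∃ w ∈ W.Cor (X ⊗ Z) (X ⊗ Z) (-1), ∀ e ∈ S, ∀ z,
    (2 : K) • (W.tm a e * W.eps (X ⊗ Z) z) =
      W.tm a e * w ((W.tm a 1 + W.tm 1 c) * z) - (W.tm a 1 + W.tm 1 c) * w (W.tm a e * z)

/-- The classes of degree one which come from the curve `C`. -/
def Odd1 {Z C : 𝒱} (π : Z ⟶ C) : Set (W.H Z) := {e | ∃ u ∈ W.gr C 1, e = W.pull π u}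

end abstract

section curves

/-- A plane curve on which a Fermat equation holds. -/
structure PCurve (k₀ k : Type) [Field k₀] [Field k] [Algebra k₀ k] where
  X : Sch k₀
  str : X ⟶ pt k₀ k
  isVar : IsVar str 1
  emb : X ⟶ PSo k₀ k (Fin 3)
  closed : IsClosedImmersion emb.left
  emb_str : emb ≫ PSo.str k₀ k (Fin 3) = str
  d : ℕ
  d_ne : d ≠ 0
  eqn : ∀ (T : Scheme.{0}) (z : T ⟶ X.left) (j : Fin 3)
    (h : ⊤ ≤ (z ≫ emb.left : T ⟶ PS k (Fin 3)) ⁻¹ᵁ psD j),
    ∑ l, (psCoord k (Fin 3)).val (z ≫ emb.left) j h l ^ d = 0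

variable {k₀ k : Type} [Field k₀] [Field k] [Algebra k₀ k]

/-- The curve as a projective variety. -/
def PCurve.toProj (C : PCurve k₀ k) : ProjVar k₀ k where
  X := C.X
  str := C.str
  n := 1
  isVar := C.isVar
  κ := Fin 3
  i := 0
  emb := C.emb
  closed := C.closed
  emb_str := C.emb_str

/-- The projective line. -/
noncomputable abbrev L1 (k₀ k : Type) [Field k₀] [Field k] [Algebra k₀ k] : Sch k₀ :=
  PSo k₀ k (Fin 2)

/-- The structure morphism of the projective line. -/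
noncomputable abbrev l1 (k₀ k : Type) [Field k₀] [Field k] [Algebra k₀ k] :
    L1 k₀ k ⟶ pt k₀ k := PSo.str k₀ k (Fin 2)

theorem l1_var : IsVar (l1 k₀ k) 1 := pso_var k₀ k (Fin 2) 1 (by simp)

variable (C : PCurve k₀ k)

/-- The surface `ℙ¹ × C`. -/
noncomputable abbrev PC : Sch k₀ := pullback (l1 k₀ k) C.str

/-- The structure morphism of `ℙ¹ × C`. -/
noncomputable abbrev pc : PC C ⟶ pt k₀ k := pullback.fst (l1 k₀ k) C.str ≫ l1 k₀ k

/-- The embedding of `ℙ¹ × C` in `ℙ¹ × ℙ²`. -/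
noncomputable def emb2 : PC C ⟶ pullback (l1 k₀ k) (PSo.str k₀ k (Fin 3)) :=
  pullback.lift (pullback.fst _ _) (pullback.snd _ _ ≫ C.emb)
    (by rw [Category.assoc, C.emb_str, pullback.condition])

/-- The Segre embedding of `ℙ¹ × C` in `ℙ⁵`. -/
noncomputable def psi : PC C ⟶ PSo k₀ k (Fin 2 × Fin 3) := emb2 C ≫ segO k₀ k (Fin 2) (Fin 3)

theorem psi_str : psi C ≫ PSo.str k₀ k (Fin 2 × Fin 3) = pc C := by
  rw [psi, Category.assoc, segO_str, ← Category.assoc, emb2, pullback.lift_fst]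

theorem emb2_closed : IsClosedImmersion (emb2 C).left := by
  have hv : IsPullback (pullback.snd (l1 k₀ k) C.str) (emb2 C) C.emb (pullback.snd _ _) := by
    have h1 : IsPullback (pullback.snd (l1 k₀ k) C.str) (emb2 C ≫ pullback.fst _ _)
        (C.emb ≫ PSo.str k₀ k (Fin 3)) (l1 k₀ k) := by
      rw [C.emb_str, emb2, pullback.lift_fst]
      exact (IsPullback.of_hasPullback _ _).flip
    exact IsPullback.of_bot h1 (pullback.lift_snd _ _ _).symm (IsPullback.of_hasPullback _ _).flip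
  exact MorphismProperty.of_isPullback (P := @IsClosedImmersion) (hv.map (Over.forget _)) C.closed

theorem psi_closed : IsClosedImmersion (psi C).left := by
  have h1 := emb2_closed C
  have h2 := segO_closed k₀ k (Fin 2) (Fin 3)
  change IsClosedImmersion ((emb2 C).left ≫ (segO k₀ k (Fin 2) (Fin 3)).left)
  infer_instance

theorem pc_var : IsVar (pc C) (1 + 1) := Var.isVar_prod l1_var C.isVar

/-- The surface `ℙ¹ × C ⊆ ℙ⁵` as a projective variety. -/
noncomputable def SC : ProjVar k₀ k where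
  X := PC C
  str := pc C
  n := 1 + 1
  isVar := pc_var C
  κ := Fin 2 × Fin 3
  i := (0, 0)
  emb := psi C
  closed := psi_closed C
  emb_str := psi_str C

/-- A fibration over the curve `C`, smooth outside rational points. -/
structure FibC where
  V : ProjVar k₀ k
  m : ℕ
  dim : V.n = m + 1
  f : V.X ⟶ C.X
  f_str : f ≫ C.str = V.str
  S : C.X.left.Opens
  smooth : SmoothOfRelativeDimension m (f.left ∣_ S)
  compl : ∀ x : C.X.left, x ∉ S → ∃ e : pt k₀ k ⟶ C.X,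
    e ≫ C.str = 𝟙 _ ∧ x ∈ Set.range e.left

/-- `Z` as an object of the category of varieties. -/
def FibC.VV {C : PCurve k₀ k} (Ψ : FibC C) : Var k₀ k := ⟨Ψ.V.X, Ψ.V.str, Ψ.V.n, Ψ.V.isVar⟩

/-- `C` as an object of the category of varieties. -/
def PCurve.VC (C : PCurve k₀ k) : Var k₀ k := ⟨C.X, C.str, 1, C.isVar⟩

/-- The projection `Z ⟶ C` in the category of varieties. -/
def FibC.π {C : PCurve k₀ k} (Ψ : FibC C) : Ψ.VV ⟶ C.VC := Var.Hom.mk Ψ.f Ψ.f_str

variable {C} (Φ : Fib k₀ k) (Ψ : FibC C)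

/-- The product `W × Z`. -/
noncomputable abbrev YY : Sch k₀ := pullback Φ.V.str Ψ.V.str

/-- The structure morphism of `W × Z`. -/
noncomputable abbrev yy : YY Φ Ψ ⟶ pt k₀ k := pullback.fst Φ.V.str Ψ.V.str ≫ Φ.V.str

/-- The map `W × Z ⟶ ℙ¹ × C`. -/
noncomputable def ff : YY Φ Ψ ⟶ PC C :=
  pullback.lift (pullback.fst _ _ ≫ Φ.f) (pullback.snd _ _ ≫ Ψ.f) (by
    rw [Category.assoc, Category.assoc, Φ.f_str, Ψ.f_str, pullback.condition])

theorem ff_fst : ff Φ Ψ ≫ pullback.fst _ _ = pullback.fst _ _ ≫ Φ.f := pullback.lift_fst _ _ _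

theorem ff_snd : ff Φ Ψ ≫ pullback.snd _ _ = pullback.snd _ _ ≫ Ψ.f := pullback.lift_snd _ _ _

theorem ff_str : ff Φ Ψ ≫ pc C = yy Φ Ψ := by
  rw [← Category.assoc, ff_fst, Category.assoc, Φ.f_str]

theorem yy_var : IsVar (yy Φ Ψ) (Φ.V.n + Ψ.m + 1) := by
  have h := Var.isVar_prod Φ.V.isVar Ψ.V.isVar
  rw [Ψ.dim] at h
  exact h

/-- The family of divisors on `W × Z`. -/
noncomputable def netD {U₀ : Sch k₀} (toP : U₀ ⟶ (SC C).Y₀) (toY : U₀ ⟶ YY Φ Ψ)
    (hPB : IsPullback toP toY (SC C).r₀ (ff Φ Ψ))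
    (hs : SmoothOfRelativeDimension (Φ.V.n + Ψ.m) (toP ≫ (SC C).y₀).left)
    (hc : GeometricallyConnected (toP ≫ (SC C).y₀).left) : Net (SC C) where
  Y := YY Φ Ψ
  str := yy Φ Ψ
  N := Φ.V.n + Ψ.m
  isVar := yy_var Φ Ψ
  ψ := ff Φ Ψ
  ψ_str := ff_str Φ Ψ
  U₀ := U₀
  toP := toP
  toY := toY
  isPB := hPB
  smooth := hs
  conn := hc

end curves

section vectors

/-- The cross product of the two rows of `a`. -/
def cr {R : Type} [CommRing R] (a : Fin 2 × Fin 3 → R) : Fin 3 → R :=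
  ![a (0, 1) * a (1, 2) - a (0, 2) * a (1, 1), a (0, 2) * a (1, 0) - a (0, 0) * a (1, 2),
    a (0, 0) * a (1, 1) - a (0, 1) * a (1, 0)]

/-- The Fermat equation for the common zero of the two linear forms given by `a`. -/
def fd {R : Type} [CommRing R] (d : ℕ) (a : Fin 2 × Fin 3 → R) : R := ∑ l, cr a l ^ d

/-- The linear combination of the rows of `a` with coefficients `ε`. -/
def row {k M : Type} [Field k] [Field M] [Algebra k M] (a : Fin 2 × Fin 3 → M) (ε : Fin 2 → k)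
    (j : Fin 3) : M := ∑ i, algebraMap k M (ε i) * a (i, j)

/-- For all `k`-rational combinations of the rows of `a` the ratios of the coordinates are
generic. -/
def Gen3 (k : Type) {M : Type} [Field k] [Field M] [Algebra k M] (a : Fin 2 × Fin 3 → M) : Prop :=
  ∀ P : MvPolynomial (Fin 3) k, P ≠ 0 → ∀ ε : Fin 2 → k, ε ≠ 0 →
    ∃ c : M, c ≠ 0 ∧ MvPolynomial.aeval (fun j => c * row a ε j) P ≠ 0

/-- The algebraic closure of `k(t₁, …, t₅)`. -/
abbrev M5 (k : Type) [Field k] : Type :=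
  AlgebraicClosure (FractionRing (MvPolynomial (Fin 5) k))

/-- The variables. -/
noncomputable def t5 (k : Type) [Field k] (i : Fin 5) : M5 k :=
  algebraMap (MvPolynomial (Fin 5) k) (M5 k) (MvPolynomial.X i)

/-- The vector `(1, t₁, t₂; t₃, t₄, t₅)`. -/
noncomputable def vec5 (k : Type) [Field k] : Fin 2 × Fin 3 → M5 k := fun p =>
  (![![1, t5 k 0, t5 k 1], ![t5 k 2, t5 k 3, t5 k 4]] : Fin 2 → Fin 3 → M5 k) p.1 p.2

/-- The generic vector over a field which contains the polynomial ring. -/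
noncomputable def gv (k F : Type) [Field k] [Field F] [Algebra (MvPolynomial (Fin 2 × Fin 3) k) F]
    (p : Fin 2 × Fin 3) : F := algebraMap (MvPolynomial (Fin 2 × Fin 3) k) F (MvPolynomial.X p)

end vectors

section members

variable {k₀ k : Type} [Field k₀] [Field k] [Algebra k₀ k] (C : PCurve k₀ k)
  {M : Type} [Field M] [Algebra k₀ M] [Algebra k M] [IsScalarTower k₀ k M]

/-- The map from the spectrum of the larger field. -/
noncomputable abbrev pm (k₀ k M : Type) [Field k₀] [Field k] [Algebra k₀ k] [Field M]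
    [Algebra k₀ M] [Algebra k M] [IsScalarTower k₀ k M] : pt k₀ M ⟶ pt k₀ k :=
  ptMap k₀ (IsScalarTower.toAlgHom k₀ k M)

/-- The curve `D_a ⊆ ℙ¹ × C` is étale over `ℙ¹` (over `M`) at all points over the rational point
`e`. -/
def EtAt (a : Fin 2 × Fin 3 → M) (e : pt k₀ k ⟶ L1 k₀ k) : Prop :=
  ∀ (D : Sch k₀) (r : D ⟶ PC C) (u : D ⟶ pt k₀ M)
    (δ : D ⟶ pullback (l1 k₀ k) (pm k₀ k M)), IsMem (pc C) (psi C) a r u →
    δ ≫ pullback.fst _ _ = r ≫ pullback.fst _ _ → δ ≫ pullback.snd _ _ = u →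
    ∃ O : (pullback (l1 k₀ k) (pm k₀ k M)).left.Opens,
      (∀ x, (pullback.fst (l1 k₀ k) (pm k₀ k M)).left x ∈ Set.range e.left → x ∈ O) ∧
      SmoothOfRelativeDimension 0 (δ.left ∣_ O)

/-- The curve `D_a` does not contain the point `(e, e')`. -/
def NoPair (a : Fin 2 × Fin 3 → M) (e : pt k₀ k ⟶ L1 k₀ k) (e' : pt k₀ k ⟶ C.X) : Prop :=
  ∀ (D : Sch k₀) (r : D ⟶ PC C) (u : D ⟶ pt k₀ M), IsMem (pc C) (psi C) a r u →
    ∀ c : D.left, (r ≫ pullback.fst _ _).left c ∈ Set.range e.left →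
      (r ≫ pullback.snd _ _).left c ∈ Set.range e'.left → False

end members

end Pool.Agent.Lib.MP_4ca46c_ag.C5
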