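import Mathlib
import Pool.Agent.Lib.MP_4ca46c_ag.C5.Base
import Pool.Agent.Lib.MP_4ca46c_ag.T2.SpecG

/-!
# Specification G (geometry of the family of divisors)

`C` is a plane curve with the equation `∑ y_l^d = 0` (`PCurve`), `D_a ⊆ ℙ¹ × C` (over `M`) is given
by `∑ a_ij x_i y_j = 0`. `(psCoord k κ).val z i h l` is the coordinate `x_l / x_i` of the point `z`
of the chart `i`. Everything may use the whole library, in particular `tMemEx`, `tMemGen`,
`tMemBC`, `tMemScale`, `tGeomUp` (`Two/*.lean`), `tBertOpen`, `tZeroEx`, `tZeroB`, `tZeroY`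
(`T2/*.lean`).
-/

set_option autoImplicit false

namespace Pool.Agent.Lib.MP_4ca46c_ag.C5

open CategoryTheory Limits AlgebraicGeometry TensorProduct MonoidalCategory
  CartesianMonoidalCategory
open Pool.Agent.Lib.MP_4ca46c_ag.Sign Pool.Agent.Lib.MP_4ca46c_ag.Hyp
open Pool.Agent.Lib.MP_4ca46c_ag.Std Pool.Agent.Lib.MP_4ca46c_ag.Geo
open Pool.Agent.Lib.MP_4ca46c_ag.Geo.WeilCohomology
open Pool.Agent.Lib.MP_4ca46c_ag.Two (IsMem Fib Net StNetVar)

/-- **G01. The curve.**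

PROOF. The proof of `tCurve'` (`Std/Fermat.lean`) gives it: `X`, `x`, `e` as there,
`emb = e`, `d` from `exists_fermDeg`. `eqn`: `ferm_factor_iff` (`z ≫ emb.left` factors through
`fermι`). The hypotheses of `tCurve'` are proved: see the proof of `tCurve` in
`Std/Bridge3.lean`. -/
def StPCurve (k₀ K : Type) [Field k₀] [Field K] : Prop :=
  ∀ (T : WeilTheory k₀ K), Extra T → ∀ (k : Type) [Field k] [Algebra k₀ k] [IsAlgClosed k],
  ∃ C : PCurve k₀ k, ∃ y ∈ T.deg C.X 1, y ≠ 0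

/-- **G02. The equation of `D_a`.**

PROOF. Let `C' = psCoord k (Fin 2 × Fin 3)`, `t = z ≫ (psi C).left`. `segO` is
`Hyp.segre` of the two projections (see `segO`, `segO_str`, `segO_closed`), `t` is a point of the
chart `(i, j)` (`segre_pre`), its coordinate `(p, q)` is the product of the coordinates `p` and `q` of
the two points (`segre_app`, `psf`), and `C'.Van t a` is `∑ a_p val p = 0` by
`PreCoord.van_iff_of_le` (`Hyp/Coord.lean`), `eqn`. See `segre_hyp` (`Hyp/Segre.lean`) and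
`T2/Pen.lean` for similar computations. -/
def StSegVan : Prop := ∀ (k₀ k : Type) [Field k₀] [Field k] [Algebra k₀ k] (C : PCurve k₀ k)
  (T : Scheme.{0}) (z : T ⟶ (PC C).left) (i : Fin 2) (j : Fin 3)
  (h : ⊤ ≤ (z ≫ (pullback.fst (l1 k₀ k) C.str).left : T ⟶ PS k (Fin 2)) ⁻¹ᵁ psD i)
  (h' : ⊤ ≤ (z ≫ (pullback.snd (l1 k₀ k) C.str).left ≫ C.emb.left : T ⟶ PS k (Fin 3)) ⁻¹ᵁ
    psD j) (a : Fin 2 × Fin 3 → Γ(T, ⊤)),
  (psCoord k (Fin 2 × Fin 3)).Van (z ≫ (psi C).left : T ⟶ PS k (Fin 2 × Fin 3)) a ↔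
    ∑ p, a p * ((psCoord k (Fin 2)).val (z ≫ (pullback.fst (l1 k₀ k) C.str).left) i h p.1 *
      (psCoord k (Fin 3)).val (z ≫ (pullback.snd (l1 k₀ k) C.str).left ≫ C.emb.left) j h'
        p.2) = 0

/-- **G03. The curve `D_a` is isomorphic to `C`** over `M`. (May use `StSegVan`.)

PROOF. Compare `Two/Graph.lean`. Let `t : T ⟶ C.X`, `s : T ⟶ pt M` agree over `k`. Locally `t` has
coordinates `y ∈ Γ(T)^3`, one `y_j = 1`, `∑ y_l^d = 0` (`C.eqn`). By `StSegVan` a point
`x` of `ℙ¹` is on `D_a` if and only if `m_0 x_0 + m_1 x_1 = 0`, `m_i = ∑_j a_ij y_j`. `m_0`, `m_1`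
generate the unit ideal: otherwise there is a point of `T` such that both vanish in the residue field
`K'`; `M ⟶ K'` is injective. The vector `y ∈ K'^3` is not zero and orthogonal to both rows of
`a`, so `y` is proportional to the cross product `cr a` if `cr a ≠ 0` (and `cr a ≠ 0` since
`fd d a ≠ 0`, `d ≠ 0`), `cr a = μ y`, `μ ∈ K'`, (directly: `y_j (cr a)_l = y_l (cr a)_j` follows from
the two equations), and `fd d a = ∑ (cr a)_l^d = μ^d ∑ y_l^d = 0` in `K'`, a contradiction. So there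
is exactly one `x`, locally `x = (-m_1, m_0)` up to a unit; these morphisms
glue (`ex1`, `glue`, `uniq` in `Two/Graph.lean`). -/
def StGraphC : Prop := ∀ (k₀ k : Type) [Field k₀] [Field k] [Algebra k₀ k] (C : PCurve k₀ k)
  (M : Type) [Field M] [Algebra k₀ M] [Algebra k M] [IsScalarTower k₀ k M]
  (a : Fin 2 × Fin 3 → M), fd C.d a ≠ 0 → ∀ (D : Sch k₀) (r : D ⟶ PC C) (u : D ⟶ pt k₀ M),
  IsMem (pc C) (psi C) a r u → IsPullback (r ≫ pullback.snd _ _) u C.str (pm k₀ k M)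

/-- **G04. The curve `D_a` is étale over `ℙ¹`** at the points over rational points. (May use
`StSegVan`.)

PROOF. Let `P` be the polynomial of `tBertOpen` for `C.emb`, `m = 0`. Let `e` be rational, `e` in
the chart `psD i` with the coordinates `ε ∈ k²`, `ε_i = 1` (`NotRatAux.coords` in
`Two/NotRat.lean`). Let `Q = pullback (l1 k₀ k) (pm k₀ k M)`, `B₀ ⊆ Q` the preimage of `psD i` and
`ξ_l ∈ Γ(B₀)` the coordinates (`ξ_i = 1`), `a'_j = c ∑_l ξ_l a_lj ∈ Γ(B₀)` and `O` the basic open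
subset of `B₀` of `P(a')` (as an open subset of `Q`). At a point `x` of `Q` over `e` we have
`ξ_l = ε_l` in the residue field, so `P(a') = aeval (c row a ε) P`, which is the image of a nonzero
element of `M`; so `x ∈ O`. Over `O`: the preimage of `O` in `D` is the zero scheme of `C.emb` over
`B = O` with the coefficients `a'` (`IsZero`): by `StSegVan` a pair `t : T ⟶ O`, `u' : T ⟶ C.X`
(over `k`) gives a point of `D` if and only if `∑ ξ_l a_lj y_j = 0` locally, and `c` is a unit. So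
`tBertOpen` applies. (For the immersion `O ⟶ Q` as a morphism of `Sch k₀` see `Sms` and
`Std/Bert.lean`, or the last part of the proof of `tPencil`, `T2/Pen.lean`, which is the same
argument for pencils.) -/
def StEtC : Prop := ∀ (k₀ k : Type) [Field k₀] [Field k] [Algebra k₀ k] (C : PCurve k₀ k),
  ∃ P : MvPolynomial (Fin 3) k, P ≠ 0 ∧ ∀ e : pt k₀ k ⟶ L1 k₀ k, e ≫ l1 k₀ k = 𝟙 _ →
  ∃ ε : Fin 2 → k, ε ≠ 0 ∧ ∀ (M : Type) [Field M] [Algebra k₀ M] [Algebra k M]
  [IsScalarTower k₀ k M] (a : Fin 2 × Fin 3 → M),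
  (∃ c : M, c ≠ 0 ∧ MvPolynomial.aeval (fun j => c * row a ε j) P ≠ 0) → EtAt C a e

/-- **G05. The curve `D_a` contains no pair of rational points.** (May use `StSegVan`.)

PROOF. As `tNotRat` (`Two/NotRat.lean`). Let `K'` be the residue field of `c`. The
coordinates of the two points are the images of `ε_i`, `y_j ∈ k`, one `ε_i = 1`, one `y_j = 1`, and
`∑ a_ij ε_i y_j = 0` in `K'`, so in `M`, so all `ε_i y_j = 0`, a contradiction. -/
def StNoPairC : Prop := ∀ (k₀ k : Type) [Field k₀] [Field k] [Algebra k₀ k] (C : PCurve k₀ k)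
  (M : Type) [Field M] [Algebra k₀ M] [Algebra k M] [IsScalarTower k₀ k M]
  (a : Fin 2 × Fin 3 → M), LinearIndependent k a → ∀ (e : pt k₀ k ⟶ L1 k₀ k)
  (e' : pt k₀ k ⟶ C.X), e ≫ l1 k₀ k = 𝟙 _ → e' ≫ C.str = 𝟙 _ → NoPair C a e e'

/-- **G06. Smoothness of `U_a`.** (Uses `StGraphC`.)

PROOF. Compare `Two/USm.lean` (`USmAux.res`, `loc`, `mem_comp`, `sq`). Let `(D, r, u)` be the curve
`D_a` (`tMemEx` for `psi C`), `q₁ : D ⟶ ℙ¹`, `q₂ : D ⟶ C.X` the projections,
`W₁ = pullback Φ.f q₁`, `Z₂ = pullback Ψ.f q₂`. `U = W₁ ×_D Z₂`. By `StGraphC` `Z₂` is the base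
change of `Ψ.V.X` to `M`, so `Z₂ ⟶ pt M` is smooth of relative dimension `Ψ.V.n = Ψ.m + 1` and proper.
`U` is covered by the following open subsets. (1) The preimage of `Φ.S`: there `U ⟶ Z₂` is smooth of
relative dimension `Φ.m` (base change of `Φ.f` over `Φ.S`), so `U ⟶ pt M` is smooth of relative
dimension `Φ.m + Ψ.m + 1 = Φ.V.n + Ψ.m`. (2) For every rational `e`: let `O ⊆ ℙ¹_M` be from
`EtAt`, and take the points of `U` whose image in `ℙ¹_M` is in `O` and whose image in `C.X` is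
in `Ψ.S`. There `U ⟶ W₁` is smooth of relative dimension `Ψ.m`, `W₁ = W_M ×_(ℙ¹_M) D ⟶ W_M` is a
base change of `δ : D ⟶ ℙ¹_M`, so it is smooth of relative dimension `0`, and `W_M ⟶ pt M` is
smooth of relative dimension `Φ.V.n`. These subsets cover `U`: if the image of a point in `ℙ¹` is not
in `Φ.S`, it is in the range of a rational `e` (`Φ.compl`), and its image in `C.X` is in `Ψ.S` by
`Ψ.compl` and `NoPair`. (`SmoothOfRelativeDimension` is local on the source, see `USmAux.cover`, for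
any index type.) Proper: `U ⟶ Z₂` is a base change of `W₁ ⟶ D`, a base change of the proper
morphism `Φ.f`. -/
def StUSmC : Prop := ∀ (k₀ k : Type) [Field k₀] [Field k] [Algebra k₀ k] (C : PCurve k₀ k)
  (Φ : Fib k₀ k) (Ψ : FibC C) (M : Type) [Field M] [Algebra k₀ M] [Algebra k M]
  [IsScalarTower k₀ k M] (a : Fin 2 × Fin 3 → M), fd C.d a ≠ 0 →
  (∀ e : pt k₀ k ⟶ L1 k₀ k, e ≫ l1 k₀ k = 𝟙 _ → EtAt C a e) →
  (∀ (e : pt k₀ k ⟶ L1 k₀ k) (e' : pt k₀ k ⟶ C.X), e ≫ l1 k₀ k = 𝟙 _ → e' ≫ C.str = 𝟙 _ →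
    NoPair C a e e') → ∀ (U : Sch k₀) (r : U ⟶ YY Φ Ψ) (u : U ⟶ pt k₀ M),
  IsMem (yy Φ Ψ) (ff Φ Ψ ≫ psi C) a r u →
  SmoothOfRelativeDimension (Φ.V.n + Ψ.m) u.left ∧ IsProper u.left

/-- **G07. Connectedness of the generic member.** (Uses `StGraphC`.)

PROOF. As `tUConn` (`Two/UConn.lean`; `UConnAux.genFibre` can be used as it is). State it for every
model `F` of the function field, as `connAux`. `𝒰 = pullback (psCoord ..).toZ (ff ≫ psi)` is an
affine bundle over the irreducible scheme `YY Φ Ψ`, so it is irreducible and its generic fibre `U`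
is preirreducible (`tGenIrr`). `U` has a rational point: let `q : pt k ⟶ Ψ.V.X` be a rational point
(`IsVar.exists_point`), `D` the curve over `F` (`tMemEx`), `c : pt F ⟶ D` the point with
`q₂ c = (q ≫ Ψ.f)_F` (`StGraphC`; `fd` of the generic vector is not `0`: it is a polynomial with
value `1` at `a = (0, 1, 0; 0, 0, 1)`), and take the point `(Φ.σ (q₁ c), q_F)` of `W × Z`; its image
in `ℙ¹ × C` is `c`, so it lifts to `U`. So `U` is connected with a rational point (`tRatPt`,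
`tGeomUp`). -/
def StUConnC : Prop := ∀ (k₀ k : Type) [Field k₀] [Field k] [Algebra k₀ k] [IsAlgClosed k]
  (C : PCurve k₀ k) (Φ : Fib k₀ k) (Ψ : FibC C) (U : Sch k₀) (r : U ⟶ YY Φ Ψ)
  (u : U ⟶ pt k₀ (SC C).F), IsMem (yy Φ Ψ) (ff Φ Ψ ≫ psi C)
    (fun p => algebraMap (SC C).R (SC C).F (MvPolynomial.X p)) r u →
  GeometricallyConnected u.left

/-- **G09a. The vector over `k(t₁, …, t₅)`.**

PROOF. Let `R = k[t₁, …, t₅] ⊆ M5 k` (`algebraMap` is injective). The six entries `1`, `t_i` are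
linearly independent. `fd d (vec5 k)` is the image of a polynomial whose value at
`t = (0, 0, 0, 1, 0)` is `1` (`cr = (0, 0, 1)`), `d ≠ 0`. `Gen3`: let `P ≠ 0`, `ε ≠ 0`. If
`ε 1 ≠ 0` take `c = 1`: for every field `k'` over `k` and every `v ∈ k'^3` there are values of the
`t_i` with `row = v`, so `aeval (row) P`, the image of a polynomial in the `t_i`, is not zero
(`MvPolynomial.funext` over the infinite field `AlgebraicClosure k` or over `k[t]`; or: there is an
algebra automorphism of `R` which maps `t₃, t₄, t₅` to the entries of the row). If `ε 1 = 0`, the row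
is `ε 0 • (1, t₁, t₂)`. `Q = aeval (fun j => s * row j) P ∈ R[s]` is not zero (evaluate at
`s = v 0 / ε 0`, `t_1 = v 1 / v 0`, `t_2 = v 2 / v 0` for `v` with `v 0 P(v) ≠ 0`), so it has only
finitely many zeros in the infinite field `M5 k`; take `c` outside of them and `0`. The
transcendence degree: as `KunUAux.trdeg_M` (`Two/KunU.lean`). -/
def StVec5 : Prop := ∀ (k : Type) [Field k], LinearIndependent k (vec5 k) ∧
  (∀ d : ℕ, d ≠ 0 → fd d (vec5 k) ≠ 0) ∧ Gen3 k (vec5 k) ∧ Algebra.trdeg k (M5 k) = 5 ∧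
  IsTranscendenceBasis k (t5 k)

/-- **G09b. The generic vector.**

PROOF. The entries `X p` are algebraically independent over `k`, so linearly independent; `fd` of
them is the image of a polynomial with value `1` at `(0, 1, 0; 0, 0, 1)`. `Gen3`, `c = 1`:
`aeval (row X ε) P` is the image of the polynomial `aeval (fun j => ∑ ε_i X (i, j)) P`, which is not
zero (if `ε_i ≠ 0` substitute `X (i, j) ↦ X j / ε_i`, `X (1-i, j) ↦ 0`: this gives `P`). -/
def StVecS : Prop := ∀ (k F : Type) [Field k] [Field F] [Algebra k F]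
  [Algebra (MvPolynomial (Fin 2 × Fin 3) k) F]
  [IsScalarTower k (MvPolynomial (Fin 2 × Fin 3) k) F]
  [IsFractionRing (MvPolynomial (Fin 2 × Fin 3) k) F], LinearIndependent k (gv k F) ∧
  (∀ d : ℕ, d ≠ 0 → fd d (gv k F) ≠ 0) ∧ Gen3 k (gv k F) ∧ AlgebraicIndependent k (gv k F)

/-- **G08. The family of divisors on `W × Z`.** (Uses `StEtC`, `StNoPairC`, `StUSmC`, `StUConnC`,
`StVecS`.)

PROOF. As `tNetWW` (`Two/NetWW.lean`). `tMemEx` for `ff ≫ psi` and the generic vector `gv k F`,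
`F = (SC C).F`; `tMemGen` for `P = SC C` gives `toP`. `StUSmC` for `gv k F` (`StVecS`, `StEtC` with
`Gen3`, `StNoPairC`). The class: `(SC C).h T = pull (psi C) (hypClass T k (0, 0))`,
`psi = emb2 ≫ segO`, `tSegCls` (`T2/SegCls.lean`) and
`emb2 ≫ fst = fst`, `emb2 ≫ snd = snd ≫ C.emb` give `(SC C).h T = pull fst (hypClass 0) +
pull snd (pull C.emb (hypClass 0))`; then `T.cl_pull`, `T.pull_comp`, `ff_fst`, `ff_snd`. -/
def StNetWZ (k₀ K : Type) [Field k₀] [Field K] [CharZero K] : Prop :=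
  ∀ (T : WeilTheory k₀ K), Extra T → ∀ (k : Type) [Field k] [Algebra k₀ k] [IsAlgClosed k]
  (C : PCurve k₀ k) (Φ : Fib k₀ k) (Ψ : FibC C), ∃ (U₀ : Sch k₀) (toP : U₀ ⟶ (SC C).Y₀)
  (toY : U₀ ⟶ YY Φ Ψ), IsPullback toP toY (SC C).r₀ (ff Φ Ψ) ∧
  SmoothOfRelativeDimension (Φ.V.n + Ψ.m) (toP ≫ (SC C).y₀).left ∧
  GeometricallyConnected (toP ≫ (SC C).y₀).left ∧
  IsMem (yy Φ Ψ) (ff Φ Ψ ≫ psi C)
    (fun p => algebraMap (SC C).R (SC C).F (MvPolynomial.X p)) toY (toP ≫ (SC C).y₀) ∧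
  T.cl (YY Φ Ψ) (T.pull (ff Φ Ψ) ((SC C).h T)) =
    (weil T k).tm (X := Φ.VV) (Y := Ψ.VV) (Φ.η T) 1 +
      (weil T k).tm (X := Φ.VV) (Y := Ψ.VV) 1 (T.cl Ψ.V.X (T.pull Ψ.f (C.toProj.h T)))

end Pool.Agent.Lib.MP_4ca46c_ag.C5
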