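import Mathlib
import Pool.Agent.Lib.MP_4ca46c_ag.C5.Base

/-!
# Specification N (the generic member of the family of divisors)

Compare `Two/SpecN.lean`. `P.L` is the algebraic closure of the function field `P.F`. All
statements may use `tNetVar`, `tNetCH`, `tNetCls` (`Two/NetVar.lean`, `Two/NetCH.lean`,
`Two/NetCls.lean`); `Two.StNetSm` is proved in `Two/NetSm.lean`.
-/

set_option autoImplicit false

namespace Pool.Agent.Lib.MP_4ca46c_ag.C5

open CategoryTheory Limits AlgebraicGeometry TensorProduct MonoidalCategory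
  CartesianMonoidalCategory
open Pool.Agent.Lib.MP_4ca46c_ag.Sign Pool.Agent.Lib.MP_4ca46c_ag.Hyp
open Pool.Agent.Lib.MP_4ca46c_ag.Std Pool.Agent.Lib.MP_4ca46c_ag.Geo
open Pool.Agent.Lib.MP_4ca46c_ag.Geo.WeilCohomology
open Pool.Agent.Lib.MP_4ca46c_ag.Two (IsMem Fib Net StNetVar StNetSm StNetCH StNetCls)

/-- **N01.** Cycles supported on `ψ = ψ'` and all classes which come from `P`.

PROOF. Copy `Two/NetDel.lean` (in a namespace of your own; `NetDelAux.graph`, `toSq`, `step` can be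
used as they are) with a class `e : T.H P.X` in place of `T.cl P.X c`. In `trace` and `main` the
classes of cycles are central (`Sign/Key.lean`, `key_central`, or the argument used in
`Two/NetDel.lean`); the only step where `T.cl P c` is used is `trace`, by `T.pullH_comp`, which
holds for all classes. -/
def StNetDelC (k₀ K : Type) [Field k₀] [Field K] : Prop :=
  ∀ (T : WeilTheory k₀ K) (k : Type) [Field k] [Algebra k₀ k] [IsAlgClosed k]
  (P : ProjVar k₀ k) (D : Net P), ∀ β ∈ T.codim D.UU₀ D.N, T.pull D.jQ β = 0 →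
  ∀ (e : T.H P.X) (v : T.H D.UU),
    T.tr D.UU (T.cl D.UU (T.pull D.e2 β) *
      T.pullH (pullback.fst D.u D.u ≫ D.r ≫ D.ψ) e * v) =
    T.tr D.UU (T.cl D.UU (T.pull D.e2 β) *
      T.pullH (pullback.snd D.u D.u ≫ D.r ≫ D.ψ) e * v)

/-- **N02.** Averaging.

PROOF. Copy the proof of `tNetAvg` (`Two/NetAvg.lean`), with `c i * tr (y * y')` in place of
`if i = m then tr (y * y') else 0`. -/
def StNetAvgC (k₀ K : Type) [Field k₀] [Field K] : Prop :=
  ∀ (T : WeilTheory k₀ K) (k : Type) [Field k] [Algebra k₀ k] [IsAlgClosed k]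
  (P : ProjVar k₀ k) (D : Net P) (c : ℕ → K), ∀ a ∈ T.codim D.UU D.N,
  (∀ i, ∀ y ∈ T.deg D.U i, ∀ y', T.tr D.UU (T.cl D.UU a * T.pullH (pullback.snd D.u D.u) y *
    T.pullH (pullback.fst D.u D.u) y') = c i * T.tr D.U (y * y')) →
  ∃ N₀ : ℕ, 0 < N₀ ∧ ∃ b ∈ T.codim D.UU₀ D.N, ∀ i, ∀ y ∈ T.deg D.U i, ∀ y',
    T.tr D.UU (T.cl D.UU (T.pull D.e2 b) * T.pullH (pullback.snd D.u D.u) y *
      T.pullH (pullback.fst D.u D.u) y') = (N₀ : K) * (c i * T.tr D.U (y * y'))

/-- **N03.** The cohomology of the generic member. (Hypotheses of the theorem: `StNetSm`,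
`StNetCH`, `StNetDelC`, `StNetCls`, `StNetAvgC`.)

PROOF. As `tNetH` (`Two/NetH.lean`; `NetHAux` can be used). The field `split`: let
`even ∈ Cor U U 0`; so `eps = 2 even - 1 ∈ Cor U U 0` (`eps_eq`, `sign_eps`, `sign_iff` in
`Geo/Trace.lean`, `Geo/Corr.lean`), and there is a cycle `a` of codimension `N` on `U × U` which
gives `eps` (or `eps = 0`, then take `a = 0`), with the property in `StNetAvgC` for
`c i = (-1) ^ i`. `StNetAvgC` gives `N₀`, `b`, `StNetCH` gives `w` for `b`,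
`β₀ = b - ρ^* w`, `N₀ eps = op (cl (e2^* ρ^* w)) + op (cl (e2^* β₀))`. `op ((r × r)^* u) =
res ∘ op u ∘ gys` (`NetHAux.op_res`). `β = N₀⁻¹ op x`, `x = cl (e2^* β₀)`, satisfies
`β (res e * y) = res e * β y` for `e = ψ^* u`, also if `u` has odd degree: for `e' = res e` (by
linearity in `e` homogeneous of degree `i`; every homogeneous component of an element of the set `S`
is in `S`), `tr (op x (e' * y) * y') = tr (x * p₂^* e' * p₂^* y * p₁^* y')` (`op_spec`), which by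
`StNetDelC` for `v = p₂^* y * p₁^* y'` is `tr (x * p₁^* e' * p₂^* y * p₁^* y')`; and
`tr (e' * op x y * y')` is, for `y` homogeneous of degree `j` (`op x y` has degree `j` too, because
`x` has degree `2 N`: `mem_gr_of_tr` or `cor_gr`) equal to
`(-1)^(i j) tr (op x y * e' * y') = (-1)^(i j) tr (x * p₂^* y * p₁^* e' * p₁^* y') =
tr (x * p₁^* e' * p₂^* y * p₁^* y')` by `W.comm`. -/
def StNetHC (k₀ K : Type) [Field k₀] [Field K] [CharZero K] : Prop :=
  ∀ (hv : StNetVar k₀) (T : WeilTheory k₀ K), Extra T →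
  ∀ (k : Type) [Field k] [Algebra k₀ k] [IsAlgClosed k] (P : ProjVar k₀ k) (D : Net P) (m : ℕ),
  P.n = m + 1 → ∃ N : NetC (weil T k) (weil T P.L) D.YV (D.UV hv)
    (T.cl D.Y (T.pull D.ψ (P.h T))) {e | ∃ u : T.H P.X, e = T.pullH D.ψ u},
    ∀ z, N.res z = T.pullH D.r z

/-- **N04.** The cohomology of the generic member of the family of divisors on `W × Z`. (Uses
`StNetHC`.)

PROOF. `StNetHC` for `netD`, `P = SC C`, `m = 1`. `D.YV` and `Φ.VV ⊗ Ψ.VV` differ only in the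
dimension, `Φ.V.n + Ψ.m + 1 = Φ.V.n + Ψ.V.n` (`Ψ.dim`): state the claim for
`(⟨YY, yy, M, hM⟩ : Var k₀ k)` and `N + 1 = M`, and use `subst`, as in `relwl_cast`
(`T2/RelWL.lean`). -/
def StNetHWZ (k₀ K : Type) [Field k₀] [Field K] [CharZero K] : Prop :=
  ∀ (hv : StNetVar k₀) (T : WeilTheory k₀ K), Extra T →
  ∀ (k : Type) [Field k] [Algebra k₀ k] [IsAlgClosed k] (C : PCurve k₀ k) (Φ : Fib k₀ k)
  (Ψ : FibC C) (U₀ : Sch k₀) (toP : U₀ ⟶ (SC C).Y₀) (toY : U₀ ⟶ YY Φ Ψ)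
  (hPB : IsPullback toP toY (SC C).r₀ (ff Φ Ψ))
  (hs : SmoothOfRelativeDimension (Φ.V.n + Ψ.m) (toP ≫ (SC C).y₀).left)
  (hc : GeometricallyConnected (toP ≫ (SC C).y₀).left),
  ∃ N : NetC (weil T k) (weil T (SC C).L) (Φ.VV ⊗ Ψ.VV)
    ((netD Φ Ψ toP toY hPB hs hc).UV hv) (T.cl (YY Φ Ψ) (T.pull (ff Φ Ψ) ((SC C).h T)))
    {e | ∃ u : T.H (PC C), e = T.pullH (ff Φ Ψ) u},
    ∀ z, N.res z = T.pullH (netD Φ Ψ toP toY hPB hs hc).r z

end Pool.Agent.Lib.MP_4ca46c_ag.C5
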