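import Mathlib
import Pool.Agent.Lib.MP_4ca46c_ag.C5.SpecN
import Pool.Agent.Lib.MP_4ca46c_ag.C5.SpecG
import Pool.Agent.Lib.MP_4ca46c_ag.Two.Desc

/-!
# Specification H (base change to the curve, fields of definition, even projectors)

Everything may use the whole library.
-/

set_option autoImplicit false

namespace Pool.Agent.Lib.MP_4ca46c_ag.C5

open CategoryTheory Limits AlgebraicGeometry TensorProduct MonoidalCategory
  CartesianMonoidalCategory
open Pool.Agent.Lib.MP_4ca46c_ag.Sign Pool.Agent.Lib.MP_4ca46c_ag.Hyp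
open Pool.Agent.Lib.MP_4ca46c_ag.Std Pool.Agent.Lib.MP_4ca46c_ag.Geo
open Pool.Agent.Lib.MP_4ca46c_ag.Geo.WeilCohomology
open Pool.Agent.Lib.MP_4ca46c_ag.Two (IsMem Fib Net StNetVar AlgDesc)

section curve

/-- **H01. The complement of `Φ.S` is finite.**

PROOF. `ℙ¹_k` is a Noetherian scheme, so its closed subset `B = {x | x ∉ Φ.S}` is a Noetherian
topological space. Every point of `B` is a rational point (`Φ.compl`), the range of a closed
immersion (a section of a separated morphism), so it is closed in `ℙ¹`. `B` is a finite union of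
irreducible closed subsets (`TopologicalSpace.NoetherianSpace.finite_irreducibleComponents`), each
of which has a generic point (schemes are quasi-sober), a closed point, so it has exactly one
point. -/
def StFinS : Prop := ∀ (k₀ k : Type) [Field k₀] [Field k] [Algebra k₀ k] [IsAlgClosed k]
  (Φ : Fib k₀ k), {x : (Two.P1 k₀ k).left | x ∉ Φ.S}.Finite

/-- **H02. The choice of the vector.**

PROOF. With variables `X (i, j)` consider the product of the polynomial
`F = ∑_l (cross product)_l^d` and of `P_ε = aeval (fun j => ∑_i C (ε i) * X (i, j)) P`, `ε ∈ E`. `F ≠ 0`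
(value `1` at `(0, 1, 0; 0, 0, 1)`, `d ≠ 0`) and `P_ε ≠ 0` (if `ε_i ≠ 0`, substitute
`X (i, j) ↦ X j / ε_i`, `X (1-i, j) ↦ 0`). `k` is infinite, so there is `l` with a nonzero value
(`MvPolynomial.funext`). Take `c = 1`. -/
def StChoice : Prop := ∀ (k : Type) [Field k] [Infinite k] (d : ℕ), d ≠ 0 →
  ∀ P : MvPolynomial (Fin 3) k, P ≠ 0 → ∀ E : Finset (Fin 2 → k), (∀ ε ∈ E, ε ≠ 0) →
  ∃ l : Fin 2 × Fin 3 → k, fd d l ≠ 0 ∧
    ∀ ε ∈ E, ∃ c : k, c ≠ 0 ∧ MvPolynomial.aeval (fun j => c * row l ε j) P ≠ 0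

/-- **H03. The morphism `x : C ⟶ ℙ¹`** with graph `D_l`. (Uses `StGraphC`.)

PROOF. Let `(D, r, u)` be `D_l` for `M = k` (`tMemEx`). `pm k₀ k k = 𝟙` (`ptMap` of the identity), so
by `StGraphC` `s = r ≫ snd : D ⟶ C.X` is an isomorphism. `x = inv s ≫ r ≫ fst`. `IsMem` is
transported by `s` (`lift x 𝟙 = inv s ≫ r`, `C.str = inv s ≫ u`). -/
def StXC : Prop := ∀ (k₀ k : Type) [Field k₀] [Field k] [Algebra k₀ k] (C : PCurve k₀ k)
  (l : Fin 2 × Fin 3 → k), fd C.d l ≠ 0 → ∃ (x : C.X ⟶ L1 k₀ k) (hx : x ≫ l1 k₀ k = C.str),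
  IsMem (pc C) (psi C) l (pullback.lift x (𝟙 C.X) (by rw [hx, Category.id_comp])) C.str

/-- **H04. The class of the fibres of `x`.**

PROOF. Let `γ = lift x 𝟙 : C.X ⟶ PC C`, `t = cl (hypClass T k 0)` on `ℙ¹`, `δ = cl (C.toProj.h T)`.
`IsMem` for `M = k` is `IsZero (psi C) (𝟙 _) (fun p => cf k₀ (l p)) C.str γ` (`γ` is a closed
immersion, a section of the separated morphism `snd`; the other conditions are the same up to
unfolding). By `tHypCls` (`T2/HypCls.lean`), `tSegCls` the class of `push γ 1` is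
`fst^* t + snd^* δ` (`psi = emb2 ≫ segO`). For `v ∈ H(C)`:
`tr (x^* t * v) = tr (γ^* (fst^* t * snd^* v)) = tr (cl (push γ 1) * fst^* t * snd^* v)`
(`T.cl_push`) `= tr (fst^* (t * t) * snd^* v) + tr (snd^* δ * fst^* t * snd^* v) = 0 +
tr (fst^* t * snd^* (δ * v)) = tr t * tr (δ * v) = tr (δ * v)` (`t * t = 0` for degree reasons, see
`relwl_η` in `T2/RelWL.lean`; `tr t = 1`: `tLineCls`, `T2/LineCls.lean`, see `Two/PsiCls.lean`;
`T.tr_kunneth`). Poincaré duality (`T.poincare`). -/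
def StDegX (k₀ K : Type) [Field k₀] [Field K] [CharZero K] : Prop :=
  ∀ (T : WeilTheory k₀ K), Extra T → ∀ (k : Type) [Field k] [Algebra k₀ k] [IsAlgClosed k]
  (C : PCurve k₀ k) (l : Fin 2 × Fin 3 → k) (x : C.X ⟶ L1 k₀ k) (hx : x ≫ l1 k₀ k = C.str),
  IsMem (pc C) (psi C) l (pullback.lift x (𝟙 C.X) (by rw [hx, Category.id_comp])) C.str →
  T.cl C.X (T.pull x (hypClass T k (0 : Fin 2))) = T.cl C.X (C.toProj.h T)

/-- **H05. `x` is étale over `e`.**

PROOF. `EtAt` for `D = C.X`, `r = lift x 𝟙`, `u = C.str`, `δ = pullback.lift x C.str`.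
`pm k₀ k k = 𝟙`, so `π = pullback.fst (l1 k₀ k) (pm k₀ k k)` is an isomorphism, `x = δ ≫ π`. Let `O'`
be from `EtAt`, `O = (inv π)⁻¹ O'`; then `x.left ∣_ O` is `δ.left ∣_ O'` followed by an
isomorphism. -/
def StEtX : Prop := ∀ (k₀ k : Type) [Field k₀] [Field k] [Algebra k₀ k] (C : PCurve k₀ k)
  (l : Fin 2 × Fin 3 → k) (x : C.X ⟶ L1 k₀ k) (hx : x ≫ l1 k₀ k = C.str),
  IsMem (pc C) (psi C) l (pullback.lift x (𝟙 C.X) (by rw [hx, Category.id_comp])) C.str →
  ∀ e : pt k₀ k ⟶ L1 k₀ k, EtAt C l e → ∃ O : (L1 k₀ k).left.Opens,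
    (∀ t ∈ Set.range e.left, t ∈ O) ∧ SmoothOfRelativeDimension 0 (x.left ∣_ O)

/-- **H06. The base change of `W` to `C`.**

PROOF. `snd` is the base change of `Φ.f`: proper, and smooth of relative dimension `Φ.m` over
`x⁻¹ Φ.S` (`USmAux.res` in `Two/USm.lean`). `snd ≫ C.str`: over the preimage of `Φ.S` it is smooth
of relative dimension `Φ.m + 1 = Φ.V.n`; for `t ∉ Φ.S` let `O` be as in the hypothesis; over the
preimage of `O` the morphism `fst` (base change of `x`) is smooth of relative dimension `0`, and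
`fst ≫ Φ.V.str` of relative dimension `Φ.V.n`. These sets cover the pull-back (`USmAux.cover`,
arbitrary index type). The last morphism is a base change of the diagonal of the separated scheme
`ℙ¹` over `k`. Nonempty: a rational point `q` of `C` (`C.isVar.exists_point`) and the point
`Φ.σ (x q)` of `W`. -/
def StWC : Prop := ∀ (k₀ k : Type) [Field k₀] [Field k] [Algebra k₀ k] [IsAlgClosed k]
  (C : PCurve k₀ k) (Φ : Fib k₀ k) (x : C.X ⟶ L1 k₀ k) (hx : x ≫ l1 k₀ k = C.str),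
  (∀ t : (L1 k₀ k).left, t ∉ Φ.S → ∃ O : (L1 k₀ k).left.Opens, t ∈ O ∧
    SmoothOfRelativeDimension 0 (x.left ∣_ O)) →
  SmoothOfRelativeDimension Φ.V.n (pullback.snd Φ.f x ≫ C.str).left ∧
  IsProper (pullback.snd Φ.f x ≫ C.str).left ∧
  SmoothOfRelativeDimension Φ.m ((pullback.snd Φ.f x).left ∣_ (x.left ⁻¹ᵁ Φ.S)) ∧
  Nonempty (pullback Φ.f x).left ∧
  IsClosedImmersion (pullback.lift (pullback.fst Φ.f x) (pullback.snd Φ.f x) (by
    rw [← Φ.f_str, ← hx, ← Category.assoc, ← Category.assoc, pullback.condition]) :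
      pullback Φ.f x ⟶ pullback Φ.V.str C.str).left

/-- **H07. Schemes étale over an algebraically closed field.**

PROOF. Locally `s` is `Spec A ⟶ Spec k` with `A` standard smooth of relative dimension `0` over `k`,
so étale over `k` (`Algebra.IsStandardSmoothOfRelativeDimension` with `n = 0` gives
`Algebra.Etale`), so `A` is finite over `k` and a product of finite separable extensions of `k`
(`Algebra.Etale.iff_exists_algEquiv_prod` or `Algebra.FormallyEtale.iff_exists_algEquiv_prod`), all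
equal to `k`. So the residue field of every point `y` is `k`
(`IsAlgClosed.algebraMap_bijective_of_isIntegral`), and `e` is
`Spec κ(y) ⟶ X`, composed with the inverse of `Spec κ(y) ⟶ Spec k`. -/
def StEtPt : Prop := ∀ (k₀ k : Type) [Field k₀] [Field k] [Algebra k₀ k] [IsAlgClosed k]
  (X : Sch k₀) (s : X ⟶ pt k₀ k), SmoothOfRelativeDimension 0 s.left → ∀ y : X.left,
  ∃ e : pt k₀ k ⟶ X, e ≫ s = 𝟙 _ ∧ y ∈ Set.range e.left

/-- **H08. The points of `C` over a rational point of `ℙ¹`.** (Uses `StEtPt`.)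

PROOF. Let `F = pullback x e`. `e` factors through `O`, so `snd : F ⟶ pt k₀ k` is a base change of
`x.left ∣_ O`, smooth of relative dimension `0`. The point `y` is in the range of `fst : F ⟶ C.X`
(`Scheme.Pullback.exists_preimage_pullback`). `StEtPt` for `F`, composed with `fst`
(`fst ≫ C.str = fst ≫ x ≫ l1 = snd ≫ e ≫ l1 = snd`). -/
def StComplX : Prop := ∀ (k₀ k : Type) [Field k₀] [Field k] [Algebra k₀ k] [IsAlgClosed k]
  (C : PCurve k₀ k) (x : C.X ⟶ L1 k₀ k), x ≫ l1 k₀ k = C.str →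
  ∀ e : pt k₀ k ⟶ L1 k₀ k, e ≫ l1 k₀ k = 𝟙 _ → ∀ O : (L1 k₀ k).left.Opens,
  (∀ t ∈ Set.range e.left, t ∈ O) → SmoothOfRelativeDimension 0 (x.left ∣_ O) →
  ∀ y : C.X.left, x.left y ∈ Set.range e.left →
  ∃ e' : pt k₀ k ⟶ C.X, e' ≫ C.str = 𝟙 _ ∧ y ∈ Set.range e'.left

/-- **H09. A connected component.**

PROOF. `X.left` is a Noetherian scheme (of finite type over `k`), so it has finitely many connected
components and they are open and closed (`LocallyConnectedSpace`, or: a connected component is a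
union of irreducible components, which are finite in number). Let `Z` be the open subscheme given
by a connected component `O` (not empty), `j = O.ι`, over `k₀`. `j` is an open immersion with closed
range, so a closed immersion (`isClosedImmersion_of_isPreimmersion` or
`IsClosedImmersion.isClosedImmersion_iff..`; an immersion with closed range is a closed immersion). So
`j ≫ s` is proper and smooth of relative dimension `n` (`0 + n`), and `Z.left` is connected, so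
`j ≫ s` is geometrically connected (`fGeomConn`, `Std/Facts.lean`). -/
def StComp : Prop := ∀ (k₀ k : Type) [Field k₀] [Field k] [Algebra k₀ k] [IsAlgClosed k]
  (X : Sch k₀) (s : X ⟶ pt k₀ k) (n : ℕ), SmoothOfRelativeDimension n s.left →
  IsProper s.left → Nonempty X.left → ∃ (Z : Sch k₀) (j : Z ⟶ X), IsOpenImmersion j.left ∧
  IsClosedImmersion j.left ∧ IsVar (j ≫ s) n

/-- **H10. The fibration over the curve.** (Uses `StFinS`, `StChoice`, `StEtC`, `StXC`, `StDegX`,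
`StEtX`, `StWC`, `StComplX`, `StComp`.)

PROOF. Let `P` be from `StEtC`. For each of the finitely many `t ∉ Φ.S` (`StFinS`) choose a rational
`e_t` with `t ∈ range e_t` (`Φ.compl`) and `ε_t` from `StEtC`; let `E` be the set of the `ε_t`, `l`
from `StChoice` (`C.d_ne`). `StEtC` with `M = k`: `EtAt C l e_t`. `x`, `hx` from `StXC`. `StEtX` gives
`O_t`. `StWC` for `X = pullback Φ.f x`, `StComp` for `s = snd ≫ C.str`, `n = Φ.V.n` gives `j : Z ⟶ X`.
`Ψ.V`: `X = Z`, `str = j ≫ snd ≫ C.str`, `n = Φ.V.n`, `κ = Φ.V.κ × Fin 3`, `i = (Φ.V.i, 0)`,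
`emb = j ≫ lift fst snd ≫ (Φ.V.prod C.toProj tSegreGeo).emb` (`Std/ProdV.lean`). `Ψ.m = Φ.m`,
`Ψ.f = j ≫ snd`, `Ψ.S = x⁻¹ Φ.S`, `Ψ.smooth`: `j.left` is an open immersion (restriction of `j ≫ snd`
over `Ψ.S` is an open immersion followed by the smooth morphism of `StWC`), `Ψ.compl`: `StComplX`
with `O_t`, `t = x y`. `r = j ≫ fst`. The class of `Ψ.V.h`: `ProjVar.h_prod` (`Std/ProdV.lean`, see
how it is used in `Std/*.lean`: `tPS`, `tSegreGeo`, `fSegre`), `T.cl_pull`, `T.pullH_comp`. The last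
claim is `StDegX`. -/
def StBaseC (k₀ K : Type) [Field k₀] [Field K] [CharZero K] : Prop :=
  ∀ (T : WeilTheory k₀ K), Extra T → ∀ (k : Type) [Field k] [Algebra k₀ k] [IsAlgClosed k]
  (C : PCurve k₀ k) (Φ : Fib k₀ k), ∃ (Ψ : FibC C) (r : Ψ.V.X ⟶ Φ.V.X) (x : C.X ⟶ L1 k₀ k),
  x ≫ l1 k₀ k = C.str ∧ r ≫ Φ.V.str = Ψ.V.str ∧ r ≫ Φ.f = Ψ.f ≫ x ∧ Ψ.m = Φ.m ∧
  T.cl Ψ.V.X (Ψ.V.h T) = T.pullH r (T.cl Φ.V.X (Φ.V.h T)) +
    T.pullH Ψ.f (T.cl C.X (C.toProj.h T)) ∧
  T.cl C.X (T.pull x (hypClass T k (0 : Fin 2))) = T.cl C.X (C.toProj.h T)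

end curve

section fields

variable (k₀ K : Type) [Field k₀] [Field K] [CharZero K]

/-- **H11. The even projector and extensions of algebraically closed fields.**

PROOF. As `evenb_bc` and `evenb_desc` (`T2/EvenB.lean`), with `even` in place of `pi i`
(`even_even`, `even_odd`, `Geo/Trace.lean`). -/
def StEvBC : Prop := ∀ (T : WeilTheory k₀ K), Extra T → ∀ (k L : Type) [Field k] [Algebra k₀ k]
  [IsAlgClosed k] [Field L] [Algebra k₀ L] [IsAlgClosed L] [Algebra k L] [IsScalarTower k₀ k L]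
  (X : Var k₀ k) (X' : Var k₀ L) (g : X'.X ⟶ X.X), X'.dim = X.dim →
  IsPullback g X'.str X.str (ptMap k₀ (IsScalarTower.toAlgHom k₀ k L)) →
  ((weil T k).even X ∈ (weil T k).Cor X X 0 →
    (weil T L).even X' ∈ (weil T L).Cor X' X' 0) ∧
  (AlgDesc T k L → (weil T L).even X' ∈ (weil T L).Cor X' X' 0 →
    (weil T k).even X ∈ (weil T k).Cor X X 0)

/-- **H12. The member over the closure of `k(t₁, …, t₅)`.** (Uses `StEtC`, `StNoPairC`, `StUSmC`,
`StVec5`, `StVecS`, `StEvBC`.)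

PROOF. As `kunue_core` (`T2/EvenB.lean`) and `KunUAux` (`Two/KunU.lean`), with
`vec5 k`, `M5 k` in place of `vec k`, `M k`. The six coordinates `X p` are algebraically
independent over `k` in `L = (SC C).L`, so the five quotients `X p / X (0, 0)`, `p ≠ (0, 0)`, are
(as `quot_ind`; order: `(0, 1), (0, 2), (1, 0), (1, 1), (1, 2)`), and there is an embedding of
`M5 k` in `L` over `k` which maps `t5 k i` to the quotients (as `exists_embed`). The member
`(U', r', u')` for `vec5 k` (`tMemEx`) is smooth and proper (`StUSmC` with `StVec5`, `StEtC` and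
`Gen3`, `StNoPairC`), its base change to `L` is isomorphic to `U` (`tMemBC`, `tMemScale`), so it is
connected, and geometrically connected (`fGeomConn`). The embedding: `tEmb` for `r'` composed with
the embedding of `Φ.V × Ψ.V` (`ProjVar.prod`), see `exists_embY`. `StEvBC`. -/
def StMem5 : Prop := ∀ (T : WeilTheory k₀ K), Extra T → ∀ (k : Type) [Field k] [Algebra k₀ k]
  [IsAlgClosed k] (C : PCurve k₀ k) (Φ : Fib k₀ k) (Ψ : FibC C) (U₀ : Sch k₀)
  (toY : U₀ ⟶ YY Φ Ψ) (u₀ : U₀ ⟶ pt k₀ (SC C).F), IsMem (yy Φ Ψ) (ff Φ Ψ ≫ psi C)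
    (fun p => algebraMap (SC C).R (SC C).F (MvPolynomial.X p)) toY u₀ →
  ∀ (U : Var k₀ (SC C).L) (g : U.X ⟶ U₀), U.dim = Φ.V.n + Ψ.m →
  IsPullback g U.str u₀ (ptMap k₀ (IsScalarTower.toAlgHom k₀ (SC C).F (SC C).L)) →
  ∃ V' : ProjVar k₀ (M5 k), V'.n = Φ.V.n + Ψ.m ∧
    ((weil T (M5 k)).even (T2.pvar V') ∈ (weil T (M5 k)).Cor (T2.pvar V') (T2.pvar V') 0 →
      (weil T (SC C).L).even U ∈ (weil T (SC C).L).Cor U U 0)

/-- **H13. The factors of `W × Z`.** (Uses `StNetHWZ`, `StEvC` as `tEvC`, `StEvBC`.)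

PROOF. Let `D = netD ..`, `L = (SC C).L`, `N` from `StNetHWZ`, with the class rewritten by the
hypothesis. First `W`: `X'` is the base change `pullback Φ.V.str (ptMap ..)` of `W` to `L`
(`genclass_var`), `p : X' ⟶ W` the projection, `q : D.U ⟶ X'` given by `D.r ≫ fst` and `D.u`,
`g = T.pullH p`, surjective (`Div.tBC`, `Div/BC.lean`), `tr (g x) = tr x` (`E.tr_field`),
`pull q (g x) = T.pullH (D.r ≫ fst) x = N.res (tm x 1)`. `StEvC`, first part, for `θ'`,
`s = Ψ.m`. (`N.res (tm 1 θ') ∈ Alg`: `T.cl_pull`.) So `even X' ∈ Cor`, and `even Φ.VV ∈ Cor` by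
`StEvBC` and `desc_alg` (`Two/Desc.lean`) for `κ = Fin 2 × Fin 3`, `F = (SC C).F`. Then `Z`: the
same with `StEvC`, second part, `θ`, `s = Φ.m`. -/
def StEvWZ : Prop := ∀ (hv : StNetVar k₀) (T : WeilTheory k₀ K), Extra T →
  ∀ (k : Type) [Field k] [Algebra k₀ k] [IsAlgClosed k] (C : PCurve k₀ k) (Φ : Fib k₀ k)
  (Ψ : FibC C) (U₀ : Sch k₀) (toP : U₀ ⟶ (SC C).Y₀) (toY : U₀ ⟶ YY Φ Ψ)
  (hPB : IsPullback toP toY (SC C).r₀ (ff Φ Ψ))
  (hs : SmoothOfRelativeDimension (Φ.V.n + Ψ.m) (toP ≫ (SC C).y₀).left)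
  (hc : GeometricallyConnected (toP ≫ (SC C).y₀).left),
  T.cl (YY Φ Ψ) (T.pull (ff Φ Ψ) ((SC C).h T)) =
    (weil T k).tm (X := Φ.VV) (Y := Ψ.VV) (Φ.η T) 1 +
      (weil T k).tm (X := Φ.VV) (Y := Ψ.VV) 1 (T.cl Ψ.V.X (T.pull Ψ.f (C.toProj.h T))) →
  (weil T (SC C).L).even ((netD Φ Ψ toP toY hPB hs hc).UV hv) ∈ (weil T (SC C).L).Cor
    ((netD Φ Ψ toP toY hPB hs hc).UV hv) ((netD Φ Ψ toP toY hPB hs hc).UV hv) 0 →
  ∀ (θ : T.H Φ.V.X) (θ' : T.H Ψ.V.X), θ ∈ (weil T k).Alg Φ.VV Φ.m →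
  T.tr Φ.V.X (Φ.η T * θ) ≠ 0 → θ' ∈ (weil T k).Alg Ψ.VV Ψ.m →
  T.tr Ψ.V.X (T.cl Ψ.V.X (T.pull Ψ.f (C.toProj.h T)) * θ') ≠ 0 →
  (weil T k).even Φ.VV ∈ (weil T k).Cor Φ.VV Φ.VV 0 ∧
  (weil T k).even Ψ.VV ∈ (weil T k).Cor Ψ.VV Ψ.VV 0

end fields

end Pool.Agent.Lib.MP_4ca46c_ag.C5
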