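import Mathlib
import Pool.Agent.Lib.MP_4ca46c_ag.C5.SpecH
import Pool.Agent.Lib.MP_4ca46c_ag.Std.Facts

/-!
# The fibration over the curve
-/

set_option autoImplicit false

namespace Pool.Agent.Lib.MP_4ca46c_ag.C5

open CategoryTheory Limits AlgebraicGeometry TensorProduct MonoidalCategory
  CartesianMonoidalCategory
open Pool.Agent.Lib.MP_4ca46c_ag.Sign Pool.Agent.Lib.MP_4ca46c_ag.Hyp
open Pool.Agent.Lib.MP_4ca46c_ag.Std Pool.Agent.Lib.MP_4ca46c_ag.Geo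
open Pool.Agent.Lib.MP_4ca46c_ag.Geo.WeilCohomology
open Pool.Agent.Lib.MP_4ca46c_ag.Two (IsMem Fib Net StNetVar AlgDesc)

namespace BaseCAux

section scheme

/-- The restriction of an open immersion followed by a morphism. -/
theorem smooth_comp {Z X C : Scheme.{0}} (j : Z ⟶ X) (p : X ⟶ C) [IsOpenImmersion j] {m : ℕ}
    (S : C.Opens) (h : SmoothOfRelativeDimension m (p ∣_ S)) :
    SmoothOfRelativeDimension m ((j ≫ p) ∣_ S) := by
  rw [morphismRestrict_comp]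
  have h1 : IsOpenImmersion (j ∣_ p ⁻¹ᵁ S) := inferInstance
  have h2 : SmoothOfRelativeDimension (0 + m) (j ∣_ p ⁻¹ᵁ S ≫ p ∣_ S) := inferInstance
  rwa [zero_add] at h2

end scheme

section main

variable {k₀ k : Type} [Field k₀] [Field k] [Algebra k₀ k] [IsAlgClosed k]

/-- The choice of the morphism to the line. -/
theorem exists_x (h1 : StFinS) (h2 : StChoice) (h3 : StEtC) (h4 : StXC) (h6 : StEtX)
    (C : PCurve k₀ k) (Φ : Fib k₀ k) : ∃ (l : Fin 2 × Fin 3 → k) (x : C.X ⟶ L1 k₀ k)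
    (hx : x ≫ l1 k₀ k = C.str),
    IsMem (pc C) (psi C) l (pullback.lift x (𝟙 C.X) (by rw [hx, Category.id_comp])) C.str ∧
    ∀ t : (L1 k₀ k).left, t ∉ Φ.S → ∃ (e : pt k₀ k ⟶ L1 k₀ k) (O : (L1 k₀ k).left.Opens),
      e ≫ l1 k₀ k = 𝟙 _ ∧ t ∈ Set.range e.left ∧ (∀ s ∈ Set.range e.left, s ∈ O) ∧
      SmoothOfRelativeDimension 0 (x.left ∣_ O) := by
  classical
  obtain ⟨P, hP0, hP⟩ := h3 k₀ k C
  have hfin := h1 k₀ k Φ
  have hex : ∀ t : {x : (Two.P1 k₀ k).left | x ∉ Φ.S}, ∃ (e : pt k₀ k ⟶ L1 k₀ k)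
      (ε : Fin 2 → k), e ≫ l1 k₀ k = 𝟙 _ ∧ (t : (Two.P1 k₀ k).left) ∈ Set.range e.left ∧
      ε ≠ 0 ∧ ∀ (a : Fin 2 × Fin 3 → k),
      (∃ c : k, c ≠ 0 ∧ MvPolynomial.aeval (fun j => c * row a ε j) P ≠ 0) → EtAt C a e := by
    intro t
    obtain ⟨e, he, ht⟩ := Φ.compl t.1 t.2
    obtain ⟨ε, hε, h⟩ := hP e he
    exact ⟨e, ε, he, ht, hε, fun a ha => h k a ha⟩
  choose e ε he ht hε hEt using hex
  have : Fintype {x : (Two.P1 k₀ k).left | x ∉ Φ.S} := hfin.fintype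
  obtain ⟨l, hl, hl'⟩ := h2 k C.d C.d_ne P hP0 (Finset.univ.image ε) (by
    intro v hv
    obtain ⟨t, _, rfl⟩ := Finset.mem_image.mp hv
    exact hε t)
  obtain ⟨x, hx, hm⟩ := h4 k₀ k C l hl
  refine ⟨l, x, hx, hm, fun t htS => ?_⟩
  have h := hEt ⟨t, htS⟩ l (hl' _ (Finset.mem_image_of_mem ε (Finset.mem_univ _)))
  obtain ⟨O, hO, hs⟩ := h6 k₀ k C l x hx hm (e ⟨t, htS⟩) h
  exact ⟨e ⟨t, htS⟩, O, he _, ht _, hO, hs⟩

variable {C : PCurve k₀ k} {Φ : Fib k₀ k} {x : C.X ⟶ L1 k₀ k} {Z : Sch k₀}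

/-- The two structure morphisms agree. -/
theorem comm (Φ : Fib k₀ k) (hx : x ≫ l1 k₀ k = C.str) :
    pullback.fst Φ.f x ≫ Φ.V.str = pullback.snd Φ.f x ≫ C.str := by
  rw [← Φ.f_str, ← hx, ← Category.assoc, ← Category.assoc, pullback.condition]

/-- The map to the product. -/
noncomputable def toPr (Φ : Fib k₀ k) (hx : x ≫ l1 k₀ k = C.str) :
    pullback Φ.f x ⟶ pullback Φ.V.str C.str :=
  pullback.lift (pullback.fst Φ.f x) (pullback.snd Φ.f x) (comm Φ hx)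

theorem toPr_fst (Φ : Fib k₀ k) (hx : x ≫ l1 k₀ k = C.str) :
    toPr Φ hx ≫ pullback.fst Φ.V.str C.str = pullback.fst Φ.f x := pullback.lift_fst _ _ _

theorem toPr_snd (Φ : Fib k₀ k) (hx : x ≫ l1 k₀ k = C.str) :
    toPr Φ hx ≫ pullback.snd Φ.V.str C.str = pullback.snd Φ.f x := pullback.lift_snd _ _ _

/-- The embedding of the product. -/
noncomputable def pE (C : PCurve k₀ k) (Φ : Fib k₀ k) :
    pullback Φ.V.str C.str ⟶ PSo k₀ k (Φ.V.κ × Fin 3) := (Φ.V.prod C.toProj tSegreGeo).emb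

theorem pE_closed (C : PCurve k₀ k) (Φ : Fib k₀ k) : IsClosedImmersion (pE C Φ).left :=
  (Φ.V.prod C.toProj tSegreGeo).closed

theorem pE_str (C : PCurve k₀ k) (Φ : Fib k₀ k) : pE C Φ ≫ PSo.str k₀ k (Φ.V.κ × Fin 3) =
    pullback.fst Φ.V.str C.str ≫ Φ.V.str :=
  (Φ.V.prod C.toProj tSegreGeo).emb_str

theorem pE_var (C : PCurve k₀ k) (Φ : Fib k₀ k) :
    IsVar (pullback.fst Φ.V.str C.str ≫ Φ.V.str) (Φ.V.n + 1) :=
  (Φ.V.prod C.toProj tSegreGeo).isVar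

/-- The hyperplane class of the curve. -/
noncomputable def cH {K : Type} [Field K] (T : WeilTheory k₀ K) (C : PCurve k₀ k) : T.CH C.X :=
  C.toProj.h T

theorem pE_h {K : Type} [Field K] [CharZero K] {T : WeilTheory k₀ K} (E : Extra T)
    (C : PCurve k₀ k) (Φ : Fib k₀ k) :
    T.pull (pE C Φ) (hypClass T k (Φ.V.i, (0 : Fin 3))) =
      T.pull (pullback.fst Φ.V.str C.str) (Φ.V.h T) +
      T.pull (pullback.snd Φ.V.str C.str) (cH T C) :=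
  ProjVar.h_prod (V := Φ.V) (W := C.toProj) E tPS tSegreGeo (fSegre k₀ K)

/-- The component as a projective variety. -/
noncomputable def theV (Φ : Fib k₀ k) (hx : x ≫ l1 k₀ k = C.str) (j : Z ⟶ pullback Φ.f x)
    (hj : IsClosedImmersion j.left) (hc : IsClosedImmersion (toPr Φ hx).left)
    (hZ : IsVar (j ≫ pullback.snd Φ.f x ≫ C.str) Φ.V.n) : ProjVar k₀ k where
  X := Z
  str := j ≫ pullback.snd Φ.f x ≫ C.str
  n := Φ.V.n
  isVar := hZ
  κ := Φ.V.κ × Fin 3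
  i := (Φ.V.i, 0)
  emb := j ≫ toPr Φ hx ≫ pE C Φ
  closed := by
    have h1 := pE_closed C Φ
    rw [Over.comp_left, Over.comp_left]
    infer_instance
  emb_str := by
    rw [Category.assoc, Category.assoc, pE_str, ← Category.assoc (toPr Φ hx), toPr_fst,
      comm Φ hx]

theorem theV_h {K : Type} [Field K] [CharZero K] {T : WeilTheory k₀ K} (E : Extra T)
    (Φ : Fib k₀ k) (hx : x ≫ l1 k₀ k = C.str) (j : Z ⟶ pullback Φ.f x)
    (hj : IsClosedImmersion j.left) (hc : IsClosedImmersion (toPr Φ hx).left)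
    (hZ : IsVar (j ≫ pullback.snd Φ.f x ≫ C.str) Φ.V.n) :
    T.cl Z ((theV Φ hx j hj hc hZ).h T) =
      T.pullH (j ≫ pullback.fst Φ.f x) (T.cl Φ.V.X (Φ.V.h T)) +
      T.pullH (j ≫ pullback.snd Φ.f x) (T.cl C.X (cH T C)) := by
  have hP := pE_var C Φ
  obtain ⟨M, hM⟩ := exists_card (Φ.V.κ × Fin 3)
  have hS := tPS k₀ k (Φ.V.κ × Fin 3) (M + 1) hM
  have e1 : (theV Φ hx j hj hc hZ).h T =
      T.pull (j ≫ toPr Φ hx) (T.pull (pE C Φ) (hypClass T k (Φ.V.i, (0 : Fin 3)))) := by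
    rw [← T.pull_comp (j ≫ toPr Φ hx) (pE C Φ) hZ.sm hP.sm hS.sm, Category.assoc]
    rfl
  have e3 : (j ≫ toPr Φ hx) ≫ pullback.fst Φ.V.str C.str = j ≫ pullback.fst Φ.f x := by
    rw [Category.assoc, toPr_fst]
  have e4 : (j ≫ toPr Φ hx) ≫ pullback.snd Φ.V.str C.str = j ≫ pullback.snd Φ.f x := by
    rw [Category.assoc, toPr_snd]
  rw [e1, pE_h E, map_add, map_add, ← T.pull_comp _ _ hZ.sm hP.sm Φ.V.isVar.sm,
    ← T.pull_comp _ _ hZ.sm hP.sm C.isVar.sm, e3, e4,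
    T.cl_pull (j ≫ pullback.fst Φ.f x) hZ.isWeil Φ.V.isVar.isWeil,
    T.cl_pull (j ≫ pullback.snd Φ.f x) hZ.isWeil C.isVar.isWeil]

end main

end BaseCAux

open BaseCAux

theorem tBaseC (k₀ K : Type) [Field k₀] [Field K] [CharZero K] (h1 : StFinS) (h2 : StChoice)
    (h3 : StEtC) (h4 : StXC) (h5 : StDegX k₀ K) (h6 : StEtX) (h7 : StWC) (h8 : StComplX)
    (h9 : StComp) : StBaseC k₀ K := by
  intro T E k _ _ _ C Φ
  obtain ⟨l, x, hx, hm, hO⟩ := exists_x h1 h2 h3 h4 h6 C Φ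
  obtain ⟨w1, w2, w3, w4, w5⟩ := h7 k₀ k C Φ x hx (by
    intro t ht
    obtain ⟨e, O, he, hte, h, h'⟩ := hO t ht
    exact ⟨O, h t hte, h'⟩)
  obtain ⟨Z, j, j1, j2, j3⟩ := h9 k₀ k (pullback Φ.f x) (pullback.snd Φ.f x ≫ C.str) Φ.V.n w1 w2
    w4
  let Ψ : FibC C :=
    { V := theV Φ hx j j2 w5 j3
      m := Φ.m
      dim := Φ.dim
      f := j ≫ pullback.snd Φ.f x
      f_str := Category.assoc _ _ _
      S := x.left ⁻¹ᵁ Φ.S
      smooth := smooth_comp j.left (pullback.snd Φ.f x).left (x.left ⁻¹ᵁ Φ.S) w3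
      compl := by
        intro y hy
        obtain ⟨e, O, he, hte, h, h'⟩ := hO (x.left y) hy
        exact h8 k₀ k C x hx e he O h h' y hte }
  refine ⟨Ψ, j ≫ pullback.fst Φ.f x, x, hx, ?_, ?_, rfl, ?_, h5 T E k C l x hx hm⟩
  · change (j ≫ pullback.fst Φ.f x) ≫ Φ.V.str = j ≫ pullback.snd Φ.f x ≫ C.str
    rw [Category.assoc, comm Φ hx]
  · change (j ≫ pullback.fst Φ.f x) ≫ Φ.f = (j ≫ pullback.snd Φ.f x) ≫ x
    rw [Category.assoc, Category.assoc, pullback.condition]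
  · exact theV_h E Φ hx j j2 w5 j3

end Pool.Agent.Lib.MP_4ca46c_ag.C5
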