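import Mathlib
import Pool.Agent.Lib.MP_4ca46c_ag.C5.SpecH

/-!
# The choice of the vector over an infinite field (H02)
-/

set_option autoImplicit false

namespace Pool.Agent.Lib.MP_4ca46c_ag.C5

namespace ChoiceAux

open MvPolynomial

variable {k : Type} [Field k]

/-- A nonzero polynomial over an infinite field has a nonzero value. -/
theorem exists_ne [Infinite k] {σ : Type} {P : MvPolynomial σ k} (hP : P ≠ 0) :
    ∃ v : σ → k, eval v P ≠ 0 := by
  by_contra h
  push Not at h
  exact hP (MvPolynomial.funext fun v => by rw [h v, map_zero])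

/-- The value of the Fermat polynomial at the variables. -/
theorem eval_fd (d : ℕ) (l : Fin 2 × Fin 3 → k) :
    eval l (fd d (fun p => (X p : MvPolynomial (Fin 2 × Fin 3) k))) = fd d l := by
  simp [fd, cr, Fin.sum_univ_three]

theorem fd_ne (d : ℕ) (hd : d ≠ 0) :
    fd d (fun p => (X p : MvPolynomial (Fin 2 × Fin 3) k)) ≠ 0 := by
  intro h
  have h1 := congrArg (eval (fun p : Fin 2 × Fin 3 => if p = (0, 1) ∨ p = (1, 2) then (1 : k)
    else 0)) h
  rw [eval_fd, map_zero] at h1
  simp [fd, cr, Fin.sum_univ_three, hd] at h1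

/-- The polynomial of the linear combination. -/
noncomputable def pe (P : MvPolynomial (Fin 3) k) (ε : Fin 2 → k) :
    MvPolynomial (Fin 2 × Fin 3) k := aeval (fun j => ∑ i, C (ε i) * X (i, j)) P

theorem eval_pe (P : MvPolynomial (Fin 3) k) (ε : Fin 2 → k) (l : Fin 2 × Fin 3 → k) :
    eval l (pe P ε) = eval (fun j => ∑ i, ε i * l (i, j)) P := by
  have h : (eval l : MvPolynomial (Fin 2 × Fin 3) k →+* k).comp
      ((aeval (fun j => ∑ i, C (ε i) * X (i, j)) :
        MvPolynomial (Fin 3) k →ₐ[k] MvPolynomial (Fin 2 × Fin 3) k) :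
        MvPolynomial (Fin 3) k →+* MvPolynomial (Fin 2 × Fin 3) k) =
      eval (fun j => ∑ i, ε i * l (i, j)) := by
    refine MvPolynomial.ringHom_ext (fun c => ?_) fun j => ?_
    · simp
    · simp
  exact RingHom.congr_fun h P

theorem pe_ne [Infinite k] {P : MvPolynomial (Fin 3) k} (hP : P ≠ 0) {ε : Fin 2 → k}
    (hε : ε ≠ 0) : pe P ε ≠ 0 := by
  obtain ⟨i, hi⟩ : ∃ i, ε i ≠ 0 := by
    by_contra h
    push Not at h
    exact hε (funext h)
  obtain ⟨v, hv⟩ := exists_ne hP
  intro h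
  have h1 := congrArg (eval (fun p : Fin 2 × Fin 3 => if p.1 = i then v p.2 / ε i else 0)) h
  rw [eval_pe, map_zero] at h1
  refine hv ?_
  rw [← h1]
  refine congrArg (fun u => eval u P) (funext fun j => ?_)
  rw [Finset.sum_eq_single i]
  · simp only [if_true]
    rw [mul_div_cancel₀ _ hi]
  · intro b _ hb
    simp only [if_neg hb, mul_zero]
  · intro h2
    exact absurd (Finset.mem_univ i) h2

end ChoiceAux

open ChoiceAux in
theorem tChoice : StChoice := by
  intro k _ _ d hd P hP E hE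
  have h0 : fd d (fun p => (MvPolynomial.X p : MvPolynomial (Fin 2 × Fin 3) k)) *
      ∏ ε ∈ E, pe P ε ≠ 0 :=
    mul_ne_zero (fd_ne d hd) (Finset.prod_ne_zero_iff.2 fun ε hε => pe_ne hP (hE ε hε))
  obtain ⟨l, hl⟩ := exists_ne h0
  rw [map_mul, map_prod, eval_fd] at hl
  refine ⟨l, left_ne_zero_of_mul hl, fun ε hε => ⟨1, one_ne_zero, ?_⟩⟩
  have h1 := Finset.prod_ne_zero_iff.1 (right_ne_zero_of_mul hl) ε hε
  rw [eval_pe] at h1
  have h2 : (fun j => (1 : k) * row l ε j) = fun j => ∑ i, ε i * l (i, j) := by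
    funext j
    rw [one_mul]
    rfl
  rw [h2, MvPolynomial.aeval_eq_eval]
  exact h1

end Pool.Agent.Lib.MP_4ca46c_ag.C5
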