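import Mathlib
import Pool.Agent.Lib.MP_4ca46c_ag.C5.SpecH
import Pool.Agent.Lib.MP_4ca46c_ag.Std.Facts

/-!
# A connected component of a smooth proper scheme is a variety (H09)
-/

set_option autoImplicit false

namespace Pool.Agent.Lib.MP_4ca46c_ag.C5

open CategoryTheory Limits AlgebraicGeometry
open Pool.Agent.Lib.MP_4ca46c_ag.Sign Pool.Agent.Lib.MP_4ca46c_ag.Std

namespace CompAux

/-- In a Noetherian space the connected components are open. -/
lemma isOpen_cc {α : Type*} [TopologicalSpace α] [TopologicalSpace.NoetherianSpace α] (x : α) :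
    IsOpen (connectedComponent x) := by
  have hfin := TopologicalSpace.NoetherianSpace.finite_irreducibleComponents (α := α)
  have he : (connectedComponent x)ᶜ =
      ⋃₀ {Z | Z ∈ irreducibleComponents α ∧ Disjoint Z (connectedComponent x)} := by
    ext y
    constructor
    · intro hy
      refine ⟨irreducibleComponent y, ⟨irreducibleComponent_mem_irreducibleComponents y, ?_⟩,
        mem_irreducibleComponent⟩
      rw [Set.disjoint_left]
      intro z hz hz'
      apply hy
      have h1 : irreducibleComponent y ⊆ connectedComponent z :=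
        (isIrreducible_irreducibleComponent (x := y)).isPreirreducible.isPreconnected.subset_connectedComponent hz
      have h2 := h1 (mem_irreducibleComponent (x := y))
      rwa [← connectedComponent_eq hz'] at h2
    · rintro ⟨Z, ⟨_, hd⟩, hy⟩ hy'
      exact Set.disjoint_left.1 hd hy hy'
  rw [← isClosed_compl_iff, he, Set.sUnion_eq_biUnion]
  exact (hfin.subset fun Z h => h.1).isClosed_biUnion
    (fun Z hZ => isClosed_of_mem_irreducibleComponents Z hZ.1)

/-- A proper scheme over a field is a Noetherian space. -/
lemma noeth {k : Type} [Field k] {X : Scheme.{0}} (f : X ⟶ Spec (CommRingCat.of k))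
    [IsProper f] : TopologicalSpace.NoetherianSpace X := by
  have h1 : IsLocallyNoetherian X := LocallyOfFiniteType.isLocallyNoetherian f
  have h2 : CompactSpace X := QuasiCompact.compactSpace_of_compactSpace f
  have h3 : IsNoetherian X := { __ := h1 }
  infer_instance

end CompAux

theorem tComp : StComp := by
  intro k₀ k _ _ _ _ X s n hs hp hX
  obtain ⟨x⟩ := hX
  have hN : TopologicalSpace.NoetherianSpace X.left :=
    @CompAux.noeth k _ X.left s.left hp
  let O : X.left.Opens := ⟨connectedComponent x, CompAux.isOpen_cc x⟩
  let Z : Sch k₀ := Over.mk (O.ι ≫ X.hom)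
  let j : Z ⟶ X := Over.homMk O.ι rfl
  have hj : j.left = O.ι := rfl
  have hopen : IsOpenImmersion j.left := by rw [hj]; infer_instance
  have hclosed : IsClosedImmersion j.left := by
    rw [hj]
    refine IsClosedImmersion.of_isPreimmersion _ ?_
    rw [Scheme.Opens.range_ι]
    exact isClosed_connectedComponent
  refine ⟨Z, j, hopen, hclosed, ?_, ?_, ?_⟩
  · have h0 : SmoothOfRelativeDimension (0 + n) (O.ι ≫ s.left) := inferInstance
    rw [Nat.zero_add] at h0
    exact h0
  · have h0 : IsProper (j.left ≫ s.left) := inferInstance
    exact h0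
  · have hc : ConnectedSpace O := isConnected_iff_connectedSpace.1 isConnected_connectedComponent
    exact fGeomConn k Z.left ((j ≫ s).left : Z.left ⟶ Spec (CommRingCat.of k)) hc

end Pool.Agent.Lib.MP_4ca46c_ag.C5
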