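import Mathlib
import Pool.Agent.Lib.MP_4ca46c_ag.C5.SpecH
import Pool.Agent.Lib.MP_4ca46c_ag.Two.USm

/-! MP_4ca46c_ag, C5: the points of `C` over a rational point of `ℙ¹`. -/

set_option autoImplicit false

namespace Pool.Agent.Lib.MP_4ca46c_ag.C5

open CategoryTheory Limits AlgebraicGeometry TensorProduct MonoidalCategory
  CartesianMonoidalCategory
open Pool.Agent.Lib.MP_4ca46c_ag.Sign Pool.Agent.Lib.MP_4ca46c_ag.Hyp
open Pool.Agent.Lib.MP_4ca46c_ag.Std Pool.Agent.Lib.MP_4ca46c_ag.Geo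
open Pool.Agent.Lib.MP_4ca46c_ag.Geo.WeilCohomology
open Pool.Agent.Lib.MP_4ca46c_ag.Two (IsMem Fib Net StNetVar AlgDesc)

namespace ComplXAux

/-- A base change along a morphism with values in `O`. -/
theorem sm {U X W P : Scheme.{0}} {m : ℕ} {p : U ⟶ X} {a : U ⟶ W} {f : X ⟶ P} {b : W ⟶ P}
    (h : IsPullback p a f b) (O : P.Opens) (hO : ∀ t ∈ Set.range b, t ∈ O)
    (hf : SmoothOfRelativeDimension m (f ∣_ O)) : SmoothOfRelativeDimension m a := by
  have h1 := Two.USmAux.res h O hf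
  have h2 : b ⁻¹ᵁ O = ⊤ := by
    ext t
    exact ⟨fun _ => trivial, fun _ => hO _ ⟨t, rfl⟩⟩
  refine Two.USmAux.cover a (fun _ => a ⁻¹ᵁ (b ⁻¹ᵁ O)) ?_ ?_
  · rw [h2]
    exact iSup_const
  · intro _
    rw [← morphismRestrict_ι]
    have h5 : SmoothOfRelativeDimension (m + 0) ((a ∣_ (b ⁻¹ᵁ O)) ≫ (b ⁻¹ᵁ O).ι) := inferInstance
    rwa [add_zero] at h5

/-- Points of a fibre product. -/
theorem pre {U X W P : Scheme.{0}} {p : U ⟶ X} {a : U ⟶ W} {f : X ⟶ P} {b : W ⟶ P}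
    (h : IsPullback p a f b) (y : X) (hy : f y ∈ Set.range b) : ∃ z : U, p z = y := by
  obtain ⟨w, hw⟩ := hy
  obtain ⟨z, hz, -⟩ := Scheme.Pullback.exists_preimage_pullback y w hw.symm
  refine ⟨h.isoPullback.inv z, ?_⟩
  rw [← Scheme.Hom.comp_apply, h.isoPullback_inv_fst]
  exact hz

end ComplXAux

theorem tComplX (h : StEtPt) : StComplX := by
  intro k₀ k _ _ _ _ C x hx e he O hO hsm y hy
  have hpb : IsPullback (pullback.fst x e) (pullback.snd x e) x e :=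
    IsPullback.of_hasPullback x e
  have hl : IsPullback (pullback.fst x e).left (pullback.snd x e).left x.left e.left :=
    hpb.map (Over.forget _)
  obtain ⟨z, hz⟩ := ComplXAux.pre hl y hy
  obtain ⟨e', he', t, ht⟩ := h k₀ k (pullback x e) (pullback.snd x e)
    (ComplXAux.sm hl O hO hsm) z
  refine ⟨e' ≫ pullback.fst x e, ?_, t, ?_⟩
  · rw [Category.assoc, ← hx, reassoc_of% hpb.w, he, Category.comp_id, he']
  · rw [Over.comp_left, Scheme.Hom.comp_apply, ht, hz]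

end Pool.Agent.Lib.MP_4ca46c_ag.C5
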