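import Mathlib
import Pool.Agent.Lib.MP_4ca46c_ag.C5.Base

/-!
# Specification A (Weil cohomology theories and linear algebra)

`W.Cor X Y r`: algebraic correspondences `H(Y) ⟶ H(X)` of degree `r`. `W.R X r`: their `K`-linear
combinations for `X = Y`. `W.N X r`: the numerically trivial ones (`Geo/Ideal.lean`,
`Geo/Square.lean`). `W.eps X = (-1)^deg`. `W.tens f g` the tensor product of two linear maps,
without signs. `W.tm a b = fst^* a * snd^* b`. Everything may use `Two/VRK.lean`, `Two/VRQ.lean`,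
`T2/EvenA.lean`, `Two/Idem.lean`, `Two/NetH.lean`.
-/

set_option autoImplicit false

namespace Pool.Agent.Lib.MP_4ca46c_ag.C5

open CategoryTheory MonoidalCategory CartesianMonoidalCategory TensorProduct
open Pool.Agent.Lib.MP_4ca46c_ag.Geo Pool.Agent.Lib.MP_4ca46c_ag.Geo.WeilCohomology
open Pool.Agent.Lib.MP_4ca46c_ag.Two (Hard QInv)

/-- **A01.** `N_tens'` (`Geo/Square.lean`) for two different varieties.

PROOF. Let `σ = (pull (lift (snd X Z) (fst X Z))).toLinearMap : H(Z ⊗ X) ⟶ H(X ⊗ Z)` and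
`σ'` the same with `X`, `Z` exchanged; both are in `Cor _ _ 0` (`cor_pull`), `σ σ' = 1`, `σ' σ = 1`.
As in `swap_conj`: `tens g f = σ ∘ tens f g ∘ σ'` (the signs cancel since `f`, `g` have even
degree, `R_gr`, `hom_ext_tm_gr`). For `h ∈ R (X ⊗ Z) (-(r+s))`: `σ' h σ ∈ R (Z ⊗ X) (-(r+s))`
(`span_induction`, `cor_comp`), and `t (h * tens g f) = t ((σ' h σ) * tens f g) = 0`
(`LinearMap.trace_conj'` or `LinearMap.trace_comp_comm'`) because `tens f g ∈ N (Z ⊗ X) (r + s)` by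
`N_tens`. -/
def StNTensC : Prop := ∀ (K : Type) [Field K] [CharZero K] (𝒱 : Type 1) [Category.{0} 𝒱]
  [CartesianMonoidalCategory 𝒱] (W : WeilCohomology K 𝒱) (X Z : 𝒱) (r s : ℤ) (f : W.E Z)
  (g : W.E X), (W.eps X : W.E X) ∈ W.R X 0 → f ∈ W.N Z r → g ∈ W.R X s →
  (W.tens g f : W.E (X ⊗ Z)) ∈ W.N (X ⊗ Z) (r + s)

/-- **A02.** The operator `G^Δ`, given by the class of `G` times `(π × π)^*` of the diagonal of the
curve `C`.

PROOF. Let `o ∈ Alg C 1` with `tr o = 1` (`exists_pt`) and `Δ = graph (𝟙 C) = push (lift 𝟙 𝟙) 1`, in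
`Alg (C ⊗ C) 1` (`push_alg`).
(a) `Δ * fst^* u = Δ * snd^* u` for `u ∈ H(C)`: duality, `tr (Δ * v) = tr (pull (lift 𝟙 𝟙) v)`
(`push_spec`). (b) `fst^* o * Δ = tm o o`: duality (`ext_tr`, `ind_tm`, `ind`); for `x`, `y`
homogeneous `tr (fst^* o * Δ * tm x y) = tr (o * x * y)`, and `tr (tm o o * tm x y) =
tr (o * x) * tr (o * y)` up to a sign which is `1` (`tr_four`); if `x` has degree `> 0` both are `0`
(`gr_top`, `tr_gr`), otherwise `x` is a scalar (`connected`). (c) `δ = tr δ • o`: the difference is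
in `gr C 2`, has trace `0`, and `tr ((δ - tr δ • o) * y)` is `0` for `y` of degree `0` (`connected`)
and `> 0` (degree). (d) Let `G = op g`, `g ∈ Alg (Z ⊗ Z) n`, `n = dim Z - 1` (`mem_cor`; if `G = 0`
take `p = 0`). Put `Δ' = pull (lift (fst ≫ π) (snd ≫ π)) Δ ∈ Alg (Z ⊗ Z) 1` and
`p = tr δ • op (g * Δ')`, `op (g * Δ') ∈ Cor Z Z 0`. By (a), `op_spec` and the sign rule
(`comm_smul`; `op (g * Δ')` preserves degrees) `p (π^* u * z) = π^* u * p z`. By (b)
`π^* o * op (g * Δ') z = op (fst^* π^* o * g * Δ') z = op (fst^* π^* o * g * snd^* π^* o) z =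
π^* o * G (π^* o * z)`, so with (c) `π^* δ * p z = π^* δ * G (π^* δ * z)` (both are
`(tr δ)^2 • π^* o * G (π^* o * z)`). (e) General `G ∈ R Z (-1)`: `span_induction`. -/
def StDelC : Prop := ∀ (K : Type) [Field K] [CharZero K] (𝒱 : Type 1) [Category.{0} 𝒱]
  [CartesianMonoidalCategory 𝒱] (W : WeilCohomology K 𝒱) (Z C : 𝒱) (π : Z ⟶ C) (δ : W.H C),
  W.dim C = 1 → δ ∈ W.gr C 2 → ∀ G ∈ W.R Z (-1), ∃ p ∈ W.R Z 0,
    (∀ (u : W.H C) (z : W.H Z), p (W.pull π u * z) = W.pull π u * p z) ∧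
    ∀ z, W.pull π δ * p z = W.pull π δ * G (W.pull π δ * z)

open Polynomial in
/-- **A03.** Fitting idempotents.

PROOF. Let `y = 1 - x`. As in `IdemAux.fit` (`Two/Idem.lean`; `exists_split` for `minpoly K y`): there
are polynomials `u₀, r₀, s₀` and `k` with `e = u₀(y) y^(k+1)` idempotent and
`y^k (1 - e) = 0` or a similar relation (`minpoly = y^k q`, `q(0) ≠ 0`, `1 = u₀ y^(k+1) + s₀ q`, so
`1 - e = s₀(y) q(y)` and `y^k (1 - e) = 0`). Take `r` with `aeval x r = e` (compose the polynomial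
with `1 - X`), `u` from `e = (u₀(y) y^k) y`. And
`1 - e = (1 - y^k)(1 - e)`, where `1 - y^k` is a multiple of `1 - y = x`. -/
def StFitC : Prop := ∀ (K V : Type) [Field K] [CharZero K] [AddCommGroup V] [Module K V]
  [FiniteDimensional K V] (x : Module.End K V), ∃ r u v : K[X],
    aeval x r * aeval x r = aeval x r ∧ aeval x r = aeval x u * (1 - x) ∧
    1 - aeval x r = aeval x v * x

/-- **A04.** The idempotent `g` on `H(Z)`. (May use `StDelC`, `StFitC` and `tIdem`.)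

PROOF. Let `c = π^* δ`, `T` the multiplication by `c`, in `R Z 1` (`cor_mul`). `StIdem` (`tIdem`)
gives `G ∈ R Z (-1)` with `T - T G T ∈ N Z 1`. `StDelC` gives `p`, with `T p = T G T`. Let `r, u, v`
be from `StFitC` for `x = p`, `g = r(p)`. `g ∈ R Z 0` (`IdemAux.R_aeval`); it commutes with the
multiplications by `π^* u` since `p` does (induction on the polynomial; state the commutation as an
identity of operators `p * mulLeft (π^* u) = mulLeft (π^* u) * p`). `T g = T (1 - p) u(p) =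
(T - T G T) u(p) ∈ N Z 1` (`N_mul_right`). Now let `y ∈ H^1(C)`, `y ≠ 0`, and let `π^* u * g z = 0` for
`u ∈ H^1(C)`. By duality there is `y'` with `tr (y * y') ≠ 0`, and we may take `y' ∈ gr C 1` (the
other homogeneous parts do not contribute, `tr_gr`). `δ` is a multiple of `y * y'` (both are in
`gr C 2`; the difference with the same trace is `0`, see (c) of A02). So `c * g z = 0` for all `z`,
`T g = 0`, `T = T (1 - g) = T v(p) p = T p v(p) = T G T v(p) = T (G v(p)) T` (`T` commutes with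
`v(p)`), and `G v(p) ∈ R Z (-1)`. -/
def StZgC : Prop := ∀ (K : Type) [Field K] [CharZero K] (𝒱 : Type 1) [Category.{0} 𝒱]
  [CartesianMonoidalCategory 𝒱] (W : WeilCohomology K 𝒱) (Z C : 𝒱) (π : Z ⟶ C) (δ : W.H C),
  W.dim C = 1 → δ ∈ W.Alg C 1 → ∃ g ∈ W.R Z 0, g * g = g ∧
    (∀ (u : W.H C) (z : W.H Z), g (W.pull π u * z) = W.pull π u * g z) ∧
    (LinearMap.mulLeft K (W.pull π δ) : W.E Z) * g ∈ W.N Z 1 ∧
    ((∃ y ∈ W.gr C 1, y ≠ 0) → (∀ u ∈ W.gr C 1, ∀ z, W.pull π u * g z = 0) →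
      VR W Z (W.pull π δ))

/-- **A05.** The operator algebra of the relation. (May use `StNTensC` and `tIdem`.)

PROOF. Let `T` be the multiplication by `a` on `H(X)`, `G` from `tIdem` (`G T G = G`,
`T - T G T ∈ N X 1`), `f = 1 - G T`, `f' = 1 - T G`, `n = T - T G T = T f = f' T`, `n f = n = f' n`
(as in the proof of `tVRK`, `Two/VRK.lean`). Let `e ∈ S`, `Me` the multiplication by `e` on `H(Z)`,
`Tc` the multiplication by `c`; `g` commutes with `Me` and `Tc`. On `H(X ⊗ Z)`: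
`M = mulLeft (tm a e) = tens (T ε) Me`, `ε = eps X` (`tm a e * tm x z = (-1)^deg x tm (a x) (e z)`,
`tm_mul`), `D = mulLeft (tm a 1 + tm 1 c) = tens T 1 + tens 1 Tc` (`mulLeft_fst`, `mulLeft_snd` in
`Geo/Square.lean`). `F = tens f g`, `F' = tens f' g`. `ε` commutes with `f`, `f'`, `T`
(`evena_eps`). Put `E₀ = tens (n ε) (Me g)`. Then `M F = E₀ = F' M`, `E₀ F = E₀ = F' E₀`,
`D F = tens n g + tens f (Tc g) ∈ N (X ⊗ Z) 1` and `F' D = tens n g + tens f' (Tc g) ∈ N _ 1`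
(`N_tens` with `eps Z ∈ R Z 0`, `StNTensC` with `eps X ∈ R X 0`). Let `s = eps (X ⊗ Z)`. `RelC` says
`2 M s = M w D - D w M`. Multiply by `F'` on the left and `F` on the right (`s F = F s`,
`evena_eps`): `2 E₀ s = E₀ ν₁ - ν₂ E₀`, `ν₁ = F w D F`, `ν₂ = F' D w F'`, both in
`N (X ⊗ Z) 0`, nilpotent (`N_nilpotent`). So `E₀ (2 s - ν₁) = - ν₂ E₀`. `s s = 1`, `s` commutes with
`ν₁`, so `2 s - ν₁` is invertible (`2 s (1 - s ν₁ / 2)`), and
`E₀ (2 s - ν₁)^j = (-ν₂)^j E₀ = 0` for large `j`, so `E₀ = 0`. So (`tens` of nonzero operators is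
nonzero: evaluate at `tm x z`, `kun_tmul`, a tensor product of two nonzero vectors is nonzero)
`n ε = 0`, hence `n = 0` and `VR W X a`; or `Me g = 0`. Since `n` does not depend on `e`, this gives
the claim. -/
def StTC : Prop := ∀ (K : Type) [Field K] [CharZero K] (𝒱 : Type 1) [Category.{0} 𝒱]
  [CartesianMonoidalCategory 𝒱] (W : WeilCohomology K 𝒱) (X Z : 𝒱) (a : W.H X) (c : W.H Z)
  (S : Set (W.H Z)) (g : W.E Z), a ∈ W.Alg X 1 → c ∈ W.Alg Z 1 →
  (W.eps X : W.E X) ∈ W.R X 0 → (W.eps Z : W.E Z) ∈ W.R Z 0 → RelC W X Z a c S →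
  (∀ e ∈ S, e ∈ W.gr Z 1) → g ∈ W.R Z 0 → g * g = g →
  (∀ e ∈ S, ∀ z, g (e * z) = e * g z) → (∀ z, g (c * z) = c * g z) →
  (LinearMap.mulLeft K c : W.E Z) * g ∈ W.N Z 1 →
  VR W X a ∨ ∀ e ∈ S, ∀ z, e * g z = 0

/-- **A06.** One of the two classes is regular. (Uses `StZgC`, `StTC`.)

PROOF. `S = Odd1 W π`, `g` from `StZgC`; `StTC`. -/
def StVRC : Prop := ∀ (K : Type) [Field K] [CharZero K] (𝒱 : Type 1) [Category.{0} 𝒱]
  [CartesianMonoidalCategory 𝒱] (W : WeilCohomology K 𝒱) (X Z C : 𝒱) (π : Z ⟶ C) (a : W.H X)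
  (δ : W.H C), W.dim C = 1 → δ ∈ W.Alg C 1 → (∃ y ∈ W.gr C 1, y ≠ 0) → a ∈ W.Alg X 1 →
  (W.eps X : W.E X) ∈ W.R X 0 → (W.eps Z : W.E Z) ∈ W.R Z 0 →
  RelC W X Z a (W.pull π δ) (Odd1 W π) → VR W X a ∨ VR W Z (W.pull π δ)

/-- **A07.** The relation from the sign operator of the generic member. Compare `tNetRel`
(`Two/NetRel.lean`).

PROOF. `split` gives `w`, `β`. `gys (res z) = δ * z` (duality: `gys_spec`, `tr_res`; `δ` is
central). `eps U (res z) = res (eps (X ⊗ Z) z)` (`res_gr`, `eps_gr`). Let `e ∈ S`, `e' = tm 1 e`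
of degree `1`, `δ = tm a 1 + tm 1 c`; `δ * e' = tm a e` (`c * e = 0`; `tm_mul`). `split` for
`res z`, multiplied by `res e'` on the left: `res (e' * eps z) = res (e' * w (δ z)) + res e' * β (res z)`.
`split` for `res (e' * z) = res e' * res z`: `- res (e' * eps z) = res (w (δ * e' * z)) +
res e' * β (res z)` (`eps (e' * z) = - e' * eps z`). The difference:
`2 res (e' * eps z) = res (e' * w (δ z) - w (δ * e' * z))`. Apply `gys`:
`2 δ * e' * eps z = δ * e' * w (δ z) - δ * w (δ * e' * z)`. -/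
def StRelC : Prop := ∀ (K : Type) [Field K] [CharZero K] (𝒱 𝒱' : Type 1) [Category.{0} 𝒱]
  [CartesianMonoidalCategory 𝒱] [Category.{0} 𝒱'] [CartesianMonoidalCategory 𝒱']
  (W : WeilCohomology K 𝒱) (W' : WeilCohomology K 𝒱') (X Z : 𝒱) (U : 𝒱') (a : W.H X) (c : W.H Z)
  (S : Set (W.H Z)), a ∈ W.gr X 2 → c ∈ W.gr Z 2 → (∀ e ∈ S, e ∈ W.gr Z 1 ∧ c * e = 0) →
  Nonempty (NetC W W' (X ⊗ Z) U (W.tm a 1 + W.tm 1 c) ((fun e => W.tm 1 e) '' S)) →
  W'.even U ∈ W'.Cor U U 0 → RelC W X Z a c S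

/-- **A08.** Push-forward of a quasi-inverse.

PROOF. `G' = d⁻¹ • push r ∘ G ∘ pull r` is in `R X (-1)` (`span_induction`, `cor_push`, `cor_pull`,
`cor_comp`; the degree of `push r` is `dim X - dim Z = 0`). With `c = pull r a`:
`a * push r y = push r (c * y)` (projection formula: duality, `push_spec`; `a`, `c` are central), so
`a * push r (G (c * pull r z)) = push r (c * G (c * pull r z)) = push r (c * pull r z)
= push r (pull r (a * z)) = d • (a * z)`. -/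
def StPushC : Prop := ∀ (K : Type) [Field K] [CharZero K] (𝒱 : Type 1) [Category.{0} 𝒱]
  [CartesianMonoidalCategory 𝒱] (W : WeilCohomology K 𝒱) (X Z : 𝒱) (r : Z ⟶ X) (a : W.H X)
  (d : K), a ∈ W.gr X 2 → W.dim Z = W.dim X → W.push r 1 = d • (1 : W.H X) → d ≠ 0 →
  VR W Z (W.pull r a) → VR W X a

/-- **A09.** The degree of a finite map is not zero.

PROOF. `push r 1 ∈ gr X 0` (`mem_gr_of_tr`), so it is `d • 1` (`connected`). Suppose `d = 0`. Then
`tr (pull r y) = tr (push r 1 * y) = 0` for all `y`. For `y = b^n`, `n = dim Z`, this is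
`tr ((pull r b)^n) = 0`. But `Hard` for `i = 0`, `j = n`: `(pull r b)^n * 1 ≠ 0` (injective, `1 ≠ 0`
because there is a point: `exists_pt`), it is in `gr Z (2 n)`, and an element `x` of `gr Z (2 n)`
with `tr x = 0` is `0` (duality: `tr (x * y)` for `y` of degree `0`, a scalar, and of degree `> 0`).
See also the proof of `tLow` (`Two/Low.lean`). -/
def StDegC : Prop := ∀ (K : Type) [Field K] [CharZero K] (𝒱 : Type 1) [Category.{0} 𝒱]
  [CartesianMonoidalCategory 𝒱] (W : WeilCohomology K 𝒱) (X Z : 𝒱) (r : Z ⟶ X) (b : W.H X),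
  W.dim Z = W.dim X → Hard W Z (W.pull r b) → ∃ d : K, d ≠ 0 ∧ W.push r 1 = d • (1 : W.H X)

/-- **A10.** The sign conjecture is inherited by varieties which are dominated.

PROOF. `even X = N⁻¹ • push q ∘ mulLeft θ ∘ even U ∘ pull q`: for `x ∈ gr X i` both sides are
`x` or `0` according to the parity of `i` (`even_gr` or the definition of `even`; projection formula
`push q (θ * pull q x) = push q θ * x`, by duality). The right hand side is in `Cor X X 0`
(`cor_push`, `cor_mul`, `cor_pull`, `cor_comp`, `cor_rat`; degrees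
`(dim X - dim U) + s + 0 + 0 = 0`). -/
def StDomC : Prop := ∀ (K : Type) [Field K] [CharZero K] (𝒱 : Type 1) [Category.{0} 𝒱]
  [CartesianMonoidalCategory 𝒱] (W : WeilCohomology K 𝒱) (U X : 𝒱) (q : U ⟶ X) (θ : W.H U)
  (s : ℕ) (N : ℚ), θ ∈ W.Alg U s → W.dim U = W.dim X + s → W.push q θ = (N : K) • (1 : W.H X) →
  N ≠ 0 → W.even U ∈ W.Cor U U 0 → W.even X ∈ W.Cor X X 0

/-- **A11.** The factors of `X × Z` are dominated by the generic member. (Uses `StDomC`.)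

PROOF. First statement: `push q (res (tm 1 θ)) = N • 1`, `N = tr (c * θ)`, by `push_eq`: let
`y = g x`. `tr (res (tm 1 θ) * pull q (g x)) = tr (res (tm 1 θ * tm x 1)) =
tr (δ * (tm 1 θ * tm x 1)) = tr (δ * tm x θ)` (`θ` has even degree; `tm_mul`), and
`δ * tm x θ = tm (a * x) θ + tm x (c * θ)` (`c` is even), whose trace is
`tr (a x) * tr θ + tr x * tr (c θ) = N * tr x` (`tr_tensor`; `tr θ = 0`: its degree is `2 s`,
`dim Z = s + 1`), and `tr (N • 1 * g x) = N * tr x`. `N` is rational: `alg_tr` for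
`c * θ ∈ Alg Z (s + 1)`. Second statement: the same with the factors exchanged
(`δ * (tm θ 1 * tm 1 z) = δ * tm θ z`). -/
def StEvC : Prop := ∀ (K : Type) [Field K] [CharZero K] (𝒱 𝒱' : Type 1) [Category.{0} 𝒱]
  [CartesianMonoidalCategory 𝒱] [Category.{0} 𝒱'] [CartesianMonoidalCategory 𝒱']
  (W : WeilCohomology K 𝒱) (W' : WeilCohomology K 𝒱') (X Z : 𝒱) (U X' : 𝒱') (a : W.H X)
  (c : W.H Z) (S : Set (W.H (X ⊗ Z))) (N : NetC W W' (X ⊗ Z) U (W.tm a 1 + W.tm 1 c) S)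
  (q : U ⟶ X'), a ∈ W.Alg X 1 → c ∈ W.Alg Z 1 → W'.even U ∈ W'.Cor U U 0 →
  (∀ (g : W.H X →ₐ[K] W'.H X') (θ : W.H Z) (s : ℕ), Function.Surjective g →
    (∀ x, W'.pull q (g x) = N.res (W.tm x 1)) → (∀ x, W'.tr X' (g x) = W.tr X x) →
    W.dim Z = s + 1 → W'.dim U = W'.dim X' + s → θ ∈ W.Alg Z s →
    N.res (W.tm 1 θ) ∈ W'.Alg U s → W.tr Z (c * θ) ≠ 0 → W'.even X' ∈ W'.Cor X' X' 0) ∧
  (∀ (g : W.H Z →ₐ[K] W'.H X') (θ : W.H X) (s : ℕ), Function.Surjective g →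
    (∀ z, W'.pull q (g z) = N.res (W.tm 1 z)) → (∀ z, W'.tr X' (g z) = W.tr Z z) →
    W.dim X = s + 1 → W'.dim U = W'.dim X' + s → θ ∈ W.Alg X s →
    N.res (W.tm θ 1) ∈ W'.Alg U s → W.tr X (a * θ) ≠ 0 → W'.even X' ∈ W'.Cor X' X' 0)

/-- **A12.** A pencil has a multisection.

PROOF. Let `s = dim V` (`P.dim_V`, `P.dim_Z`), `θ = (pull P.p h)^s ∈ Alg Z s` (`alg_pull`, `alg_mul`).
`tr (P.η * θ) = tr (push ι 1 * θ) = tr (pull ι θ) = tr ((pull P.i h)^s)` (`P.cls_η`, `push_spec`,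
`P.ι_p`, `pull_comp`), and this is not `0` by hard Lefschetz for `V` (see the proof of A09, for
`dim V = s`). -/
def StMulC : Prop := ∀ (K : Type) [Field K] [CharZero K] (𝒱 : Type 1) [Category.{0} 𝒱]
  [CartesianMonoidalCategory 𝒱] (W : WeilCohomology K 𝒱) (X V Z : 𝒱) (h : W.H X)
  (P : Two.Pencil W X V Z h), Hard W V (W.pull P.i h) →
  ∃ θ ∈ W.Alg Z (W.dim V), W.tr Z (P.η * θ) ≠ 0

end Pool.Agent.Lib.MP_4ca46c_ag.C5
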