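import Mathlib
import Pool.Agent.Lib.MP_4ca46c_ag.C5.SpecA

/-!
# A09: the degree of a finite map is not zero
-/

set_option autoImplicit false

namespace Pool.Agent.Lib.MP_4ca46c_ag.C5

open CategoryTheory MonoidalCategory CartesianMonoidalCategory TensorProduct
open Pool.Agent.Lib.MP_4ca46c_ag.Geo Pool.Agent.Lib.MP_4ca46c_ag.Geo.WeilCohomology
open Pool.Agent.Lib.MP_4ca46c_ag.Two (Hard QInv)

/-- The degree of a finite map is not zero. -/
theorem tDegC : StDegC := by
  intro K _ _ 𝒱 _ _ W X Z r b hdim hard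
  have h0 : W.push r 1 ∈ W.gr X 0 := by
    have h1 := W.alg_gr (W.push_alg r (c := 0) (e := 0) (W.alg_one Z) (by omega))
    simpa using h1
  obtain ⟨d, hd⟩ := W.connected h0
  refine ⟨d, ?_, by rw [hd, Algebra.algebraMap_eq_smul_one]⟩
  rintro rfl
  rw [map_zero] at hd
  have htr : ∀ y : W.H X, W.tr Z (W.pull r y) = 0 := by
    intro y
    have h1 := W.push_spec r 1 y
    rw [hd, zero_mul, map_zero, one_mul] at h1
    exact h1.symm
  obtain ⟨p, hp, hp1⟩ := W.exists_pt Z
  have hpg : p ∈ W.gr Z (0 + 2 * W.dim Z) := by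
    have := W.alg_gr hp
    rwa [Nat.zero_add]
  obtain ⟨x, hx, hxp⟩ := (hard 0 (W.dim Z) (Nat.zero_add _)).surjOn hpg
  obtain ⟨a, rfl⟩ := W.connected hx
  have h2 : W.tr Z p = a * W.tr Z (W.pull r b ^ W.dim Z) := by
    rw [← hxp]
    change W.tr Z (W.pull r b ^ W.dim Z * algebraMap K (W.H Z) a) = _
    rw [← Algebra.commutes, ← Algebra.smul_def, map_smul, smul_eq_mul]
  rw [← map_pow, htr, mul_zero, hp1] at h2
  exact one_ne_zero h2

end Pool.Agent.Lib.MP_4ca46c_ag.C5
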