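import Mathlib
import Pool.Agent.Lib.MP_4ca46c_ag.C5.SpecH
import Pool.Agent.Lib.MP_4ca46c_ag.T2.HypCls
import Pool.Agent.Lib.MP_4ca46c_ag.T2.SegCls
import Pool.Agent.Lib.MP_4ca46c_ag.Two.PsiCls

/-!
# The class of the fibres of `x`
-/

set_option autoImplicit false

namespace Pool.Agent.Lib.MP_4ca46c_ag.C5

open CategoryTheory Limits AlgebraicGeometry TensorProduct MonoidalCategory
  CartesianMonoidalCategory
open Pool.Agent.Lib.MP_4ca46c_ag.Sign Pool.Agent.Lib.MP_4ca46c_ag.Hyp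
open Pool.Agent.Lib.MP_4ca46c_ag.Std Pool.Agent.Lib.MP_4ca46c_ag.Geo
open Pool.Agent.Lib.MP_4ca46c_ag.Two (IsMem Mem)
open Pool.Agent.Lib.MP_4ca46c_ag.T2 (IsZero VanO cf)

namespace DegXAux

variable {k₀ k : Type} [Field k₀] [Field k] [Algebra k₀ k]

theorem ptMap_self : ptMap k₀ (IsScalarTower.toAlgHom k₀ k k) = 𝟙 (pt k₀ k) := by
  have h : IsScalarTower.toAlgHom k₀ k k = AlgHom.id k₀ k := AlgHom.ext fun _ => rfl
  rw [h]
  exact Std.average_ptMap_id k₀

theorem van_congr {κ : Type} [Fintype κ] {Y : Scheme.{0}} {z z' : Y ⟶ PS k κ}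
    {b b' : κ → Γ(Y, ⊤)} (h : (psCoord k κ).toPreCoord.Van z b) (hz : z = z') (hb : b = b') :
    (PreCoord.ps k κ).Van z' b' := by
  subst hz hb
  exact h

/-- A member over the base field is a zero scheme. -/
theorem isZero_of_isMem {κ : Type} [Fintype κ] {Z : Sch k₀} (z : Z ⟶ pt k₀ k)
    (φ : Z ⟶ PSo k₀ k κ) (hφ : φ ≫ PSo.str k₀ k κ = z) (a : κ → k) {U : Sch k₀} (r : U ⟶ Z)
    (u : U ⟶ pt k₀ k) (h : IsMem z φ a r u) (hr : IsClosedImmersion r.left) :
    IsZero φ (𝟙 (pt k₀ k)) (fun j => cf k₀ (a j)) u r := by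
  have hcomm := h.comm
  rw [ptMap_self, Category.comp_id] at hcomm
  have hc : r ≫ φ ≫ PSo.str k₀ k κ = u ≫ 𝟙 _ := by rw [hφ, hcomm, Category.comp_id]
  have hcl : IsClosedImmersion (pullback.lift r u hc).left := by
    have h1 : (pullback.lift r u hc).left ≫
        (pullback.fst (φ ≫ PSo.str k₀ k κ) (𝟙 (pt k₀ k))).left = r.left := by
      rw [← Over.comp_left, pullback.lift_fst]
    have h2 : IsIso (pullback.fst (φ ≫ PSo.str k₀ k κ) (𝟙 (pt k₀ k))) := inferInstance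
    have h3 : IsIso (pullback.fst (φ ≫ PSo.str k₀ k κ) (𝟙 (pt k₀ k))).left := by
      exact inferInstanceAs (IsIso ((Over.forget _).map _))
    have h4 : IsClosedImmersion ((pullback.lift r u hc).left ≫
        (pullback.fst (φ ≫ PSo.str k₀ k κ) (𝟙 (pt k₀ k))).left) := by
      rw [h1]; exact hr
    exact IsClosedImmersion.of_comp _ (pullback.fst (φ ≫ PSo.str k₀ k κ) (𝟙 (pt k₀ k))).left
  refine ⟨hc, hcl, fun T t w hw => ?_⟩
  rw [hφ, Category.comp_id] at hw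
  constructor
  · rintro ⟨v, hv1, hv2⟩
    have h1 := PreCoord.Van.comp (psCoord k κ).toPreCoord (v.left : T.left ⟶ U.left) h.mem
    subst hv1 hv2
    have a1 : (v.left : T.left ⟶ U.left) ≫ ((r ≫ φ).left : U.left ⟶ PS k κ) =
        (((v ≫ r) ≫ φ).left : T.left ⟶ PS k κ) := by
      rw [Category.assoc]
      rfl
    have a2 : (fun j => v.left.appTop (Hyp.val (u.left : U.left ⟶ Spec (CommRingCat.of k)) (a j))) =
        fun j => (v ≫ u).left.appTop (cf k₀ (a j)) := by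
      funext j
      have a3 := Hyp.val_comp v.left (u.left : U.left ⟶ Spec (CommRingCat.of k))
      exact (DFunLike.congr_fun a3 (a j)).symm
    exact van_congr h1 a1 a2
  · intro hv
    obtain ⟨t', h1, h2⟩ := h.lift T w t (by rw [hw, ptMap_self, Category.comp_id]) hv
    exact ⟨t', h2, h1⟩

end DegXAux

open DegXAux in
theorem tDegX (k₀ K : Type) [Field k₀] [Field K] [CharZero K] : StDegX k₀ K := by
  intro T E k _ _ _ C l x hx hmem
  have vL : IsVar (l1 k₀ k) 1 := l1_var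
  have vC : IsVar C.str 1 := C.isVar
  have vP : IsVar (pc C) (1 + 1) := pc_var C
  have v3 : IsVar (PSo.str k₀ k (Fin 3)) 2 := tPS k₀ k (Fin 3) 2 (by simp)
  have v6 : IsVar (PSo.str k₀ k (Fin 2 × Fin 3)) 5 := tPS k₀ k (Fin 2 × Fin 3) 5 (by simp)
  have vL3 : IsVar (pullback.fst (l1 k₀ k) (PSo.str k₀ k (Fin 3)) ≫ l1 k₀ k) (1 + 2) :=
    Var.isVar_prod vL v3
  have hxw : x ≫ l1 k₀ k = 𝟙 C.X ≫ C.str := by rw [hx, Category.id_comp]
  obtain ⟨γ, hγ⟩ : ∃ γ : C.X ⟶ PC C, γ = pullback.lift x (𝟙 C.X) hxw := ⟨_, rfl⟩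
  have hγ1 : γ ≫ pullback.fst _ _ = x := by rw [hγ]; exact pullback.lift_fst _ _ _
  have hγ2 : γ ≫ pullback.snd _ _ = 𝟙 _ := by rw [hγ]; exact pullback.lift_snd _ _ _
  have hmem' : IsMem (pc C) (psi C) l γ C.str := by rw [hγ]; exact hmem
  have hγs : γ ≫ pc C = C.str := by rw [← Category.assoc, hγ1, hx]
  have hcl : IsClosedImmersion γ.left := by
    have h1 : IsClosedImmersion (γ.left ≫ (pullback.snd (l1 k₀ k) C.str).left) := by
      rw [← Over.comp_left, hγ2, Over.id_left]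
      infer_instance
    have h2 : IsSeparated (pullback.snd (l1 k₀ k) C.str).left := by
      have h3 : IsProper (pc C).left := vP.proper
      have h4 : (pullback.snd (l1 k₀ k) C.str).left ≫ C.str.left = (pc C).left := by
        rw [← Over.comp_left, ← pullback.condition]
      have h5 : IsSeparated ((pullback.snd (l1 k₀ k) C.str).left ≫ C.str.left) := by
        rw [h4]
        infer_instance
      exact IsSeparated.of_comp _ C.str.left
    exact IsClosedImmersion.of_comp _ (pullback.snd (l1 k₀ k) C.str).left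
  have hz := isZero_of_isMem (pc C) (psi C) (psi_str C) l γ C.str hmem' hcl
  have e1 : T.push γ 1 = T.pull (psi C) (hypClass T k ((0 : Fin 2), (0 : Fin 3))) :=
    T2.tHypCls k₀ K T E k (Fin 2 × Fin 3) (0, 0) l (PC C) (pc C) 1 vP (psi C) (psi_str C)
      (psi_closed C) C.X C.str γ hz vC.smooth
  have e2 : T.pull (psi C) (hypClass T k ((0 : Fin 2), (0 : Fin 3))) =
      T.pull (pullback.fst (l1 k₀ k) C.str) (hypClass T k (0 : Fin 2)) +
        T.pull (pullback.snd (l1 k₀ k) C.str) (C.toProj.h T) := by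
    have h1 := T.pull_comp (emb2 C) (segO k₀ k (Fin 2) (Fin 3)) vP.sm vL3.sm v6.sm
      (hypClass T k ((0 : Fin 2), (0 : Fin 3)))
    have h2 := T2.tSegCls k₀ K T E k (Fin 2) (Fin 3) 0 0
    have h3 := T.pull_comp (emb2 C) (pullback.fst (l1 k₀ k) (PSo.str k₀ k (Fin 3))) vP.sm vL3.sm
      vL.sm (hypClass T k (0 : Fin 2))
    have h4 := T.pull_comp (emb2 C) (pullback.snd (l1 k₀ k) (PSo.str k₀ k (Fin 3))) vP.sm vL3.sm
      v3.sm (hypClass T k (0 : Fin 3))
    have h5 := T.pull_comp (pullback.snd (l1 k₀ k) C.str) C.emb vP.sm vC.sm v3.sm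
      (hypClass T k (0 : Fin 3))
    have h6 : emb2 C ≫ pullback.fst (l1 k₀ k) (PSo.str k₀ k (Fin 3)) =
      pullback.fst (l1 k₀ k) C.str := pullback.lift_fst _ _ _
    have h7 : emb2 C ≫ pullback.snd (l1 k₀ k) (PSo.str k₀ k (Fin 3)) =
      pullback.snd (l1 k₀ k) C.str ≫ C.emb := pullback.lift_snd _ _ _
    rw [h6] at h3
    rw [h7] at h4
    refine h1.trans ?_
    rw [h2, map_add, ← h3, ← h4, h5]
    rfl
  set t : T.H (L1 k₀ k) := T.cl (L1 k₀ k) (hypClass T k (0 : Fin 2)) with ht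
  set δ : T.H C.X := T.cl C.X (C.toProj.h T) with hδ
  have e3 : T.cl (PC C) (T.push γ 1) = T.pullH (pullback.fst (l1 k₀ k) C.str) t +
      T.pullH (pullback.snd (l1 k₀ k) C.str) δ := by
    rw [e1, e2, map_add, T.cl_pull _ vP.isWeil vL.isWeil, T.cl_pull _ vP.isWeil vC.isWeil]
  have htm : t ∈ T.deg (L1 k₀ k) 2 :=
    T.cl_mem _ vL.isWeil 1 _ (hypClass_mem T tPS tHyp k (0 : Fin 2))
  have hδm : δ ∈ T.deg C.X 2 := by
    refine T.cl_mem _ vC.isWeil 1 _ ?_
    exact T.pull_mem _ vC.sm v3.sm 1 _ (hypClass_mem T tPS tHyp k (0 : Fin 3))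
  have htr : T.tr (L1 k₀ k) t = 1 := Two.PsiClsAux.tr_t E
  have htt : t * t = 0 := by
    let X : Var k₀ k := ⟨L1 k₀ k, l1 k₀ k, 1, vL⟩
    have ht' : t * t ∈ (weil T k).gr X (2 + 2) := SetLike.mul_mem_graded (A := (weil T k).gr X)
      htm htm
    exact (weil T k).gr_top ht' (by
      change 2 * 1 < 2 + 2
      omega)
  rw [T.cl_pull x vC.isWeil vL.isWeil, ← sub_eq_zero]
  refine T.poincare _ vC.isWeil _ fun v => ?_
  rw [sub_mul, map_sub, sub_eq_zero]
  have f1 : T.pullH x t * v = T.pullH γ (T.pullH (pullback.fst (l1 k₀ k) C.str) t *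
      T.pullH (pullback.snd (l1 k₀ k) C.str) v) := by
    rw [map_mul, ← T.pullH_comp _ _ vC.isWeil vP.isWeil vL.isWeil, hγ1,
      ← T.pullH_comp _ _ vC.isWeil vP.isWeil vC.isWeil, hγ2, T.pullH_id vC.isWeil]
  have f2 := T.cl_push C.str (pc C) γ hγs 1 (1 + 1) vC vP 1
    (T.pullH (pullback.fst (l1 k₀ k) C.str) t * T.pullH (pullback.snd (l1 k₀ k) C.str) v)
  rw [map_one (T.cl C.X), one_mul, ← f1, e3] at f2
  have f3 : T.pullH (pullback.snd (l1 k₀ k) C.str) δ * T.pullH (pullback.fst (l1 k₀ k) C.str) t =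
      T.pullH (pullback.fst (l1 k₀ k) C.str) t * T.pullH (pullback.snd (l1 k₀ k) C.str) δ := by
    have h := T.comm _ vP.isWeil 2 2 _ (T.pullH_mem (pullback.snd (l1 k₀ k) C.str) vP.isWeil
      vC.isWeil 2 _ hδm) _ (T.pullH_mem (pullback.fst (l1 k₀ k) C.str) vP.isWeil
      vL.isWeil 2 _ htm)
    rw [h]
    norm_num
  have f4 := T.tr_kunneth (l1 k₀ k) C.str (pullback.fst (l1 k₀ k) C.str)
    (pullback.snd (l1 k₀ k) C.str) 1 1 vL vC (IsPullback.of_hasPullback _ _) t (δ * v)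
  rw [← f2, add_mul, ← mul_assoc, ← map_mul (T.pullH (pullback.fst (l1 k₀ k) C.str)), htt,
    map_zero, zero_mul, zero_add, ← mul_assoc, f3, mul_assoc, ← map_mul, f4, htr, one_mul]

end Pool.Agent.Lib.MP_4ca46c_ag.C5
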