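import Mathlib
import Pool.Agent.Lib.MP_4ca46c_ag.C5.SpecA

/-!
# A02: the operator given by the class of `G` times the diagonal of the curve
-/

set_option autoImplicit false

namespace Pool.Agent.Lib.MP_4ca46c_ag.C5

open CategoryTheory MonoidalCategory CartesianMonoidalCategory TensorProduct
open Pool.Agent.Lib.MP_4ca46c_ag.Geo Pool.Agent.Lib.MP_4ca46c_ag.Geo.WeilCohomology

namespace DelCAux

variable {K : Type} [Field K] [CharZero K] {𝒱 : Type 1} [Category.{0} 𝒱]
  [CartesianMonoidalCategory 𝒱] (W : WeilCohomology K 𝒱) {X Y Z C : 𝒱}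

theorem comm_even {X : 𝒱} {k : ℕ} {e : W.H X} (he : e ∈ W.gr X (2 * k)) (x : W.H X) :
    e * x = x * e := by
  refine W.ind (P := fun x => e * x = x * e) x (by simp) (fun i a ha => ?_)
    (fun a b ha hb => by simp only [mul_add, add_mul, ha, hb])
  have h : Even (2 * k * i) := ⟨k * i, by ring⟩
  rw [W.comm_smul he ha, h.neg_one_pow, one_smul]

/-- (a) -/
theorem diag_comm (u : W.H C) :
    W.graph (𝟙 C) * W.pull (fst C C) u = W.graph (𝟙 C) * W.pull (snd C C) u := by
  refine W.ext_tr fun v => ?_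
  rw [mul_assoc, mul_assoc, graph, push_spec, push_spec, map_mul (W.pull _),
    map_mul (W.pull _), ← W.pull_comp, ← W.pull_comp, lift_fst, lift_snd]

theorem tr_pt {o : W.H C} (hC : W.dim C = 1) (ho : o ∈ W.gr C 2) (ho1 : W.tr C o = 1)
    (a b : W.H C) : W.tr C (o * (a * b)) = W.tr C (o * a) * W.tr C (o * b) := by
  refine W.ind (P := fun a => W.tr C (o * (a * b)) = W.tr C (o * a) * W.tr C (o * b)) a (by simp)
    (fun i a ha => ?_) (fun a a' h h' => by simp only [mul_add, add_mul, map_add, h, h'])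
  rcases Nat.eq_zero_or_pos i with rfl | hi
  · obtain ⟨α, rfl⟩ := W.connected ha
    rw [← Algebra.smul_def, mul_smul_comm, map_smul, Algebra.algebraMap_eq_smul_one,
      mul_smul_comm, mul_one, map_smul, ho1, smul_eq_mul, smul_eq_mul, mul_one]
  · have h1 : W.tr C (o * a) = 0 :=
      W.tr_gr (SetLike.mul_mem_graded ho ha) (by rw [hC]; omega)
    rw [h1, zero_mul]
    refine W.ind (P := fun b => W.tr C (o * (a * b)) = 0) b (by simp)
      (fun j b hb => ?_) (fun b b' h h' => by simp only [mul_add, map_add, h, h', add_zero])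
    exact W.tr_gr (SetLike.mul_mem_graded ho (SetLike.mul_mem_graded ha hb)) (by rw [hC]; omega)

/-- (b) -/
theorem diag_pt {o : W.H C} (hC : W.dim C = 1) (ho : o ∈ W.gr C 2) (ho1 : W.tr C o = 1) :
    W.graph (𝟙 C) * W.pull (fst C C) o = W.pull (fst C C) o * W.pull (snd C C) o := by
  refine W.ext_tr fun v => ?_
  refine W.ind_tm (P := fun v => W.tr (C ⊗ C) (W.graph (𝟙 C) * W.pull (fst C C) o * v) =
    W.tr (C ⊗ C) (W.pull (fst C C) o * W.pull (snd C C) o * v)) v (by simp) (fun a b => ?_)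
    (fun v v' h h' => by simp only [mul_add, map_add, h, h'])
  refine W.ind (P := fun a => W.tr (C ⊗ C) (W.graph (𝟙 C) * W.pull (fst C C) o * W.tm a b) =
    W.tr (C ⊗ C) (W.pull (fst C C) o * W.pull (snd C C) o * W.tm a b)) a (by simp [tm])
    (fun i a ha => ?_) (fun a a' h h' => ?_)
  · have h2 : W.tr (C ⊗ C) (W.pull (fst C C) o * W.pull (snd C C) o * W.tm a b) =
        W.tr C (o * a) * W.tr C (o * b) := by
      have h3 := W.tr_four o a o b ha ho
      have h4 : Even (2 * i) := ⟨i, by ring⟩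
      rw [h4.neg_one_pow, one_mul] at h3
      exact h3
    rw [h2, mul_assoc, graph, push_spec, one_mul, map_mul, pull_tm, ← W.pull_comp, lift_fst,
      W.pull_id, W.pull_id, W.pull_id, tr_pt W hC ho ho1]
  · simp only [tm, map_add, add_mul, mul_add] at h h' ⊢
    rw [h, h']

/-- (c) -/
theorem eq_smul {o δ : W.H C} (hC : W.dim C = 1) (ho : o ∈ W.gr C 2) (ho1 : W.tr C o = 1)
    (hδ : δ ∈ W.gr C 2) : δ = W.tr C δ • o := by
  refine W.ext_tr fun y => ?_
  refine W.ind (P := fun y => W.tr C (δ * y) = W.tr C (W.tr C δ • o * y)) y (by simp)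
    (fun j y hy => ?_) (fun y y' h h' => by simp only [mul_add, map_add, h, h'])
  rcases Nat.eq_zero_or_pos j with rfl | hj
  · obtain ⟨α, rfl⟩ := W.connected hy
    rw [Algebra.algebraMap_eq_smul_one, mul_smul_comm, mul_one, mul_smul_comm, mul_one, map_smul,
      map_smul, map_smul, ho1, smul_eq_mul, smul_eq_mul, smul_eq_mul, mul_one]
  · rw [W.tr_gr (SetLike.mul_mem_graded hδ hy) (by rw [hC]; omega),
      W.tr_gr (SetLike.mul_mem_graded (Submodule.smul_mem _ _ ho) hy) (by rw [hC]; omega)]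

/-- the pull-back of the diagonal -/
noncomputable def Dp (π : Z ⟶ C) : W.H (Z ⊗ Z) :=
  W.pull (lift (fst Z Z ≫ π) (snd Z Z ≫ π)) (W.graph (𝟙 C))

theorem Dp_alg (π : Z ⟶ C) (hC : W.dim C = 1) : Dp W π ∈ W.Alg (Z ⊗ Z) 1 :=
  W.alg_pull _ (W.push_alg _ (W.alg_one C) (by rw [W.dim_tensor]; omega))

theorem Dp_comm (π : Z ⟶ C) (u : W.H C) :
    Dp W π * W.pull (fst Z Z) (W.pull π u) = Dp W π * W.pull (snd Z Z) (W.pull π u) := by
  have h := congrArg (W.pull (lift (fst Z Z ≫ π) (snd Z Z ≫ π))) (diag_comm W u)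
  rw [map_mul, map_mul, ← W.pull_comp, ← W.pull_comp, lift_fst, lift_snd, W.pull_comp,
    W.pull_comp] at h
  exact h

theorem Dp_pt (π : Z ⟶ C) {o : W.H C} (hC : W.dim C = 1) (ho : o ∈ W.gr C 2)
    (ho1 : W.tr C o = 1) :
    Dp W π * W.pull (fst Z Z) (W.pull π o) =
      W.pull (fst Z Z) (W.pull π o) * W.pull (snd Z Z) (W.pull π o) := by
  have h := congrArg (W.pull (lift (fst Z Z ≫ π) (snd Z Z ≫ π))) (diag_pt W hC ho ho1)
  rw [map_mul, map_mul, ← W.pull_comp, ← W.pull_comp, lift_fst, lift_snd, W.pull_comp,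
    W.pull_comp] at h
  exact h

/-- `op (g * Δ')` commutes with the classes from the curve -/
theorem op_comm (π : Z ⟶ C) {n : ℕ} {g : W.H (Z ⊗ Z)} (hC : W.dim C = 1)
    (hg : g ∈ W.Alg (Z ⊗ Z) n) (hn : (n : ℤ) = W.dim Z + -1) (u : W.H C) (z : W.H Z) :
    W.op (g * Dp W π) (W.pull π u * z) = W.pull π u * W.op (g * Dp W π) z := by
  have hgD : g * Dp W π ∈ W.gr (Z ⊗ Z) (2 * (n + 1)) := W.alg_gr (W.alg_mul hg (Dp_alg W π hC))
  refine W.ind (P := fun u => W.op (g * Dp W π) (W.pull π u * z) =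
    W.pull π u * W.op (g * Dp W π) z) u (by simp) (fun i u hu => ?_)
    (fun u u' h h' => by simp only [map_add, add_mul, h, h'])
  refine W.ind (P := fun z => W.op (g * Dp W π) (W.pull π u * z) =
    W.pull π u * W.op (g * Dp W π) z) z (by simp) (fun j z hz => ?_)
    (fun z z' h h' => by simp only [map_add, mul_add, h, h'])
  have hq : W.op (g * Dp W π) z ∈ W.gr Z j := W.op_gr hgD hz (by omega)
  have hu' := W.pull_gr π hu
  refine W.ext_tr fun y => ?_
  rw [op_spec, W.comm_smul hu' hq, smul_mul_assoc, map_smul, mul_assoc (W.op (g * Dp W π) z),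
    op_spec, map_mul (W.pull (snd Z Z)), map_mul (W.pull (fst Z Z))]
  have h1 := W.comm_smul (W.pull_gr (fst Z Z) hu') (W.pull_gr (snd Z Z) hz)
  have h2 : g * Dp W π * (W.pull (snd Z Z) (W.pull π u) * W.pull (snd Z Z) z) *
      W.pull (fst Z Z) y = g * Dp W π *
        (W.pull (fst Z Z) (W.pull π u) * W.pull (snd Z Z) z) * W.pull (fst Z Z) y := by
    rw [← mul_assoc (g * Dp W π), mul_assoc g, ← Dp_comm]
    simp only [mul_assoc]
  rw [h2, h1, mul_smul_comm, smul_mul_assoc, map_smul]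
  simp only [mul_assoc]

theorem op_pt (π : Z ⟶ C) {o : W.H C} (g : W.H (Z ⊗ Z)) (hC : W.dim C = 1)
    (ho : o ∈ W.gr C 2) (ho1 : W.tr C o = 1) (z : W.H Z) :
    W.pull π o * W.op (g * Dp W π) z = W.pull π o * W.op g (W.pull π o * z) := by
  have ho' := W.pull_gr π ho
  have hf : ∀ x, W.pull (fst Z Z) (W.pull π o) * x = x * W.pull (fst Z Z) (W.pull π o) :=
    comm_even W (k := 1) (W.pull_gr (fst Z Z) ho')
  have hz : ∀ x, W.pull π o * x = x * W.pull π o := comm_even W (k := 1) ho'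
  refine W.ext_tr fun y => ?_
  rw [hz, hz (W.op g _), mul_assoc, mul_assoc, op_spec, op_spec, map_mul (W.pull (fst Z Z)),
    map_mul (W.pull (snd Z Z))]
  have h1 : g * Dp W π * W.pull (snd Z Z) z * (W.pull (fst Z Z) (W.pull π o) *
      W.pull (fst Z Z) y) = g * (Dp W π * W.pull (fst Z Z) (W.pull π o)) *
        W.pull (snd Z Z) z * W.pull (fst Z Z) y := by
    simp only [mul_assoc]
    rw [← mul_assoc (W.pull (snd Z Z) z), ← hf (W.pull (snd Z Z) z)]
    simp only [mul_assoc]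
  rw [h1, Dp_pt W π hC ho ho1]
  have h2 : g * (W.pull (snd Z Z) (W.pull π o) * W.pull (snd Z Z) z) *
      (W.pull (fst Z Z) (W.pull π o) * W.pull (fst Z Z) y) =
      g * (W.pull (fst Z Z) (W.pull π o) * W.pull (snd Z Z) (W.pull π o)) *
        W.pull (snd Z Z) z * W.pull (fst Z Z) y := by
    rw [hf (W.pull (snd Z Z) (W.pull π o))]
    simp only [mul_assoc]
    rw [← mul_assoc (W.pull (snd Z Z) z), ← hf (W.pull (snd Z Z) z)]
    simp only [mul_assoc]
  rw [h2]

end DelCAux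

open DelCAux

theorem tDelC : StDelC := by
  intro K _ _ 𝒱 _ _ W Z C π δ hC hδ G hG
  obtain ⟨o, hoA, ho1⟩ := W.exists_pt C
  rw [hC] at hoA
  have ho : o ∈ W.gr C 2 := W.alg_gr hoA
  have hδo := eq_smul W hC ho ho1 hδ
  refine Submodule.span_induction (p := fun (G : W.E Z) _ => ∃ p ∈ W.R Z 0,
    (∀ (u : W.H C) (z : W.H Z), p (W.pull π u * z) = W.pull π u * p z) ∧
    ∀ z, W.pull π δ * p z = W.pull π δ * G (W.pull π δ * z)) ?_ ?_ ?_ ?_ hG
  · intro G hG
    rcases W.mem_cor.1 hG with rfl | ⟨n, g, hn, hg, rfl⟩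
    · exact ⟨0, Submodule.zero_mem _, fun u z => by simp, fun z => by simp⟩
    · refine ⟨W.tr C δ • W.op (g * Dp W π), Submodule.smul_mem _ _ (cor_le (W.mem_cor.2
        (Or.inr ⟨n + 1, g * Dp W π, by push_cast; omega, W.alg_mul hg (Dp_alg W π hC), rfl⟩))),
        fun u z => ?_, fun z => ?_⟩
      · rw [LinearMap.smul_apply, LinearMap.smul_apply, op_comm W π hC hg hn, mul_smul_comm]
      · rw [hδo, map_smul, LinearMap.smul_apply, map_smul, ho1, smul_mul_assoc, mul_smul_comm,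
          op_pt W π g hC ho ho1 z, smul_mul_assoc, smul_mul_assoc, map_smul, mul_smul_comm]
        simp
  · exact ⟨0, Submodule.zero_mem _, fun u z => by simp, fun z => by simp⟩
  · rintro G G' _ _ ⟨p, hp, h1, h2⟩ ⟨p', hp', h1', h2'⟩
    exact ⟨p + p', Submodule.add_mem _ hp hp', fun u z => by
      rw [LinearMap.add_apply, LinearMap.add_apply, h1, h1', mul_add], fun z => by
      rw [LinearMap.add_apply, LinearMap.add_apply, mul_add, mul_add, h2, h2']⟩
  · rintro a G _ ⟨p, hp, h1, h2⟩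
    exact ⟨a • p, Submodule.smul_mem _ _ hp, fun u z => by
      rw [LinearMap.smul_apply, LinearMap.smul_apply, h1, mul_smul_comm], fun z => by
      rw [LinearMap.smul_apply, LinearMap.smul_apply, mul_smul_comm, mul_smul_comm, h2]⟩

end Pool.Agent.Lib.MP_4ca46c_ag.C5
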