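import Mathlib
import Pool.Agent.Lib.MP_4ca46c_ag.C5.SpecA

/-!
# Project C5, module DomC (A10): the even projector of a dominated variety
-/

set_option autoImplicit false

namespace Pool.Agent.Lib.MP_4ca46c_ag.C5

open CategoryTheory MonoidalCategory CartesianMonoidalCategory TensorProduct
open Pool.Agent.Lib.MP_4ca46c_ag.Geo Pool.Agent.Lib.MP_4ca46c_ag.Geo.WeilCohomology
open Pool.Agent.Lib.MP_4ca46c_ag.Two (Hard QInv)

/-- A10 -/
theorem tDomC : StDomC := by
  intro K _ _ 𝒱 _ _ W U X q θ s N hθ hdim hpush hN hE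
  have hNK : (N : K) ≠ 0 := by exact_mod_cast hN
  have hpp : ∀ x : W.H X, W.push q (θ * W.pull q x) = W.push q θ * x := by
    intro x
    refine W.push_eq q _ _ fun z => ?_
    rw [mul_assoc, W.push_spec, map_mul (W.pull q), mul_assoc]
  have h1 : W.push q ∘ₗ (LinearMap.mulLeft K θ ∘ₗ (W.even U ∘ₗ (W.pull q).toLinearMap)) ∈
      W.Cor X X (((W.dim X : ℤ) - W.dim U) + (s + (0 + 0))) :=
    W.cor_comp (W.cor_push q) (W.cor_comp (W.cor_mul hθ) (W.cor_comp hE (W.cor_pull q)))
  have h2 : ((W.dim X : ℤ) - W.dim U) + (s + (0 + 0)) = 0 := by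
    rw [hdim]
    push_cast
    ring
  rw [h2] at h1
  have h3 := W.cor_rat h1 N⁻¹
  have h4 : W.even X = ((N⁻¹ : ℚ) : K) •
      (W.push q ∘ₗ (LinearMap.mulLeft K θ ∘ₗ (W.even U ∘ₗ (W.pull q).toLinearMap))) := by
    refine W.hom_ext fun i x hx => ?_
    rw [LinearMap.smul_apply, LinearMap.comp_apply, LinearMap.comp_apply, LinearMap.comp_apply,
      AlgHom.toLinearMap_apply]
    rcases Nat.even_or_odd i with hi | hi
    · rw [W.even_even hx hi, W.even_even (W.pull_gr q hx) hi, LinearMap.mulLeft_apply, hpp,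
        hpush, smul_mul_assoc, one_mul, smul_smul]
      have h5 : ((N⁻¹ : ℚ) : K) * (N : K) = 1 := by
        rw [Rat.cast_inv]
        exact inv_mul_cancel₀ hNK
      rw [h5, one_smul]
    · rw [W.even_odd hx hi, W.even_odd (W.pull_gr q hx) hi, map_zero, map_zero, smul_zero]
  rw [h4]
  exact h3

end Pool.Agent.Lib.MP_4ca46c_ag.C5
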