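import Mathlib
import Pool.Agent.Lib.MP_4ca46c_ag.C5.SpecG
import Pool.Agent.Lib.MP_4ca46c_ag.T2.PencilG
import Pool.Agent.Lib.MP_4ca46c_ag.T2.Zero
import Pool.Agent.Lib.MP_4ca46c_ag.T2.BertOpen
import Pool.Agent.Lib.MP_4ca46c_ag.Two.NotRat
import Pool.Agent.Lib.MP_4ca46c_ag.Two.Graph
import Pool.Agent.Lib.MP_4ca46c_ag.Two.USm

/-!
# The curve `D_a` is étale over the projective line at the points over rational points
-/

set_option autoImplicit false

namespace Pool.Agent.Lib.MP_4ca46c_ag.C5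

open CategoryTheory Limits AlgebraicGeometry TensorProduct MonoidalCategory
  CartesianMonoidalCategory
open Pool.Agent.Lib.MP_4ca46c_ag.Sign Pool.Agent.Lib.MP_4ca46c_ag.Hyp
open Pool.Agent.Lib.MP_4ca46c_ag.Std Pool.Agent.Lib.MP_4ca46c_ag.Geo
open Pool.Agent.Lib.MP_4ca46c_ag.Two (IsMem Mem)
open Pool.Agent.Lib.MP_4ca46c_ag.T2

namespace EtCAux

section van

variable {k₀ k : Type} [Field k₀] [Field k] [Algebra k₀ k]

/-- The equation in a product of charts. -/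
theorem van_core0 (hS : StSegVan) (C : PCurve k₀ k) {T : Scheme.{0}} (z : T ⟶ (PC C).left)
    (i : Fin 2) (j : Fin 3)
    (h : ⊤ ≤ (z ≫ (pullback.fst (l1 k₀ k) C.str).left : T ⟶ PS k (Fin 2)) ⁻¹ᵁ psD i)
    (h' : ⊤ ≤ (z ≫ (pullback.snd (l1 k₀ k) C.str).left ≫ C.emb.left : T ⟶ PS k (Fin 3)) ⁻¹ᵁ
      psD j) (b : Γ(T, ⊤)) (hb : IsUnit b) (a : Fin 2 × Fin 3 → Γ(T, ⊤)) :
    (psCoord k (Fin 2 × Fin 3)).Van (z ≫ (psi C).left : T ⟶ PS k (Fin 2 × Fin 3)) a ↔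
      (psCoord k (Fin 3)).Van
        (z ≫ (pullback.snd (l1 k₀ k) C.str).left ≫ C.emb.left : T ⟶ PS k (Fin 3))
        (fun j => b * ∑ l, (psCoord k (Fin 2)).val
          (z ≫ (pullback.fst (l1 k₀ k) C.str).left) i h l * a (l, j)) := by
  rw [hS k₀ k C T z i j h h' a, (psCoord k (Fin 3)).van_iff_of_le _ _ j h']
  have e : ∑ j', (b * ∑ l, (psCoord k (Fin 2)).val
      (z ≫ (pullback.fst (l1 k₀ k) C.str).left) i h l * a (l, j')) *
        (z ≫ (pullback.snd (l1 k₀ k) C.str).left ≫ C.emb.left : T ⟶ PS k (Fin 3)).appLE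
          ((psCoord k (Fin 3)).D j) ⊤ h' ((psCoord k (Fin 3)).f j j') =
      b * ∑ p, a p * ((psCoord k (Fin 2)).val (z ≫ (pullback.fst (l1 k₀ k) C.str).left) i h p.1 *
      (psCoord k (Fin 3)).val (z ≫ (pullback.snd (l1 k₀ k) C.str).left ≫ C.emb.left) j h'
        p.2) := by
    rw [Fintype.sum_prod_type_right, Finset.mul_sum]
    refine Finset.sum_congr rfl fun j' _ => ?_
    rw [mul_assoc, Finset.sum_mul]
    refine congrArg (fun t => b * t) (Finset.sum_congr rfl fun l _ => ?_)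
    change _ * (psCoord k (Fin 3)).val
      (z ≫ (pullback.snd (l1 k₀ k) C.str).left ≫ C.emb.left) j h' j' = _
    ring
  rw [e]
  exact (hb.mul_right_eq_zero).symm

theorem cover {T : Scheme.{0}} (y : T ⟶ PS k (Fin 3)) :
    ⨆ j, y ⁻¹ᵁ psD j = ⊤ := by
  rw [eq_top_iff]
  intro x _
  obtain ⟨i, hi⟩ := TopologicalSpace.Opens.mem_iSup.1
    ((iSup_psD (k := k) (κ := Fin 3)).ge (Set.mem_univ (y x)))
  exact TopologicalSpace.Opens.mem_iSup.2 ⟨i, hi⟩

theorem van_core (hS : StSegVan) (C : PCurve k₀ k) {T : Scheme.{0}} (z : T ⟶ (PC C).left)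
    (i : Fin 2)
    (h : ⊤ ≤ (z ≫ (pullback.fst (l1 k₀ k) C.str).left : T ⟶ PS k (Fin 2)) ⁻¹ᵁ psD i)
    (b : Γ(T, ⊤)) (hb : IsUnit b) (a : Fin 2 × Fin 3 → Γ(T, ⊤)) :
    (psCoord k (Fin 2 × Fin 3)).Van (z ≫ (psi C).left : T ⟶ PS k (Fin 2 × Fin 3)) a ↔
      (psCoord k (Fin 3)).Van
        (z ≫ (pullback.snd (l1 k₀ k) C.str).left ≫ C.emb.left : T ⟶ PS k (Fin 3))
        (fun j => b * ∑ l, (psCoord k (Fin 2)).val
          (z ≫ (pullback.fst (l1 k₀ k) C.str).left) i h l * a (l, j)) := by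
  set y : T ⟶ PS k (Fin 3) := z ≫ (pullback.snd (l1 k₀ k) C.str).left ≫ C.emb.left with hy
  have key : ∀ j : Fin 3,
      (psCoord k (Fin 2 × Fin 3)).Van ((y ⁻¹ᵁ psD j).ι ≫ z ≫ (psi C).left :
        ((y ⁻¹ᵁ psD j : T.Opens) : Scheme.{0}) ⟶ PS k (Fin 2 × Fin 3))
        (fun p => (y ⁻¹ᵁ psD j).ι.appTop (a p)) ↔
      (psCoord k (Fin 3)).Van ((y ⁻¹ᵁ psD j).ι ≫ y)
        (fun j' => (y ⁻¹ᵁ psD j).ι.appTop (b * ∑ l, (psCoord k (Fin 2)).val
          (z ≫ (pullback.fst (l1 k₀ k) C.str).left) i h l * a (l, j'))) := by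
    intro j
    set V := y ⁻¹ᵁ psD j with hV
    have h1 : ⊤ ≤ ((V.ι ≫ z) ≫ (pullback.fst (l1 k₀ k) C.str).left :
        (V : Scheme.{0}) ⟶ PS k (Fin 2)) ⁻¹ᵁ psD i := fun x _ => h (Set.mem_univ _)
    have h2 : ⊤ ≤ ((V.ι ≫ z) ≫ (pullback.snd (l1 k₀ k) C.str).left ≫ C.emb.left :
        (V : Scheme.{0}) ⟶ PS k (Fin 3)) ⁻¹ᵁ psD j := fun x _ => x.2
    have h3 := van_core0 hS C (V.ι ≫ z) i j h1 h2 (V.ι.appTop b) (hb.map V.ι.appTop.hom)
      (fun p => V.ι.appTop (a p))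
    have e1 : (fun j' => V.ι.appTop (b * ∑ l, (psCoord k (Fin 2)).val
        (z ≫ (pullback.fst (l1 k₀ k) C.str).left) i h l * a (l, j'))) =
        fun j' => V.ι.appTop b * ∑ l, (psCoord k (Fin 2)).val
          ((V.ι ≫ z) ≫ (pullback.fst (l1 k₀ k) C.str).left) i h1 l * V.ι.appTop (a (l, j')) := by
      funext j'
      rw [map_mul, map_sum]
      refine congrArg (fun t => V.ι.appTop b * t) (Finset.sum_congr rfl fun l _ => ?_)
      rw [map_mul]
      refine congrArg (fun t => t * V.ι.appTop (a (l, j'))) ?_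
      exact ((psCoord k (Fin 2)).val_comp V.ι (z ≫ (pullback.fst (l1 k₀ k) C.str).left) i h h1
        l).symm
    rw [e1]
    constructor
    · intro H
      exact Two.GraphAux.van_congr (Category.assoc _ _ _)
        (h3.1 (Two.GraphAux.van_congr (Category.assoc _ _ _).symm H))
    · intro H
      exact Two.GraphAux.van_congr (Category.assoc _ _ _)
        (h3.2 (Two.GraphAux.van_congr (Category.assoc _ _ _).symm H))
  constructor
  · intro H
    refine Two.GraphAux.van_loc _ _ (fun j : Fin 3 => y ⁻¹ᵁ psD j) (cover y) fun j => ?_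
    exact (key j).1 (PreCoord.Van.comp _ (y ⁻¹ᵁ psD j).ι H)
  · intro H
    refine Two.GraphAux.van_loc _ _ (fun j : Fin 3 => y ⁻¹ᵁ psD j) (cover y) fun j => ?_
    exact (key j).2 (PreCoord.Van.comp _ (y ⁻¹ᵁ psD j).ι H)

end van

section co

variable {k₀ k : Type} [Field k₀] [Field k] [Algebra k₀ k]
  {M : Type} [Field M] [Algebra k₀ M]

/-- The coefficients of the linear form. -/
noncomputable def co {B : Sch k₀} (x : B ⟶ L1 k₀ k) (s : B ⟶ pt k₀ M) (i : Fin 2)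
    (h : ⊤ ≤ (x.left : B.left ⟶ PS k (Fin 2)) ⁻¹ᵁ psD i) (c : M) (a : Fin 2 × Fin 3 → M)
    (j : Fin 3) : Γ(B.left, ⊤) :=
  Hyp.val (s.left : B.left ⟶ Spec (CommRingCat.of M)) c *
    ∑ l, (psCoord k (Fin 2)).val x.left i h l *
      Hyp.val (s.left : B.left ⟶ Spec (CommRingCat.of M)) (a (l, j))

theorem val_left {B T : Sch k₀} (t : T ⟶ B) (s : B ⟶ pt k₀ M) (m : M) :
    t.left.appTop (Hyp.val (s.left : B.left ⟶ Spec (CommRingCat.of M)) m) =
      Hyp.val ((t ≫ s).left : T.left ⟶ Spec (CommRingCat.of M)) m :=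
  (DFunLike.congr_fun (Hyp.val_comp t.left (s.left : B.left ⟶ Spec (CommRingCat.of M))) m).symm

theorem co_comp {B T : Sch k₀} (t : T ⟶ B) (x : B ⟶ L1 k₀ k) (s : B ⟶ pt k₀ M) (i : Fin 2)
    (h : ⊤ ≤ (x.left : B.left ⟶ PS k (Fin 2)) ⁻¹ᵁ psD i)
    (h' : ⊤ ≤ ((t ≫ x).left : T.left ⟶ PS k (Fin 2)) ⁻¹ᵁ psD i) (c : M)
    (a : Fin 2 × Fin 3 → M) (j : Fin 3) :
    t.left.appTop (co x s i h c a j) = co (t ≫ x) (t ≫ s) i h' c a j := by
  unfold co
  rw [map_mul, map_sum, val_left]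
  refine congrArg (fun w => Hyp.val ((t ≫ s).left : T.left ⟶ Spec (CommRingCat.of M)) c * w)
    (Finset.sum_congr rfl fun l _ => ?_)
  rw [map_mul, val_left]
  refine congrArg (fun w => w * Hyp.val ((t ≫ s).left : T.left ⟶ Spec (CommRingCat.of M))
    (a (l, j))) ?_
  exact ((psCoord k (Fin 2)).val_comp t.left x.left i h h' l).symm

/-- Points of `D_a`. -/
theorem mem_iff (hS : StSegVan) (C : PCurve k₀ k) {T : Sch k₀} (z : T ⟶ PC C) (x : T ⟶ L1 k₀ k)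
    (y : T ⟶ C.X) (hx : z ≫ pullback.fst _ _ = x) (hy : z ≫ pullback.snd _ _ = y) (i : Fin 2)
    (h : ⊤ ≤ (x.left : T.left ⟶ PS k (Fin 2)) ⁻¹ᵁ psD i) (s : T ⟶ pt k₀ M) (c : M) (hc : c ≠ 0)
    (a : Fin 2 × Fin 3 → M) : Mem (psi C) a z s ↔ VanO (y ≫ C.emb) (co x s i h c a) := by
  subst hx
  subst hy
  have hu : IsUnit (Hyp.val (s.left : T.left ⟶ Spec (CommRingCat.of M)) c) :=
    (IsUnit.mk0 c hc).map _
  have h1 := van_core hS C z.left i h _ hu
    (fun p => Hyp.val (s.left : T.left ⟶ Spec (CommRingCat.of M)) (a p))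
  have e : ((z ≫ pullback.snd (l1 k₀ k) C.str) ≫ C.emb).left =
      z.left ≫ (pullback.snd (l1 k₀ k) C.str).left ≫ C.emb.left := by
    rw [Category.assoc]
    rfl
  unfold VanO
  rw [e]
  exact h1

end co

section chart

variable {k₀ k : Type} [Field k₀] [Field k] [Algebra k₀ k]
  {M : Type} [Field M] [Algebra k₀ M] [Algebra k M] [IsScalarTower k₀ k M]

theorem chart (hS : StSegVan) (C : PCurve k₀ k) {a : Fin 2 × Fin 3 → M} {D : Sch k₀}
    {r : D ⟶ PC C} {u : D ⟶ pt k₀ M} (H : IsMem (pc C) (psi C) a r u)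
    {δ : D ⟶ pullback (l1 k₀ k) (pm k₀ k M)}
    (h1 : δ ≫ pullback.fst _ _ = r ≫ pullback.fst _ _) (h2 : δ ≫ pullback.snd _ _ = u)
    {B : Sch k₀} (o : B ⟶ pullback (l1 k₀ k) (pm k₀ k M)) (i : Fin 2)
    (hG : ⊤ ≤ ((o ≫ pullback.fst _ _).left : B.left ⟶ PS k (Fin 2)) ⁻¹ᵁ psD i) (c : M)
    (hc : c ≠ 0) {D' : Sch k₀} {q : D' ⟶ D} {toB' : D' ⟶ B} (pb : IsPullback q toB' δ o) :
    IsZero C.emb (o ≫ pullback.fst _ _ ≫ l1 k₀ k)
      (co (o ≫ pullback.fst _ _) (o ≫ pullback.snd _ _) i hG c a) toB'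
      (q ≫ r ≫ pullback.snd _ _) := by
  have hq : pullback.fst (l1 k₀ k) (pm k₀ k M) ≫ l1 k₀ k =
    pullback.snd (l1 k₀ k) (pm k₀ k M) ≫ pm k₀ k M := pullback.condition
  have hc' : (q ≫ r ≫ pullback.snd (l1 k₀ k) C.str) ≫ C.emb ≫ PSo.str k₀ k (Fin 3) =
      toB' ≫ o ≫ pullback.fst (l1 k₀ k) (pm k₀ k M) ≫ l1 k₀ k := by
    rw [C.emb_str, Category.assoc, Category.assoc, ← pullback.condition, ← Category.assoc r,
      ← h1, ← Category.assoc toB', ← pb.w]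
    simp only [Category.assoc]
  -- the functor of points
  have hiff : ∀ (T : Sch k₀) (t : T ⟶ B) (y : T ⟶ C.X),
      y ≫ C.emb ≫ PSo.str k₀ k (Fin 3) = t ≫ o ≫ pullback.fst (l1 k₀ k) (pm k₀ k M) ≫ l1 k₀ k →
      ((∃ v, v ≫ toB' = t ∧ v ≫ q ≫ r ≫ pullback.snd (l1 k₀ k) C.str = y) ↔
        VanO (y ≫ C.emb) (fun j => t.left.appTop
          (co (o ≫ pullback.fst _ _) (o ≫ pullback.snd _ _) i hG c a j))) := by
    intro T t y hty
    rw [C.emb_str] at hty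
    have hz : (t ≫ o ≫ pullback.fst (l1 k₀ k) (pm k₀ k M)) ≫ l1 k₀ k = y ≫ C.str := by
      rw [hty]
      simp only [Category.assoc]
    let z : T ⟶ PC C := pullback.lift (t ≫ o ≫ pullback.fst _ _) y hz
    have z1 : z ≫ pullback.fst _ _ = t ≫ o ≫ pullback.fst _ _ := pullback.lift_fst _ _ _
    have z2 : z ≫ pullback.snd _ _ = y := pullback.lift_snd _ _ _
    have hG' : ⊤ ≤ ((t ≫ o ≫ pullback.fst (l1 k₀ k) (pm k₀ k M)).left :
        T.left ⟶ PS k (Fin 2)) ⁻¹ᵁ psD i := fun w _ => hG (Set.mem_univ _)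
    have e : (fun j => t.left.appTop
        (co (o ≫ pullback.fst _ _) (o ≫ pullback.snd _ _) i hG c a j)) =
        co (t ≫ o ≫ pullback.fst _ _) (t ≫ o ≫ pullback.snd _ _) i hG' c a := by
      funext j
      exact co_comp t _ _ i hG hG' c a j
    rw [e, ← mem_iff hS C z _ y z1 z2 i hG' (t ≫ o ≫ pullback.snd _ _) c hc a]
    constructor
    · rintro ⟨v, hv1, hv2⟩
      have e1 : (v ≫ q) ≫ r = z := by
        refine pullback.hom_ext ?_ ?_
        · rw [z1, ← hv1, Category.assoc, Category.assoc, ← h1, Category.assoc, reassoc_of% pb.w]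
        · rw [z2, ← hv2]
          simp only [Category.assoc]
      have e2 : (v ≫ q) ≫ u = t ≫ o ≫ pullback.snd _ _ := by
        rw [← hv1, Category.assoc, ← h2, Category.assoc, reassoc_of% pb.w]
      rw [← e1, ← e2]
      exact Two.USmAux.mem_comp (psi C) H.mem (v ≫ q)
    · intro hm
      have e3 : z ≫ pc C = (t ≫ o ≫ pullback.snd (l1 k₀ k) (pm k₀ k M)) ≫
          ptMap k₀ (IsScalarTower.toAlgHom k₀ k M) := by
        rw [← Category.assoc z, z1, Category.assoc, Category.assoc, hq]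
        simp only [Category.assoc]
      obtain ⟨t', ht1, ht2⟩ := H.lift T z _ e3 hm
      have e4 : t' ≫ δ = t ≫ o := by
        refine pullback.hom_ext ?_ ?_
        · rw [Category.assoc, h1, reassoc_of% ht1, z1, Category.assoc]
        · rw [Category.assoc, h2, ht2, Category.assoc]
      refine ⟨pb.lift t' t e4, pb.lift_snd _ _ _, ?_⟩
      rw [← Category.assoc, pb.lift_fst, ← Category.assoc, ht1, z2]
  -- uniqueness
  have hext : ∀ (T : Sch k₀) (v v' : T ⟶ D'), v ≫ toB' = v' ≫ toB' →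
      v ≫ q ≫ r ≫ pullback.snd (l1 k₀ k) C.str = v' ≫ q ≫ r ≫ pullback.snd (l1 k₀ k) C.str →
      v = v' := by
    intro T v v' hv1 hv2
    refine pb.hom_ext (H.ext T _ _ (pullback.hom_ext ?_ ?_) ?_) hv1
    · rw [Category.assoc, Category.assoc, Category.assoc, Category.assoc, ← h1,
        reassoc_of% pb.w, reassoc_of% hv1]
    · simpa only [Category.assoc] using hv2
    · rw [Category.assoc, Category.assoc, ← h2, reassoc_of% pb.w, reassoc_of% hv1]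
  refine ⟨hc', ?_, fun T t y h => hiff T t y h⟩
  obtain ⟨D'', toB'', toY'', H''⟩ := tZeroEx k₀ k (Fin 3) C.X C.emb B
    (o ≫ pullback.fst _ _ ≫ l1 k₀ k)
    (co (o ≫ pullback.fst _ _) (o ≫ pullback.snd _ _) i hG c a)
  obtain ⟨f, hf1, hf2⟩ := (H''.iff D' toB' (q ≫ r ≫ pullback.snd _ _) hc').2
    ((hiff D' toB' (q ≫ r ≫ pullback.snd _ _) hc').1
      ⟨𝟙 _, Category.id_comp _, Category.id_comp _⟩)
  obtain ⟨g, hg1, hg2⟩ := (hiff D'' toB'' toY'' H''.comm).2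
    ((H''.iff D'' toB'' toY'' H''.comm).1 ⟨𝟙 _, Category.id_comp _, Category.id_comp _⟩)
  have hfg : f ≫ g = 𝟙 _ := by
    refine hext _ _ _ ?_ ?_
    · rw [Category.assoc, hg1, hf1, Category.id_comp]
    · rw [Category.assoc, hg2, hf2, Category.id_comp]
  have hgf : g ≫ f = 𝟙 _ := by
    refine zero_ext H'' ?_ ?_
    · rw [Category.assoc, hf1, hg1, Category.id_comp]
    · rw [Category.assoc, hf2, hg2, Category.id_comp]
  have hiso : IsIso f := ⟨g, hfg, hgf⟩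
  have hiso' : IsIso f.left := (Over.forget _).map_isIso f
  have e5 : pullback.lift (q ≫ r ≫ pullback.snd (l1 k₀ k) C.str) toB' hc' =
      f ≫ pullback.lift toY'' toB'' H''.comm := by
    refine pullback.hom_ext ?_ ?_
    · rw [pullback.lift_fst, Category.assoc, pullback.lift_fst, hf2]
    · rw [pullback.lift_snd, Category.assoc, pullback.lift_snd, hf1]
  rw [e5]
  have h5 := H''.closed
  exact inferInstanceAs (IsClosedImmersion (f.left ≫ (pullback.lift toY'' toB'' H''.comm).left))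

/-- The chart of `ℙ¹` over `M`. -/
noncomputable abbrev VV (k₀ k M : Type) [Field k₀] [Field k] [Algebra k₀ k] [Field M]
    [Algebra k₀ M] [Algebra k M] [IsScalarTower k₀ k M] (i : Fin 2) :
    (pullback (l1 k₀ k) (pm k₀ k M)).left.Opens :=
  ((pullback.fst (l1 k₀ k) (pm k₀ k M)).left : _ ⟶ PS k (Fin 2)) ⁻¹ᵁ psD i

/-- The constants. -/
noncomputable def phi (k₀ k : Type) [Field k₀] [Field k] [Algebra k₀ k] (M : Type) [Field M]
    [Algebra k₀ M] [Algebra k M] [IsScalarTower k₀ k M] (i : Fin 2) :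
    M →+* Γ((pullback (l1 k₀ k) (pm k₀ k M)).left, VV k₀ k M i) :=
  ((Scheme.ΓSpecIso (CommRingCat.of M)).inv ≫
    (pullback.snd (l1 k₀ k) (pm k₀ k M)).left.appLE ⊤ (VV k₀ k M i) le_top).hom

/-- The coordinates. -/
noncomputable def xi (k₀ k : Type) [Field k₀] [Field k] [Algebra k₀ k] (M : Type) [Field M]
    [Algebra k₀ M] [Algebra k M] [IsScalarTower k₀ k M] (i l : Fin 2) :
    Γ((pullback (l1 k₀ k) (pm k₀ k M)).left, VV k₀ k M i) :=
  ((pullback.fst (l1 k₀ k) (pm k₀ k M)).left : _ ⟶ PS k (Fin 2)).app (psD i) (psf i l)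

/-- The value of the polynomial. -/
noncomputable def RR (k₀ : Type) {k : Type} [Field k₀] [Field k] [Algebra k₀ k] {M : Type}
    [Field M] [Algebra k₀ M] [Algebra k M] [IsScalarTower k₀ k M] (i : Fin 2) (c : M)
    (a : Fin 2 × Fin 3 → M) (P : MvPolynomial (Fin 3) k) :
    Γ((pullback (l1 k₀ k) (pm k₀ k M)).left, VV k₀ k M i) :=
  MvPolynomial.eval₂ ((phi k₀ k M i).comp (algebraMap k M))
    (fun j => phi k₀ k M i c * ∑ l, xi k₀ k M i l * phi k₀ k M i (a (l, j))) P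

theorem cst_eq {B : Sch k₀} (o : B ⟶ pullback (l1 k₀ k) (pm k₀ k M)) :
    cstHom (o ≫ pullback.fst (l1 k₀ k) (pm k₀ k M) ≫ l1 k₀ k) =
      (Hyp.val ((o ≫ pullback.snd (l1 k₀ k) (pm k₀ k M)).left :
        B.left ⟶ Spec (CommRingCat.of M))).comp (algebraMap k M) := by
  rw [pullback.condition, ← Category.assoc]
  exact Hyp.val_map ((o ≫ pullback.snd (l1 k₀ k) (pm k₀ k M)).left :
        B.left ⟶ Spec (CommRingCat.of M)) (algebraMap k M)

theorem RR_app {B : Sch k₀} (o : B ⟶ pullback (l1 k₀ k) (pm k₀ k M)) (i : Fin 2)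
    (hV : ⊤ ≤ o.left ⁻¹ᵁ VV k₀ k M i)
    (hG : ⊤ ≤ ((o ≫ pullback.fst _ _).left : B.left ⟶ PS k (Fin 2)) ⁻¹ᵁ psD i) (c : M)
    (a : Fin 2 × Fin 3 → M) (P : MvPolynomial (Fin 3) k) :
    o.left.appLE (VV k₀ k M i) ⊤ hV (RR k₀ i c a P) =
      MvPolynomial.eval₂ (cstHom (o ≫ pullback.fst (l1 k₀ k) (pm k₀ k M) ≫ l1 k₀ k))
        (co (o ≫ pullback.fst _ _) (o ≫ pullback.snd _ _) i hG c a) P := by
  have e1 : ∀ m : M, o.left.appLE (VV k₀ k M i) ⊤ hV (phi k₀ k M i m) =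
      Hyp.val ((o ≫ pullback.snd (l1 k₀ k) (pm k₀ k M)).left :
        B.left ⟶ Spec (CommRingCat.of M)) m := fun m => by
    have h5 := Scheme.Hom.appLE_comp_appLE o.left (pullback.snd (l1 k₀ k) (pm k₀ k M)).left ⊤
      (VV k₀ k M i) ⊤ le_top hV
    have h6 : (o.left ≫ (pullback.snd (l1 k₀ k) (pm k₀ k M)).left).appLE ⊤ ⊤ le_top =
        (o.left ≫ (pullback.snd (l1 k₀ k) (pm k₀ k M)).left).appTop :=
      Scheme.Hom.appLE_eq_app _
    rw [h6] at h5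
    exact congrArg (fun φ => φ ((Scheme.ΓSpecIso (CommRingCat.of M)).inv m)) h5
  have e2 : ∀ l, o.left.appLE (VV k₀ k M i) ⊤ hV (xi k₀ k M i l) =
      (psCoord k (Fin 2)).val (o ≫ pullback.fst _ _).left i hG l := fun l => by
    have h5 := Scheme.Hom.comp_appLE o.left
      ((pullback.fst (l1 k₀ k) (pm k₀ k M)).left : _ ⟶ PS k (Fin 2)) (psD i) ⊤ hG
    exact (congrArg (fun φ => φ (psf i l)) h5).symm
  rw [cst_eq]
  have h := MvPolynomial.eval₂_comp_left (o.left.appLE (VV k₀ k M i) ⊤ hV).hom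
    ((phi k₀ k M i).comp (algebraMap k M))
    (fun j => phi k₀ k M i c * ∑ l, xi k₀ k M i l * phi k₀ k M i (a (l, j))) P
  refine h.trans ?_
  have g1 : (o.left.appLE (VV k₀ k M i) ⊤ hV).hom.comp
      ((phi k₀ k M i).comp (algebraMap k M)) =
      (Hyp.val ((o ≫ pullback.snd (l1 k₀ k) (pm k₀ k M)).left :
        B.left ⟶ Spec (CommRingCat.of M))).comp (algebraMap k M) :=
    RingHom.ext fun b => e1 (algebraMap k M b)
  have g2 : (o.left.appLE (VV k₀ k M i) ⊤ hV).hom ∘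
      (fun j => phi k₀ k M i c * ∑ l, xi k₀ k M i l * phi k₀ k M i (a (l, j))) =
      co (o ≫ pullback.fst _ _) (o ≫ pullback.snd _ _) i hG c a := by
    funext j
    refine (map_mul _ _ _).trans ?_
    refine congrArg₂ (· * ·) (e1 c) ?_
    refine (map_sum _ _ _).trans (Finset.sum_congr rfl fun l _ => ?_)
    refine (map_mul _ _ _).trans ?_
    exact congrArg₂ (· * ·) (e2 l) (e1 _)
  rw [g1, g2]

omit [Algebra k₀ k] [Algebra k₀ M] [IsScalarTower k₀ k M] in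
theorem val_pt {T : Scheme.{0}} (x : T ⟶ PS k (Fin 2)) (w : T ⟶ Spec (CommRingCat.of M))
    (hw : x ≫ psStr k (Fin 2) = w ≫ Spec.map (CommRingCat.ofHom (algebraMap k M)))
    (g : T ⟶ Spec (CommRingCat.of k)) (e : Spec (CommRingCat.of k) ⟶ PS k (Fin 2))
    (he : e ≫ psStr k (Fin 2) = 𝟙 _) (hx : x = g ≫ e) (i : Fin 2)
    (hi : ⊤ ≤ e ⁻¹ᵁ (psCoord k (Fin 2)).D i) (ε : Fin 2 → k)
    (hε : ∀ l, (psCoord k (Fin 2)).val e i hi l =
      (Scheme.ΓSpecIso (CommRingCat.of k)).inv.hom (ε l))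
    (hG : ⊤ ≤ x ⁻¹ᵁ (psCoord k (Fin 2)).D i) (l : Fin 2) :
    (psCoord k (Fin 2)).val x i hG l = Hyp.val w (algebraMap k M (ε l)) := by
  have hg : g = w ≫ Spec.map (CommRingCat.ofHom (algebraMap k M)) := by
    rw [← hw, hx, Category.assoc, he, Category.comp_id]
  rw [Two.NotRatAux.val_section x g e hx i hi ε hε hG l, hg, Hyp.val_map]
  rfl

/-- The open set contains the points over the rational point. -/
theorem mem_O (e : pt k₀ k ⟶ L1 k₀ k) (he : e ≫ l1 k₀ k = 𝟙 _) (i : Fin 2)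
    (hi : ⊤ ≤ (e.left : Spec (CommRingCat.of k) ⟶ PS k (Fin 2)) ⁻¹ᵁ (psCoord k (Fin 2)).D i)
    (ε : Fin 2 → k) (hε : ∀ l, (psCoord k (Fin 2)).val e.left i hi l =
      (Scheme.ΓSpecIso (CommRingCat.of k)).inv.hom (ε l)) (c : M) (a : Fin 2 × Fin 3 → M)
    (P : MvPolynomial (Fin 3) k) (hP : MvPolynomial.aeval (fun j => c * row a ε j) P ≠ 0)
    (x : (pullback (l1 k₀ k) (pm k₀ k M)).left)
    (hx : (pullback.fst (l1 k₀ k) (pm k₀ k M)).left x ∈ Set.range e.left) :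
    x ∈ (pullback (l1 k₀ k) (pm k₀ k M)).left.basicOpen (RR k₀ i c a P) := by
  have he1 : (e.left : Spec (CommRingCat.of k) ⟶ PS k (Fin 2)) ≫ psStr k (Fin 2) = 𝟙 _ :=
    congrArg (fun φ => φ.left) he
  obtain ⟨g, hg⟩ := Two.NotRatAux.sect_fac (psStr k (Fin 2)) e.left he1
    (pullback.fst (l1 k₀ k) (pm k₀ k M)).left x hx
  let B : Sch k₀ := Over.mk ((pullback (l1 k₀ k) (pm k₀ k M)).left.fromSpecResidueField x ≫
    (pullback (l1 k₀ k) (pm k₀ k M)).hom)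
  let o : B ⟶ pullback (l1 k₀ k) (pm k₀ k M) :=
    Over.homMk ((pullback (l1 k₀ k) (pm k₀ k M)).left.fromSpecResidueField x)
  have hge : ((o ≫ pullback.fst _ _).left : B.left ⟶ PS k (Fin 2)) = g ≫ e.left := hg
  have hG : ⊤ ≤ ((o ≫ pullback.fst _ _).left : B.left ⟶ PS k (Fin 2)) ⁻¹ᵁ psD i := by
    rw [hge]
    exact (psCoord k (Fin 2)).top_le_comp g hi
  have hw : ((o ≫ pullback.fst _ _).left : B.left ⟶ PS k (Fin 2)) ≫ psStr k (Fin 2) =
      ((o ≫ pullback.snd (l1 k₀ k) (pm k₀ k M)).left :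
      B.left ⟶ Spec (CommRingCat.of M)) ≫ Spec.map (CommRingCat.ofHom (algebraMap k M)) := by
    have e1 : (o ≫ pullback.fst (l1 k₀ k) (pm k₀ k M)) ≫ l1 k₀ k =
        (o ≫ pullback.snd (l1 k₀ k) (pm k₀ k M)) ≫ pm k₀ k M := by
      rw [Category.assoc, pullback.condition, Category.assoc]
    exact congrArg (fun φ => φ.left) e1
  have hval : ∀ l, (psCoord k (Fin 2)).val (o ≫ pullback.fst _ _).left i hG l =
      Hyp.val ((o ≫ pullback.snd (l1 k₀ k) (pm k₀ k M)).left :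
        B.left ⟶ Spec (CommRingCat.of M)) (algebraMap k M (ε l)) := fun l =>
    val_pt _ _ hw g e.left he1 hge i hi ε hε hG l
  have hco : co (o ≫ pullback.fst _ _) (o ≫ pullback.snd _ _) i hG c a =
      fun j => Hyp.val ((o ≫ pullback.snd (l1 k₀ k) (pm k₀ k M)).left :
        B.left ⟶ Spec (CommRingCat.of M)) (c * row a ε j) := by
    funext j
    unfold co row
    rw [map_mul, map_sum]
    refine congrArg (fun w => _ * w) (Finset.sum_congr rfl fun l _ => ?_)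
    rw [hval l, map_mul]
  have hV : ⊤ ≤ o.left ⁻¹ᵁ VV k₀ k M i := hG
  have hun : IsUnit (o.left.appLE (VV k₀ k M i) ⊤ hV (RR k₀ i c a P)) := by
    rw [RR_app o i hV hG c a P, hco, cst_eq]
    have h7 := MvPolynomial.eval₂_comp_left
      (Hyp.val ((o ≫ pullback.snd (l1 k₀ k) (pm k₀ k M)).left :
        B.left ⟶ Spec (CommRingCat.of M))) (algebraMap k M) (fun j => c * row a ε j) P
    have h8 : IsUnit (MvPolynomial.eval₂ (algebraMap k M) (fun j => c * row a ε j) P) :=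
      IsUnit.mk0 _ hP
    have h9 := h8.map (Hyp.val ((o ≫ pullback.snd (l1 k₀ k) (pm k₀ k M)).left :
        B.left ⟶ Spec (CommRingCat.of M)))
    rw [h7] at h9
    exact h9
  have hz := pencilg_unit_top (RR k₀ i c a P) o.left hV hun
    (IsLocalRing.closedPoint ((pullback (l1 k₀ k) (pm k₀ k M)).left.residueField x))
  have hox : o.left (IsLocalRing.closedPoint
      ((pullback (l1 k₀ k) (pm k₀ k M)).left.residueField x)) = x :=
    Scheme.fromSpecResidueField_apply _ _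
  rw [hox] at hz
  exact hz

end chart

end EtCAux

open EtCAux

theorem tEtC (h : StSegVan) : StEtC := by
  intro k₀ k _ _ _ C
  have sC : SmoothOfRelativeDimension (0 + 1) C.str.left := C.isVar.smooth
  obtain ⟨P, hP, B₁⟩ := tBertOpen k₀ k (Fin 3) C.X C.str C.emb C.emb_str C.closed 0 sC
  refine ⟨P, hP, fun e he => ?_⟩
  obtain ⟨i, hi, ε, hεi, hε⟩ := Two.NotRatAux.coords
    (e.left : Spec (CommRingCat.of k) ⟶ PS k (Fin 2))
  refine ⟨ε, fun h0 => ?_, ?_⟩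
  · rw [h0] at hεi
    exact zero_ne_one hεi
  intro M _ _ _ _ a ⟨c, hc, hPc⟩ D r u δ H h1 h2
  let R := RR k₀ i c a P
  let O : (pullback (l1 k₀ k) (pm k₀ k M)).left.Opens :=
    (pullback (l1 k₀ k) (pm k₀ k M)).left.basicOpen R
  refine ⟨O, fun x hx => mem_O e he i hi ε hε c a P hPc x hx, ?_⟩
  let B : Sch k₀ := Over.mk (O.ι ≫ (pullback (l1 k₀ k) (pm k₀ k M)).hom)
  let o : B ⟶ pullback (l1 k₀ k) (pm k₀ k M) := Over.homMk O.ι
  have hO : ⊤ ≤ O.ι ⁻¹ᵁ VV k₀ k M i := by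
    intro y _
    exact (pullback (l1 k₀ k) (pm k₀ k M)).left.basicOpen_le R y.2
  have hG : ⊤ ≤ ((o ≫ pullback.fst _ _).left : B.left ⟶ PS k (Fin 2)) ⁻¹ᵁ psD i := hO
  let D' : Sch k₀ := Over.mk ((δ.left ⁻¹ᵁ O).ι ≫ D.hom)
  let q : D' ⟶ D := Over.homMk (δ.left ⁻¹ᵁ O).ι
  let toB' : D' ⟶ B := Over.homMk (δ.left ∣_ O) (by
    change (δ.left ∣_ O) ≫ O.ι ≫ (pullback (l1 k₀ k) (pm k₀ k M)).hom =
      (δ.left ⁻¹ᵁ O).ι ≫ D.hom
    rw [← Category.assoc, morphismRestrict_ι, Category.assoc]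
    exact congrArg (fun φ => (δ.left ⁻¹ᵁ O).ι ≫ φ) (Over.w δ))
  have pb : IsPullback q toB' δ o :=
    over_isPullback _ _ _ _ (isPullback_morphismRestrict δ.left O).flip
  have zO := chart h C H h1 h2 o i hG c hc pb
  refine B₁ B (o ≫ pullback.fst _ _ ≫ l1 k₀ k) _ D' toB' _ zO ?_
  have e1 := RR_app o i hO hG c a P
  rw [← e1]
  exact pencilg_unit_basic R hO

end Pool.Agent.Lib.MP_4ca46c_ag.C5
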