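import Mathlib
import Pool.Agent.Lib.MP_4ca46c_ag.C5.SpecH

/-!
# H07: schemes étale over an algebraically closed field
-/

set_option autoImplicit false

namespace Pool.Agent.Lib.MP_4ca46c_ag.C5

open CategoryTheory Limits AlgebraicGeometry
open Pool.Agent.Lib.MP_4ca46c_ag.Sign Pool.Agent.Lib.MP_4ca46c_ag.Hyp
open Pool.Agent.Lib.MP_4ca46c_ag.Std Pool.Agent.Lib.MP_4ca46c_ag.Geo

namespace EtPtAux

lemma lqf {X Y : Scheme.{0}} (f : X ⟶ Y) [Etale f] : LocallyQuasiFinite f := by
  refine ⟨fun {U} hU {V} hV e => ?_⟩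
  have h := Scheme.Hom.etale_appLE f hU hV e
  algebraize [(f.appLE U V e).hom]
  change Algebra.QuasiFinite _ _
  infer_instance

lemma closed_pt {X : Scheme.{0}} {k : Type} [Field k] (f : X ⟶ Spec (.of k))
    [LocallyQuasiFinite f] (y : X) : IsClosed ({y} : Set X) := by
  have h : _root_.IsDiscrete (f ⁻¹' {f y}) := f.isDiscrete_preimage_singleton (f y)
  have h1 : f ⁻¹' {f y} = Set.univ := by
    ext z
    simp only [Set.mem_preimage, Set.mem_singleton_iff, Set.mem_univ, iff_true]
    have : Subsingleton (Spec (CommRingCat.of k)) := by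
      change Subsingleton (PrimeSpectrum k)
      infer_instance
    exact Subsingleton.elim _ _
  rw [h1] at h
  have h2 : DiscreteTopology X := isDiscrete_univ_iff.1 h
  exact isClosed_discrete _

end EtPtAux

/-- **H07.** -/
theorem tEtPt : StEtPt := by
  intro k₀ k _ _ _ _ X s hs y
  let f : X.left ⟶ Spec (CommRingCat.of k) := s.left
  have hf0 : SmoothOfRelativeDimension 0 f := hs
  have hfe : Etale f := (Etale.iff_smoothOfRelativeDimension_zero f).2 hf0
  have hq : LocallyQuasiFinite f := EtPtAux.lqf f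
  have hft : LocallyOfFiniteType f := inferInstance
  have hy : IsClosed ({y} : Set X.left) := EtPtAux.closed_pt f y
  let p₀ : Spec (CommRingCat.of k) ⟶ X.left := pointOfClosedPoint f y hy
  have hp₀ : p₀ ≫ f = 𝟙 _ := pointOfClosedPoint_comp f y hy
  have hw : s.left ≫ (pt k₀ k).hom = X.hom := Over.w s
  refine ⟨Over.homMk p₀ ?_, ?_, ?_⟩
  · rw [← hw]
    change p₀ ≫ f ≫ (pt k₀ k).hom = (pt k₀ k).hom
    rw [← Category.assoc, hp₀]
    exact Category.id_comp _
  · apply Over.OverMorphism.ext
    exact hp₀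
  · obtain ⟨a⟩ : Nonempty (Spec (CommRingCat.of k)) := by
      change Nonempty (PrimeSpectrum k)
      infer_instance
    exact ⟨a, pointOfClosedPoint_apply f y hy a⟩

end Pool.Agent.Lib.MP_4ca46c_ag.C5
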