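import Mathlib
import Pool.Agent.Lib.MP_4ca46c_ag.C5.SpecH

/-!
# H05: the morphism `x` is étale over `e`
-/

set_option autoImplicit false

namespace Pool.Agent.Lib.MP_4ca46c_ag.C5

open CategoryTheory Limits AlgebraicGeometry
open Pool.Agent.Lib.MP_4ca46c_ag.Sign Pool.Agent.Lib.MP_4ca46c_ag.Hyp
open Pool.Agent.Lib.MP_4ca46c_ag.Std Pool.Agent.Lib.MP_4ca46c_ag.Geo
open Pool.Agent.Lib.MP_4ca46c_ag.Two (IsMem Fib Net)

namespace EtXAux

theorem pm_self (k₀ k : Type) [Field k₀] [Field k] [Algebra k₀ k] : pm k₀ k k = 𝟙 (pt k₀ k) := by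
  apply Over.OverMorphism.ext
  change Spec.map _ = 𝟙 _
  exact Spec.map_id _

theorem restrict {X Y Z : Scheme.{0}} (δ : X ⟶ Y) (π : Y ⟶ Z) [IsIso π] (O : Z.Opens)
    (h : SmoothOfRelativeDimension 0 (δ ∣_ (π ⁻¹ᵁ O))) :
    SmoothOfRelativeDimension 0 ((δ ≫ π) ∣_ O) := by
  rw [morphismRestrict_comp]
  have h2 : SmoothOfRelativeDimension 0 (π ∣_ O) := inferInstance
  exact inferInstanceAs (SmoothOfRelativeDimension (0 + 0) (δ ∣_ (π ⁻¹ᵁ O) ≫ π ∣_ O))

theorem exists_open {Y Z : Scheme.{0}} (π : Y ⟶ Z) [IsIso π] (O' : Y.Opens) :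
    ∃ O : Z.Opens, π ⁻¹ᵁ O = O' := by
  refine ⟨(inv π) ⁻¹ᵁ O', ?_⟩
  rw [← Scheme.Hom.comp_preimage, IsIso.hom_inv_id]
  rfl

end EtXAux

open EtXAux

theorem tEtX : StEtX := by
  intro k₀ k _ _ _ C l x hx hM e hE
  have hpm : IsIso (pm k₀ k k) := by
    rw [pm_self]
    infer_instance
  have hc : x ≫ l1 k₀ k = C.str ≫ pm k₀ k k := by rw [pm_self, Category.comp_id, hx]
  obtain ⟨O', hO', hs⟩ := hE C.X _ C.str (pullback.lift x C.str hc) hM
    (by rw [pullback.lift_fst, pullback.lift_fst]) (pullback.lift_snd _ _ _)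
  have hiso : IsIso (pullback.fst (l1 k₀ k) (pm k₀ k k)) := inferInstance
  have hiso' : IsIso (pullback.fst (l1 k₀ k) (pm k₀ k k)).left :=
    inferInstanceAs (IsIso ((Over.forget _).map (pullback.fst (l1 k₀ k) (pm k₀ k k))))
  obtain ⟨O, rfl⟩ := exists_open (pullback.fst (l1 k₀ k) (pm k₀ k k)).left O'
  refine ⟨O, fun t ht => ?_, ?_⟩
  · have h1 : (pullback.fst (l1 k₀ k) (pm k₀ k k)).left
        ((inv (pullback.fst (l1 k₀ k) (pm k₀ k k)).left) t) = t := by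
      rw [← Scheme.Hom.comp_apply, IsIso.inv_hom_id]
      rfl
    have h2 := hO' ((inv (pullback.fst (l1 k₀ k) (pm k₀ k k)).left) t) (by rw [h1]; exact ht)
    have h3 : (pullback.fst (l1 k₀ k) (pm k₀ k k)).left
        ((inv (pullback.fst (l1 k₀ k) (pm k₀ k k)).left) t) ∈ O := h2
    rwa [h1] at h3
  · have h1 : x.left = (pullback.lift x C.str hc).left ≫
        (pullback.fst (l1 k₀ k) (pm k₀ k k)).left := by
      rw [← Over.comp_left, pullback.lift_fst]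
    rw [h1]
    exact restrict _ _ O hs

end Pool.Agent.Lib.MP_4ca46c_ag.C5
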