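import Mathlib
import Pool.Agent.Lib.MP_4ca46c_ag.C5.SpecH

/-!
# The even projector and extensions of algebraically closed fields
-/

set_option autoImplicit false

namespace Pool.Agent.Lib.MP_4ca46c_ag.C5

open CategoryTheory Limits AlgebraicGeometry TensorProduct MonoidalCategory
  CartesianMonoidalCategory
open Pool.Agent.Lib.MP_4ca46c_ag.Sign Pool.Agent.Lib.MP_4ca46c_ag.Hyp
open Pool.Agent.Lib.MP_4ca46c_ag.Std Pool.Agent.Lib.MP_4ca46c_ag.Geo
open Pool.Agent.Lib.MP_4ca46c_ag.Geo.WeilCohomology
open Pool.Agent.Lib.MP_4ca46c_ag.Two (IsMem Fib Net StNetVar AlgDesc)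

namespace EvBCAux

variable {k₀ K : Type} [Field k₀] [Field K] [CharZero K] (T : WeilTheory k₀ K)
  {M L : Type} [Field M] [Algebra k₀ M] [IsAlgClosed M] [Field L] [Algebra k₀ L] [IsAlgClosed L]
  {X : Var k₀ M} {X' : Var k₀ L} {g : X'.X ⟶ X.X}

/-- the pull-back is compatible with the even projector -/
theorem even_pull (a : T.H X.X) :
    (weil T L).even X' (T.pullH g a : T.H X'.X) = T.pullH g ((weil T M).even X a) := by
  have wX : IsWeil X.X := X.isVar.isWeil
  have wX' : IsWeil X'.X := X'.isVar.isWeil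
  refine (weil T M).ind (X := X) (P := fun a => (weil T L).even X' (T.pullH g a : T.H X'.X) =
    T.pullH g ((weil T M).even X a)) a ?_ (fun l x hx => ?_) (fun r s hr hs => ?_)
  · have h1 : T.pullH g (0 : T.H X.X) = 0 := map_zero _
    have h2 : (weil T M).even X (0 : (weil T M).H X) = 0 := map_zero _
    have h3 : (weil T L).even X' (0 : (weil T L).H X') = 0 := map_zero _
    refine Eq.trans ?_ (congrArg (T.pullH g) h2.symm)
    refine (congrArg ((weil T L).even X') h1).trans ?_
    exact h3.trans h1.symm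
  · have hx' : (T.pullH g x : T.H X'.X) ∈ (weil T L).gr X' l := T.pullH_mem g wX' wX l x hx
    rcases Nat.even_or_odd l with hl | hl
    · rw [(weil T M).even_even hx hl]
      exact (weil T L).even_even hx' hl
    · rw [(weil T M).even_odd hx hl]
      refine ((weil T L).even_odd hx' hl).trans ?_
      exact (map_zero (T.pullH g)).symm
  · have h1 : T.pullH g (r + s) = T.pullH g r + T.pullH g s := map_add _ _ _
    have h2 : (weil T M).even X (r + s) = (weil T M).even X r + (weil T M).even X s :=
      map_add _ _ _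
    have h3 := map_add ((weil T L).even X') (T.pullH g r : T.H X'.X) (T.pullH g s : T.H X'.X)
    have h4 := map_add (T.pullH g) ((weil T M).even X r : T.H X.X)
      ((weil T M).even X s : T.H X.X)
    refine (congrArg ((weil T L).even X') h1).trans ?_
    refine h3.trans ?_
    refine Eq.trans ?_ (congrArg (T.pullH g) h2.symm)
    refine Eq.trans ?_ h4.symm
    exact congrArg₂ (fun a b : T.H X'.X => a + b) hr hs

end EvBCAux

theorem tEvBC (k₀ K : Type) [Field k₀] [Field K] [CharZero K] : StEvBC k₀ K := by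
  intro T E k L _ _ _ _ _ _ _ _ X X' g hd hg
  constructor
  · intro hK
    obtain ⟨-, ⟨-, surj⟩, hφ⟩ := Div.tBC k₀ K T E k L X X' g hd hg
    obtain ⟨φ, h1, h2⟩ := hφ 0 _ hK
    have h3 : φ = (weil T L).even X' := by
      refine LinearMap.ext fun y => ?_
      obtain ⟨x, rfl⟩ := surj y
      exact (h2 x).trans (EvBCAux.even_pull T x).symm
    rw [← h3]
    exact h1
  · intro H hK
    obtain ⟨-, ⟨inj, -⟩, -⟩ := Div.tBC k₀ K T E k L X X' g hd hg
    obtain ⟨f₀, hf₀, h⟩ := Two.desc_cor E H hd hg 0 _ hK
    have h2 : f₀ = (weil T k).even X := by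
      refine (weil T k).hom_ext fun l x hx => inj ?_
      rw [← h x]
      exact EvBCAux.even_pull T x
    rw [← h2]
    exact hf₀

end Pool.Agent.Lib.MP_4ca46c_ag.C5
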