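import Mathlib
import Pool.Agent.Lib.MP_4ca46c_ag.C5.SpecA

/-!
# The factors of `X × Z` are dominated by the generic member
-/

set_option autoImplicit false

namespace Pool.Agent.Lib.MP_4ca46c_ag.C5

open CategoryTheory MonoidalCategory CartesianMonoidalCategory TensorProduct
open Pool.Agent.Lib.MP_4ca46c_ag.Geo Pool.Agent.Lib.MP_4ca46c_ag.Geo.WeilCohomology

namespace EvCAux

variable {K : Type} [Field K] [CharZero K] {𝒱 : Type 1} [Category.{0} 𝒱]
  [CartesianMonoidalCategory 𝒱] (W : WeilCohomology K 𝒱) {X Y : 𝒱}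

/-- Product of decomposable classes, the second factor of the first one being of even degree. -/
theorem tm_mul_even {e : ℕ} (p : W.H X) {q : W.H Y} (hq : q ∈ W.gr Y (2 * e)) (r : W.H X)
    (s : W.H Y) : W.tm p q * W.tm r s = W.tm (p * r) (q * s) := by
  refine W.ind (P := fun r => W.tm p q * W.tm r s = W.tm (p * r) (q * s)) r ?_
    (fun j r hr => ?_) (fun r r' h h' => ?_)
  · rw [W.tm_zero_left, mul_zero, mul_zero, W.tm_zero_left]
  · rw [W.tm_mul p s hq hr]
    have h1 : Even (2 * e * j) := ⟨e * j, by ring⟩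
    rw [h1.neg_one_pow, one_smul]
  · rw [W.tm_add_left, mul_add, h, h', mul_add, W.tm_add_left]

theorem one_gr : (1 : W.H Y) ∈ W.gr Y (2 * 0) := W.alg_gr (W.alg_one Y)

theorem tr_tm (x : W.H X) (y : W.H Y) : W.tr (X ⊗ Y) (W.tm x y) = W.tr X x * W.tr Y y :=
  W.tr_tensor x y

end EvCAux

open EvCAux in
/-- The factors of `X × Z` are dominated by the generic member. -/
theorem tEvC (h : StDomC) : StEvC := by
  intro K _ _ 𝒱 𝒱' _ _ _ _ W W' X Z U X' a c S N q ha hc hU
  have hcgr : c ∈ W.gr Z (2 * 1) := W.alg_gr hc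
  constructor
  · intro g θ s hg hq htr hdZ hdU hθ hres hne
    have hθgr : θ ∈ W.gr Z (2 * s) := W.alg_gr hθ
    have hcθ : c * θ ∈ W.Alg Z (W.dim Z) := by
      have h1 := W.alg_mul hc hθ
      rw [add_comm 1 s, ← hdZ] at h1
      exact h1
    obtain ⟨Nq, hNq⟩ := W.alg_tr hcθ
    refine h K 𝒱' W' U X' q (N.res (W.tm 1 θ)) s Nq hres hdU ?_ ?_ hU
    · refine W'.push_eq q _ _ fun y => ?_
      obtain ⟨x, rfl⟩ := hg y
      rw [hq, ← map_mul, N.tr_res, tm_mul_even W 1 hθgr x 1, one_mul, mul_one, add_mul,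
        tm_mul_even W a (one_gr W) x θ, one_mul, tm_mul_even W 1 hcgr x θ, one_mul, map_add,
        tr_tm, tr_tm, W.tr_gr hθgr (by omega), mul_zero, zero_add, smul_mul_assoc, one_mul,
        map_smul, htr, smul_eq_mul, hNq, mul_comm]
    · intro h0
      apply hne
      rw [hNq, h0, Rat.cast_zero]
  · intro g θ s hg hq htr hdX hdU hθ hres hne
    have hθgr : θ ∈ W.gr X (2 * s) := W.alg_gr hθ
    have haθ : a * θ ∈ W.Alg X (W.dim X) := by
      have h1 := W.alg_mul ha hθ
      rw [add_comm 1 s, ← hdX] at h1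
      exact h1
    obtain ⟨Nq, hNq⟩ := W.alg_tr haθ
    refine h K 𝒱' W' U X' q (N.res (W.tm θ 1)) s Nq hres hdU ?_ ?_ hU
    · refine W'.push_eq q _ _ fun y => ?_
      obtain ⟨z, rfl⟩ := hg y
      rw [hq, ← map_mul, N.tr_res, tm_mul_even W θ (one_gr W) 1 z, one_mul, mul_one, add_mul,
        tm_mul_even W a (one_gr W) θ z, one_mul, tm_mul_even W 1 hcgr θ z, one_mul, map_add,
        tr_tm, tr_tm, W.tr_gr hθgr (by omega), zero_mul, add_zero, smul_mul_assoc, one_mul,
        map_smul, htr, smul_eq_mul, hNq]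
    · intro h0
      apply hne
      rw [hNq, h0, Rat.cast_zero]

end Pool.Agent.Lib.MP_4ca46c_ag.C5
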