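import Mathlib
import Pool.Agent.Lib.MP_4ca46c_ag.C5.SpecH
import Pool.Agent.Lib.MP_4ca46c_ag.C5.SpecA

/-!
# The factors of `W × Z`
-/

set_option autoImplicit false

namespace Pool.Agent.Lib.MP_4ca46c_ag.C5

open CategoryTheory Limits AlgebraicGeometry TensorProduct MonoidalCategory
  CartesianMonoidalCategory
open Pool.Agent.Lib.MP_4ca46c_ag.Sign Pool.Agent.Lib.MP_4ca46c_ag.Hyp
open Pool.Agent.Lib.MP_4ca46c_ag.Std Pool.Agent.Lib.MP_4ca46c_ag.Geo
open Pool.Agent.Lib.MP_4ca46c_ag.Geo.WeilCohomology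
open Pool.Agent.Lib.MP_4ca46c_ag.Two (IsMem Fib Net StNetVar AlgDesc desc_alg)

namespace EvWZAux

section field

/-- The map from the generic member to `Y` is a map over the map of the base fields. -/
theorem r_str {k₀ k : Type} [Field k₀] [Field k] [Algebra k₀ k] {P : ProjVar k₀ k} (D : Net P) :
    D.r ≫ D.str = D.u ≫ ptMap k₀ (IsScalarTower.toAlgHom k₀ k P.L) := by
  rw [Net.r, Category.assoc, D.toY_str, ← Category.assoc, D.isBC.w, Category.assoc,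
    genclass_ptMap]

/-- The pull-back of an algebraic class under a map of schemes over different fields. -/
theorem alg_res {k₀ K : Type} [Field k₀] [Field K] [CharZero K] {T : WeilTheory k₀ K}
    {k L : Type} [Field k] [Algebra k₀ k] [IsAlgClosed k] [Field L] [Algebra k₀ L]
    [IsAlgClosed L] (X : Var k₀ k) (U : Var k₀ L) (f : U.X ⟶ X.X) {c : ℕ} {z : T.H X.X}
    (hz : z ∈ (weil T k).Alg X c) : (T.pullH f z : T.H U.X) ∈ (weil T L).Alg U c := by
  obtain ⟨a, ha, rfl⟩ := hz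
  exact ⟨T.pull f a, T.pull_mem f U.isVar.sm X.isVar.sm c a ha,
    T.cl_pull f U.isVar.isWeil X.isVar.isWeil a⟩

variable {k₀ K : Type} [Field k₀] [Field K] [CharZero K] {T : WeilTheory k₀ K} (E : Extra T)
  {k L : Type} [Field k] [Algebra k₀ k] [IsAlgClosed k] [Field L] [Algebra k₀ L] [IsAlgClosed L]
  [Algebra k L] [IsScalarTower k₀ k L]

include E in
/-- The base change of a variety, and a map to it. -/
theorem exists_bc (X : Var k₀ k) (U : Var k₀ L) (f : U.X ⟶ X.X)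
    (hf : f ≫ X.str = U.str ≫ ptMap k₀ (IsScalarTower.toAlgHom k₀ k L)) :
    ∃ (X' : Var k₀ L) (g : X'.X ⟶ X.X) (q : U ⟶ X'), X'.dim = X.dim ∧
      IsPullback g X'.str X.str (ptMap k₀ (IsScalarTower.toAlgHom k₀ k L)) ∧
      Function.Surjective (T.pullH g) ∧ (∀ x, T.tr X'.X (T.pullH g x) = T.tr X.X x) ∧
      ∀ x, (weil T L).pull q (T.pullH g x) = T.pullH f x := by
  have hg := IsPullback.of_hasPullback X.str (ptMap k₀ (IsScalarTower.toAlgHom k₀ k L))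
  have vX : IsVar (pullback.snd X.str (ptMap k₀ (IsScalarTower.toAlgHom k₀ k L))) X.dim :=
    genclass_var hg X.isVar
  let X' : Var k₀ L := ⟨_, _, _, vX⟩
  let g : X'.X ⟶ X.X := pullback.fst X.str (ptMap k₀ (IsScalarTower.toAlgHom k₀ k L))
  let q : U ⟶ X' := Var.Hom.mk (pullback.lift f U.str hf) (pullback.lift_snd _ _ _)
  obtain ⟨tr1, ⟨-, surj⟩, -⟩ := Div.tBC k₀ K T E k L X X' g rfl hg
  refine ⟨X', g, q, rfl, hg, surj, tr1, fun x => ?_⟩
  change T.pullH (pullback.lift f U.str hf) (T.pullH g x) = T.pullH f x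
  rw [← T.pullH_comp _ _ U.isVar.isWeil X'.isVar.isWeil X.isVar.isWeil]
  congr 2
  exact pullback.lift_fst _ _ _

end field

section prod

variable {k₀ K : Type} [Field k₀] [Field K] [CharZero K] (T : WeilTheory k₀ K)
  {k L : Type} [Field k] [Algebra k₀ k] [IsAlgClosed k] [Field L] [Algebra k₀ L]
  [IsAlgClosed L] (X Z : Var k₀ k) (U : Var k₀ L) (r : U.X ⟶ (X ⊗ Z).X)

theorem tm_left (x : T.H X.X) :
    T.pullH r ((weil T k).tm (X := X) (Y := Z) x 1) =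
      T.pullH (r ≫ pullback.fst X.str Z.str) x := by
  have e : (weil T k).tm (X := X) (Y := Z) x 1 = T.pullH (pullback.fst X.str Z.str) x := by
    refine Eq.trans ?_ (mul_one (T.pullH (pullback.fst X.str Z.str) x))
    exact congrArg (T.pullH (pullback.fst X.str Z.str) x * ·)
      (map_one (T.pullH (pullback.snd X.str Z.str)))
  rw [e]
  exact (T.pullH_comp r (pullback.fst X.str Z.str) U.isVar.isWeil (X ⊗ Z).isVar.isWeil
    X.isVar.isWeil x).symm

theorem tm_right (z : T.H Z.X) :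
    T.pullH r ((weil T k).tm (X := X) (Y := Z) 1 z) =
      T.pullH (r ≫ pullback.snd X.str Z.str) z := by
  have e : (weil T k).tm (X := X) (Y := Z) 1 z = T.pullH (pullback.snd X.str Z.str) z := by
    refine Eq.trans ?_ (one_mul (T.pullH (pullback.snd X.str Z.str) z))
    exact congrArg (· * T.pullH (pullback.snd X.str Z.str) z)
      (map_one (T.pullH (pullback.fst X.str Z.str)))
  rw [e]
  exact (T.pullH_comp r (pullback.snd X.str Z.str) U.isVar.isWeil (X ⊗ Z).isVar.isWeil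
    Z.isVar.isWeil z).symm

end prod

/-- The class of a fibre of the fibration over the line. -/
theorem eta_alg {k₀ K : Type} [Field k₀] [Field K] [CharZero K] (T : WeilTheory k₀ K)
    {k : Type} [Field k] [Algebra k₀ k] [IsAlgClosed k] (Φ : Fib k₀ k) :
    (Φ.η T : T.H Φ.V.X) ∈ (weil T k).Alg Φ.VV 1 :=
  ⟨T.pull Φ.f (hypClass T k (0 : Fin 2)), T.pull_mem _ Φ.V.isVar.sm (l1_var (k₀ := k₀)).sm _ _
    (hypClass_mem T tPS tHyp k (0 : Fin 2)), rfl⟩

/-- The class of a fibre of the fibration over the curve. -/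
theorem cls_alg {k₀ K : Type} [Field k₀] [Field K] [CharZero K] (T : WeilTheory k₀ K)
    {k : Type} [Field k] [Algebra k₀ k] [IsAlgClosed k] (C : PCurve k₀ k) (Ψ : FibC C) :
    (T.cl Ψ.V.X (T.pull Ψ.f (C.toProj.h T)) : T.H Ψ.V.X) ∈ (weil T k).Alg Ψ.VV 1 :=
  ⟨T.pull Ψ.f (C.toProj.h T), T.pull_mem _ Ψ.V.isVar.sm C.isVar.sm _ _
    (C.toProj.h_mem T tPS tHyp), rfl⟩

end EvWZAux

open EvWZAux in
/-- The factors of `W × Z`. -/
theorem tEvWZ (k₀ K : Type) [Field k₀] [Field K] [CharZero K] (h1 : StNetHWZ k₀ K) (h2 : StEvC)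
    (h3 : StEvBC k₀ K) : StEvWZ k₀ K := by
  intro hv T E k _ _ _ C Φ Ψ U₀ toP toY hPB hs hc hcls hU θ θ' hθ hθn hθ' hθn'
  have hNex := h1 hv T E k C Φ Ψ U₀ toP toY hPB hs hc
  rw [hcls] at hNex
  obtain ⟨N, hN⟩ := hNex
  have hA : AlgDesc T k (SC C).L := desc_alg E (SC C).κ (SC C).F
  have hr := r_str (netD Φ Ψ toP toY hPB hs hc)
  have hr1 : ((netD Φ Ψ toP toY hPB hs hc).r ≫ pullback.fst Φ.V.str Ψ.V.str) ≫ Φ.V.str =
      (netD Φ Ψ toP toY hPB hs hc).u ≫ ptMap k₀ (IsScalarTower.toAlgHom k₀ k (SC C).L) :=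
    (Category.assoc _ _ _).trans hr
  have hr2 : ((netD Φ Ψ toP toY hPB hs hc).r ≫ pullback.snd Φ.V.str Ψ.V.str) ≫ Ψ.V.str =
      (netD Φ Ψ toP toY hPB hs hc).u ≫ ptMap k₀ (IsScalarTower.toAlgHom k₀ k (SC C).L) := by
    refine ((Category.assoc _ _ _).trans ?_).trans hr
    exact congrArg ((netD Φ Ψ toP toY hPB hs hc).r ≫ ·) pullback.condition.symm
  constructor
  · obtain ⟨X', g, q, hd, hg, surj, tr1, hq⟩ := exists_bc (T := T) E Φ.VV
      ((netD Φ Ψ toP toY hPB hs hc).UV hv)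
      ((netD Φ Ψ toP toY hPB hs hc).r ≫ pullback.fst Φ.V.str Ψ.V.str) hr1
    refine (h3 T E k (SC C).L Φ.VV X' g hd hg).2 hA ?_
    refine (h2 K _ _ (weil T k) (weil T (SC C).L) Φ.VV Ψ.VV _ X' _ _ _ N q (eta_alg T Φ)
      (cls_alg T C Ψ) hU).1 (T.pullH g) θ' Ψ.m surj ?_ tr1 Ψ.dim ?_ hθ' ?_ hθn'
    · intro x
      refine (hq x).trans (Eq.trans ?_ (hN _).symm)
      exact (tm_left T Φ.VV Ψ.VV ((netD Φ Ψ toP toY hPB hs hc).UV hv)
        (netD Φ Ψ toP toY hPB hs hc).r x).symm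
    · change Φ.V.n + Ψ.m = X'.dim + Ψ.m
      rw [hd]
      rfl
    · rw [hN]
      have h4 := (weil T k).tm_alg (X := Φ.VV) (Y := Ψ.VV) ((weil T k).alg_one Φ.VV) hθ'
      rw [zero_add] at h4
      exact alg_res (Φ.VV ⊗ Ψ.VV) ((netD Φ Ψ toP toY hPB hs hc).UV hv) _ h4
  · obtain ⟨X', g, q, hd, hg, surj, tr1, hq⟩ := exists_bc (T := T) E Ψ.VV
      ((netD Φ Ψ toP toY hPB hs hc).UV hv)
      ((netD Φ Ψ toP toY hPB hs hc).r ≫ pullback.snd Φ.V.str Ψ.V.str) hr2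
    refine (h3 T E k (SC C).L Ψ.VV X' g hd hg).2 hA ?_
    refine (h2 K _ _ (weil T k) (weil T (SC C).L) Φ.VV Ψ.VV _ X' _ _ _ N q (eta_alg T Φ)
      (cls_alg T C Ψ) hU).2 (T.pullH g) θ Φ.m surj ?_ tr1 Φ.dim ?_ hθ ?_ hθn
    · intro x
      refine (hq x).trans (Eq.trans ?_ (hN _).symm)
      exact (tm_right T Φ.VV Ψ.VV ((netD Φ Ψ toP toY hPB hs hc).UV hv)
        (netD Φ Ψ toP toY hPB hs hc).r x).symm
    · change Φ.V.n + Ψ.m = X'.dim + Φ.m
      rw [hd]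
      change Φ.V.n + Ψ.m = Ψ.V.n + Φ.m
      rw [Φ.dim, Ψ.dim]
      ring
    · rw [hN]
      have h4 := (weil T k).tm_alg (X := Φ.VV) (Y := Ψ.VV) hθ ((weil T k).alg_one Ψ.VV)
      rw [add_zero] at h4
      exact alg_res (Φ.VV ⊗ Ψ.VV) ((netD Φ Ψ toP toY hPB hs hc).UV hv) _ h4

end Pool.Agent.Lib.MP_4ca46c_ag.C5
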