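import Mathlib
import Pool.Agent.Lib.MP_4ca46c_ag.C5.SpecA
import Pool.Agent.Lib.MP_4ca46c_ag.C5.SpecH
import Pool.Agent.Lib.MP_4ca46c_ag.T2.EvenB

/-!
# The quasi-inverse for the class of a fibre of a pencil
-/

set_option autoImplicit false

namespace Pool.Agent.Lib.MP_4ca46c_ag.C5

open CategoryTheory Limits AlgebraicGeometry TensorProduct MonoidalCategory
  CartesianMonoidalCategory
open Pool.Agent.Lib.MP_4ca46c_ag.Sign Pool.Agent.Lib.MP_4ca46c_ag.Hyp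
open Pool.Agent.Lib.MP_4ca46c_ag.Std Pool.Agent.Lib.MP_4ca46c_ag.Geo
open Pool.Agent.Lib.MP_4ca46c_ag.Geo.WeilCohomology
open Pool.Agent.Lib.MP_4ca46c_ag.Two (IsMem Fib Net StNetVar)

/-- Restriction to a smaller set of classes. -/
theorem netC_mono {K : Type} [Field K] [CharZero K] {𝒱 : Type 1} [Category.{0} 𝒱]
    [CartesianMonoidalCategory 𝒱] {W : WeilCohomology K 𝒱} {𝒱' : Type 1} [Category.{0} 𝒱']
    [CartesianMonoidalCategory 𝒱'] {W' : WeilCohomology K 𝒱'} {Y : 𝒱} {U : 𝒱'} {δ δ' : W.H Y}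
    {S S' : Set (W.H Y)} (N : NetC W W' Y U δ S) (hδ : δ = δ') (h : S' ⊆ S) :
    Nonempty (NetC W W' Y U δ' S') := by
  subst hδ
  refine ⟨⟨N.res, N.res_gr, N.δ_gr, N.tr_res, N.gys, N.gys_spec, fun hU => ?_⟩⟩
  obtain ⟨w, hw, β, hβ, h2⟩ := N.split hU
  exact ⟨w, hw, β, fun e he => hβ e (h he), h2⟩

/-- Hard Lefschetz for the hyperplane class. -/
theorem hard_proj {k₀ K : Type} [Field k₀] [Field K] [CharZero K] {T : WeilTheory k₀ K}
    (E : Extra T) {k : Type} [Field k] [Algebra k₀ k] [IsAlgClosed k] (V : ProjVar k₀ k) :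
    Two.Hard (weil T k) (T2.pvar V) (T.cl V.X (V.h T)) := by
  have h0 := E.lefschetz V.str V.n V.isVar V.i V.emb V.closed V.emb_str
  obtain ⟨c, hc⟩ : ∃ c : (weil T k).H (T2.pvar V), c = T.cl V.X (V.h T) := ⟨_, rfl⟩
  have hh : c ∈ (weil T k).Alg (T2.pvar V) 1 := ⟨V.h T, V.h_mem T tPS tHyp, hc.symm⟩
  have h1 : ∀ j ≤ V.n, ∀ u ∈ (weil T k).gr (T2.pvar V) (V.n - j), c ^ j * u = 0 → u = 0 := by
    rw [hc]
    exact h0.1
  have h2 : ∀ j ≤ V.n, ∀ v ∈ (weil T k).gr (T2.pvar V) (V.n + j),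
      ∃ u ∈ (weil T k).gr (T2.pvar V) (V.n - j), c ^ j * u = v := by
    rw [hc]
    exact h0.2
  rw [← hc]
  intro i j' hij'
  have hij : i + j' = V.n := hij'
  clear hij'
  have hi : V.n - j' = i := by omega
  have hi2 : V.n + j' = i + 2 * j' := by omega
  have hd := (weil T k).alg_gr hh
  refine ⟨fun x hx => (weil T k).pow_gr hd j' hx, fun x hx y hy hxy => ?_, fun y hy => ?_⟩
  · have h5 := h1 j' (by omega) (x - y) (by rw [hi]; exact Submodule.sub_mem _ hx hy)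
      (by rw [mul_sub]; exact sub_eq_zero.2 hxy)
    exact sub_eq_zero.1 h5
  · obtain ⟨u, hu, hu2⟩ := h2 j' (by omega) y (by rw [hi2]; exact hy)
    rw [hi] at hu
    exact ⟨u, hu, hu2⟩

/-- **The quasi-inverse for the class of a fibre**, from the even projector of one variety over
the algebraic closure of `k(t₁, …, t₅)`. -/
def StFib5 (k₀ K : Type) [Field k₀] [Field K] [CharZero K] : Prop :=
  ∀ (T : WeilTheory k₀ K), Extra T → ∀ (k : Type) [Field k] [Algebra k₀ k] [IsAlgClosed k]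
  (Φ : Fib k₀ k) (θ : T.H Φ.V.X), θ ∈ (weil T k).Alg Φ.VV Φ.m →
  T.tr Φ.V.X (Φ.η T * θ) ≠ 0 → ∃ V' : ProjVar k₀ (M5 k), V'.n = Φ.V.n + Φ.m ∧
    ((weil T (M5 k)).even (T2.pvar V') ∈ (weil T (M5 k)).Cor (T2.pvar V') (T2.pvar V') 0 →
      Two.QInv (weil T k) Φ.VV (Φ.η T))

theorem tFib5 (k₀ K : Type) [Field k₀] [Field K] [CharZero K] (hv : StNetVar k₀)
    (hP : StPCurve k₀ K) (hB : StBaseC k₀ K) (hN : StNetWZ k₀ K) (hM : StMem5 k₀ K)
    (hE : StEvWZ k₀ K) (hH : StNetHWZ k₀ K) (h6 : StVRC) (h7 : StRelC) (h8 : StPushC)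
    (h9 : StDegC) : StFib5 k₀ K := by
  intro T E k _ _ _ Φ θ hθ hθ0
  obtain ⟨C, y, hy, hy0⟩ := hP T E k
  obtain ⟨Ψ, r, x, hx, hr, hrf, hm, hh, hd⟩ := hB T E k C Φ
  obtain ⟨U₀, toP, toY, hPB, hsm, hconn, hmem, hcls⟩ := hN T E k C Φ Ψ
  obtain ⟨V', hV', hV⟩ := hM T E k C Φ Ψ U₀ toY (toP ≫ (SC C).y₀) hmem
    ((netD Φ Ψ toP toY hPB hsm hconn).UV hv) (netD Φ Ψ toP toY hPB hsm hconn).pU rfl
    (netD Φ Ψ toP toY hPB hsm hconn).isBC
  refine ⟨V', by rw [hV', hm], fun hev => ?_⟩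
  have hU := hV hev
  have wW : IsWeil Φ.V.X := Φ.V.isVar.isWeil
  have wZ : IsWeil Ψ.V.X := Ψ.V.isVar.isWeil
  have wC : IsWeil C.X := C.isVar.isWeil
  have wP : IsWeil (L1 k₀ k) := (l1_var (k₀ := k₀) (k := k)).isWeil
  have wPC : IsWeil (PC C) := (pc_var C).isWeil
  have wYY : IsWeil (YY Φ Ψ) := (yy_var Φ Ψ).isWeil
  -- the classes
  let ρ : Ψ.VV ⟶ Φ.VV := Var.Hom.mk r hr
  let δ : (weil T k).H C.VC := T.cl C.X (C.toProj.h T)
  have hδ : δ ∈ (weil T k).Alg C.VC 1 := ⟨_, C.toProj.h_mem T tPS tHyp, rfl⟩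
  have hc : T.cl Ψ.V.X (T.pull Ψ.f (C.toProj.h T)) = (weil T k).pull Ψ.π δ :=
    T.cl_pull Ψ.f wZ wC _
  have hη : Φ.η T ∈ (weil T k).Alg Φ.VV 1 := (T2.relwl_η T Φ).1
  have ha : (weil T k).pull ρ (Φ.η T) = (weil T k).pull Ψ.π δ := by
    change T.pullH r (T.cl Φ.V.X (T.pull Φ.f (hypClass T k (0 : Fin 2)))) =
      T.pullH Ψ.f (T.cl C.X (C.toProj.h T))
    rw [← hd, T.cl_pull _ wW wP, T.cl_pull _ wC wP, ← T.pullH_comp _ _ wZ wW wP,
      ← T.pullH_comp _ _ wZ wC wP, hrf]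
  have hcA : (weil T k).pull Ψ.π δ ∈ (weil T k).Alg Ψ.VV 1 := (weil T k).alg_pull _ hδ
  have hdim : (weil T k).dim Ψ.VV = (weil T k).dim Φ.VV := by
    change Ψ.V.n = Φ.V.n
    rw [Ψ.dim, Φ.dim, hm]
  -- the degree
  let a : (weil T k).H Φ.VV := Φ.η T
  let b : (weil T k).H Φ.VV := T.cl Φ.V.X (Φ.V.h T)
  let t : (weil T k).H Φ.VV := θ
  have hhard : Two.Hard (weil T k) Ψ.VV ((weil T k).pull ρ (b + a)) := by
    have e1 : (weil T k).pull ρ (b + a) = T.cl Ψ.V.X (Ψ.V.h T) := by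
      rw [map_add ((weil T k).pull ρ) b a]
      refine Eq.trans ?_ hh.symm
      change _ + (weil T k).pull ρ (Φ.η T) = _
      rw [ha]
      rfl
    rw [e1]
    exact hard_proj E Ψ.V
  obtain ⟨d, hd0, hpush⟩ := h9 K _ (weil T k) Φ.VV Ψ.VV ρ _ hdim hhard
  -- the even projectors
  have hθ' : (weil T k).pull ρ θ ∈ (weil T k).Alg Ψ.VV Ψ.m := by
    rw [hm]
    exact (weil T k).alg_pull _ hθ
  have hθ0' : (weil T k).tr Ψ.VV ((weil T k).pull Ψ.π δ * (weil T k).pull ρ θ) ≠ 0 := by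
    have e1 : (weil T k).tr Ψ.VV ((weil T k).pull Ψ.π δ * (weil T k).pull ρ t) =
        d * (weil T k).tr Φ.VV (a * t) := by
      have e2 := (weil T k).push_spec ρ (1 : (weil T k).H Ψ.VV) (a * t)
      rw [one_mul, hpush, smul_mul_assoc, one_mul, map_smul, map_mul ((weil T k).pull ρ) a t,
        smul_eq_mul] at e2
      rw [e2, ← ha]
    refine ne_of_eq_of_ne e1 ?_
    exact mul_ne_zero hd0 hθ0
  obtain ⟨eW, eZ⟩ := hE hv T E k C Φ Ψ U₀ toP toY hPB hsm hconn hcls hU θ _ hθ hθ0 hθ' (by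
    rw [hc]
    exact hθ0')
  obtain ⟨N, -⟩ := hH hv T E k C Φ Ψ U₀ toP toY hPB hsm hconn
  rw [hc] at hcls
  have hN' := netC_mono (S' := (fun e => (weil T k).tm (X := Φ.VV) (Y := Ψ.VV) 1 e) ''
    Odd1 (weil T k) Ψ.π) N hcls (by
      rintro _ ⟨_, ⟨u, hu, rfl⟩, rfl⟩
      refine ⟨T.pullH (pullback.snd (l1 k₀ k) C.str) u, ?_⟩
      rw [← T.pullH_comp _ _ wYY wPC wC, ff_snd, T.pullH_comp _ _ wYY wZ wC]
      change T.pullH (pullback.fst Φ.V.str Ψ.V.str) 1 *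
        T.pullH (pullback.snd Φ.V.str Ψ.V.str) (T.pullH Ψ.f u) = _
      rw [map_one, one_mul])
  have rel := h7 K _ _ (weil T k) (weil T (SC C).L) Φ.VV Ψ.VV _ (Φ.η T)
    ((weil T k).pull Ψ.π δ) (Odd1 (weil T k) Ψ.π) ((weil T k).alg_gr hη)
    ((weil T k).alg_gr hcA) (by
      rintro _ ⟨u, hu, rfl⟩
      refine ⟨(weil T k).pull_gr _ hu, ?_⟩
      rw [← map_mul]
      have e1 : δ * u ∈ (weil T k).gr C.VC (2 * 1 + 1) :=
        SetLike.mul_mem_graded ((weil T k).alg_gr hδ) hu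
      rw [(weil T k).gr_top e1 (by
        change 2 * 1 < 2 * 1 + 1
        omega), map_zero]) hN' hU
  have vr := h6 K _ (weil T k) Φ.VV Ψ.VV C.VC Ψ.π (Φ.η T) δ rfl hδ ⟨y, hy, hy0⟩ hη
    (cor_le ((weil T k).sign_eps ((weil T k).sign_iff.2 eW)))
    (cor_le ((weil T k).sign_eps ((weil T k).sign_iff.2 eZ))) rel
  refine T2.tVRQE hη eW ?_
  rcases vr with vr | vr
  · exact vr
  · exact h8 K _ (weil T k) Φ.VV Ψ.VV ρ (Φ.η T) d ((weil T k).alg_gr hη) hdim hpush hd0 (by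
      rw [ha]
      exact vr)

end Pool.Agent.Lib.MP_4ca46c_ag.C5
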