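import Mathlib
import Pool.Agent.Lib.MP_4ca46c_ag.C5.SpecH

/-!
# The complement of the smooth locus of a fibration over the projective line is finite
-/

set_option autoImplicit false

namespace Pool.Agent.Lib.MP_4ca46c_ag.C5

open CategoryTheory Limits AlgebraicGeometry TensorProduct MonoidalCategory
  CartesianMonoidalCategory
open Pool.Agent.Lib.MP_4ca46c_ag.Sign Pool.Agent.Lib.MP_4ca46c_ag.Hyp
open Pool.Agent.Lib.MP_4ca46c_ag.Std Pool.Agent.Lib.MP_4ca46c_ag.Geo
open Pool.Agent.Lib.MP_4ca46c_ag.Geo.WeilCohomology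
open Pool.Agent.Lib.MP_4ca46c_ag.Two (IsMem Fib Net StNetVar AlgDesc)

namespace FinSAux

/-- A closed subset of a Noetherian sober space all of whose points are closed is finite. -/
theorem finite_of_closed_points {X : Type*} [TopologicalSpace X]
    [TopologicalSpace.NoetherianSpace X] [QuasiSober X] {B : Set X} (hB : IsClosed B)
    (h : ∀ x ∈ B, IsClosed ({x} : Set X)) : B.Finite := by
  obtain ⟨S, hS, hc, hi, rfl⟩ :=
    TopologicalSpace.NoetherianSpace.exists_finite_set_isClosed_irreducible hB
  refine Set.Finite.sUnion hS fun t ht => ?_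
  obtain ⟨x, hx⟩ := QuasiSober.sober (hi t ht) (hc t ht)
  have hxt : x ∈ t := hx.mem
  have h1 := h x ⟨t, ht, hxt⟩
  have h2 : closure ({x} : Set X) = t := hx
  rw [h1.closure_eq] at h2
  rw [← h2]
  exact Set.finite_singleton x

end FinSAux

theorem tFinS : StFinS := by
  intro k₀ k _ _ _ _ Φ
  have hp : IsProper (PSo.str k₀ k (Fin 2)).left := inferInstanceAs (IsProper (psStr k (Fin 2)))
  have hn : IsNoetherian (pt k₀ k).left := by
    change IsNoetherian (Spec (CommRingCat.of k))
    infer_instance
  have h1 : IsLocallyNoetherian (Two.P1 k₀ k).left :=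
    LocallyOfFiniteType.isLocallyNoetherian (PSo.str k₀ k (Fin 2)).left
  have h2 : CompactSpace (Two.P1 k₀ k).left :=
    QuasiCompact.compactSpace_of_compactSpace (PSo.str k₀ k (Fin 2)).left
  have h3 : IsNoetherian (Two.P1 k₀ k).left := {}
  have h4 : TopologicalSpace.NoetherianSpace (Two.P1 k₀ k).left := inferInstance
  refine FinSAux.finite_of_closed_points (B := {x : (Two.P1 k₀ k).left | x ∉ Φ.S}) ?_ ?_
  · exact Φ.S.isOpen.isClosed_compl
  · intro x hx
    obtain ⟨e, he, hxe⟩ := Φ.compl x hx
    have hs : Subsingleton (pt k₀ k).left :=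
      inferInstanceAs (Subsingleton (Spec (CommRingCat.of k)))
    have hc : IsClosedImmersion e.left :=
      isClosedImmersion_of_comp_eq_id (PSo.str k₀ k (Fin 2)).left e.left
        (by rw [← Over.comp_left, he, Over.id_left])
    have hr : Set.range e.left = {x} := by
      obtain ⟨y, rfl⟩ := hxe
      ext z
      constructor
      · rintro ⟨w, rfl⟩
        rw [Set.mem_singleton_iff, Subsingleton.elim w y]
      · rintro rfl
        exact ⟨y, rfl⟩
    rw [← hr]
    exact hc.isClosedEmbedding.isClosed_range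

end Pool.Agent.Lib.MP_4ca46c_ag.C5
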