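import Mathlib
import Pool.Agent.Lib.MP_4ca46c_ag.C5.SpecA

/-!
# Fitting idempotents of x and 1 - x (A03)
-/

set_option autoImplicit false

namespace Pool.Agent.Lib.MP_4ca46c_ag.C5

open Polynomial

theorem tFitC : StFitC := by
  intro K V _ _ _ _ _ x
  -- minimal polynomial m = X^... with respect to (1 - X)
  set m := minpoly K x with hm
  have hm0 : m ≠ 0 := minpoly.ne_zero (Algebra.IsIntegral.isIntegral x)
  -- m = (X - 1)^k * q, q(1) ≠ 0
  obtain ⟨q, hq, hq1⟩ := Polynomial.exists_eq_pow_rootMultiplicity_mul_and_not_dvd m hm0 (1 : K)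
  set k := m.rootMultiplicity 1 with hk
  have hcop : IsCoprime ((X - C (1 : K)) ^ (k + 1)) q := by
    apply IsCoprime.pow_left
    exact (Polynomial.irreducible_X_sub_C (1 : K)).coprime_iff_not_dvd.2 hq1
  obtain ⟨a, b, hab⟩ := hcop
  -- a (X-1)^(k+1) + b q = 1
  have hmx : aeval x m = 0 := minpoly.aeval K x
  have hkq : aeval x ((X - C (1 : K)) ^ k) * aeval x q = 0 := by
    rw [← map_mul, ← hq, hmx]
  have habx : aeval x a * aeval x ((X - C (1 : K)) ^ (k + 1)) + aeval x b * aeval x q = 1 := by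
    rw [← map_mul, ← map_mul, ← map_add, hab, map_one]
  refine ⟨a * (X - C 1) ^ (k + 1), -(a * (X - C 1) ^ k), ?_⟩
  have h1x : aeval x (X - C (1 : K)) = -(1 - x) := by simp
  have hidem : aeval x (a * (X - C (1 : K)) ^ (k + 1)) * aeval x (a * (X - C (1 : K)) ^ (k + 1)) =
      aeval x (a * (X - C (1 : K)) ^ (k + 1)) := by
    have e1 : aeval x (a * (X - C (1 : K)) ^ (k + 1)) = 1 - aeval x b * aeval x q := by
      rw [map_mul, ← habx]; abel
    have e2 : aeval x (a * (X - C (1 : K)) ^ (k + 1)) * (aeval x b * aeval x q) = 0 := by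
      have : a * (X - C (1 : K)) ^ (k + 1) * (b * q) =
          (a * (X - C 1) * b) * ((X - C (1 : K)) ^ k * q) := by ring
      rw [← map_mul (aeval x) b q, ← map_mul, this, map_mul, ← hq, hmx, mul_zero]
    nth_rewrite 2 [e1]
    rw [mul_sub, mul_one, e2, sub_zero]
  -- 1 - e = b q ; and (1 - (1-X)^k) (1 - e) = 1 - e
  -- 1 - (-1)^k (X-1)^k is divisible by X
  have hdiv : (X : K[X]) ∣ 1 - (-1) ^ k * (X - C 1) ^ k := by
    rw [Polynomial.X_dvd_iff, Polynomial.coeff_zero_eq_eval_zero]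
    simp only [eval_sub, eval_one, eval_mul, eval_pow, eval_neg, eval_X, eval_C]
    rw [← mul_pow]; simp
  obtain ⟨c, hc⟩ := hdiv
  refine ⟨c * (b * q), hidem, ?_, ?_⟩
  · have : a * (X - C (1 : K)) ^ (k + 1) = -(a * (X - C 1) ^ k) * (1 - X) := by
      rw [pow_succ]; simp only [C_1]; ring
    rw [this, map_mul]; simp
  · have e1 : 1 - aeval x (a * (X - C (1 : K)) ^ (k + 1)) = aeval x b * aeval x q := by
      rw [map_mul, ← habx]; abel
    rw [e1]
    have e3 : (c * (b * q)) * X = b * q - (-1) ^ k * b * ((X - C (1 : K)) ^ k * q) := by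
      have : (c * (b * q)) * X = (X * c) * (b * q) := by ring
      rw [this, ← hc]; ring
    have e4 : aeval x (c * (b * q)) * x = aeval x ((c * (b * q)) * X) := by
      rw [map_mul (aeval x) _ X, aeval_X]
    rw [e4, e3, map_sub, map_mul (aeval x) ((-1) ^ k * b), ← hq, hmx, mul_zero, sub_zero, map_mul]

end Pool.Agent.Lib.MP_4ca46c_ag.C5
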