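import Mathlib
import Pool.Agent.Lib.MP_4ca46c_ag.C5.SpecH
import Pool.Agent.Lib.MP_4ca46c_ag.T2.EvenB

/-!
# The member over the closure of `k(t₁, …, t₅)` (`StMem5`)
-/

set_option autoImplicit false

namespace Pool.Agent.Lib.MP_4ca46c_ag.C5

open CategoryTheory Limits AlgebraicGeometry MonoidalCategory CartesianMonoidalCategory
open Pool.Agent.Lib.MP_4ca46c_ag.Sign Pool.Agent.Lib.MP_4ca46c_ag.Hyp
open Pool.Agent.Lib.MP_4ca46c_ag.Std Pool.Agent.Lib.MP_4ca46c_ag.Geo
open Pool.Agent.Lib.MP_4ca46c_ag.Geo.WeilCohomology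
open Pool.Agent.Lib.MP_4ca46c_ag.Two (IsMem Fib Net StMemEx StMemBC StMemScale tMemEx tMemBC
  tMemScale)

namespace Mem5Aux

section fields

open MvPolynomial

/-- The positions of the five free coordinates. -/
private def idx : Fin 5 → Fin 2 × Fin 3 := ![(0, 1), (0, 2), (1, 0), (1, 1), (1, 2)]

/-- Dehomogenisation. -/
private noncomputable def deh (k : Type) [Field k] (p : Fin 2 × Fin 3) : MvPolynomial (Fin 5) k :=
  (![![1, X 0, X 1], ![X 2, X 3, X 4]] : Fin 2 → Fin 3 → MvPolynomial (Fin 5) k) p.1 p.2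

private theorem deh_zero (k : Type) [Field k] : deh k (0, 0) = 1 := rfl

private theorem deh_idx (k : Type) [Field k] (i : Fin 5) : deh k (idx i) = X i := by
  fin_cases i <;> rfl

/-- Quotients of algebraically independent elements. -/
private theorem quot_ind (k L : Type) [Field k] [Field L] [Algebra k L] (x : Fin 2 × Fin 3 → L)
    (h : AlgebraicIndependent k x) :
    AlgebraicIndependent k (fun i : Fin 5 => x (idx i) / x (0, 0)) := by
  have h0 : x (0, 0) ≠ 0 := h.ne_zero (0, 0)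
  have key : ∀ p : MvPolynomial (Fin 5) k, ∃ (d : ℕ) (q : MvPolynomial (Fin 2 × Fin 3) k),
      aeval x q = x (0, 0) ^ d * aeval (fun i : Fin 5 => x (idx i) / x (0, 0)) p ∧
      aeval (deh k) q = p := by
    intro p
    induction p using MvPolynomial.induction_on with
    | C a => exact ⟨0, C a, by simp, by simp⟩
    | add p p' hp hp' =>
      obtain ⟨d, q, h1, h2⟩ := hp
      obtain ⟨d', q', h1', h2'⟩ := hp'
      refine ⟨d + d', X (0, 0) ^ d' * q + X (0, 0) ^ d * q', ?_, ?_⟩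
      · rw [map_add, map_mul, map_mul, map_pow, map_pow, aeval_X, h1, h1', map_add]
        ring
      · rw [map_add, map_mul, map_mul, map_pow, map_pow, aeval_X, h2, h2', deh_zero]
        simp
    | mul_X p i hp =>
      obtain ⟨d, q, h1, h2⟩ := hp
      refine ⟨d + 1, q * X (idx i), ?_, ?_⟩
      · rw [map_mul, aeval_X, h1, map_mul, aeval_X]
        field_simp
        ring
      · rw [map_mul, aeval_X, h2, deh_idx]
  rw [AlgebraicIndependent, injective_iff_map_eq_zero]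
  intro p hp
  obtain ⟨d, q, h1, h2⟩ := key p
  rw [hp, mul_zero] at h1
  have hq : q = 0 := (injective_iff_map_eq_zero _).1 h q h1
  rw [← h2, hq, map_zero]

/-- The embedding in a larger field. -/
private theorem exists_embed (k L : Type) [Field k] [Field L] [Algebra k L] [IsAlgClosed L]
    (y : Fin 5 → L) (h : AlgebraicIndependent k y) :
    ∃ φ : M5 k →ₐ[k] L, ∀ i, φ (t5 k i) = y i := by
  have hinj : Function.Injective (aeval y : MvPolynomial (Fin 5) k →ₐ[k] L) := h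
  let f : FractionRing (MvPolynomial (Fin 5) k) →+* L :=
    IsFractionRing.lift (g := (aeval y : MvPolynomial (Fin 5) k →ₐ[k] L).toRingHom) hinj
  let _ : Algebra (FractionRing (MvPolynomial (Fin 5) k)) L := f.toAlgebra
  have hf : ∀ p : MvPolynomial (Fin 5) k,
      f (algebraMap _ (FractionRing (MvPolynomial (Fin 5) k)) p) = aeval y p := fun p =>
    IsFractionRing.lift_algebraMap hinj p
  let ψ : M5 k →ₐ[FractionRing (MvPolynomial (Fin 5) k)] L := IsAlgClosed.lift
  have hψ : ∀ p : MvPolynomial (Fin 5) k, ψ (algebraMap _ (M5 k) p) = aeval y p := fun p => by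
    rw [IsScalarTower.algebraMap_apply _ (FractionRing (MvPolynomial (Fin 5) k)) (M5 k),
      ψ.commutes]
    exact hf p
  refine ⟨⟨ψ.toRingHom, fun r => ?_⟩, fun i => ?_⟩
  · have := hψ (C r)
    rw [algHom_C] at this
    exact this
  · have := hψ (X i)
    rw [aeval_X] at this
    exact this

end fields

section geo

variable {k₀ k : Type} [Field k₀] [Field k] [Algebra k₀ k]

private theorem str_eq {C : PCurve k₀ k} (Φ : Fib k₀ k) (Ψ : FibC C) :
    (ff Φ Ψ ≫ psi C) ≫ PSo.str k₀ k (Fin 2 × Fin 3) = yy Φ Ψ := by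
  rw [Category.assoc, psi_str, ff_str]

private theorem exists_embY [IsAlgClosed k] {C : PCurve k₀ k} (Φ : Fib k₀ k) (Ψ : FibC C) :
    ∃ (κ : Type) (_ : Fintype κ) (_ : Nontrivial κ) (_ : κ)
    (e : YY Φ Ψ ⟶ PSo k₀ k κ), IsClosedImmersion e.left ∧ e ≫ PSo.str k₀ k κ = yy Φ Ψ := by
  let P := Φ.V.prod Ψ.V tSegreGeo
  exact ⟨P.κ, P.fintype, P.nontrivial, P.i, P.emb, P.closed, P.emb_str⟩

/-- The general statement. -/
private theorem core {K : Type} [Field K] [CharZero K] (h1 : StEtC)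
    (h2 : StNoPairC) (h3 : StUSmC) (h4 : StVec5) (h5 : StEvBC k₀ K)
    (T : WeilTheory k₀ K) (E : Extra T) [IsAlgClosed k] (C : PCurve k₀ k)
    (Φ : Fib k₀ k) (Ψ : FibC C)
    (F L : Type) [Field F] [Algebra k₀ F] [Algebra k F] [IsScalarTower k₀ k F]
    [Field L] [Algebra k₀ L] [Algebra k L] [IsScalarTower k₀ k L] [Algebra F L]
    [IsScalarTower k₀ F L] [IsScalarTower k F L] [IsAlgClosed L] (x : Fin 2 × Fin 3 → F)
    (hx : AlgebraicIndependent k x) (U₀ : Sch k₀) (toY : U₀ ⟶ YY Φ Ψ) (u₀ : U₀ ⟶ pt k₀ F)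
    (hM : IsMem (yy Φ Ψ) (ff Φ Ψ ≫ psi C) x toY u₀) (U : Var k₀ L) (g : U.X ⟶ U₀)
    (hd : U.dim = Φ.V.n + Ψ.m)
    (hPB : IsPullback g U.str u₀ (ptMap k₀ (IsScalarTower.toAlgHom k₀ F L))) :
    ∃ V' : ProjVar k₀ (M5 k), V'.n = Φ.V.n + Ψ.m ∧
      ((weil T (M5 k)).even (T2.pvar V') ∈ (weil T (M5 k)).Cor (T2.pvar V') (T2.pvar V') 0 →
        (weil T L).even U ∈ (weil T L).Cor U U 0) := by
  -- the coordinates in `L`
  have hxL : AlgebraicIndependent k (fun j => algebraMap F L (x j)) :=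
    hx.map' (f := IsScalarTower.toAlgHom k F L) (algebraMap F L).injective
  set xL : Fin 2 × Fin 3 → L := fun j => algebraMap F L (x j) with hxLdef
  have hx0 : xL (0, 0) ≠ 0 := hxL.ne_zero (0, 0)
  obtain ⟨φ, hφ⟩ := exists_embed k L _ (quot_ind k L xL hxL)
  let _ : Algebra (M5 k) L := φ.toRingHom.toAlgebra
  have t1 : IsScalarTower k (M5 k) L :=
    IsScalarTower.of_algebraMap_eq fun r => (φ.commutes r).symm
  have t2 : IsScalarTower k₀ (M5 k) L := by
    refine IsScalarTower.of_algebraMap_eq fun r => ?_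
    rw [IsScalarTower.algebraMap_apply k₀ k L, IsScalarTower.algebraMap_apply k₀ k (M5 k),
      ← IsScalarTower.algebraMap_apply k (M5 k) L]
  have hφ' : ∀ i, algebraMap (M5 k) L (t5 k i) = xL (idx i) / xL (0, 0) := hφ
  have hscale : (fun j => xL (0, 0) * algebraMap (M5 k) L (vec5 k j)) = xL := by
    funext j
    have hs : ∀ i, xL (0, 0) * algebraMap (M5 k) L (t5 k i) = xL (idx i) := fun i => by
      rw [hφ' i]
      field_simp
    obtain ⟨i, l⟩ := j
    fin_cases i <;> fin_cases l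
    · change xL (0, 0) * algebraMap (M5 k) L 1 = xL (0, 0)
      rw [map_one, mul_one]
    · exact hs 0
    · exact hs 1
    · exact hs 2
    · exact hs 3
    · exact hs 4
  -- the member over `M5`
  obtain ⟨U', r', u', hM'⟩ := tMemEx k₀ k (Fin 2 × Fin 3) (M5 k) (YY Φ Ψ) (yy Φ Ψ)
    (ff Φ Ψ ≫ psi C) (str_eq Φ Ψ) (vec5 k)
  obtain ⟨v1, v2, v3, -, -⟩ := h4 k
  obtain ⟨hsm, hpr⟩ := h3 k₀ k C Φ Ψ (M5 k) (vec5 k) (v2 C.d C.d_ne) (by
    intro e he
    obtain ⟨P, hP, H⟩ := h1 k₀ k C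
    obtain ⟨ε, hε, H'⟩ := H e he
    exact H' (M5 k) (vec5 k) (v3 P hP ε hε))
    (fun e e' he he' => h2 k₀ k C (M5 k) (vec5 k) v1 e e' he he') U' r' u' hM'
  -- the base change to `L`
  let pm : pt k₀ L ⟶ pt k₀ (M5 k) := ptMap k₀ (IsScalarTower.toAlgHom k₀ (M5 k) L)
  have hPB'' : IsPullback (pullback.fst u' pm) (pullback.snd u' pm) u' pm :=
    IsPullback.of_hasPullback _ _
  have hM'' := tMemBC k₀ k (Fin 2 × Fin 3) (M5 k) L (YY Φ Ψ) (yy Φ Ψ) (ff Φ Ψ ≫ psi C)
    (vec5 k) U' r' u' _ _ _ hM' hPB''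
  have hMU := tMemBC k₀ k (Fin 2 × Fin 3) F L (YY Φ Ψ) (yy Φ Ψ) (ff Φ Ψ ≫ psi C) x
    U₀ toY u₀ _ _ _ hM hPB
  obtain ⟨e, he, he1, he2⟩ := tMemScale k₀ k (Fin 2 × Fin 3) L (YY Φ Ψ) (yy Φ Ψ)
    (ff Φ Ψ ≫ psi C) (fun j => algebraMap (M5 k) L (vec5 k j)) (xL (0, 0)) hx0 _ _ _
    U.X (g ≫ toY) U.str hM'' (by
      rw [hscale]; exact hMU)
  let g' : U.X ⟶ U' := inv e ≫ pullback.fst u' pm
  have hg' : IsPullback g' U.str u' pm := by
    refine IsPullback.of_iso hPB'' (asIso e) (Iso.refl _) (Iso.refl _) (Iso.refl _) ?_ ?_ ?_ ?_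
    · simp [g']
    · simp [he2]
    · simp
    · simp
  -- connectedness
  have hgl : IsPullback g'.left U.str.left u'.left pm.left := hg'.map (Over.forget _)
  have hsurj : AlgebraicGeometry.Surjective g'.left :=
    MorphismProperty.of_isPullback hgl.flip (conn_surjective _)
  have hUc : ConnectedSpace U.X.left := by
    have h := U.isVar.connected
    have i1 : Subsingleton (pt k₀ L).left := inferInstanceAs (Subsingleton (PrimeSpectrum L))
    have i2 : Nonempty (pt k₀ L).left := inferInstanceAs (Nonempty (PrimeSpectrum L))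
    exact GeometricallyConnected.connectedSpace_of_subsingleton U.str.left
  have hU'c : ConnectedSpace U'.left := hsurj.surj.connectedSpace g'.left.continuous
  have hconn : GeometricallyConnected u'.left := fGeomConn (M5 k) U'.left u'.left hU'c
  -- the embedding
  obtain ⟨κ, _, _, i, eY, hPc, hPs⟩ := exists_embY Φ Ψ
  obtain ⟨em, hem1, hem2⟩ := Std.tEmb k₀ k (M5 k) (IsScalarTower.toAlgHom k₀ k (M5 k)) κ U' u'
    (r' ≫ eY) hpr (by
      rw [Category.assoc, hPs]
      exact hM'.comm) (by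
      intro S t t' e1 e2
      refine hM'.ext S t t' ?_ e1
      apply Over.OverMorphism.ext
      rw [← cancel_mono eY.left]
      have h5 := congrArg CommaMorphism.left e2
      simpa using h5)
  let V' : ProjVar k₀ (M5 k) :=
    { X := U'
      str := u'
      n := Φ.V.n + Ψ.m
      isVar := ⟨hsm, hpr, hconn⟩
      κ := κ
      i := i
      emb := em
      closed := hem1
      emb_str := hem2 }
  exact ⟨V', rfl, fun hkun =>
    (h5 T E (M5 k) L ⟨U', u', Φ.V.n + Ψ.m, ⟨hsm, hpr, hconn⟩⟩ U g' hd hg').1 hkun⟩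

end geo

end Mem5Aux

theorem tMem5 (k₀ K : Type) [Field k₀] [Field K] [CharZero K] (h1 : StEtC) (h2 : StNoPairC)
    (h3 : StUSmC) (h4 : StVec5) (h5 : StEvBC k₀ K) : StMem5 k₀ K := by
  intro T E k _ _ _ C Φ Ψ U₀ toY u₀ hM U g hd hPB
  have hx : AlgebraicIndependent k
      (fun p : (SC C).κ => algebraMap (SC C).R (SC C).F (MvPolynomial.X p)) := by
    have h : AlgebraicIndependent k
        (MvPolynomial.X : (SC C).κ → MvPolynomial (SC C).κ k) :=
      MvPolynomial.algebraicIndependent_X _ k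
    exact h.map' (f := IsScalarTower.toAlgHom k (SC C).R (SC C).F)
      (IsFractionRing.injective _ _)
  exact Mem5Aux.core h1 h2 h3 h4 h5 T E C Φ Ψ (SC C).F (SC C).L _ hx U₀ toY u₀ hM U g hd hPB

end Pool.Agent.Lib.MP_4ca46c_ag.C5
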