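import Mathlib
import Pool.Agent.Lib.MP_4ca46c_ag.C5.SpecA

/-!
# A12: a pencil has a multisection
-/

set_option autoImplicit false

namespace Pool.Agent.Lib.MP_4ca46c_ag.C5

open CategoryTheory MonoidalCategory CartesianMonoidalCategory TensorProduct
open Pool.Agent.Lib.MP_4ca46c_ag.Geo Pool.Agent.Lib.MP_4ca46c_ag.Geo.WeilCohomology
open Pool.Agent.Lib.MP_4ca46c_ag.Two (Hard QInv)

namespace MulCAux

theorem tr_pow_ne {K : Type} [Field K] [CharZero K] {𝒱 : Type 1} [Category.{0} 𝒱]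
    [CartesianMonoidalCategory 𝒱] (W : WeilCohomology K 𝒱) (V : 𝒱) (b : W.H V)
    (hard : Hard W V b) : W.tr V (b ^ W.dim V) ≠ 0 := by
  obtain ⟨p, hp, hp1⟩ := W.exists_pt V
  have hpg : p ∈ W.gr V (0 + 2 * W.dim V) := by
    have := W.alg_gr hp
    rwa [zero_add]
  obtain ⟨x, hx, hxp⟩ := (hard 0 (W.dim V) (zero_add _)).surjOn hpg
  obtain ⟨a, rfl⟩ := W.connected hx
  intro h0
  have h1 : W.tr V p = a * W.tr V (b ^ W.dim V) := by
    rw [← hxp]
    change W.tr V (b ^ W.dim V * algebraMap K (W.H V) a) = _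
    rw [← Algebra.commutes, ← Algebra.smul_def, map_smul, smul_eq_mul]
  rw [h0, mul_zero, hp1] at h1
  exact one_ne_zero h1

theorem alg_pow' {K : Type} [Field K] [CharZero K] {𝒱 : Type 1} [Category.{0} 𝒱]
    [CartesianMonoidalCategory 𝒱] (W : WeilCohomology K 𝒱) (Z : 𝒱) (b : W.H Z)
    (hb : b ∈ W.Alg Z 1) (n : ℕ) : b ^ n ∈ W.Alg Z n := by
  induction n with
  | zero => simpa using W.alg_one Z
  | succ n ih =>
    rw [pow_succ]
    exact W.alg_mul ih hb

end MulCAux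

/-- A pencil has a multisection. -/
theorem tMulC : StMulC := by
  intro K _ _ 𝒱 _ _ W X V Z h P hard
  refine ⟨(W.pull P.p h) ^ W.dim V, MulCAux.alg_pow' W Z _ (W.alg_pull P.p P.h_alg) _, ?_⟩
  have h1 := MulCAux.tr_pow_ne W V (W.pull P.i h) hard
  rw [← P.cls_η, W.push_spec, one_mul, map_pow]
  have h2 : W.pull P.ι (W.pull P.p h) = W.pull P.i h := by
    rw [← P.ι_p, W.pull_comp]
  rw [h2]
  exact h1

end Pool.Agent.Lib.MP_4ca46c_ag.C5
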