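import Mathlib
import Pool.Agent.Lib.MP_4ca46c_ag.C5.SpecA

/-!
# Tensor products with a numerically trivial operator, two varieties
-/

set_option autoImplicit false

namespace Pool.Agent.Lib.MP_4ca46c_ag.C5

open CategoryTheory MonoidalCategory CartesianMonoidalCategory TensorProduct
open Pool.Agent.Lib.MP_4ca46c_ag.Geo Pool.Agent.Lib.MP_4ca46c_ag.Geo.WeilCohomology

namespace NTensCAux

variable {K : Type} [Field K] [CharZero K] {𝒱 : Type 1} [Category.{0} 𝒱]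
  [CartesianMonoidalCategory 𝒱] (W : WeilCohomology K 𝒱)

/-- the exchange of the factors -/
noncomputable def sw (X Z : 𝒱) : W.H (Z ⊗ X) →ₗ[K] W.H (X ⊗ Z) :=
  (W.pull (lift (snd X Z) (fst X Z))).toLinearMap

theorem sw_tm (X Z : 𝒱) {i j : ℕ} {a : W.H Z} {b : W.H X} (ha : a ∈ W.gr Z i)
    (hb : b ∈ W.gr X j) : sw W X Z (W.tm a b) = ((-1 : K) ^ (i * j)) • W.tm b a := by
  show W.pull (lift (snd X Z) (fst X Z)) (W.tm a b) = _
  rw [W.pull_tm, W.comm_smul (W.pull_gr _ ha) (W.pull_gr _ hb)]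
  rfl

theorem sw_conj {X Z : 𝒱} {r s : ℤ} {f : W.E Z} {g : W.E X} (hf : f ∈ W.R Z r)
    (hg : g ∈ W.R X s) :
    sw W X Z ∘ₗ ((W.tens f g : W.E (Z ⊗ X)) ∘ₗ sw W Z X) = (W.tens g f : W.E (X ⊗ Z)) := by
  refine hom_ext_tm_gr fun i j a b ha hb => ?_
  rw [LinearMap.comp_apply, LinearMap.comp_apply, sw_tm W Z X ha hb, map_smul, W.tens_tm, map_smul,
    W.tens_tm]
  by_cases h1 : (j : ℤ) + 2 * r < 0
  · rw [R_gr_zero hf hb h1, W.tm_zero_left, W.tm_zero_right, map_zero, smul_zero]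
  by_cases h2 : (i : ℤ) + 2 * s < 0
  · rw [R_gr_zero hg ha h2, W.tm_zero_left, W.tm_zero_right, map_zero, smul_zero]
  have h3 : f b ∈ W.gr Z ((j : ℤ) + 2 * r).toNat := R_gr hf hb (by omega)
  have h4 : g a ∈ W.gr X ((i : ℤ) + 2 * s).toNat := R_gr hg ha (by omega)
  rw [sw_tm W X Z h3 h4, smul_smul, ← pow_add]
  have h5 : Even (i * j + ((j : ℤ) + 2 * r).toNat * ((i : ℤ) + 2 * s).toNat) := by
    have e1 : Even ((j : ℤ) + 2 * r).toNat ↔ Even j := by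
      rw [← Int.even_coe_nat, Int.toNat_of_nonneg (by omega), Int.even_add, Int.even_coe_nat]
      simp
    have e2 : Even ((i : ℤ) + 2 * s).toNat ↔ Even i := by
      rw [← Int.even_coe_nat, Int.toNat_of_nonneg (by omega), Int.even_add, Int.even_coe_nat]
      simp
    rw [Nat.even_add, Nat.even_mul, Nat.even_mul, e1, e2]
    tauto
  rw [h5.neg_one_pow, one_smul]

theorem conj_mem {X Z : 𝒱} {r : ℤ} {h : W.E (X ⊗ Z)} (hh : h ∈ W.R (X ⊗ Z) r) :
    sw W Z X ∘ₗ (h ∘ₗ sw W X Z) ∈ W.R (Z ⊗ X) r := by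
  refine Submodule.span_induction (p := fun (h : W.E (X ⊗ Z)) _ =>
    sw W Z X ∘ₗ (h ∘ₗ sw W X Z) ∈ W.R (Z ⊗ X) r) (fun h hh => ?_) ?_
    (fun f f' _ _ h h' => ?_) (fun a f _ h => ?_) hh
  · have h1 := W.cor_comp (W.cor_pull (lift (snd Z X) (fst Z X)))
      (W.cor_comp hh (W.cor_pull (lift (snd X Z) (fst X Z))))
    have h2 : (0 : ℤ) + (r + 0) = r := by ring
    rw [h2] at h1
    exact cor_le h1
  · rw [LinearMap.zero_comp, LinearMap.comp_zero]
    exact Submodule.zero_mem _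
  · rw [LinearMap.add_comp, LinearMap.comp_add]
    exact Submodule.add_mem _ h h'
  · rw [LinearMap.smul_comp, LinearMap.comp_smul]
    exact Submodule.smul_mem _ _ h

end NTensCAux

open NTensCAux in
theorem tNTensC : StNTensC := by
  intro K _ _ 𝒱 _ _ W X Z r s f g hε hf hg
  refine ⟨R_cast (R_tens hg hf.1) (by ring), fun h hh => ?_⟩
  have h1 := (N_tens (W := W) hε hf hg).2 _ (conj_mem W hh)
  have h2 : W.t (X ⊗ Z) (h * (W.tens g f : W.E (X ⊗ Z))) =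
      W.t (Z ⊗ X) ((sw W Z X ∘ₗ (h ∘ₗ sw W X Z)) * (W.tens f g : W.E (Z ⊗ X))) := by
    rw [← sw_conj W hf.1 hg]
    have h3 := LinearMap.trace_comp_comm' (R := K) (sw W Z X)
      (h ∘ₗ (sw W X Z ∘ₗ (W.tens f g : W.E (Z ⊗ X))))
    exact h3
  rw [h2]
  exact h1

end Pool.Agent.Lib.MP_4ca46c_ag.C5
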