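import Mathlib
import Pool.Agent.Lib.MP_4ca46c_ag.C5.SpecN
import Pool.Agent.Lib.MP_4ca46c_ag.Two.NetAvg

/-!
# C5: averaging over the conjugates of the generic member, with a constant in every degree

Adapted from `Two/NetAvg.lean`.
-/

set_option autoImplicit false

namespace Pool.Agent.Lib.MP_4ca46c_ag.C5

open CategoryTheory Limits AlgebraicGeometry TensorProduct MonoidalCategory
  CartesianMonoidalCategory
open Pool.Agent.Lib.MP_4ca46c_ag.Sign Pool.Agent.Lib.MP_4ca46c_ag.Hyp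
open Pool.Agent.Lib.MP_4ca46c_ag.Std Pool.Agent.Lib.MP_4ca46c_ag.Geo
open Pool.Agent.Lib.MP_4ca46c_ag.Geo.WeilCohomology
open Pool.Agent.Lib.MP_4ca46c_ag.Two (IsMem Fib Net StNetVar StNetSm StNetCH StNetCls)

open Pool.Agent.Lib.MP_4ca46c_ag.Two.NetAvgAux in
theorem tNetAvgC (k₀ K : Type) [Field k₀] [Field K] (h : StNetSm k₀) : StNetAvgC k₀ K := by
  intro T k _ _ _ P D c a ha hS
  obtain ⟨-, -, -, -, -, -, -, -, -, hV2, hW2, -, -, -, -, hE, -⟩ := h k P D
  have hw : IsWeil D.U := (isVar_u D).isWeil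
  have hw2 : IsWeil D.UU := hW2.isWeil
  obtain ⟨N₀, σ, s, hN₀, hs, b, hb, hbs⟩ := T.norm (pullback.fst D.u₀ D.u₀ ≫ D.u₀)
    (pullback.fst D.u D.u ≫ D.u) D.e2 hV2.isSm hE D.N a ha
  refine ⟨N₀, hN₀, b, hb, ?_⟩
  intro i y hy y'
  have key : ∀ j : Fin N₀, T.tr D.UU (T.cl D.UU (T.pull (s j) a) *
      T.pullH (pullback.snd D.u D.u) y * T.pullH (pullback.fst D.u D.u) y') =
      c i * T.tr D.U (y * y') := by
    intro j
    have hbij : Function.Bijective (σ j) := by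
      have : Algebra.IsAlgebraic P.F P.L := IsAlgClosure.isAlgebraic
      exact Algebra.IsAlgebraic.algHom_bijective (σ j)
    let e : P.L ≃ₐ[P.F] P.L := AlgEquiv.ofBijective (σ j) hbij
    let τ : P.L →ₐ[P.F] P.L := e.symm.toAlgHom
    have hc1 : (σ j).comp τ = AlgHom.id P.F P.L := by
      ext x
      exact e.apply_symm_apply x
    have hc2 : τ.comp (σ j) = AlgHom.id P.F P.L := by
      ext x
      exact e.symm_apply_apply x
    have ht1 : t D (σ j) ≫ t D τ = 𝟙 _ := t_comp D _ _ hc1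
    have ht2 : t D τ ≫ t D (σ j) = 𝟙 _ := t_comp D _ _ hc2
    have hs1 := s₁ (hs j).1 (hs j).2
    have hs2 := s₂ (hs j).1 (hs j).2
    have hiso : IsIso (s j) := iso ht1 ht2 (t_str D τ) hs1 hs2
    have hisot : IsIso (t D (σ j)) := ⟨_, ht1, ht2⟩
    have hpb : ∀ z, T.pullH (t D (σ j)) (T.pullH (t D τ) z) = z := by
      intro z
      rw [← T.pullH_comp _ _ hw hw hw, ht1, T.pullH_id hw]
    have e1 : T.pullH (pullback.fst D.u D.u) y' =
        T.pullH (s j) (T.pullH (pullback.fst D.u D.u) (T.pullH (t D τ) y')) := by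
      rw [← T.pullH_comp _ _ hw2 hw2 hw, hs1, T.pullH_comp _ _ hw2 hw hw, hpb]
    have e2 : T.pullH (pullback.snd D.u D.u) y =
        T.pullH (s j) (T.pullH (pullback.snd D.u D.u) (T.pullH (t D τ) y)) := by
      rw [← T.pullH_comp _ _ hw2 hw2 hw, hs2, T.pullH_comp _ _ hw2 hw hw, hpb]
    rw [e1, e2, T.cl_pull _ hw2 hw2, ← map_mul, ← map_mul, T.tr_iso _ hiso hw2 hw2,
      hS i _ (T.pullH_mem _ hw hw i y hy), ← T.tr_iso _ hisot hw hw, map_mul, hpb, hpb]
  rw [hbs, map_sum, Finset.sum_mul, Finset.sum_mul, map_sum, Finset.sum_congr rfl fun j _ => key j,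
    Finset.sum_const, Finset.card_univ, Fintype.card_fin, nsmul_eq_mul]

end Pool.Agent.Lib.MP_4ca46c_ag.C5
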