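import Mathlib
import Pool.Agent.Lib.MP_4ca46c_ag.C5.SpecN
import Pool.Agent.Lib.MP_4ca46c_ag.Two.NetH

/-!
# The cohomology of the generic member: the structure `NetC`

Adaptation of `Two/NetH.lean`.
-/

set_option autoImplicit false

namespace Pool.Agent.Lib.MP_4ca46c_ag.C5

open CategoryTheory Limits AlgebraicGeometry TensorProduct MonoidalCategory
  CartesianMonoidalCategory
open Pool.Agent.Lib.MP_4ca46c_ag.Sign Pool.Agent.Lib.MP_4ca46c_ag.Hyp
open Pool.Agent.Lib.MP_4ca46c_ag.Std Pool.Agent.Lib.MP_4ca46c_ag.Geo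
open Pool.Agent.Lib.MP_4ca46c_ag.Geo.WeilCohomology
open Pool.Agent.Lib.MP_4ca46c_ag.Two (Net StNetSm StNetVar StNetCH StNetCls)
open Pool.Agent.Lib.MP_4ca46c_ag.Two.NetHAux (gys gys_spec op_res)

namespace NetHCAux

variable {K : Type} [Field K] [CharZero K] {𝒱 𝒱' : Type 1} [Category.{0} 𝒱]
  [CartesianMonoidalCategory 𝒱] [Category.{0} 𝒱'] [CartesianMonoidalCategory 𝒱']
  (W : WeilCohomology K 𝒱) (W' : WeilCohomology K 𝒱')

/-- The projections commute with pull-backs. -/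
theorem pi_pull {X Y : 𝒱} (f : X ⟶ Y) (i : ℕ) (y : W.H Y) :
    W.pi X i (W.pull f y) = W.pull f (W.pi Y i y) := by
  refine W.ind (P := fun y => W.pi X i (W.pull f y) = W.pull f (W.pi Y i y)) y (by simp)
    (fun j y hy => ?_) (fun r s hr hs => by simp only [map_add, hr, hs])
  by_cases h : j = i
  · subst h
    rw [W.pi_same hy, W.pi_same (W.pull_gr f hy)]
  · rw [W.pi_ne hy h, W.pi_ne (W.pull_gr f hy) h, map_zero]

variable {W W'}

/-- A class `x` with `p₁^* e x = p₂^* e x` commutes with `e`, homogeneous elements. -/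
theorem op_comm_gr {U : 𝒱'} {x : W'.H (U ⊗ U)} (hx : x ∈ W'.gr (U ⊗ U) (2 * W'.dim U)) {i : ℕ}
    {e : W'.H U} (he : e ∈ W'.gr U i)
    (h : ∀ v, W'.tr (U ⊗ U) (x * W'.pull (fst U U) e * v) =
      W'.tr (U ⊗ U) (x * W'.pull (snd U U) e * v)) (y : W'.H U) :
    W'.op x (e * y) = e * W'.op x y := by
  refine W'.ind (P := fun y => W'.op x (e * y) = e * W'.op x y) y (by simp)
    (fun j y hy => ?_) (fun r s hr hs => by simp only [mul_add, map_add, hr, hs])
  refine W'.ext_tr fun y' => ?_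
  have hm : W'.op x y ∈ W'.gr U j := W'.op_gr hx hy (by ring)
  have e1 : W'.tr U (e * W'.op x y * y') =
      (-1 : K) ^ (i * j) * W'.tr U (W'.op x y * (e * y')) := by
    rw [W'.comm_smul he hm, smul_mul_assoc, map_smul, smul_eq_mul, mul_assoc]
  have e2 : W'.pull (snd U U) y * W'.pull (fst U U) e =
      ((-1 : K) ^ (i * j)) • (W'.pull (fst U U) e * W'.pull (snd U U) y) := by
    rw [W'.comm_smul (W'.pull_gr (snd U U) hy) (W'.pull_gr (fst U U) he), mul_comm j i]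
  have e3 : ((-1 : K) ^ (i * j)) * (-1) ^ (i * j) = 1 := by
    rw [← mul_pow, neg_one_mul, neg_neg, one_pow]
  rw [e1, W'.op_spec, W'.op_spec, map_mul (W'.pull (snd U U)), map_mul (W'.pull (fst U U))]
  have e4 : x * (W'.pull (snd U U) e * W'.pull (snd U U) y) * W'.pull (fst U U) y' =
      x * W'.pull (snd U U) e * (W'.pull (snd U U) y * W'.pull (fst U U) y') := by
    simp only [mul_assoc]
  have e5 : x * W'.pull (snd U U) y * (W'.pull (fst U U) e * W'.pull (fst U U) y') =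
      ((-1 : K) ^ (i * j)) • (x * W'.pull (fst U U) e *
        (W'.pull (snd U U) y * W'.pull (fst U U) y')) := by
    have e6 : x * W'.pull (snd U U) y * (W'.pull (fst U U) e * W'.pull (fst U U) y') =
        x * (W'.pull (snd U U) y * W'.pull (fst U U) e) * W'.pull (fst U U) y' := by
      simp only [mul_assoc]
    rw [e6, e2, mul_smul_comm, smul_mul_assoc]
    simp only [mul_assoc]
  rw [e4, e5, map_smul, smul_eq_mul, ← mul_assoc ((-1 : K) ^ (i * j)), e3, one_mul, h]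

/-- The abstract construction. -/
theorem main {Y : 𝒱} {U : 𝒱'} (res : W.H Y →ₐ[K] W'.H U) {δ : W.H Y} {S : Set (W.H Y)} (N : ℕ)
    (hY : W.dim Y = N + 1) (hU : W'.dim U = N)
    (hres : ∀ i z, z ∈ W.gr Y i → res z ∈ W'.gr U i) (hδ : δ ∈ W.gr Y 2)
    (htr : ∀ z, W'.tr U (res z) = W.tr Y (δ * z))
    (hS : ∀ e ∈ S, ∀ i, W.pi Y i e ∈ S)
    (rr : W.H (Y ⊗ Y) →ₗ[K] W'.H (U ⊗ U))
    (hrr : ∀ a b, rr (W.tm a b) = W'.tm (res a) (res b))
    (hs : W'.even U ∈ W'.Cor U U 0 → ∃ N₀ : ℕ, 0 < N₀ ∧ ∃ u ∈ W.Alg (Y ⊗ Y) N,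
      ∃ x ∈ W'.gr (U ⊗ U) (2 * N), (∀ y, W'.op (rr u + x) y = (N₀ : K) • W'.eps U y) ∧
      ∀ e ∈ S, ∀ v, W'.tr (U ⊗ U) (x * W'.pull (fst U U) (res e) * v) =
        W'.tr (U ⊗ U) (x * W'.pull (snd U U) (res e) * v)) :
    ∃ M : NetC W W' Y U δ S, ∀ z, M.res z = res z := by
  have hdim : W.dim Y = W'.dim U + 1 := by rw [hY, hU]
  refine ⟨⟨res, hres, hδ, htr, gys res, gys_spec res, ?_⟩, fun z => rfl⟩
  intro hm
  obtain ⟨N₀, hN₀, u, hu, x, hx, h1, h2⟩ := hs hm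
  rw [← hU] at hx
  have hne : (N₀ : K) ≠ 0 := Nat.cast_ne_zero.2 hN₀.ne'
  refine ⟨(((N₀ : ℚ)⁻¹ : ℚ) : K) • W.op u, W.cor_rat
    (W.mem_cor.2 (Or.inr ⟨N, u, by rw [hY]; push_cast; ring, hu, rfl⟩)) _,
    ((N₀ : K)⁻¹) • W'.op x, ?_, ?_⟩
  · intro e he y
    rw [LinearMap.smul_apply, LinearMap.smul_apply, mul_smul_comm]
    congr 1
    have h3 : ∀ i, W'.op x (res (W.pi Y i e) * y) = res (W.pi Y i e) * W'.op x y := fun i =>
      op_comm_gr hx (hres i _ (W.pi_mem i e)) (h2 _ (hS e he i)) y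
    conv_lhs => rw [← W.sum_pi e]
    conv_rhs => rw [← W.sum_pi e]
    rw [map_sum, Finset.sum_mul, Finset.sum_mul, map_sum]
    exact Finset.sum_congr rfl fun i _ => h3 i
  · intro y
    have h3 := h1 y
    rw [W'.op_add, LinearMap.add_apply, op_res hdim hres rr hrr] at h3
    have h4 : W'.eps U y = ((N₀ : K)⁻¹) • ((N₀ : K) • W'.eps U y) := by
      rw [smul_smul, inv_mul_cancel₀ hne, one_smul]
    rw [h4, ← h3, smul_add, LinearMap.smul_apply, LinearMap.smul_apply, map_smul, Rat.cast_inv,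
      Rat.cast_natCast]

end NetHCAux

open NetHCAux in
/-- The structure `NetC` for the generic member. -/
theorem tNetHC (k₀ K : Type) [Field k₀] [Field K] [CharZero K] (h1 : StNetSm k₀)
    (h2 : StNetCH k₀ K) (h3 : StNetDelC k₀ K) (h4 : StNetCls k₀ K) (h5 : StNetAvgC k₀ K) :
    StNetHC k₀ K := by
  intro hv T E k _ _ _ P D m hn
  obtain ⟨hY, hYY, hO, hU₀, hUU₀, hQ₀, hU, hUU, vYY, vUU₀, vUU, -⟩ := h1 k P D
  have vU : IsVar D.u D.N := (hv k P D).2.1
  have wU : IsWeil D.U := vU.isWeil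
  have wY : IsWeil D.Y := D.isVar.isWeil
  have wUU : IsWeil D.UU := vUU.isWeil
  have wYY : IsWeil D.YY := vYY.isWeil
  have wP : IsWeil P.X := P.isVar.isWeil
  have hf : (D.e2 ≫ D.ρ) ≫ pullback.fst D.str D.str = pullback.fst D.u D.u ≫ D.r := by
    rw [Category.assoc]
    have e1 : D.ρ ≫ pullback.fst D.str D.str = pullback.fst D.u₀ D.u₀ ≫ D.toY :=
      pullback.lift_fst _ _ _
    have e2 : D.e2 ≫ pullback.fst D.u₀ D.u₀ = pullback.fst D.u D.u ≫ D.pU :=
      pullback.lift_fst _ _ _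
    rw [e1, ← Category.assoc, e2, Category.assoc]
    rfl
  have hg : (D.e2 ≫ D.ρ) ≫ pullback.snd D.str D.str = pullback.snd D.u D.u ≫ D.r := by
    rw [Category.assoc]
    have e1 : D.ρ ≫ pullback.snd D.str D.str = pullback.snd D.u₀ D.u₀ ≫ D.toY :=
      pullback.lift_snd _ _ _
    have e2 : D.e2 ≫ pullback.snd D.u₀ D.u₀ = pullback.snd D.u D.u ≫ D.pU :=
      pullback.lift_snd _ _ _
    rw [e1, ← Category.assoc, e2, Category.assoc]
    rfl
  have hfδ : ∀ e : T.H P.X, T.pullH (pullback.fst D.u D.u ≫ D.r ≫ D.ψ) e =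
      T.pullH (pullback.fst D.u D.u) (T.pullH D.r (T.pullH D.ψ e)) := by
    intro e
    rw [T.pullH_comp _ _ wUU wU wP, T.pullH_comp _ _ wU wY wP]
  have hgδ : ∀ e : T.H P.X, T.pullH (pullback.snd D.u D.u ≫ D.r ≫ D.ψ) e =
      T.pullH (pullback.snd D.u D.u) (T.pullH D.r (T.pullH D.ψ e)) := by
    intro e
    rw [T.pullH_comp _ _ wUU wU wP, T.pullH_comp _ _ wU wY wP]
  refine main (W := weil T k) (W' := weil T P.L) (Y := D.YV) (U := D.UV hv)
    (T.pullH D.r) D.N rfl rfl (fun i z hz => T.pullH_mem D.r wU wY i z hz)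
    (T.cl_mem _ wY 1 _ (T.pull_mem _ hY P.isVar.sm 1 _ (P.h_mem T tPS tHyp)))
    (h4 T E k P D m hn) ?_ (T.pullH (D.e2 ≫ D.ρ)).toLinearMap ?_ ?_
  · rintro e ⟨u, rfl⟩ i
    refine ⟨(weil T k).pi (⟨P.X, P.str, P.n, P.isVar⟩ : Var k₀ k) i u, ?_⟩
    exact pi_pull (weil T k) (X := D.YV) (Y := (⟨P.X, P.str, P.n, P.isVar⟩ : Var k₀ k))
      (Var.Hom.mk D.ψ D.ψ_str) i u
  · intro a b
    change T.pullH (D.e2 ≫ D.ρ) (T.pullH (pullback.fst D.str D.str) a *
      T.pullH (pullback.snd D.str D.str) b) = T.pullH (pullback.fst D.u D.u) (T.pullH D.r a) *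
      T.pullH (pullback.snd D.u D.u) (T.pullH D.r b)
    have q1 := T.pullH_comp (D.e2 ≫ D.ρ) (pullback.fst D.str D.str) wUU wYY wY a
    have q2 := T.pullH_comp (D.e2 ≫ D.ρ) (pullback.snd D.str D.str) wUU wYY wY b
    have q3 := T.pullH_comp (pullback.fst D.u D.u) D.r wUU wU wY a
    have q4 := T.pullH_comp (pullback.snd D.u D.u) D.r wUU wU wY b
    rw [hf] at q1
    rw [hg] at q2
    exact (map_mul (T.pullH (D.e2 ≫ D.ρ)) _ _).trans (congrArg₂ (fun a b => a * b)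
      (q1.symm.trans q3) (q2.symm.trans q4))
  · intro hi
    have hi' : (weil T P.L).eps (D.UV hv) ∈ (weil T P.L).Cor (D.UV hv) (D.UV hv) 0 :=
      (weil T P.L).sign_eps ((weil T P.L).sign_iff.2 hi)
    obtain ⟨a, ha, ha2⟩ : ∃ a ∈ T.codim D.UU D.N, ∀ j, ∀ y ∈ T.deg D.U j, ∀ y',
        T.tr D.UU (T.cl D.UU a * T.pullH (pullback.snd D.u D.u) y *
          T.pullH (pullback.fst D.u D.u) y') = (-1 : K) ^ j * T.tr D.U (y * y') := by
      let pii : T.H D.U → T.H D.U := fun y => (weil T P.L).eps (D.UV hv) y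
      have hpi : ∀ j, ∀ y ∈ T.deg D.U j, ∀ y', T.tr D.U (pii y * y') =
          (-1 : K) ^ j * T.tr D.U (y * y') := by
        intro j y hy y'
        have e1 : pii y = ((-1 : K) ^ j) • y := (weil T P.L).eps_gr (X := D.UV hv) hy
        rw [e1, smul_mul_assoc, map_smul, smul_eq_mul]
      rcases (weil T P.L).mem_cor.1 hi' with h0 | ⟨c, u, hc, ⟨a, ha, hu⟩, he⟩
      · refine ⟨0, Submodule.zero_mem _, fun j y hy y' => ?_⟩
        have e1 : pii y = 0 := LinearMap.congr_fun h0 y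
        rw [map_zero, zero_mul, zero_mul, map_zero, ← hpi j y hy y', e1, zero_mul, map_zero]
      · have hcN : c = D.N := by
          have : (c : ℤ) = (D.N : ℤ) + 0 := hc
          omega
        subst hcN
        refine ⟨a, ha, fun j y hy y' => ?_⟩
        rw [← hpi j y hy y']
        have e1 := (weil T P.L).op_spec (X := D.UV hv) (Y := D.UV hv) u y y'
        rw [← he] at e1
        rw [← hu] at e1
        exact e1.symm
    obtain ⟨N₀, hN₀, b, hb, hb2⟩ := h5 T k P D (fun i => (-1 : K) ^ i) a ha ha2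
    obtain ⟨w, hw, hw2⟩ := h2 T k P D D.N b hb
    have hw3 : T.pull D.ρ w ∈ T.codim D.UU₀ D.N := T.pull_mem _ hUU₀ hYY _ _ hw
    have hw4 : T.pull D.e2 (b - T.pull D.ρ w) ∈ T.codim D.UU D.N :=
      T.pull_mem _ hUU hUU₀ _ _ (Submodule.sub_mem _ hb hw3)
    refine ⟨N₀, hN₀, T.cl D.YY w, ⟨w, hw, rfl⟩,
      T.cl D.UU (T.pull D.e2 (b - T.pull D.ρ w)), T.cl_mem _ wUU D.N _ hw4, ?_, ?_⟩
    · intro y
      have e1 : T.pullH (D.e2 ≫ D.ρ) (T.cl D.YY w) +
          T.cl D.UU (T.pull D.e2 (b - T.pull D.ρ w)) = T.cl D.UU (T.pull D.e2 b) := by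
        rw [← T.cl_pull _ wUU wYY, T.pull_comp _ _ hUU hUU₀ hYY, map_sub, map_sub]
        abel
      have e2 : (weil T P.L).op (X := D.UV hv) (Y := D.UV hv)
          ((T.pullH (D.e2 ≫ D.ρ)).toLinearMap (T.cl D.YY w) +
          T.cl D.UU (T.pull D.e2 (b - T.pull D.ρ w))) =
          (weil T P.L).op (X := D.UV hv) (Y := D.UV hv) (T.cl D.UU (T.pull D.e2 b)) :=
        congrArg (fun z => (weil T P.L).op (X := D.UV hv) (Y := D.UV hv) z) e1
      refine (LinearMap.congr_fun e2 y).trans ?_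
      refine (weil T P.L).ind (X := D.UV hv) (P := fun y => (weil T P.L).op (X := D.UV hv)
        (Y := D.UV hv) (T.cl D.UU (T.pull D.e2 b)) y =
          (N₀ : K) • (weil T P.L).eps (D.UV hv) y) y
        (by rw [map_zero, map_zero, smul_zero]) (fun j y hy => ?_)
        (fun r s hr hs => by rw [map_add, map_add, smul_add, hr, hs])
      refine (weil T P.L).ext_tr fun y' => ?_
      refine ((weil T P.L).op_spec (X := D.UV hv) (Y := D.UV hv)
        (T.cl D.UU (T.pull D.e2 b)) y y').trans ?_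
      refine (hb2 j y hy y').trans ?_
      have e3 : (weil T P.L).eps (D.UV hv) y = ((-1 : K) ^ j) • y :=
        (weil T P.L).eps_gr (X := D.UV hv) hy
      rw [e3, smul_smul, smul_mul_assoc, map_smul, smul_eq_mul, mul_assoc]
      rfl
    · rintro e ⟨u, rfl⟩ v
      have hdel := h3 T k P D (b - T.pull D.ρ w) (Submodule.sub_mem _ hb hw3) hw2 u v
      rw [hfδ, hgδ] at hdel
      exact hdel

end Pool.Agent.Lib.MP_4ca46c_ag.C5
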