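import Mathlib
import Pool.Agent.Lib.MP_4ca46c_ag.C5.SpecN

/-!
# N04: the cohomology of the generic member of the family of divisors on `W × Z`
-/

set_option autoImplicit false

namespace Pool.Agent.Lib.MP_4ca46c_ag.C5

open CategoryTheory Limits AlgebraicGeometry TensorProduct MonoidalCategory
  CartesianMonoidalCategory
open Pool.Agent.Lib.MP_4ca46c_ag.Sign Pool.Agent.Lib.MP_4ca46c_ag.Hyp
open Pool.Agent.Lib.MP_4ca46c_ag.Std Pool.Agent.Lib.MP_4ca46c_ag.Geo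
open Pool.Agent.Lib.MP_4ca46c_ag.Geo.WeilCohomology
open Pool.Agent.Lib.MP_4ca46c_ag.Two (IsMem Fib Net StNetVar StNetSm StNetCH StNetCls)

private theorem cast_net {k₀ K : Type} [Field k₀] [Field K] [CharZero K] (T : WeilTheory k₀ K)
    {k : Type} [Field k] [Algebra k₀ k] [IsAlgClosed k] {Y : Sch k₀} {y : Y ⟶ pt k₀ k}
    {N M : ℕ} (hN : IsVar y N) (hM : IsVar y M) (h : N = M) {𝒱' : Type 1} [Category.{0} 𝒱']
    [CartesianMonoidalCategory 𝒱'] (W' : WeilCohomology K 𝒱') (U : 𝒱') (δ : T.H Y)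
    (S : Set (T.H Y)) (r : T.H Y → W'.H U)
    (H : ∃ F : NetC (weil T k) W' (⟨Y, y, N, hN⟩ : Var k₀ k) U δ S, ∀ z, F.res z = r z) :
    ∃ F : NetC (weil T k) W' (⟨Y, y, M, hM⟩ : Var k₀ k) U δ S, ∀ z, F.res z = r z := by
  subst h
  exact H

theorem tNetHWZ (k₀ K : Type) [Field k₀] [Field K] [CharZero K] (h : StNetHC k₀ K) :
    StNetHWZ k₀ K := by
  intro hv T hT k _ _ _ C Φ Ψ U₀ toP toY hPB hs hc
  have hH := h hv T hT k (SC C) (netD Φ Ψ toP toY hPB hs hc) 1 rfl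
  have hdim : Φ.V.n + Ψ.m + 1 = Φ.V.n + Ψ.V.n := by rw [Ψ.dim]; omega
  exact cast_net T (netD Φ Ψ toP toY hPB hs hc).isVar (Var.isVar_prod Φ.V.isVar Ψ.V.isVar) hdim
    (weil T (SC C).L) ((netD Φ Ψ toP toY hPB hs hc).UV hv) _ _ _ hH

end Pool.Agent.Lib.MP_4ca46c_ag.C5
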