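import Mathlib
import Pool.Agent.Lib.MP_4ca46c_ag.C5.SpecG
import Pool.Agent.Lib.MP_4ca46c_ag.Two.MemEx
import Pool.Agent.Lib.MP_4ca46c_ag.Two.MemGen
import Pool.Agent.Lib.MP_4ca46c_ag.T2.SegCls

/-!
# The family of divisors on `W × Z` (`StNetWZ`)
-/

set_option autoImplicit false

namespace Pool.Agent.Lib.MP_4ca46c_ag.C5

open CategoryTheory Limits AlgebraicGeometry TensorProduct MonoidalCategory
  CartesianMonoidalCategory
open Pool.Agent.Lib.MP_4ca46c_ag.Sign Pool.Agent.Lib.MP_4ca46c_ag.Hyp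
open Pool.Agent.Lib.MP_4ca46c_ag.Std Pool.Agent.Lib.MP_4ca46c_ag.Geo
open Pool.Agent.Lib.MP_4ca46c_ag.Geo.WeilCohomology
open Pool.Agent.Lib.MP_4ca46c_ag.Two (IsMem Fib Net StNetVar tMemEx tMemGen)

namespace NetWZAux

section

variable {k₀ k : Type} [Field k₀] [Field k] [Algebra k₀ k]

theorem emb2_fst (C : PCurve k₀ k) : emb2 C ≫ pullback.fst _ _ = pullback.fst _ _ :=
  pullback.lift_fst _ _ _

theorem emb2_snd (C : PCurve k₀ k) : emb2 C ≫ pullback.snd _ _ = pullback.snd _ _ ≫ C.emb :=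
  pullback.lift_snd _ _ _

theorem psi_str' {C : PCurve k₀ k} (Φ : Fib k₀ k) (Ψ : FibC C) :
    (ff Φ Ψ ≫ psi C) ≫ PSo.str k₀ k (Fin 2 × Fin 3) = yy Φ Ψ := by
  rw [Category.assoc, psi_str, ff_str]

end

/-- The hyperplane class of `ℙ¹ × C`. -/
theorem h_eq {k₀ K : Type} [Field k₀] [Field K] (T : WeilTheory k₀ K) (hT : Extra T) {k : Type}
    [Field k] [Algebra k₀ k] [IsAlgClosed k] (C : PCurve k₀ k) :
    (SC C).h T = T.pull (pullback.fst (l1 k₀ k) C.str) (hypClass T k (0 : Fin 2)) +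
      T.pull (pullback.snd (l1 k₀ k) C.str) (C.toProj.h T) := by
  have w5 : IsVar (PSo.str k₀ k (Fin 2 × Fin 3)) 5 :=
    pso_var k₀ k (Fin 2 × Fin 3) 5 (by simp)
  have w2 : IsVar (PSo.str k₀ k (Fin 3)) 2 := pso_var k₀ k (Fin 3) 2 (by simp)
  have w1 : IsVar (l1 k₀ k) 1 := l1_var
  have w12 := Var.isVar_prod w1 w2
  have hPC := pc_var C
  have e0 : (SC C).h T = T.pull (emb2 C ≫ segO k₀ k (Fin 2) (Fin 3))
      (hypClass T k ((0 : Fin 2), (0 : Fin 3))) := rfl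
  have e1 : C.toProj.h T = T.pull C.emb (hypClass T k (0 : Fin 3)) := rfl
  rw [e0, e1, T.pull_comp _ _ hPC.sm w12.sm w5.sm, T2.tSegCls k₀ K T hT k (Fin 2) (Fin 3) 0 0,
    map_add, ← T.pull_comp _ _ hPC.sm w12.sm w1.sm, ← T.pull_comp _ _ hPC.sm w12.sm w2.sm,
    emb2_fst, emb2_snd, T.pull_comp _ _ hPC.sm C.isVar.sm w2.sm]

theorem class_eq {k₀ K : Type} [Field k₀] [Field K] [CharZero K]
    (T : WeilTheory k₀ K) (hT : Extra T) {k : Type} [Field k] [Algebra k₀ k] [IsAlgClosed k]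
    (C : PCurve k₀ k) (Φ : Fib k₀ k) (Ψ : FibC C) :
    T.cl (YY Φ Ψ) (T.pull (ff Φ Ψ) ((SC C).h T)) =
    (weil T k).tm (X := Φ.VV) (Y := Ψ.VV) (Φ.η T) 1 +
      (weil T k).tm (X := Φ.VV) (Y := Ψ.VV) 1 (T.cl Ψ.V.X (T.pull Ψ.f (C.toProj.h T))) := by
  have w1 : IsVar (l1 k₀ k) 1 := l1_var
  have hY := yy_var Φ Ψ
  have hPC := pc_var C
  rw [h_eq T hT C, map_add, ← T.pull_comp _ _ hY.sm hPC.sm w1.sm,
    ← T.pull_comp _ _ hY.sm hPC.sm C.isVar.sm, ff_fst, ff_snd,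
    T.pull_comp _ _ hY.sm Φ.V.isVar.sm w1.sm, T.pull_comp _ _ hY.sm Ψ.V.isVar.sm C.isVar.sm,
    map_add, T.cl_pull _ hY.isWeil Φ.V.isVar.isWeil, T.cl_pull _ hY.isWeil Ψ.V.isVar.isWeil]
  have e2 : T.cl Φ.V.X (T.pull Φ.f (hypClass T k (0 : Fin 2))) = Φ.η T := rfl
  rw [e2]
  have e3 : (weil T k).tm (X := Φ.VV) (Y := Ψ.VV) (Φ.η T) 1 =
      T.pullH (pullback.fst Φ.V.str Ψ.V.str) (Φ.η T) *
        T.pullH (pullback.snd Φ.V.str Ψ.V.str) 1 := rfl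
  have e4 : (weil T k).tm (X := Φ.VV) (Y := Ψ.VV) 1 (T.cl Ψ.V.X (T.pull Ψ.f (C.toProj.h T))) =
      T.pullH (pullback.fst Φ.V.str Ψ.V.str) 1 *
        T.pullH (pullback.snd Φ.V.str Ψ.V.str) (T.cl Ψ.V.X (T.pull Ψ.f (C.toProj.h T))) := rfl
  rw [e3, e4, map_one, map_one, mul_one, one_mul]
  rfl

end NetWZAux

open NetWZAux in
theorem tNetWZ (k₀ K : Type) [Field k₀] [Field K] [CharZero K] (h1 : StEtC) (h2 : StNoPairC)
    (h3 : StUSmC) (h4 : StUConnC) (h5 : StVecS) : StNetWZ k₀ K := by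
  intro T hT k _ _ _ C Φ Ψ
  have hstr := psi_str' Φ Ψ
  obtain ⟨U, r, u, hU⟩ := tMemEx k₀ k (Fin 2 × Fin 3) (SC C).F (YY Φ Ψ) (yy Φ Ψ)
    (ff Φ Ψ ≫ psi C) hstr (fun p => algebraMap (SC C).R (SC C).F (MvPolynomial.X p))
  obtain ⟨toP, hP1, hP2⟩ := tMemGen k₀ k (SC C) (YY Φ Ψ) (yy Φ Ψ) (ff Φ Ψ) (ff_str Φ Ψ) U r u hU
  obtain ⟨v1, v2, v3, -⟩ := h5 k (FractionRing (MvPolynomial (Fin 2 × Fin 3) k))
  have w1 : LinearIndependent k
      (fun p : Fin 2 × Fin 3 => algebraMap (SC C).R (SC C).F (MvPolynomial.X p)) := v1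
  have w2 : fd C.d
      (fun p : Fin 2 × Fin 3 => algebraMap (SC C).R (SC C).F (MvPolynomial.X p)) ≠ 0 :=
    v2 C.d C.d_ne
  have w3 : Gen3 k
      (fun p : Fin 2 × Fin 3 => algebraMap (SC C).R (SC C).F (MvPolynomial.X p)) := v3
  have h7 : SmoothOfRelativeDimension (Φ.V.n + Ψ.m) u.left ∧ IsProper u.left := by
    refine h3 k₀ k C Φ Ψ (SC C).F
      (fun p : Fin 2 × Fin 3 => algebraMap (SC C).R (SC C).F (MvPolynomial.X p))
      w2 ?_ ?_ U r u hU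
    · intro e he
      obtain ⟨P, hP, hPe⟩ := h1 k₀ k C
      obtain ⟨ε, hε, hM⟩ := hPe e he
      exact hM (SC C).F _ (w3 P hP ε hε)
    · intro e e' he he'
      exact h2 k₀ k C (SC C).F _ w1 e e' he he'
  have h8 := h4 k₀ k C Φ Ψ U r u hU
  refine ⟨U, toP, r, hP1, ?_, ?_, ?_, class_eq T hT C Φ Ψ⟩
  · rw [hP2]
    exact h7.1
  · rw [hP2]
    exact h8
  · rw [hP2]
    exact hU

end Pool.Agent.Lib.MP_4ca46c_ag.C5
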