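import Mathlib
import Pool.Agent.Lib.MP_4ca46c_ag.C5.SpecG
import Pool.Agent.Lib.MP_4ca46c_ag.Two.NotRat

/-!
# G05: the curve `D_a` contains no pair of rational points
-/

set_option autoImplicit false

namespace Pool.Agent.Lib.MP_4ca46c_ag.C5

open CategoryTheory Limits AlgebraicGeometry TensorProduct MonoidalCategory
  CartesianMonoidalCategory
open Pool.Agent.Lib.MP_4ca46c_ag.Sign Pool.Agent.Lib.MP_4ca46c_ag.Hyp
open Pool.Agent.Lib.MP_4ca46c_ag.Std Pool.Agent.Lib.MP_4ca46c_ag.Geo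
open Pool.Agent.Lib.MP_4ca46c_ag.Geo.WeilCohomology
open Pool.Agent.Lib.MP_4ca46c_ag.Two (IsMem Fib Net StNetVar)

namespace NoPairCAux

/-- The coordinates of a rational point of a projective space. -/
theorem coords {k : Type} [Field k] (κ : Type) [Finite κ]
    (e : Spec (CommRingCat.of k) ⟶ PS k κ) :
    ∃ (i : κ) (h : ⊤ ≤ e ⁻¹ᵁ (psCoord k κ).D i) (w : κ → k), w i = 1 ∧
      ∀ l, (psCoord k κ).val e i h l =
        (Scheme.ΓSpecIso (CommRingCat.of k)).inv.hom (w l) := by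
  have hy : e (IsLocalRing.closedPoint k) ∈ (⊤ : (PS k κ).Opens) := trivial
  rw [← (psCoord k κ).iSup_D, TopologicalSpace.Opens.mem_iSup] at hy
  obtain ⟨i, hi⟩ := hy
  have h : ⊤ ≤ e ⁻¹ᵁ (psCoord k κ).D i := by
    intro x _
    have hx : x = IsLocalRing.closedPoint k := Subsingleton.elim _ _
    rw [hx]
    exact hi
  refine ⟨i, h, fun l => (Scheme.ΓSpecIso (CommRingCat.of k)).hom.hom
    ((psCoord k κ).val e i h l), ?_, fun l => ?_⟩
  · have h1 : (psCoord k κ).val e i h i = 1 := by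
      unfold Coord.val
      rw [PreCoord.f_self, map_one]
    exact (congrArg _ h1).trans (map_one _)
  · exact (congrArg (fun φ => φ.hom ((psCoord k κ).val e i h l))
      (Scheme.ΓSpecIso (CommRingCat.of k)).hom_inv_id).symm

theorem val_section {k : Type} [Field k] {κ : Type} [Finite κ] {T : Scheme.{0}} (z : T ⟶ PS k κ)
    (g : T ⟶ Spec (CommRingCat.of k)) (e : Spec (CommRingCat.of k) ⟶ PS k κ)
    (hz : z = g ≫ e) (i : κ) (hi : ⊤ ≤ e ⁻¹ᵁ (psCoord k κ).D i) (w : κ → k)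
    (hwv : ∀ l, (psCoord k κ).val e i hi l =
        (Scheme.ΓSpecIso (CommRingCat.of k)).inv.hom (w l))
    (h : ⊤ ≤ z ⁻¹ᵁ (psCoord k κ).D i) (l : κ) :
    (psCoord k κ).val z i h l = Hyp.val g (w l) := by
  subst hz
  rw [(psCoord k κ).val_comp g e i hi h l, hwv l]
  rfl

theorem alg_core {k M : Type} [Field k] [Field M] [Algebra k M] (a : Fin 2 × Fin 3 → M)
    (ha : LinearIndependent k a) (w : Fin 2 → k) (w' : Fin 3 → k) (i : Fin 2) (j : Fin 3)
    (hw : w i = 1) (hw' : w' j = 1) {R : Type} [CommRing R] [Nontrivial R] (φ : M →+* R)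
    (hE : ∑ p, φ (a p) * (φ (algebraMap k M (w p.1)) * φ (algebraMap k M (w' p.2))) = 0) :
    False := by
  have hE2 : φ (∑ p, (w p.1 * w' p.2) • a p) = 0 := by
    rw [map_sum, ← hE]
    apply Finset.sum_congr rfl
    intro p _
    rw [Algebra.smul_def, map_mul, map_mul, map_mul]
    ring
  have h0 : ∑ p, (w p.1 * w' p.2) • a p = 0 :=
    φ.injective (hE2.trans (map_zero φ).symm)
  have hl := Fintype.linearIndependent_iff.1 ha (fun p => w p.1 * w' p.2) h0 (i, j)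
  rw [hw, hw', one_mul] at hl
  exact one_ne_zero hl

theorem core {k M : Type} [Field k] [Field M] [Algebra k M] (a : Fin 2 × Fin 3 → M)
    (ha : LinearIndependent k a) {D P X : Scheme.{0}} (r : D ⟶ P) (p : P ⟶ PS k (Fin 2))
    (p' : P ⟶ X) (s : X ⟶ Spec (CommRingCat.of k)) (em : X ⟶ PS k (Fin 3))
    (hpp : p ≫ psStr k (Fin 2) = p' ≫ s) (ψ : P ⟶ PS k (Fin 2 × Fin 3))
    (u : D ⟶ Spec (CommRingCat.of M))
    (hu : (r ≫ p) ≫ psStr k (Fin 2) = u ≫ Spec.map (CommRingCat.ofHom (algebraMap k M)))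
    (hmem : (psCoord k (Fin 2 × Fin 3)).Van (r ≫ ψ) (fun j => Hyp.val u (a j)))
    (hψ : ∀ (T : Scheme.{0}) (z : T ⟶ P) (i : Fin 2) (j : Fin 3)
      (h : ⊤ ≤ (z ≫ p) ⁻¹ᵁ (psCoord k (Fin 2)).D i)
      (h' : ⊤ ≤ (z ≫ p' ≫ em) ⁻¹ᵁ (psCoord k (Fin 3)).D j) (a : Fin 2 × Fin 3 → Γ(T, ⊤)),
      (psCoord k (Fin 2 × Fin 3)).Van (z ≫ ψ) a →
      ∑ q, a q * ((psCoord k (Fin 2)).val (z ≫ p) i h q.1 *
          (psCoord k (Fin 3)).val (z ≫ p' ≫ em) j h' q.2) = 0)
    (e : Spec (CommRingCat.of k) ⟶ PS k (Fin 2)) (e' : Spec (CommRingCat.of k) ⟶ X)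
    (he : e ≫ psStr k (Fin 2) = 𝟙 _) (he' : e' ≫ s = 𝟙 _) (c : D)
    (hc : (r ≫ p) c ∈ Set.range e) (hc' : (r ≫ p') c ∈ Set.range e') : False := by
  obtain ⟨g, hg⟩ := Two.NotRatAux.sect_fac (psStr k (Fin 2)) e he (r ≫ p) c hc
  obtain ⟨g', hg'⟩ := Two.NotRatAux.sect_fac s e' he' (r ≫ p') c hc'
  obtain ⟨i, hi, w, hw, hwv⟩ := coords (Fin 2) e
  obtain ⟨j, hj, w', hw', hwv'⟩ := coords (Fin 3) (e' ≫ em)
  generalize hx : D.fromSpecResidueField c = x at hg hg'
  have hV := PreCoord.Van.comp (psCoord k (Fin 2 × Fin 3)).toPreCoord x hmem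
  have hz1 : (x ≫ r) ≫ p = g ≫ e := by
    rw [← hg, Category.assoc]
  have hz2 : (x ≫ r) ≫ p' ≫ em = g' ≫ (e' ≫ em) := by
    rw [← Category.assoc g', ← hg', Category.assoc, Category.assoc, Category.assoc]
  have h1 : ⊤ ≤ ((x ≫ r) ≫ p) ⁻¹ᵁ (psCoord k (Fin 2)).D i := by
    rw [hz1]
    exact (psCoord k (Fin 2)).top_le_comp g hi
  have h1' : ⊤ ≤ ((x ≫ r) ≫ p' ≫ em) ⁻¹ᵁ (psCoord k (Fin 3)).D j := by
    rw [hz2]
    exact (psCoord k (Fin 3)).top_le_comp g' hj
  have hE := hψ _ (x ≫ r) i j h1 h1' (fun j => x.appTop (Hyp.val u (a j))) (by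
      rw [Category.assoc]
      exact hV)
  have hs : (x ≫ u) ≫ Spec.map (CommRingCat.ofHom (algebraMap k M)) = g := by
    rw [Category.assoc, ← hu, Category.assoc, ← Category.assoc x, ← Category.assoc (x ≫ r),
      hz1, Category.assoc, he, Category.comp_id]
  have hs' : (x ≫ u) ≫ Spec.map (CommRingCat.ofHom (algebraMap k M)) = g' := by
    have h2 : ((x ≫ r) ≫ p') ≫ s = g' := by
      rw [Category.assoc x r p', hg', Category.assoc, he', Category.comp_id]
    rw [← h2, Category.assoc, ← hu, Category.assoc, hpp]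
    simp only [Category.assoc]
  have hgφ : ∀ b : k, Hyp.val g b = Hyp.val (x ≫ u) (algebraMap k M b) := by
    intro b
    rw [← hs, Hyp.val_map]
    rfl
  have hgφ' : ∀ b : k, Hyp.val g' b = Hyp.val (x ≫ u) (algebraMap k M b) := by
    intro b
    rw [← hs', Hyp.val_map]
    rfl
  have hau : ∀ b : M, x.appTop (Hyp.val u b) = Hyp.val (x ≫ u) b := by
    intro b
    rw [Hyp.val_comp]
    rfl
  have hE' : ∑ q : Fin 2 × Fin 3, Hyp.val (x ≫ u) (a q) *
      (Hyp.val (x ≫ u) (algebraMap k M (w q.1)) * Hyp.val (x ≫ u) (algebraMap k M (w' q.2))) =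
        0 := by
    rw [← hE]
    apply Finset.sum_congr rfl
    intro q _
    rw [val_section _ g e hz1 i hi w hwv h1 q.1,
      val_section _ g' (e' ≫ em) hz2 j hj w' hwv' h1' q.2, hgφ, hgφ', hau]
  have hnt : Nontrivial Γ(Spec (D.residueField c), ⊤) :=
    (Scheme.ΓSpecIso (D.residueField c)).hom.hom.domain_nontrivial
  exact alg_core a ha w w' i j hw hw' (Hyp.val (x ≫ u)) hE'

end NoPairCAux

open NoPairCAux

theorem tNoPairC (h : StSegVan) : StNoPairC := by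
  intro k₀ k _ _ _ C M _ _ _ _ a ha e e' he he' D r u hU c hc hc'
  have he1 : e.left ≫ psStr k (Fin 2) = 𝟙 _ := congrArg (fun φ => φ.left) he
  have he1' : e'.left ≫ C.str.left = 𝟙 _ := congrArg (fun φ => φ.left) he'
  have e3 : (pullback.fst (l1 k₀ k) C.str).left ≫ psStr k (Fin 2) =
      (pullback.snd (l1 k₀ k) C.str).left ≫ C.str.left :=
    congrArg (fun φ => φ.left) (pullback.condition (f := l1 k₀ k) (g := C.str))
  have e4 : (r.left ≫ (pullback.fst (l1 k₀ k) C.str).left) ≫ psStr k (Fin 2) =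
      u.left ≫ Spec.map (CommRingCat.ofHom (algebraMap k M)) := by
    have e1 := congrArg (fun φ => φ.left) hU.comm
    exact (Category.assoc _ _ _).trans e1
  exact core a ha r.left (pullback.fst (l1 k₀ k) C.str).left
    (pullback.snd (l1 k₀ k) C.str).left C.str.left C.emb.left e3 (psi C).left u.left e4 hU.mem
    (fun T z i j h1 h1' a H => (h k₀ k C T z i j h1 h1' a).1 H) e.left e'.left he1 he1' c hc hc'

end Pool.Agent.Lib.MP_4ca46c_ag.C5
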