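import Mathlib
import Pool.Agent.Lib.MP_4ca46c_ag.C5.SpecG
import Pool.Agent.Lib.MP_4ca46c_ag.Std.Bridge3

/-!
# Statement G01: the Fermat curve as a plane curve (helper34)
-/

set_option autoImplicit false

namespace Pool.Agent.Lib.MP_4ca46c_ag.C5

open CategoryTheory Limits AlgebraicGeometry
open Pool.Agent.Lib.MP_4ca46c_ag.Sign Pool.Agent.Lib.MP_4ca46c_ag.Hyp
open Pool.Agent.Lib.MP_4ca46c_ag.Std

theorem tPCurve (k₀ K : Type) [Field k₀] [Field K] : StPCurve k₀ K := by
  intro T E k _ _ _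
  have h0 : StFermPrime := tFermPrime
  have h1 : StFermSm := tFermSm tJac
  have h2 : StLocSm₁ := tLocSm₁
  have h3 : StGeomConn := fGeomConn
  have h4 : StAut k₀ K := tAut k₀ K (tDisjoint k₀ K)
  obtain ⟨d, hd, hd3⟩ := exists_fermDeg k
  obtain ⟨c, hc, hc1, hci⟩ := exists_fermScale k d hd hd3
  obtain ⟨v, hv, hv0, hv1⟩ := exists_fermPt k d (by omega)
  obtain ⟨p, hp⟩ := ferm_point (k := k) d 0 v hv hv0 hv1
  have hirr : IrreducibleSpace (Ferm (Fin 3) d k) := ferm_irr d h0 (by simp) hd p hp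
  obtain ⟨σ, hσ⟩ := exists_fermAut (k := k) (κ := Fin 3) d (hc := hc) hc1
  have hσi : IsIso σ := fermAut_iso d hc1 σ hσ
  let X : Sch k₀ := Over.mk ((fermι (Fin 3) d k ≫ psStr k (Fin 3)) ≫ (pt k₀ k).hom)
  let x : X ⟶ pt k₀ k := Over.homMk (fermι (Fin 3) d k ≫ psStr k (Fin 3)) rfl
  have hx : IsVar x 1 := ⟨ferm_smooth d h1 h2 (by simp) hd, ferm_proper d,
    h3 k _ (fermι (Fin 3) d k ≫ psStr k (Fin 3)) inferInstance⟩
  let e : X ⟶ PSo k₀ k (Fin 3) := Over.homMk (fermι (Fin 3) d k) (Category.assoc _ _ _).symm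
  have he : e ≫ PSo.str k₀ k (Fin 3) = x := Over.OverMorphism.ext rfl
  have hσx : σ ≫ fermι (Fin 3) d k ≫ psStr k (Fin 3) = fermι (Fin 3) d k ≫ psStr k (Fin 3) := by
    rw [← Category.assoc, hσ, Category.assoc, scl_str]
  let s : X ⟶ X := Over.homMk σ ((Category.assoc _ _ _).symm.trans
    (eq_whisker hσx (pt k₀ k).hom))
  have hs : IsIso s := by
    have : IsIso ((Over.forget _).map s) := hσi
    exact isIso_of_reflects_iso s (Over.forget _)
  have hsx : s ≫ x = x := Over.OverMorphism.ext hσx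
  let γ : X ⟶ pullback x x := pullback.lift (𝟙 X) s (by rw [Category.id_comp, hsx])
  have hγ1 : γ ≫ pullback.fst x x = 𝟙 X := pullback.lift_fst _ _ _
  have hγ2 : γ ≫ pullback.snd x x = s := pullback.lift_snd _ _ _
  refine ⟨⟨X, x, hx, e, inferInstanceAs (IsClosedImmersion (fermι (Fin 3) d k)), he, d,
    by omega, fun S z j h => (ferm_factor_iff d (z ≫ fermι (Fin 3) d k) j h).1 ⟨z, rfl⟩⟩, ?_⟩
  refine h4 T E k X x s γ hx hs hsx hγ1 hγ2 fun z hz => ?_
  obtain ⟨z', hz'⟩ := hz
  obtain ⟨w, hw, -⟩ := Scheme.Pullback.exists_preimage_pullback z z' hz'.symm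
  have h5 : pullback.fst γ.left (pullback.diagonal x).left =
      pullback.snd γ.left (pullback.diagonal x).left := by
    have h6 := pullback.condition (f := γ.left) (g := (pullback.diagonal x).left)
    have h7 : γ.left ≫ (pullback.fst x x).left = 𝟙 _ := by
      rw [← Over.comp_left, hγ1]; rfl
    have h8 : (pullback.diagonal x).left ≫ (pullback.fst x x).left = 𝟙 _ := by
      rw [← Over.comp_left, pullback.diagonal_fst]; rfl
    have h9 := congrArg (· ≫ (pullback.fst x x).left) h6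
    simpa only [Category.assoc, h7, h8, Category.comp_id] using h9
  have h6 : pullback.fst γ.left (pullback.diagonal x).left ≫ σ =
      pullback.fst γ.left (pullback.diagonal x).left := by
    have h6 := pullback.condition (f := γ.left) (g := (pullback.diagonal x).left)
    have h7 : γ.left ≫ (pullback.snd x x).left = σ := by
      rw [← Over.comp_left, hγ2]; rfl
    have h8 : (pullback.diagonal x).left ≫ (pullback.snd x x).left = 𝟙 _ := by
      rw [← Over.comp_left, pullback.diagonal_snd]; rfl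
    have h9 := congrArg (· ≫ (pullback.snd x x).left) h6
    simp only [Category.assoc, h7, h8, Category.comp_id] at h9
    rw [h9, h5]
  have h7 := scl_fixed (k := k) (κ := Fin 3) d (hc := hc) (by omega) hci
    (pullback.fst γ.left (pullback.diagonal x).left ≫ fermι (Fin 3) d k) ⟨_, rfl⟩ (by
      rw [Category.assoc, ← hσ, ← Category.assoc, h6])
  exact h7.false w

end Pool.Agent.Lib.MP_4ca46c_ag.C5
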