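import Mathlib
import Pool.Agent.Lib.MP_4ca46c_ag.C5.SpecA

/-!
# A07: the relation from the sign operator of the generic member
-/

set_option autoImplicit false

namespace Pool.Agent.Lib.MP_4ca46c_ag.C5

open CategoryTheory MonoidalCategory CartesianMonoidalCategory TensorProduct
open Pool.Agent.Lib.MP_4ca46c_ag.Geo Pool.Agent.Lib.MP_4ca46c_ag.Geo.WeilCohomology

namespace RelCAux

variable {K : Type} [Field K] [CharZero K] {𝒱 𝒱' : Type 1} [Category.{0} 𝒱]
  [CartesianMonoidalCategory 𝒱] [Category.{0} 𝒱'] [CartesianMonoidalCategory 𝒱']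
  {W : WeilCohomology K 𝒱} {W' : WeilCohomology K 𝒱'}

theorem gys_res {Y : 𝒱} {U : 𝒱'} {δ : W.H Y} {S : Set (W.H Y)} (N : NetC W W' Y U δ S)
    (z : W.H Y) : N.gys (N.res z) = δ * z := by
  refine W.ext_tr fun y => ?_
  rw [N.gys_spec, ← map_mul, N.tr_res, mul_assoc]

theorem eps_res {Y : 𝒱} {U : 𝒱'} {δ : W.H Y} {S : Set (W.H Y)} (N : NetC W W' Y U δ S)
    (z : W.H Y) : W'.eps U (N.res z) = N.res (W.eps Y z) := by
  have h : W'.eps U ∘ₗ N.res.toLinearMap = N.res.toLinearMap ∘ₗ W.eps Y := by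
    refine W.hom_ext fun i x hx => ?_
    rw [LinearMap.comp_apply, LinearMap.comp_apply, AlgHom.toLinearMap_apply,
      AlgHom.toLinearMap_apply, W'.eps_gr (N.res_gr i x hx), W.eps_gr hx, map_smul]
  exact LinearMap.congr_fun h z

theorem eps_mul_odd {Y : 𝒱} {e : W.H Y} (he : e ∈ W.gr Y 1) (z : W.H Y) :
    W.eps Y (e * z) = -(e * W.eps Y z) := by
  have h : W.eps Y ∘ₗ LinearMap.mulLeft K e = -(LinearMap.mulLeft K e ∘ₗ W.eps Y) := by
    refine W.hom_ext fun i x hx => ?_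
    rw [LinearMap.comp_apply, LinearMap.neg_apply, LinearMap.comp_apply,
      LinearMap.mulLeft_apply, LinearMap.mulLeft_apply, W.eps_gr hx]
    have h1 : e * x ∈ W.gr Y (1 + i) := SetLike.mul_mem_graded he hx
    rw [W.eps_gr h1, mul_smul_comm, pow_add, pow_one, mul_smul, neg_one_smul]
  exact LinearMap.congr_fun h z

/-- the relation on `Y` -/
theorem rel {Y : 𝒱} {U : 𝒱'} {δ : W.H Y} {S : Set (W.H Y)} (N : NetC W W' Y U δ S)
    (hS : ∀ e ∈ S, e ∈ W.gr Y 1) (hE : W'.even U ∈ W'.Cor U U 0) :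
    ∃ w ∈ W.Cor Y Y (-1), ∀ e ∈ S, ∀ z,
      (2 : K) • (δ * (e * W.eps Y z)) = δ * (e * w (δ * z)) - δ * w (δ * (e * z)) := by
  obtain ⟨w, hw, β, hβ, h⟩ := N.split hE
  refine ⟨w, hw, fun e he z => ?_⟩
  have E1 := h (N.res z)
  rw [eps_res, gys_res] at E1
  have E2 := h (N.res (e * z))
  rw [eps_res, gys_res, eps_mul_odd (hS e he), map_mul N.res e z, hβ e he, map_neg] at E2
  have E1' : N.res (e * W.eps Y z) = N.res (e * w (δ * z)) + N.res e * β (N.res z) := by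
    have e1 := congrArg (fun t => N.res e * t) E1
    simp only [mul_add] at e1
    rw [map_mul N.res e (W.eps Y z), map_mul N.res e (w (δ * z))]
    exact e1
  have E3 : N.res ((2 : K) • (e * W.eps Y z)) = N.res (e * w (δ * z) - w (δ * (e * z))) := by
    rw [map_smul, map_sub, two_smul]
    have h1 : N.res (w (δ * (e * z))) =
        -N.res (e * W.eps Y z) - N.res e * β (N.res z) := by
      rw [E2]
      abel
    rw [h1]
    nth_rewrite 1 [E1']
    abel
  have E4 := congrArg N.gys E3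
  rw [gys_res, gys_res, mul_sub, mul_smul_comm] at E4
  exact E4

end RelCAux

open RelCAux in
theorem tRelC : StRelC := by
  intro K _ _ 𝒱 𝒱' _ _ _ _ W W' X Z U a c S ha hc hS hN hE
  obtain ⟨N⟩ := hN
  have h10 : (1 : W.H X) ∈ W.gr X 0 := W.alg_gr (c := 0) (W.alg_one X)
  have h10' : (1 : W.H Z) ∈ W.gr Z 0 := W.alg_gr (c := 0) (W.alg_one Z)
  have hS' : ∀ e' ∈ ((fun e => W.tm (1 : W.H X) e) '' S), e' ∈ W.gr (X ⊗ Z) 1 := by
    rintro e' ⟨e, he, rfl⟩
    have := W.tm_gr h10 (hS e he).1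
    rwa [zero_add] at this
  obtain ⟨w, hw, h⟩ := rel N hS' hE
  refine ⟨w, hw, fun e he z => ?_⟩
  have h1 := h (W.tm 1 e) ⟨e, he, rfl⟩ z
  have e1 : W.tm a (1 : W.H Z) * W.tm 1 e = W.tm a e := by
    rw [W.tm_mul a e h10' h10, mul_zero, pow_zero, one_smul, mul_one, one_mul]
  have e2 : W.tm (1 : W.H X) c * W.tm 1 e = 0 := by
    rw [W.tm_mul 1 e hc h10, mul_zero, pow_zero, one_smul, mul_one, (hS e he).2,
      W.tm_zero_right]
  have e3 : ∀ t, (W.tm a 1 + W.tm 1 c) * (W.tm 1 e * t) = W.tm a e * t := fun t => by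
    rw [← mul_assoc, add_mul, e1, e2, add_zero]
  rw [e3, e3, e3] at h1
  exact h1

end Pool.Agent.Lib.MP_4ca46c_ag.C5
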