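import Mathlib
import Pool.Agent.Lib.MP_4ca46c_ag.C5.SpecG

set_option autoImplicit false

namespace Pool.Agent.Lib.MP_4ca46c_ag.C5

open CategoryTheory Limits AlgebraicGeometry TensorProduct MonoidalCategory
  CartesianMonoidalCategory
open Pool.Agent.Lib.MP_4ca46c_ag.Sign Pool.Agent.Lib.MP_4ca46c_ag.Hyp
open Pool.Agent.Lib.MP_4ca46c_ag.Std Pool.Agent.Lib.MP_4ca46c_ag.Geo
open Pool.Agent.Lib.MP_4ca46c_ag.Geo.WeilCohomology
open Pool.Agent.Lib.MP_4ca46c_ag.Two (IsMem Fib Net StNetVar)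

namespace SegVanAux

theorem psi_left {k₀ k : Type} [Field k₀] [Field k] [Algebra k₀ k] (C : PCurve k₀ k) :
    ((psi C).left : (PC C).left ⟶ PS k (Fin 2 × Fin 3)) =
      segre (pullback.fst (l1 k₀ k) C.str).left
        ((pullback.snd (l1 k₀ k) C.str).left ≫ C.emb.left) := by
  have h1 : emb2 C ≫ pullback.fst _ _ = pullback.fst (l1 k₀ k) C.str := pullback.lift_fst _ _ _
  have h2 : emb2 C ≫ pullback.snd _ _ = pullback.snd (l1 k₀ k) C.str ≫ C.emb :=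
    pullback.lift_snd _ _ _
  exact segO_left' (emb2 C) (pullback.fst (l1 k₀ k) C.str).left
    ((pullback.snd (l1 k₀ k) C.str).left ≫ C.emb.left) (by rw [h1]) (by rw [h2]; rfl)

theorem main {k : Type} [Field k] {κ κ' : Type} [Fintype κ] [Fintype κ'] {T Y : Scheme.{0}}
    (z : T ⟶ Y) (F : Y ⟶ PS k κ) (G : Y ⟶ PS k κ') (i : κ) (j : κ')
    (h : ⊤ ≤ (z ≫ F) ⁻¹ᵁ psD i) (h' : ⊤ ≤ (z ≫ G) ⁻¹ᵁ psD j) (a : κ × κ' → Γ(T, ⊤)) :
    (psCoord k (κ × κ')).Van (z ≫ segre F G) a ↔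
      ∑ p, a p * ((psCoord k κ).val (z ≫ F) i h p.1 * (psCoord k κ').val (z ≫ G) j h' p.2) = 0 := by
  have h0 : ⊤ ≤ (z ≫ segre F G) ⁻¹ᵁ psD (i, j) := by
    rw [Scheme.Hom.comp_preimage, segre_pre]
    exact le_inf h h'
  refine (PreCoord.van_iff_of_le (psCoord k (κ × κ')).toPreCoord (z ≫ segre F G) a (i, j)
    h0).trans ?_
  have e : ∀ p : κ × κ', (z ≫ segre F G).appLE (psD (i, j)) ⊤ h0 (psf (i, j) p) =
      (psCoord k κ).val (z ≫ F) i h p.1 * (psCoord k κ').val (z ≫ G) j h' p.2 := fun p =>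
    segre_app F G z (i, j) p ⊤ h0 h h'
  have e2 : ∑ p, a p * (z ≫ segre F G).appLE (psD (i, j)) ⊤ h0 (psf (i, j) p) =
      ∑ p, a p * ((psCoord k κ).val (z ≫ F) i h p.1 * (psCoord k κ').val (z ≫ G) j h' p.2) :=
    Finset.sum_congr rfl fun p _ => by rw [e p]
  rw [← e2]
  exact Iff.rfl

end SegVanAux

theorem tSegVan : StSegVan := by
  intro k₀ k _ _ _ C T z i j h h' a
  have h1 := SegVanAux.main z (pullback.fst (l1 k₀ k) C.str).left
    ((pullback.snd (l1 k₀ k) C.str).left ≫ C.emb.left) i j h h' a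
  rw [← SegVanAux.psi_left C] at h1
  exact h1

end Pool.Agent.Lib.MP_4ca46c_ag.C5
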