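import Mathlib
import Pool.Agent.Lib.MP_4ca46c_ag.C5.SpecA
import Pool.Agent.Lib.MP_4ca46c_ag.Two.Idem
import Pool.Agent.Lib.MP_4ca46c_ag.Two.VRK
import Pool.Agent.Lib.MP_4ca46c_ag.T2.EvenA

/-!
# The operator algebra of the relation (`StTC`)
-/

set_option autoImplicit false

namespace Pool.Agent.Lib.MP_4ca46c_ag.C5

open CategoryTheory MonoidalCategory CartesianMonoidalCategory TensorProduct
open Pool.Agent.Lib.MP_4ca46c_ag.Geo Pool.Agent.Lib.MP_4ca46c_ag.Geo.WeilCohomology
open Pool.Agent.Lib.MP_4ca46c_ag.Two (tIdem)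

namespace TCAux

variable {K : Type} [Field K] [CharZero K] {𝒱 : Type 1} [Category.{0} 𝒱]
  [CartesianMonoidalCategory 𝒱] {W : WeilCohomology K 𝒱} {X Z : 𝒱}

omit [CharZero K] in
/-- a tensor product of two vectors vanishes only if one of them does -/
theorem tmul_zero {V V' : Type} [AddCommGroup V] [Module K V] [AddCommGroup V'] [Module K V']
    {v : V} {v' : V'} (h : (v ⊗ₜ[K] v' : V ⊗[K] V') = 0) : v = 0 ∨ v' = 0 := by
  by_contra hcon
  rw [not_or] at hcon
  have h1 : ∃ φ : Module.Dual K V, φ v ≠ 0 := by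
    by_contra hno
    push Not at hno
    exact hcon.1 ((Module.forall_dual_apply_eq_zero_iff K v).1 hno)
  have h2 : ∃ φ : Module.Dual K V', φ v' ≠ 0 := by
    by_contra hno
    push Not at hno
    exact hcon.2 ((Module.forall_dual_apply_eq_zero_iff K v').1 hno)
  obtain ⟨φ, hφ⟩ := h1
  obtain ⟨ψ, hψ⟩ := h2
  have h3 : (LinearMap.mul' K K ∘ₗ TensorProduct.map φ ψ) (v ⊗ₜ[K] v') = φ v * ψ v' := by
    rw [LinearMap.comp_apply, TensorProduct.map_tmul, LinearMap.mul'_apply]
  rw [h, map_zero] at h3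
  exact mul_ne_zero hφ hψ h3.symm

/-- a tensor product of two operators vanishes only if one of them does -/
theorem tens_zero {p : W.E X} {q : W.E Z} (h : (W.tens p q : W.E (X ⊗ Z)) = 0) :
    p = 0 ∨ q = 0 := by
  by_contra hcon
  rw [not_or] at hcon
  have h1 : ∃ x, p x ≠ 0 := by
    by_contra hno
    push Not at hno
    exact hcon.1 (LinearMap.ext hno)
  have h2 : ∃ z, q z ≠ 0 := by
    by_contra hno
    push Not at hno
    exact hcon.2 (LinearMap.ext hno)
  obtain ⟨x, hx⟩ := h1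
  obtain ⟨z, hz⟩ := h2
  have h3 : W.tens p q (W.tm x z) = 0 := LinearMap.congr_fun h (W.tm x z)
  rw [W.tens_tm, ← W.kun_tmul] at h3
  rcases tmul_zero ((LinearEquiv.map_eq_zero_iff _).1 h3) with h4 | h4
  · exact hx h4
  · exact hz h4

/-- the operator of multiplication by `a ⊗ e` for `e` of degree one -/
theorem mul_ae {a : W.H X} {e : W.H Z} (he : e ∈ W.gr Z 1) :
    (LinearMap.mulLeft K (W.tm a e) : W.E (X ⊗ Z)) =
      W.tens (LinearMap.mulLeft K a * W.eps X : W.E X) (LinearMap.mulLeft K e) := by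
  refine hom_ext_tm_gr fun i j x y hx hy => ?_
  rw [W.tens_tm, LinearMap.mulLeft_apply, LinearMap.mulLeft_apply, Module.End.mul_apply,
    LinearMap.mulLeft_apply, W.eps_gr hx, W.tm_mul a y he hx, one_mul, mul_smul_comm]
  have h1 : W.tm (((-1 : K) ^ i) • (a * x)) (e * y) = ((-1 : K) ^ i) • W.tm (a * x) (e * y) := by
    simp only [tm, map_smul, smul_mul_assoc]
  exact h1.symm

/-- The algebra of the argument in an algebra over `K`. -/
theorem ring_part {A : Type} [Ring A] [Algebra K A] {M D w s F F' E₀ : A} (hFM : F' * M = E₀)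
    (hMF : M * F = E₀) (hEF : E₀ * F = E₀) (hFE : F' * E₀ = E₀) (hss : s * s = 1)
    (hsF : s * F = F * s) (hrel : (2 : K) • (M * s) = M * w * D - D * w * M)
    (hsa : s * (F * w * (D * F)) = F * w * (D * F) * s)
    (ha : IsNilpotent (F * w * (D * F))) (hb : IsNilpotent (F' * D * (w * F'))) : E₀ = 0 := by
  have h1 : (2 : K) • (E₀ * s) = E₀ * (F * w * (D * F)) - F' * D * (w * F') * E₀ := by
    have h2 : F' * ((2 : K) • (M * s)) * F = (2 : K) • (E₀ * s) := by
      rw [mul_smul_comm, smul_mul_assoc, ← mul_assoc F' M s, hFM, mul_assoc E₀ s F, hsF,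
        ← mul_assoc, hEF]
    rw [← h2, hrel]
    have h3 : F' * (M * w * D) * F = E₀ * (F * w * (D * F)) := by
      calc F' * (M * w * D) * F = (F' * M) * w * D * F := by noncomm_ring
        _ = (E₀ * F) * w * D * F := by rw [hFM, hEF]
        _ = _ := by noncomm_ring
    have h4 : F' * (D * w * M) * F = F' * D * (w * F') * E₀ := by
      calc F' * (D * w * M) * F = F' * D * w * (M * F) := by noncomm_ring
        _ = F' * D * w * (F' * E₀) := by rw [hMF, hFE]
        _ = _ := by noncomm_ring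
    rw [mul_sub, sub_mul, h3, h4]
  generalize F * w * (D * F) = a at ha h1 hsa
  generalize F' * D * (w * F') = b at hb h1
  have hu : IsUnit ((2 : K) • s - a) := by
    have hs : IsUnit ((2 : K) • s) := by
      refine ⟨⟨(2 : K) • s, (2 : K)⁻¹ • s, ?_, ?_⟩, rfl⟩
      · rw [smul_mul_smul_comm, hss, mul_inv_cancel₀ (two_ne_zero (α := K)), one_smul]
      · rw [smul_mul_smul_comm, hss, inv_mul_cancel₀ (two_ne_zero (α := K)), one_smul]
    have hc : Commute (-a) ((2 : K) • s) := by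
      refine Commute.neg_left ?_
      have h5 : Commute a s := hsa.symm
      exact h5.smul_right (2 : K)
    have h6 := IsNilpotent.isUnit_add_left_of_commute ha.neg hs hc
    rwa [← sub_eq_add_neg] at h6
  have h2 : E₀ * ((2 : K) • s - a) = -b * E₀ := by
    rw [mul_sub, mul_smul_comm, h1, neg_mul]
    abel
  have h3 : ∀ k : ℕ, E₀ * ((2 : K) • s - a) ^ k = (-b) ^ k * E₀ := by
    intro k
    induction k with
    | zero => rw [pow_zero, pow_zero, mul_one, one_mul]
    | succ k ih =>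
      rw [pow_succ', ← mul_assoc, h2, mul_assoc, ih, ← mul_assoc, ← pow_succ']
  obtain ⟨k, hk⟩ := hb
  have h4 := h3 k
  have h5 : (-b) ^ k = 0 := by
    rw [neg_pow, hk, mul_zero]
  rw [h5, zero_mul] at h4
  exact ((hu.pow k).mul_left_eq_zero).1 h4

end TCAux

open TCAux in
theorem tTC (h1 : StNTensC) : StTC := by
  intro K _ _ 𝒱 _ _ W X Z a c S g ha hc hεX hεZ hrel hS hg hgg hge hgc hN
  have hc2 : c ∈ W.gr Z (2 * 1) := W.alg_gr hc
  obtain ⟨T, hT⟩ : ∃ T : W.E X, T = LinearMap.mulLeft K a := ⟨_, rfl⟩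
  obtain ⟨Tc, hTc⟩ : ∃ T : W.E Z, T = LinearMap.mulLeft K c := ⟨_, rfl⟩
  have hTR : T ∈ W.R X 1 := by
    rw [hT]
    exact R_cast (cor_le (W.cor_mul ha)) (by norm_num)
  obtain ⟨G, hG, hGTG, hNn⟩ := tIdem K 𝒱 W X 1 T hTR
  have hn1 : T * (1 - G * T) = T - T * G * T := by rw [mul_sub, mul_one, mul_assoc]
  have hn2 : (1 - T * G) * T = T - T * G * T := by rw [sub_mul, one_mul]
  have hff : (1 - G * T) * (1 - G * T) = 1 - G * T := by
    have h1 : G * T * (G * T) = G * T := by rw [← mul_assoc, hGTG]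
    rw [mul_sub, mul_one, sub_mul, one_mul, h1, sub_self, sub_zero]
  have hff' : (1 - T * G) * (1 - T * G) = 1 - T * G := by
    have h1 : T * G * (T * G) = T * G := by
      rw [mul_assoc, ← mul_assoc G T G, hGTG]
    rw [mul_sub, mul_one, sub_mul, one_mul, h1, sub_self, sub_zero]
  have hf0 : (1 - G * T) ∈ W.R X 0 :=
    Submodule.sub_mem _ R_one (R_cast (R_mul hG hTR) (by norm_num))
  have hf0' : (1 - T * G) ∈ W.R X 0 :=
    Submodule.sub_mem _ R_one (R_cast (R_mul hTR hG) (by norm_num))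
  generalize (1 - G * T) = f at hn1 hff hf0
  generalize (1 - T * G) = f' at hn2 hff' hf0'
  generalize hn : T - T * G * T = n at hNn hn1 hn2
  have hnf : n * f = n := by rw [← hn1, mul_assoc, hff]
  have hfn : f' * n = n := by rw [← hn2, ← mul_assoc, hff']
  have hεε : (W.eps X : W.E X) * W.eps X = 1 := W.eps_eps
  by_cases hn0 : n = 0
  · left
    refine ⟨G, hG, fun z => ?_⟩
    rw [hn0, sub_eq_zero] at hn
    have h2 := LinearMap.congr_fun hn z
    rw [hT] at h2
    exact h2.symm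
  · right
    intro e he
    have he1 := hS e he
    obtain ⟨Me, hMe⟩ : ∃ T : W.E Z, T = LinearMap.mulLeft K e := ⟨_, rfl⟩
    have hgMe : g * Me = Me * g := by
      rw [hMe]
      ext z
      exact hge e he z
    have hgTc : g * Tc = Tc * g := by
      rw [hTc]
      ext z
      exact hgc z
    rw [← hTc] at hN
    obtain ⟨w, hw, hrw⟩ := hrel
    have hwR : (w : W.E (X ⊗ Z)) ∈ W.R (X ⊗ Z) (-1) := cor_le hw
    have hεf : (W.eps X : W.E X) * f = f * (W.eps X : W.E X) := T2.evena_eps hf0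
    have hF : (W.tens f g : W.E (X ⊗ Z)) ∈ W.R (X ⊗ Z) 0 :=
      R_cast (R_tens hf0 hg) (by norm_num)
    have hF' : (W.tens f' g : W.E (X ⊗ Z)) ∈ W.R (X ⊗ Z) 0 :=
      R_cast (R_tens hf0' hg) (by norm_num)
    have hΔ1 : ((W.tens T 1 + W.tens 1 Tc) * W.tens f g : W.E (X ⊗ Z)) ∈ W.N (X ⊗ Z) 1 := by
      have e1 : ((W.tens T 1 + W.tens 1 Tc) * W.tens f g : W.E (X ⊗ Z)) =
          W.tens n g + W.tens f (Tc * g) := by
        rw [add_mul, ← tens_mul, ← tens_mul, one_mul, one_mul, hn1]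
      rw [e1]
      exact Submodule.add_mem _ (N_cast (N_tens hεZ hNn hg) (by norm_num))
        (N_cast (h1 K 𝒱 W X Z 1 0 (Tc * g) f hεX hN hf0) (by norm_num))
    have hΔ2 : (W.tens f' g * (W.tens T 1 + W.tens 1 Tc) : W.E (X ⊗ Z)) ∈ W.N (X ⊗ Z) 1 := by
      have e1 : (W.tens f' g * (W.tens T 1 + W.tens 1 Tc) : W.E (X ⊗ Z)) =
          W.tens n g + W.tens f' (Tc * g) := by
        rw [mul_add, ← tens_mul, ← tens_mul, mul_one, mul_one, hn2, hgTc]
      rw [e1]
      exact Submodule.add_mem _ (N_cast (N_tens hεZ hNn hg) (by norm_num))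
        (N_cast (h1 K 𝒱 W X Z 1 0 (Tc * g) f' hεX hN hf0') (by norm_num))
    have hν1 : (W.tens f g * w * ((W.tens T 1 + W.tens 1 Tc) * W.tens f g) : W.E (X ⊗ Z)) ∈
        W.N (X ⊗ Z) 0 := N_cast (N_mul_left hΔ1 (R_mul hF hwR)) (by norm_num)
    have hν2 : (W.tens f' g * (W.tens T 1 + W.tens 1 Tc) * (w * W.tens f' g) :
        W.E (X ⊗ Z)) ∈ W.N (X ⊗ Z) 0 := N_cast (N_mul_right hΔ2 (R_mul hwR hF')) (by norm_num)
    have hE : (W.tens (n * W.eps X : W.E X) (Me * g) : W.E (X ⊗ Z)) = 0 := by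
      refine ring_part (K := K) (M := W.tens (T * W.eps X : W.E X) Me)
        (D := W.tens T 1 + W.tens 1 Tc) (w := w)
        (s := W.eps (X ⊗ Z)) (F := W.tens f g) (F' := W.tens f' g) ?_ ?_ ?_ ?_ W.eps_eps ?_ ?_ ?_
        (N_nilpotent hν1) (N_nilpotent hν2)
      · rw [← tens_mul, ← mul_assoc, hn2, hgMe]
      · rw [← tens_mul, mul_assoc T, hεf, ← mul_assoc, hn1]
      · rw [← tens_mul, mul_assoc n, hεf, ← mul_assoc, hnf, mul_assoc, hgg]
      · rw [← tens_mul, ← mul_assoc, hfn, ← mul_assoc, hgMe, mul_assoc, hgg]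
      · exact T2.evena_eps hF
      · have hM : (LinearMap.mulLeft K (W.tm a e) : W.E (X ⊗ Z)) =
            W.tens (T * W.eps X : W.E X) Me := by
          rw [hT, hMe]
          exact mul_ae he1
        have hD : (LinearMap.mulLeft K (W.tm a 1 + W.tm 1 c) : W.E (X ⊗ Z)) =
            W.tens T 1 + W.tens 1 Tc := by
          have e1 : (LinearMap.mulLeft K (W.tm a (1 : W.H Z)) : W.E (X ⊗ Z)) =
              W.tens T 1 := by
            rw [hT]
            exact mulLeft_fst a
          have e2 : (LinearMap.mulLeft K (W.tm (1 : W.H X) c) : W.E (X ⊗ Z)) =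
              W.tens 1 Tc := by
            rw [hTc]
            exact mulLeft_snd hc2
          rw [← e1, ← e2]
          ext y
          rw [LinearMap.add_apply, LinearMap.mulLeft_apply, LinearMap.mulLeft_apply,
            LinearMap.mulLeft_apply, add_mul]
        rw [← hM, ← hD]
        ext y
        exact hrw e he y
      · exact T2.evena_eps (N_le hν1)
    rcases tens_zero hE with h2 | h2
    · exfalso
      apply hn0
      have h3 : n * (W.eps X : W.E X) * W.eps X = 0 := by rw [h2, zero_mul]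
      rwa [mul_assoc, hεε, mul_one] at h3
    · intro z
      have h3 := LinearMap.congr_fun h2 z
      rw [hMe] at h3
      exact h3

end Pool.Agent.Lib.MP_4ca46c_ag.C5
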