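import Mathlib
import Pool.Agent.Lib.MP_4ca46c_ag.C5.SpecG
import Pool.Agent.Lib.MP_4ca46c_ag.Two.UConn
import Pool.Agent.Lib.MP_4ca46c_ag.Two.MemEx
import Pool.Agent.Lib.MP_4ca46c_ag.Two.GeomUp

/-!
# Connectedness of the divisors `U` in `W × Z` (`tUConnC`)
-/

set_option autoImplicit false

namespace Pool.Agent.Lib.MP_4ca46c_ag.C5

open CategoryTheory Limits AlgebraicGeometry TensorProduct MonoidalCategory
  CartesianMonoidalCategory
open Pool.Agent.Lib.MP_4ca46c_ag.Sign Pool.Agent.Lib.MP_4ca46c_ag.Hyp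
open Pool.Agent.Lib.MP_4ca46c_ag.Std Pool.Agent.Lib.MP_4ca46c_ag.Geo
open Pool.Agent.Lib.MP_4ca46c_ag.Two (IsMem Fib Net Mem tMemEx tGeomUp)
open Pool.Agent.Lib.MP_4ca46c_ag.Two.UConnAux (genFibre van_congr)

namespace UConnCAux

theorem fd_map {R S : Type} [CommRing R] [CommRing S] (g : R →+* S) (d : ℕ)
    (a : Fin 2 × Fin 3 → R) : fd d (fun p => g (a p)) = g (fd d a) := by
  unfold fd cr
  rw [map_sum]
  apply Finset.sum_congr rfl
  intro l _
  fin_cases l <;> simp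

/-- `fd` of the generic vector is not zero. -/
theorem fd_generic (k F : Type) [Field k] [Field F] [Algebra (MvPolynomial (Fin 2 × Fin 3) k) F]
    [IsFractionRing (MvPolynomial (Fin 2 × Fin 3) k) F] (d : ℕ) (hd : d ≠ 0) :
    fd d (fun p : Fin 2 × Fin 3 =>
      algebraMap (MvPolynomial (Fin 2 × Fin 3) k) F (MvPolynomial.X p)) ≠ 0 := by
  rw [fd_map (algebraMap (MvPolynomial (Fin 2 × Fin 3) k) F) d (fun p => MvPolynomial.X p)]
  intro h2
  have h3 := (IsFractionRing.injective (MvPolynomial (Fin 2 × Fin 3) k) F)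
    (h2.trans (map_zero _).symm)
  have h4 := congrArg (MvPolynomial.eval (fun p : Fin 2 × Fin 3 =>
    if p = (0, 1) ∨ p = (1, 2) then (1 : k) else 0)) h3
  rw [← fd_map, map_zero] at h4
  simp [fd, cr, Fin.sum_univ_three, hd] at h4

variable {k₀ k : Type} [Field k₀] [Field k] [Algebra k₀ k]

/-- Connectedness of the generic member, for any model of the function field. -/
theorem connAux (h2 : StGraphC) [IsAlgClosed k] (C : PCurve k₀ k) (Φ : Fib k₀ k)
    (Ψ : FibC C) (F : Type) [Field F] [Algebra k₀ F]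
    [Algebra k F] [IsScalarTower k₀ k F] [Algebra (MvPolynomial (Fin 2 × Fin 3) k) F]
    [IsScalarTower k (MvPolynomial (Fin 2 × Fin 3) k) F]
    [IsFractionRing (MvPolynomial (Fin 2 × Fin 3) k) F]
    (U : Sch k₀) (r : U ⟶ YY Φ Ψ) (u : U ⟶ pt k₀ F) (hU : IsMem (yy Φ Ψ) (ff Φ Ψ ≫ psi C)
      (fun j : Fin 2 × Fin 3 =>
        algebraMap (MvPolynomial (Fin 2 × Fin 3) k) F (MvPolynomial.X j)) r u) :
    GeometricallyConnected u.left := by
  have hz : (ff Φ Ψ ≫ psi C) ≫ PSo.str k₀ k (Fin 2 × Fin 3) = yy Φ Ψ := by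
    rw [Category.assoc, psi_str, ff_str]
  -- the universal section is irreducible
  have hY : IrreducibleSpace (YY Φ Ψ).left :=
    isVar_irreducible fStalk tIrr (Var.isVar_prod Φ.V.isVar Ψ.V.isVar)
  have hb := Two.NetCHAux.bundle_baseChange (IsPullback.of_hasPullback
    (psCoord k (Fin 2 × Fin 3)).toZ ((ff Φ Ψ ≫ psi C).left : (YY Φ Ψ).left ⟶
      PS k (Fin 2 × Fin 3))) (psCoord k (Fin 2 × Fin 3)).toZ_bundle
  have hirr := tBundleIrr _ _ _ hb hY
  obtain ⟨g, hg⟩ := genFibre F (yy Φ Ψ) (ff Φ Ψ ≫ psi C) hz r u hU _ _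
    (IsPullback.of_hasPullback _ _)
  have hpre : PreirreducibleSpace U.left :=
    tGenIrr (MvPolynomial (Fin 2 × Fin 3) k) F _ _ _ _ _ hg hirr
  -- the curve `D`
  have hdet := fd_generic k F C.d C.d_ne
  obtain ⟨D, rD, uD, hD⟩ := tMemEx k₀ k (Fin 2 × Fin 3) F (PC C) (pc C) (psi C) (psi_str C)
    (fun j : Fin 2 × Fin 3 => algebraMap (MvPolynomial (Fin 2 × Fin 3) k) F (MvPolynomial.X j))
  have hP1 := h2 k₀ k C F _ hdet D rD uD hD
  -- a rational point of `Z`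
  obtain ⟨q, hq⟩ := Ψ.V.isVar.exists_point
  have hq2 : (pm k₀ k F ≫ q ≫ Ψ.f) ≫ C.str = 𝟙 _ ≫ pm k₀ k F := by
    rw [Category.assoc, Category.assoc, Ψ.f_str, hq, Category.comp_id, Category.id_comp]
  obtain ⟨e, he1, he2⟩ : ∃ e : pt k₀ F ⟶ D, e ≫ rD ≫ pullback.snd _ _ =
      pm k₀ k F ≫ q ≫ Ψ.f ∧ e ≫ uD = 𝟙 _ :=
    ⟨hP1.lift _ _ hq2, hP1.lift_fst _ _ _, hP1.lift_snd _ _ _⟩
  have hσ : Φ.σ ≫ Φ.V.str = l1 k₀ k := by
    rw [← Φ.f_str, ← Category.assoc, Φ.σ_f, Category.id_comp]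
  have hw : (e ≫ rD ≫ pullback.fst _ _ ≫ Φ.σ) ≫ Φ.V.str = (pm k₀ k F ≫ q) ≫ Ψ.V.str := by
    have e1 : pullback.fst (l1 k₀ k) C.str ≫ l1 k₀ k = pullback.snd _ _ ≫ C.str :=
      pullback.condition
    have e2 : (e ≫ rD ≫ pullback.fst _ _ ≫ Φ.σ) ≫ Φ.V.str =
        e ≫ (rD ≫ pullback.snd _ _) ≫ C.str := by
      simp only [Category.assoc]
      rw [hσ, e1]
    rw [e2, hP1.w, ← Category.assoc, he2, Category.assoc, hq, Category.comp_id,
      Category.id_comp]
  obtain ⟨w, hw1, hw2⟩ : ∃ w : pt k₀ F ⟶ YY Φ Ψ, w ≫ pullback.fst _ _ =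
      e ≫ rD ≫ pullback.fst _ _ ≫ Φ.σ ∧ w ≫ pullback.snd _ _ = pm k₀ k F ≫ q :=
    ⟨pullback.lift _ _ hw, pullback.lift_fst _ _ _, pullback.lift_snd _ _ _⟩
  have hw3 : w ≫ ff Φ Ψ = e ≫ rD := by
    apply pullback.hom_ext
    · rw [Category.assoc, Category.assoc, ff_fst, ← Category.assoc, hw1]
      simp only [Category.assoc]
      rw [Φ.σ_f, Category.comp_id]
    · rw [Category.assoc, Category.assoc, ff_snd, ← Category.assoc, hw2, Category.assoc]
      exact he1.symm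
  have hw4 : w ≫ yy Φ Ψ = 𝟙 _ ≫ pm k₀ k F := by
    have e3 : yy Φ Ψ = pullback.snd _ _ ≫ Ψ.V.str := pullback.condition
    rw [e3, ← Category.assoc, hw2, Category.assoc, hq, Category.comp_id, Category.id_comp]
  have hwm : Mem (ff Φ Ψ ≫ psi C) (fun j : Fin 2 × Fin 3 =>
      algebraMap (MvPolynomial (Fin 2 × Fin 3) k) F (MvPolynomial.X j)) w (𝟙 _) := by
    have a1 := PreCoord.Van.comp (psCoord k (Fin 2 × Fin 3)).toPreCoord
      (e.left : (pt k₀ F).left ⟶ D.left) hD.mem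
    have a2 : (e.left : (pt k₀ F).left ⟶ D.left) ≫
        ((rD ≫ psi C).left : D.left ⟶ PS k (Fin 2 × Fin 3)) =
        ((w ≫ ff Φ Ψ ≫ psi C).left : (pt k₀ F).left ⟶ PS k (Fin 2 × Fin 3)) := by
      rw [← Category.assoc w, hw3, Category.assoc]
      rfl
    have a3 : (fun j : Fin 2 × Fin 3 => e.left.appTop (Hyp.val (uD.left : D.left ⟶
        Spec (CommRingCat.of F)) (algebraMap (MvPolynomial (Fin 2 × Fin 3) k) F
          (MvPolynomial.X j)))) = fun j : Fin 2 × Fin 3 => Hyp.val ((𝟙 (pt k₀ F) :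
            pt k₀ F ⟶ pt k₀ F).left : (pt k₀ F).left ⟶ Spec (CommRingCat.of F))
              (algebraMap (MvPolynomial (Fin 2 × Fin 3) k) F (MvPolynomial.X j)) := by
      funext j
      rw [← he2]
      have a4 := val_comp e.left (uD.left : D.left ⟶ Spec (CommRingCat.of F))
      exact (DFunLike.congr_fun a4 _).symm
    exact van_congr a1 a2 a3
  obtain ⟨s, -, hs⟩ := hU.lift _ w (𝟙 _) hw4 hwm
  -- `U` is connected
  have hne : Nonempty U.left := by
    have hn : Nonempty (pt k₀ F).left := inferInstanceAs (Nonempty (Spec (CommRingCat.of F)))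
    exact ⟨s.left hn.some⟩
  have hcon : ConnectedSpace U.left := by
    have : IrreducibleSpace U.left := { toPreirreducibleSpace := hpre, toNonempty := hne }
    infer_instance
  have hs2 : (s.left : Spec (CommRingCat.of F) ⟶ U.left) ≫
      (u.left : U.left ⟶ Spec (CommRingCat.of F)) = 𝟙 _ := congrArg CommaMorphism.left hs
  have hP := IsPullback.of_hasPullback (u.left : U.left ⟶ Spec (CommRingCat.of F))
    (Spec.map (CommRingCat.ofHom (algebraMap F (AlgebraicClosure F))))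
  exact tGeomUp F (AlgebraicClosure F) _ _ u.left _ _ hP
    (tRatPt F (AlgebraicClosure F) _ _ u.left _ _ s.left hs2 hP hcon)

end UConnCAux

open UConnCAux in
/-- **Connectedness of `U`** for the generic vector. -/
theorem tUConnC (h : StGraphC) : StUConnC := by
  intro k₀ k _ _ _ _ C Φ Ψ U r u hU
  exact @connAux k₀ k _ _ _ h _ C Φ Ψ (SC C).F _ _ _ _
    (inferInstance : Algebra (SC C).R (SC C).F)
    (inferInstance : IsScalarTower k (SC C).R (SC C).F)
    (inferInstance : IsFractionRing (SC C).R (SC C).F) U r u hU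

end Pool.Agent.Lib.MP_4ca46c_ag.C5
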