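import Mathlib
import Pool.Agent.Lib.MP_4ca46c_ag.C5.SpecG
import Pool.Agent.Lib.MP_4ca46c_ag.Two.USm
import Pool.Agent.Lib.MP_4ca46c_ag.Two.MemEx

/-!
# C5, module G06: smoothness of the members
-/

set_option autoImplicit false

namespace Pool.Agent.Lib.MP_4ca46c_ag.C5

open CategoryTheory Limits AlgebraicGeometry TensorProduct MonoidalCategory
  CartesianMonoidalCategory
open Pool.Agent.Lib.MP_4ca46c_ag.Sign Pool.Agent.Lib.MP_4ca46c_ag.Hyp
open Pool.Agent.Lib.MP_4ca46c_ag.Std Pool.Agent.Lib.MP_4ca46c_ag.Geo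
open Pool.Agent.Lib.MP_4ca46c_ag.Geo.WeilCohomology
open Pool.Agent.Lib.MP_4ca46c_ag.Two (IsMem Fib Net Mem tMemEx)

namespace USmCAux

open Two.USmAux (mem_comp)

section scheme

variable {X Y Z : Scheme.{0}}

theorem comp1 {m n : ℕ} {f : X ⟶ Y} {g : Y ⟶ Z} (A : Y.Opens)
    (hf : SmoothOfRelativeDimension m (f ∣_ A)) (hg : SmoothOfRelativeDimension n g) :
    SmoothOfRelativeDimension (n + m) ((f ⁻¹ᵁ A).ι ≫ f ≫ g) := by
  have h4 : (f ⁻¹ᵁ A).ι ≫ f ≫ g = (f ∣_ A) ≫ A.ι ≫ g := by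
    rw [← Category.assoc, ← Category.assoc, morphismRestrict_ι]
  rw [h4]
  have h5 : SmoothOfRelativeDimension (0 + n) (A.ι ≫ g) := inferInstance
  have h6 : SmoothOfRelativeDimension (m + (0 + n)) ((f ∣_ A) ≫ A.ι ≫ g) := inferInstance
  rwa [zero_add, add_comm m n] at h6

theorem restr {m : ℕ} {f : X ⟶ Y} {A B : Y.Opens} (hAB : B ≤ A)
    (hf : SmoothOfRelativeDimension m (f ∣_ A)) : SmoothOfRelativeDimension m (f ∣_ B) := by
  have h1 : IsPullback (f ⁻¹ᵁ B).ι (f ∣_ B) f B.ι := (isPullback_morphismRestrict f B).flip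
  have h2 : B.ι = Y.homOfLE hAB ≫ A.ι := (Scheme.homOfLE_ι Y hAB).symm
  rw [h2] at h1
  have h3 := h1.of_right' (isPullback_morphismRestrict f A).flip
  have := smoothOfRelativeDimension_isStableUnderBaseChange.{0} m
  exact MorphismProperty.of_isPullback (P := @SmoothOfRelativeDimension m) h3 hf

theorem comp2 {m n : ℕ} {f : X ⟶ Y} {g : Y ⟶ Z} (A B : Y.Opens)
    (hf : SmoothOfRelativeDimension m (f ∣_ A)) (hg : SmoothOfRelativeDimension n (B.ι ≫ g)) :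
    SmoothOfRelativeDimension (n + m) ((f ⁻¹ᵁ (A ⊓ B)).ι ≫ f ≫ g) := by
  have hf' := restr (f := f) (A := A) (B := A ⊓ B) inf_le_left hf
  have h4 : (f ⁻¹ᵁ (A ⊓ B)).ι ≫ f ≫ g =
      (f ∣_ (A ⊓ B)) ≫ Y.homOfLE (inf_le_right : A ⊓ B ≤ B) ≫ B.ι ≫ g := by
    rw [← Category.assoc, ← Category.assoc (Y.homOfLE _), Scheme.homOfLE_ι, ← Category.assoc,
      morphismRestrict_ι]
  rw [h4]
  have h5 : SmoothOfRelativeDimension (0 + n)
      (Y.homOfLE (inf_le_right : A ⊓ B ≤ B) ≫ B.ι ≫ g) := inferInstance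
  have h6 : SmoothOfRelativeDimension (m + (0 + n))
      ((f ∣_ (A ⊓ B)) ≫ Y.homOfLE (inf_le_right : A ⊓ B ≤ B) ≫ B.ι ≫ g) := inferInstance
  rwa [zero_add, add_comm m n] at h6

theorem cover {n : ℕ} {ι : Type} (f : X ⟶ Y) (O : ι → X.Opens) (hO : iSup O = ⊤)
    (h : ∀ i, SmoothOfRelativeDimension n ((O i).ι ≫ f)) : SmoothOfRelativeDimension n f :=
  haveI : IsZariskiLocalAtSource (@SmoothOfRelativeDimension.{0} n) :=
    HasRingHomProperty.instIsZariskiLocalAtSource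
      (Q := RingHom.Locally (RingHom.IsStandardSmoothOfRelativeDimension n))
  IsZariskiLocalAtSource.of_iSup_eq_top (P := @SmoothOfRelativeDimension.{0} n) O hO h

end scheme

section main

variable {k₀ k : Type} [Field k₀] [Field k] [Algebra k₀ k] {C : PCurve k₀ k} (Φ : Fib k₀ k)
  (Ψ : FibC C) {M : Type} [Field M] [Algebra k₀ M]
  [Algebra k M] [IsScalarTower k₀ k M] {a : Fin 2 × Fin 3 → M}
  {U : Sch k₀} {r : U ⟶ YY Φ Ψ} {u : U ⟶ pt k₀ M}
  {D : Sch k₀} {rD : D ⟶ PC C} {uD : D ⟶ pt k₀ M}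

/-- `U` is the fibre product of the base changes of `W` and `Z` over the curve. -/
theorem sq {W₁ W₂ : Sch k₀} {w₁ : W₁ ⟶ Φ.V.X} {g₁ : W₁ ⟶ D} {w₂ : W₂ ⟶ Ψ.V.X} {g₂ : W₂ ⟶ D}
    (hW₁ : IsPullback w₁ g₁ Φ.f (rD ≫ pullback.fst _ _))
    (hW₂ : IsPullback w₂ g₂ Ψ.f (rD ≫ pullback.snd _ _))
    (hU : IsMem (yy Φ Ψ) (ff Φ Ψ ≫ psi C) a r u)
    (hD : IsMem (pc C) (psi C) a rD uD)
    {c : U ⟶ D} (hc : c ≫ rD = r ≫ ff Φ Ψ) (hcu : c ≫ uD = u) {a₁ : U ⟶ W₁} {a₂ : U ⟶ W₂}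
    (h11 : a₁ ≫ w₁ = r ≫ pullback.fst _ _) (h12 : a₁ ≫ g₁ = c)
    (h21 : a₂ ≫ w₂ = r ≫ pullback.snd _ _) (h22 : a₂ ≫ g₂ = c) : IsPullback a₁ a₂ g₁ g₂ := by
  refine IsPullback.mk' (by rw [h12, h22]) ?_ ?_
  · intro T φ φ' e1 e2
    refine hU.ext T φ φ' ?_ ?_
    · refine pullback.hom_ext ?_ ?_
      · rw [Category.assoc, Category.assoc, ← h11, reassoc_of% e1]
      · rw [Category.assoc, Category.assoc, ← h21, reassoc_of% e2]
    · rw [← hcu, ← h12, Category.assoc, reassoc_of% e1]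
  · intro T p q e
    have hs : pullback.fst (l1 k₀ k) C.str ≫ l1 k₀ k = pullback.snd (l1 k₀ k) C.str ≫ C.str :=
      pullback.condition
    have e1 : p ≫ w₁ ≫ Φ.f = p ≫ g₁ ≫ rD ≫ pullback.fst _ _ := by rw [hW₁.w]
    have e2 : q ≫ w₂ ≫ Ψ.f = p ≫ g₁ ≫ rD ≫ pullback.snd _ _ := by rw [hW₂.w, reassoc_of% e]
    have e3 : (p ≫ w₁) ≫ Φ.V.str = p ≫ g₁ ≫ uD ≫ pm k₀ k M := by
      rw [← Φ.f_str, ← hD.comm, Category.assoc, reassoc_of% e1]
    have e4 : (q ≫ w₂) ≫ Ψ.V.str = p ≫ g₁ ≫ uD ≫ pm k₀ k M := by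
      rw [← Ψ.f_str, ← hD.comm, Category.assoc, reassoc_of% e2, pc, hs]
    let t : T ⟶ YY Φ Ψ := pullback.lift (p ≫ w₁) (q ≫ w₂) (by rw [e3, e4])
    have ht1 : t ≫ pullback.fst _ _ = p ≫ w₁ := pullback.lift_fst _ _ _
    have ht2 : t ≫ pullback.snd _ _ = q ≫ w₂ := pullback.lift_snd _ _ _
    have htf : t ≫ ff Φ Ψ = (p ≫ g₁) ≫ rD := by
      refine pullback.hom_ext ?_ ?_
      · rw [Category.assoc, Category.assoc, Category.assoc, ff_fst, reassoc_of% ht1, e1]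
      · rw [Category.assoc, Category.assoc, Category.assoc, ff_snd, reassoc_of% ht2, e2]
    have hmem : Mem (ff Φ Ψ ≫ psi C) a t ((p ≫ g₁) ≫ uD) := by
      have h1 := mem_comp (psi C) hD.mem (p ≫ g₁)
      unfold Mem at h1 ⊢
      rw [← Category.assoc t (ff Φ Ψ) (psi C), htf]
      exact h1
    obtain ⟨t', ht'r, ht'u⟩ := hU.lift T t ((p ≫ g₁) ≫ uD) (by
      rw [Category.assoc, Category.assoc, ← e3, ← ht1, Category.assoc]) hmem
    have hcc : t' ≫ c = p ≫ g₁ := by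
      refine hD.ext T _ _ ?_ ?_
      · rw [Category.assoc, hc, reassoc_of% ht'r, htf]
      · rw [Category.assoc, hcu, ht'u]
    refine ⟨t', ?_, ?_⟩
    · refine hW₁.hom_ext ?_ ?_
      · rw [Category.assoc, h11, reassoc_of% ht'r, ht1]
      · rw [Category.assoc, h12, hcc]
    · refine hW₂.hom_ext ?_ ?_
      · rw [Category.assoc, h21, reassoc_of% ht'r, ht2]
      · rw [Category.assoc, h22, hcc, e]

end main

end USmCAux

open USmCAux

theorem tUSmC (h : StGraphC) : StUSmC := by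
  intro k₀ k _ _ _ C Φ Ψ M _ _ _ _ a hfd hEt hNP U r u hU
  obtain ⟨D, rD, uD, hD⟩ := tMemEx k₀ k (Fin 2 × Fin 3) M (PC C) (pc C) (psi C) (psi_str C) a
  have hG := h k₀ k C M a hfd D rD uD hD
  -- the map to the curve
  have hmem : Mem (psi C) a (r ≫ ff Φ Ψ) u := by
    have h := hU.mem
    unfold Mem at h ⊢
    rw [Category.assoc]
    exact h
  have hcomm : (r ≫ ff Φ Ψ) ≫ pc C = u ≫ ptMap k₀ (IsScalarTower.toAlgHom k₀ k M) := by
    rw [← hU.comm, Category.assoc, ff_str]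
  obtain ⟨c, hc, hcu⟩ := hD.lift U (r ≫ ff Φ Ψ) u hcomm hmem
  -- the two base changes
  let q₁ : D ⟶ L1 k₀ k := rD ≫ pullback.fst _ _
  let q₂ : D ⟶ C.X := rD ≫ pullback.snd _ _
  let W₁ : Sch k₀ := pullback Φ.f q₁
  let W₂ : Sch k₀ := pullback Ψ.f q₂
  let w₁ : W₁ ⟶ Φ.V.X := pullback.fst _ _
  let g₁ : W₁ ⟶ D := pullback.snd _ _
  let w₂ : W₂ ⟶ Ψ.V.X := pullback.fst _ _
  let g₂ : W₂ ⟶ D := pullback.snd _ _
  have hW₁ : IsPullback w₁ g₁ Φ.f q₁ := IsPullback.of_hasPullback _ _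
  have hW₂ : IsPullback w₂ g₂ Ψ.f q₂ := IsPullback.of_hasPullback _ _
  have e1 : (r ≫ pullback.fst _ _) ≫ Φ.f = c ≫ q₁ := by
    rw [← Category.assoc c, hc, Category.assoc, Category.assoc, ff_fst]
  have e2 : (r ≫ pullback.snd _ _) ≫ Ψ.f = c ≫ q₂ := by
    rw [← Category.assoc c, hc, Category.assoc, Category.assoc, ff_snd]
  let a₁ : U ⟶ W₁ := pullback.lift (r ≫ pullback.fst _ _) c e1
  let a₂ : U ⟶ W₂ := pullback.lift (r ≫ pullback.snd _ _) c e2
  have h11 : a₁ ≫ w₁ = r ≫ pullback.fst _ _ := pullback.lift_fst _ _ _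
  have h12 : a₁ ≫ g₁ = c := pullback.lift_snd _ _ _
  have h21 : a₂ ≫ w₂ = r ≫ pullback.snd _ _ := pullback.lift_fst _ _ _
  have h22 : a₂ ≫ g₂ = c := pullback.lift_snd _ _ _
  have hsq : IsPullback a₁ a₂ g₁ g₂ := sq Φ Ψ hW₁ hW₂ hU hD hc hcu h11 h12 h21 h22
  have P : IsPullback a₁.left a₂.left g₁.left g₂.left := hsq.map (Over.forget _)
  have P₁ : IsPullback w₁.left g₁.left Φ.f.left q₁.left := hW₁.map (Over.forget _)
  have P₂ : IsPullback w₂.left g₂.left Ψ.f.left q₂.left := hW₂.map (Over.forget _)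
  -- the base change of `Z`
  have B₂ : IsPullback w₂ (g₂ ≫ uD) Ψ.V.str (pm k₀ k M) := by
    have := hW₂.paste_vert hG
    rwa [Ψ.f_str] at this
  have hbc := fun n => smoothOfRelativeDimension_isStableUnderBaseChange.{0} n
  have s₂ : SmoothOfRelativeDimension Ψ.V.n (g₂ ≫ uD).left :=
    MorphismProperty.of_isPullback (P := @SmoothOfRelativeDimension Ψ.V.n)
      (B₂.map (Over.forget _)) Ψ.V.isVar.smooth
  have p₂ : IsProper (g₂ ≫ uD).left :=
    MorphismProperty.of_isPullback (P := @IsProper) (B₂.map (Over.forget _)) Ψ.V.isVar.proper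
  -- the map to the line over `M`
  let Q : Sch k₀ := pullback (l1 k₀ k) (pm k₀ k M)
  let δ : D ⟶ Q := pullback.lift q₁ uD (by
    rw [Category.assoc]
    exact hD.comm)
  have hδ1 : δ ≫ pullback.fst _ _ = q₁ := pullback.lift_fst _ _ _
  have hδ2 : δ ≫ pullback.snd _ _ = uD := pullback.lift_snd _ _ _
  let WM : Sch k₀ := pullback Φ.f (pullback.fst (l1 k₀ k) (pm k₀ k M))
  let wM : WM ⟶ Φ.V.X := pullback.fst _ _
  let gM : WM ⟶ Q := pullback.snd _ _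
  have hWM : IsPullback wM gM Φ.f (pullback.fst (l1 k₀ k) (pm k₀ k M)) :=
    IsPullback.of_hasPullback _ _
  have BM : IsPullback wM (gM ≫ pullback.snd _ _) Φ.V.str (pm k₀ k M) := by
    have := hWM.paste_vert (IsPullback.of_hasPullback (l1 k₀ k) (pm k₀ k M))
    rwa [Φ.f_str] at this
  have sM : SmoothOfRelativeDimension Φ.V.n (gM ≫ pullback.snd _ _).left :=
    MorphismProperty.of_isPullback (P := @SmoothOfRelativeDimension Φ.V.n)
      (BM.map (Over.forget _)) Φ.V.isVar.smooth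
  let t : W₁ ⟶ WM := pullback.lift w₁ (g₁ ≫ δ) (by
    rw [Category.assoc, hδ1]
    exact hW₁.w)
  have ht1 : t ≫ wM = w₁ := pullback.lift_fst _ _ _
  have ht2 : t ≫ gM = g₁ ≫ δ := pullback.lift_snd _ _ _
  have hT : IsPullback t g₁ gM δ := by
    refine IsPullback.of_right (h₁₂ := wM) (h₂₂ := pullback.fst (l1 k₀ k) (pm k₀ k M)) ?_ ht2 hWM
    rw [ht1, hδ1]
    exact hW₁
  have PT : IsPullback t.left g₁.left gM.left δ.left := hT.map (Over.forget _)
  have hu₁ : u.left = a₁.left ≫ (g₁ ≫ uD).left := by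
    rw [← Over.comp_left, ← Category.assoc, h12, hcu]
  have hu₂ : u.left = a₂.left ≫ (g₂ ≫ uD).left := by
    rw [← Over.comp_left, ← Category.assoc, h22, hcu]
  have hg₁ : (g₁ ≫ uD).left = t.left ≫ (gM ≫ pullback.snd _ _).left := by
    rw [← Over.comp_left, ← Category.assoc, ht2, Category.assoc, hδ2]
  have hdim : Φ.V.n + Ψ.m = Ψ.V.n + Φ.m := by
    rw [Φ.dim, Ψ.dim]; omega
  constructor
  · -- the open sets
    have hE : ∀ e : {e : pt k₀ k ⟶ L1 k₀ k // e ≫ l1 k₀ k = 𝟙 _},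
        ∃ O : Q.left.Opens, (∀ x, (pullback.fst (l1 k₀ k) (pm k₀ k M)).left x ∈
          Set.range e.1.left → x ∈ O) ∧ SmoothOfRelativeDimension 0 (δ.left ∣_ O) :=
      fun e => hEt e.1 e.2 D rD uD δ hD hδ1 hδ2
    choose OE hOE1 hOE2 using hE
    let O : Option {e : pt k₀ k ⟶ L1 k₀ k // e ≫ l1 k₀ k = 𝟙 _} → U.left.Opens := fun i =>
      match i with
      | none => a₂.left ⁻¹ᵁ (g₂.left ≫ q₁.left) ⁻¹ᵁ Φ.S
      | some e => a₁.left ⁻¹ᵁ
          (((g₁.left ≫ q₂.left) ⁻¹ᵁ Ψ.S) ⊓ (t.left ⁻¹ᵁ gM.left ⁻¹ᵁ OE e))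
    have hO : iSup O = ⊤ := by
      rw [eq_top_iff]
      intro x _
      rw [TopologicalSpace.Opens.mem_iSup]
      by_contra hx
      have r1 : (g₂.left ≫ q₁.left) (a₂.left x) = q₁.left (c.left x) := by
        rw [← h22]
        rfl
      have r2 : (g₁.left ≫ q₂.left) (a₁.left x) = q₂.left (c.left x) := by
        rw [← h12]
        rfl
      have r3 : (pullback.fst (l1 k₀ k) (pm k₀ k M)).left (gM.left (t.left (a₁.left x))) =
          q₁.left (c.left x) := by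
        have : a₁ ≫ t ≫ gM ≫ pullback.fst (l1 k₀ k) (pm k₀ k M) = c ≫ q₁ := by
          rw [← Category.assoc t, ht2, Category.assoc, hδ1, ← Category.assoc, h12]
        have h' : (a₁ ≫ t ≫ gM ≫ pullback.fst (l1 k₀ k) (pm k₀ k M)).left x =
            (c ≫ q₁).left x := by rw [this]
        exact h'
      have n1 : q₁.left (c.left x) ∉ Φ.S := by
        intro hc
        refine hx ⟨none, ?_⟩
        change (g₂.left ≫ q₁.left) (a₂.left x) ∈ Φ.S
        rw [r1]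
        exact hc
      obtain ⟨e, he, hr⟩ := Φ.compl _ n1
      have n2 : q₂.left (c.left x) ∈ Ψ.S := by
        by_contra hcon
        obtain ⟨e', he', hr'⟩ := Ψ.compl _ hcon
        exact hNP e e' he he' D rD uD hD (c.left x) hr hr'
      refine hx ⟨some ⟨e, he⟩, ?_⟩
      change a₁.left x ∈ (((g₁.left ≫ q₂.left) ⁻¹ᵁ Ψ.S) ⊓ (t.left ⁻¹ᵁ gM.left ⁻¹ᵁ OE ⟨e, he⟩))
      refine ⟨?_, ?_⟩
      · change (g₁.left ≫ q₂.left) (a₁.left x) ∈ Ψ.S
        rw [r2]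
        exact n2
      · change gM.left (t.left (a₁.left x)) ∈ OE ⟨e, he⟩
        refine hOE1 ⟨e, he⟩ _ ?_
        rw [r3]
        exact hr
    refine cover _ O hO fun i => ?_
    cases i with
    | none =>
      rw [hu₂, hdim]
      exact Two.USmAux.loc P.flip P₁ Φ.S Φ.smooth s₂
    | some e =>
      rw [hu₁]
      refine comp2 _ _ ?_ ?_
      · have h1 := P.flip.paste_horiz P₂
        exact Two.USmAux.res h1 Ψ.S Ψ.smooth
      · rw [hg₁]
        have h1 : SmoothOfRelativeDimension 0 (t.left ∣_ (gM.left ⁻¹ᵁ OE e)) :=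
          Two.USmAux.res PT.flip (OE e) (hOE2 e)
        have h2 := comp1 (gM.left ⁻¹ᵁ OE e) h1 sM
        exact h2
  · rw [hu₂]
    have hf : IsProper Φ.f.left := by
      have h5 : IsProper (Φ.f.left ≫ (PSo.str k₀ k (Fin 2)).left) := by
        rw [← Over.comp_left, Φ.f_str]
        exact Φ.V.isVar.proper
      have h6 : IsProper (PSo.str k₀ k (Fin 2)).left := (pso_var k₀ k (Fin 2) 1 (by simp)).proper
      exact IsProper.of_comp _ (PSo.str k₀ k (Fin 2)).left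
    have hg₁ : IsProper g₁.left := MorphismProperty.of_isPullback (P := @IsProper) P₁ hf
    have ha₂ : IsProper a₂.left := MorphismProperty.of_isPullback (P := @IsProper) P hg₁
    infer_instance

end Pool.Agent.Lib.MP_4ca46c_ag.C5
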