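import Mathlib
import Pool.Agent.Lib.MP_4ca46c_ag.C5.SpecA

/-!
# MP_4ca46c_ag, project C5: one of the two classes is regular
-/

set_option autoImplicit false

namespace Pool.Agent.Lib.MP_4ca46c_ag.C5

open CategoryTheory
open Pool.Agent.Lib.MP_4ca46c_ag.Geo Pool.Agent.Lib.MP_4ca46c_ag.Geo.WeilCohomology

theorem tVRC (h1 : StZgC) (h2 : StTC) : StVRC := by
  intro K _ _ 𝒱 _ _ W X Z C π a δ hC hδ hy ha hX hZ hrel
  obtain ⟨g, hg0, hgg, hcomm, hN, hfin⟩ := h1 K 𝒱 W Z C π δ hC hδ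
  have hc : W.pull π δ ∈ W.Alg Z 1 := W.alg_pull π hδ
  have h := h2 K 𝒱 W X Z a (W.pull π δ) (Odd1 W π) g ha hc hX hZ hrel
    (by rintro e ⟨u, hu, rfl⟩; exact W.pull_gr π hu) hg0 hgg
    (by rintro e ⟨u, hu, rfl⟩ z; exact hcomm u z) (fun z => hcomm δ z) hN
  rcases h with h | h
  · exact Or.inl h
  · exact Or.inr (hfin hy fun u hu z => h _ ⟨u, hu, rfl⟩ z)

end Pool.Agent.Lib.MP_4ca46c_ag.C5
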