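import Mathlib
import Pool.Agent.Lib.MP_4ca46c_ag.C5.SpecG

/-!
# The vector over the field of transcendence degree five (`StVec5`)
-/

set_option autoImplicit false

namespace Pool.Agent.Lib.MP_4ca46c_ag.C5

namespace Vec5Aux

open MvPolynomial

/-- The field `k(t₁, …, t₅)`. -/
abbrev Q5 (k : Type) [Field k] : Type := FractionRing (MvPolynomial (Fin 5) k)

theorem basis (k : Type) [Field k] : IsTranscendenceBasis k (t5 k) := by
  have h1 : IsTranscendenceBasis k (X : Fin 5 → MvPolynomial (Fin 5) k) :=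
    IsTranscendenceBasis.mvPolynomial _ _
  have h2 : Algebra.IsAlgebraic (MvPolynomial (Fin 5) k) (Q5 k) :=
    IsFractionRing.comap_isAlgebraic_iff.2 (inferInstance : Algebra.IsAlgebraic (Q5 k) (Q5 k))
  have h3 : Algebra.IsAlgebraic (MvPolynomial (Fin 5) k) (M5 k) :=
    Algebra.IsAlgebraic.trans _ (Q5 k) _
  have h4 : FaithfulSMul (MvPolynomial (Fin 5) k) (M5 k) := by
    rw [faithfulSMul_iff_algebraMap_injective, IsScalarTower.algebraMap_eq _ (Q5 k) (M5 k)]
    exact (algebraMap (Q5 k) (M5 k)).injective.comp (IsFractionRing.injective _ _)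
  exact h1.algebraMap_comp

/-- The vector in the polynomial ring. -/
noncomputable def w5 (k : Type) [Field k] : Fin 2 × Fin 3 → MvPolynomial (Fin 5) k := fun p =>
  (![![1, X 0, X 1], ![X 2, X 3, X 4]] : Fin 2 → Fin 3 → MvPolynomial (Fin 5) k) p.1 p.2

theorem vec5_eq (k : Type) [Field k] (p : Fin 2 × Fin 3) :
    vec5 k p = aeval (t5 k) (w5 k p) := by
  obtain ⟨i, j⟩ := p
  fin_cases i <;> fin_cases j <;> simp [vec5, w5]

theorem inj5 (k : Type) [Field k] (q : MvPolynomial (Fin 5) k) (hq : q ≠ 0) :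
    aeval (t5 k) q ≠ 0 := fun h =>
  hq ((injective_iff_map_eq_zero _).1 (basis k).1 _ h)

theorem fd_map {R S : Type} [CommRing R] [CommRing S] (f : R →+* S) (d : ℕ)
    (a : Fin 2 × Fin 3 → R) : fd d (fun p => f (a p)) = f (fd d a) := by
  simp only [fd, cr, Fin.sum_univ_three, map_add, map_pow, Matrix.cons_val_zero,
    Matrix.cons_val_one, Matrix.cons_val, map_sub, map_mul]

theorem li (k : Type) [Field k] : LinearIndependent k (vec5 k) := by
  rw [Fintype.linearIndependent_iff]
  intro g hg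
  have h0 : aeval (t5 k) (∑ p, C (g p) * w5 k p) = 0 := by
    rw [map_sum, ← hg]
    refine Finset.sum_congr rfl fun p _ => ?_
    rw [map_mul, ← vec5_eq, algHom_C, Algebra.smul_def]
  have h1 : ∑ p, C (g p) * w5 k p = 0 := by
    by_contra h
    exact inj5 k _ h h0
  have e : ∀ y : Fin 5 → k, g (0, 0) + g (0, 1) * y 0 + g (0, 2) * y 1 +
      (g (1, 0) * y 2 + g (1, 1) * y 3 + g (1, 2) * y 4) = 0 := fun y => by
    have := congrArg (eval y) h1
    simpa [Fintype.sum_prod_type, Fin.sum_univ_two, Fin.sum_univ_three, w5] using this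
  have e0 : g (0, 0) = 0 := by simpa using e ![0, 0, 0, 0, 0]
  have e1 : g (0, 1) = 0 := by simpa [e0] using e ![1, 0, 0, 0, 0]
  have e2 : g (0, 2) = 0 := by simpa [e0] using e ![0, 1, 0, 0, 0]
  have e3 : g (1, 0) = 0 := by simpa [e0] using e ![0, 0, 1, 0, 0]
  have e4 : g (1, 1) = 0 := by simpa [e0] using e ![0, 0, 0, 1, 0]
  have e5 : g (1, 2) = 0 := by simpa [e0] using e ![0, 0, 0, 0, 1]
  rintro ⟨i, j⟩
  fin_cases i <;> fin_cases j
  · exact e0
  · exact e1
  · exact e2
  · exact e3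
  · exact e4
  · exact e5

theorem fd_ne (k : Type) [Field k] (d : ℕ) (hd : d ≠ 0) : fd d (vec5 k) ≠ 0 := by
  have h1 : fd d (vec5 k) = aeval (t5 k) (fd d (w5 k)) := by
    have h2 : vec5 k = fun p => (aeval (t5 k) : MvPolynomial (Fin 5) k →ₐ[k] M5 k).toRingHom
      (w5 k p) := funext fun p => vec5_eq k p
    rw [h2, fd_map]
    rfl
  rw [h1]
  refine inj5 k _ fun h => ?_
  have h3 := congrArg (eval (![0, 0, 0, 1, 0] : Fin 5 → k)) h
  rw [← fd_map] at h3
  simp [fd, cr, Fin.sum_univ_three, w5, hd] at h3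

theorem row_eq (k : Type) [Field k] (ε : Fin 2 → k) (j : Fin 3) :
    row (vec5 k) ε j = aeval (t5 k) (C (ε 0) * w5 k (0, j) + C (ε 1) * w5 k (1, j)) := by
  rw [row, Fin.sum_univ_two, map_add, map_mul, map_mul, algHom_C, algHom_C, ← vec5_eq, ← vec5_eq]

theorem alg1 {F : Type} [Field F] (a e b : F) (ha : a ≠ 0) (he : e ≠ 0) :
    a / e * (e * (b / a)) = b := by
  field_simp

theorem gen3 (k : Type) [Field k] : Gen3 k (vec5 k) := by
  intro P hP ε hε
  by_cases h1 : ε 1 = 0
  · have h0 : ε 0 ≠ 0 := by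
      intro h0
      apply hε
      funext i
      fin_cases i
      · exact h0
      · exact h1
    have hc : t5 k 2 ≠ 0 := (basis k).1.ne_zero 2
    refine ⟨t5 k 2, hc, ?_⟩
    have h2 : aeval (fun j => t5 k 2 * row (vec5 k) ε j) P =
        aeval (t5 k) (aeval (fun j => X 2 * (C (ε 0) * w5 k (0, j) + C (ε 1) * w5 k (1, j))) P) := by
      rw [← AlgHom.comp_apply, comp_aeval]
      congr 2
      funext j
      rw [row_eq, map_mul, aeval_X]
    rw [h2]
    refine inj5 k _ fun h => ?_
    let F := FractionRing (MvPolynomial (Fin 3) k)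
    let x : Fin 3 → F := fun i => algebraMap (MvPolynomial (Fin 3) k) F (X i)
    have hinj : Function.Injective (algebraMap (MvPolynomial (Fin 3) k) F) :=
      IsFractionRing.injective _ _
    have hx0 : x 0 ≠ 0 := by
      intro hx
      exact X_ne_zero (R := k) (0 : Fin 3) (hinj (hx.trans (map_zero _).symm))
    have he : algebraMap k F (ε 0) ≠ 0 := by
      rw [Ne, FaithfulSMul.algebraMap_eq_zero_iff]
      exact h0
    let θ : MvPolynomial (Fin 5) k →ₐ[k] F :=
      aeval ![x 1 / x 0, x 2 / x 0, x 0 / algebraMap k F (ε 0), 0, 0]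
    have h3 := congrArg θ h
    rw [map_zero, ← AlgHom.comp_apply, comp_aeval] at h3
    have h4 : (fun j => θ (X 2 * (C (ε 0) * w5 k (0, j) + C (ε 1) * w5 k (1, j)))) = x := by
      funext j
      fin_cases j
      · simp only [θ, w5, h1]
        simp
        exact div_mul_cancel₀ _ he
      · simp only [θ, w5, h1]
        simp
        exact alg1 _ _ _ hx0 he
      · simp only [θ, w5, h1]
        simp
        exact alg1 _ _ _ hx0 he
    have h5 : aeval x P = algebraMap (MvPolynomial (Fin 3) k) F P := by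
      have h6 : (aeval x : MvPolynomial (Fin 3) k →ₐ[k] F) =
          IsScalarTower.toAlgHom k (MvPolynomial (Fin 3) k) F := by
        ext j
        rw [aeval_X]
        rfl
      rw [h6]
      rfl
    rw [h4, h5] at h3
    exact hP (hinj (h3.trans (map_zero _).symm))
  · refine ⟨1, one_ne_zero, ?_⟩
    have h2 : aeval (fun j => 1 * row (vec5 k) ε j) P =
        aeval (t5 k) (aeval (fun j => (C (ε 0) * w5 k (0, j) + C (ε 1) * w5 k (1, j))) P) := by
      rw [← AlgHom.comp_apply, comp_aeval]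
      congr 2
      funext j
      rw [row_eq, one_mul]
    rw [h2]
    refine inj5 k _ fun h => ?_
    let θ : MvPolynomial (Fin 5) k →ₐ[k] MvPolynomial (Fin 3) k :=
      aeval ![0, 0, C (ε 1)⁻¹ * (X 0 - C (ε 0)), C (ε 1)⁻¹ * X 1, C (ε 1)⁻¹ * X 2]
    have hC : C (ε 1) * C (ε 1)⁻¹ = (1 : MvPolynomial (Fin 3) k) := by
      rw [← C_mul, mul_inv_cancel₀ h1, C_1]
    have h3 := congrArg θ h
    rw [map_zero, ← AlgHom.comp_apply, comp_aeval] at h3
    have h4 : (fun j => θ (C (ε 0) * w5 k (0, j) + C (ε 1) * w5 k (1, j))) = X := by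
      funext j
      fin_cases j
      · simp only [θ, w5]
        simp [algHom_C, ← mul_assoc]
        rw [← C_mul, mul_inv_cancel₀ h1, C_1]
        ring
      · simp only [θ, w5]
        simp [algHom_C, ← mul_assoc]
        rw [← C_mul, mul_inv_cancel₀ h1, C_1]
      · simp only [θ, w5]
        simp [algHom_C, ← mul_assoc]
        rw [← C_mul, mul_inv_cancel₀ h1, C_1]
    rw [h4, aeval_X_left_apply] at h3
    exact hP h3

end Vec5Aux

theorem tVec5 : StVec5 := by
  intro k _
  refine ⟨Vec5Aux.li k, Vec5Aux.fd_ne k, Vec5Aux.gen3 k, ?_, Vec5Aux.basis k⟩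
  rw [← (Vec5Aux.basis k).cardinalMk_eq_trdeg]
  simp

end Pool.Agent.Lib.MP_4ca46c_ag.C5
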