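import Mathlib
import Pool.Agent.Lib.MP_4ca46c_ag.C5.SpecG

/-!
# The generic vector (`StVecS`)
-/

set_option autoImplicit false

namespace Pool.Agent.Lib.MP_4ca46c_ag.C5

namespace VecSAux

open MvPolynomial

variable (k F : Type) [Field k] [Field F] [Algebra k F]
  [Algebra (MvPolynomial (Fin 2 × Fin 3) k) F]
  [IsScalarTower k (MvPolynomial (Fin 2 × Fin 3) k) F]
  [IsFractionRing (MvPolynomial (Fin 2 × Fin 3) k) F]

omit [IsScalarTower k (MvPolynomial (Fin 2 × Fin 3) k) F] [Algebra k F] in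
private theorem inj : Function.Injective (algebraMap (MvPolynomial (Fin 2 × Fin 3) k) F) :=
  IsFractionRing.injective (MvPolynomial (Fin 2 × Fin 3) k) F

private theorem algInd : AlgebraicIndependent k (gv k F) := by
  have h1 : AlgebraicIndependent k (X : Fin 2 × Fin 3 → MvPolynomial (Fin 2 × Fin 3) k) :=
    MvPolynomial.algebraicIndependent_X _ _
  have h2 := h1.map' (f := IsScalarTower.toAlgHom k (MvPolynomial (Fin 2 × Fin 3) k) F)
    (inj k F)
  exact h2

omit [IsScalarTower k (MvPolynomial (Fin 2 × Fin 3) k) F] [Algebra k F] in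
private theorem fd_ne (d : ℕ) (hd : d ≠ 0) : fd d (gv k F) ≠ 0 := by
  intro h
  have h1 : algebraMap (MvPolynomial (Fin 2 × Fin 3) k) F
      (fd d (X : Fin 2 × Fin 3 → MvPolynomial (Fin 2 × Fin 3) k)) = 0 := by
    rw [← h]
    simp [fd, cr, gv, Fin.sum_univ_three]
  have h2 : fd d (X : Fin 2 × Fin 3 → MvPolynomial (Fin 2 × Fin 3) k) = 0 :=
    (map_eq_zero_iff _ (inj k F)).mp h1
  have h3 := congrArg (MvPolynomial.eval (fun p : Fin 2 × Fin 3 =>
    (if p = (0, 1) then (1 : k) else if p = (1, 2) then 1 else 0))) h2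
  simp [fd, cr, Fin.sum_univ_three, hd] at h3

private theorem gen3 : Gen3 k (gv k F) := by
  intro P hP ε hε
  obtain ⟨i0, hi0⟩ : ∃ i, ε i ≠ 0 := by
    by_contra h
    exact hε (funext fun i => by
      by_contra h'
      exact h ⟨i, h'⟩)
  refine ⟨1, one_ne_zero, ?_⟩
  have h1 : MvPolynomial.aeval (fun j => 1 * row (gv k F) ε j) P =
      algebraMap (MvPolynomial (Fin 2 × Fin 3) k) F
        (MvPolynomial.aeval (fun j => ∑ i, C (ε i) * (X (i, j) :
          MvPolynomial (Fin 2 × Fin 3) k)) P) := by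
    have h2 := MvPolynomial.comp_aeval_apply
      (f := fun j : Fin 3 => ∑ i, C (ε i) * (X (i, j) : MvPolynomial (Fin 2 × Fin 3) k))
      (IsScalarTower.toAlgHom k (MvPolynomial (Fin 2 × Fin 3) k) F) P
    have h3 : (fun j : Fin 3 => (IsScalarTower.toAlgHom k (MvPolynomial (Fin 2 × Fin 3) k) F)
        (∑ i, C (ε i) * (X (i, j) : MvPolynomial (Fin 2 × Fin 3) k))) =
        fun j => 1 * row (gv k F) ε j := by
      funext j
      have h4 : ∀ c : k, algebraMap (MvPolynomial (Fin 2 × Fin 3) k) F (C c) =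
          algebraMap k F c := fun c => by
        rw [IsScalarTower.algebraMap_apply k (MvPolynomial (Fin 2 × Fin 3) k) F]
        rfl
      simp [row, gv, h4]
    rw [h3] at h2
    exact h2.symm
  rw [h1]
  intro h3
  have h4 := (map_eq_zero_iff _ (inj k F)).mp h3
  apply hP
  have h5 := congrArg (MvPolynomial.aeval (R := k) (fun p : Fin 2 × Fin 3 =>
    if p.1 = i0 then C (ε i0)⁻¹ * (X p.2 : MvPolynomial (Fin 3) k) else 0)) h4
  rw [MvPolynomial.comp_aeval_apply, map_zero] at h5
  have h6 : (fun j : Fin 3 => (MvPolynomial.aeval (R := k) (fun p : Fin 2 × Fin 3 =>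
      if p.1 = i0 then C (ε i0)⁻¹ * (X p.2 : MvPolynomial (Fin 3) k) else 0))
        (∑ i, C (ε i) * (X (i, j) : MvPolynomial (Fin 2 × Fin 3) k))) = X := by
    funext j
    rw [map_sum, Finset.sum_eq_single i0]
    · rw [map_mul, aeval_X, if_pos rfl, MvPolynomial.aeval_C, ← mul_assoc,
        MvPolynomial.algebraMap_eq, ← C_mul, mul_inv_cancel₀ hi0, C_1, one_mul]
    · intro i _ hi
      rw [map_mul, aeval_X, if_neg hi, mul_zero]
    · intro h
      exact absurd (Finset.mem_univ i0) h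
  rw [h6, MvPolynomial.aeval_X_left_apply] at h5
  exact h5

end VecSAux

theorem tVecS : StVecS := by
  intro k F _ _ _ _ _ _
  refine ⟨(VecSAux.algInd k F).linearIndependent, fun d hd => VecSAux.fd_ne k F d hd,
    VecSAux.gen3 k F, VecSAux.algInd k F⟩

end Pool.Agent.Lib.MP_4ca46c_ag.C5
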