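import Mathlib
import Pool.Agent.Lib.MP_4ca46c_ag.C5.SpecH
import Pool.Agent.Lib.MP_4ca46c_ag.Two.USm

/-!
# Base change of a fibration over the line to a curve
-/

set_option autoImplicit false

namespace Pool.Agent.Lib.MP_4ca46c_ag.C5

open CategoryTheory Limits AlgebraicGeometry TensorProduct MonoidalCategory
  CartesianMonoidalCategory
open Pool.Agent.Lib.MP_4ca46c_ag.Sign Pool.Agent.Lib.MP_4ca46c_ag.Hyp
open Pool.Agent.Lib.MP_4ca46c_ag.Std Pool.Agent.Lib.MP_4ca46c_ag.Geo
open Pool.Agent.Lib.MP_4ca46c_ag.Geo.WeilCohomology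
open Pool.Agent.Lib.MP_4ca46c_ag.Two (IsMem Fib Net StNetVar AlgDesc)

namespace WCAux

section scheme

variable {U W X P : Scheme.{0}}

theorem locOn {m n : ℕ} {a : U ⟶ W} (V : W.Opens) (h : SmoothOfRelativeDimension m (a ∣_ V))
    {e : W ⟶ P} (he : SmoothOfRelativeDimension n e) :
    SmoothOfRelativeDimension (m + n) ((a ⁻¹ᵁ V).ι ≫ a ≫ e) := by
  have h4 : (a ⁻¹ᵁ V).ι ≫ a ≫ e = (a ∣_ V) ≫ V.ι ≫ e := by
    rw [← Category.assoc, ← Category.assoc, morphismRestrict_ι]
  rw [h4]
  have h5 : SmoothOfRelativeDimension (0 + n) (V.ι ≫ e) := inferInstance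
  have h6 : SmoothOfRelativeDimension (m + (0 + n)) ((a ∣_ V) ≫ V.ι ≫ e) := inferInstance
  rwa [zero_add] at h6

theorem cover {n : ℕ} (f : X ⟶ P) {ι : Type} (O : ι → X.Opens) (hO : iSup O = ⊤)
    (h : ∀ i, SmoothOfRelativeDimension n ((O i).ι ≫ f)) : SmoothOfRelativeDimension n f :=
  haveI : IsZariskiLocalAtSource (@SmoothOfRelativeDimension.{0} n) :=
    HasRingHomProperty.instIsZariskiLocalAtSource
      (Q := RingHom.Locally (RingHom.IsStandardSmoothOfRelativeDimension n))
  IsZariskiLocalAtSource.of_iSup_eq_top (P := @SmoothOfRelativeDimension.{0} n) O hO h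

end scheme

section cat

variable {D : Type*} [Category D] [HasPullbacks D] {W C L S : D} (f : W ⟶ L) (x : C ⟶ L)
  (l : L ⟶ S) (w : W ⟶ S) (c : C ⟶ S) (hf : f ≫ l = w) (hx : x ≫ l = c)

include hf hx

theorem comm : pullback.fst f x ≫ w = pullback.snd f x ≫ c := by
  rw [← hf, ← hx, ← Category.assoc, ← Category.assoc, pullback.condition]

theorem comm' : (pullback.fst w c ≫ f) ≫ l = (pullback.snd w c ≫ x) ≫ l := by
  rw [Category.assoc, Category.assoc, hf, hx, pullback.condition]

theorem sq : IsPullback (pullback.fst f x ≫ f)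
    (pullback.lift (pullback.fst f x) (pullback.snd f x) (comm f x l w c hf hx))
    (pullback.lift (𝟙 L) (𝟙 L) rfl : L ⟶ pullback l l)
    (pullback.lift (pullback.fst w c ≫ f) (pullback.snd w c ≫ x) (comm' f x l w c hf hx)) := by
  refine IsPullback.mk' ?_ ?_ ?_
  · refine pullback.hom_ext ?_ ?_
    · simp only [Category.assoc, pullback.lift_fst, Category.comp_id, pullback.lift_fst_assoc]
    · simp only [Category.assoc, pullback.lift_snd, Category.comp_id, pullback.lift_snd_assoc]
      exact pullback.condition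
  · intro T φ φ' _ h
    refine pullback.hom_ext ?_ ?_
    · have h1 := congrArg (fun z => z ≫ pullback.fst w c) h
      simpa only [Category.assoc, pullback.lift_fst] using h1
    · have h1 := congrArg (fun z => z ≫ pullback.snd w c) h
      simpa only [Category.assoc, pullback.lift_snd] using h1
  · intro T p q h
    have h1 : p = (q ≫ pullback.fst w c) ≫ f := by
      have h1 := congrArg (fun z => z ≫ pullback.fst l l) h
      simpa only [Category.assoc, pullback.lift_fst, Category.comp_id] using h1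
    have h2 : p = (q ≫ pullback.snd w c) ≫ x := by
      have h1 := congrArg (fun z => z ≫ pullback.snd l l) h
      simpa only [Category.assoc, pullback.lift_snd, Category.comp_id] using h1
    refine ⟨pullback.lift (q ≫ pullback.fst w c) (q ≫ pullback.snd w c) (h1.symm.trans h2),
      ?_, ?_⟩
    · rw [← Category.assoc, pullback.lift_fst, ← h1]
    · refine pullback.hom_ext ?_ ?_
      · rw [Category.assoc, pullback.lift_fst, pullback.lift_fst]
      · rw [Category.assoc, pullback.lift_snd, pullback.lift_snd]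

end cat

theorem diag_closed {k₀ : Type} [Field k₀] {L S : Sch k₀} (l : L ⟶ S) (h : IsProper l.left) :
    IsClosedImmersion (pullback.lift (𝟙 L) (𝟙 L) rfl : L ⟶ pullback l l).left := by
  have hP : IsPullback (pullback.fst l l).left (pullback.snd l l).left l.left l.left :=
    (IsPullback.of_hasPullback l l).map (Over.forget _)
  have h1 : IsProper (pullback.fst l l).left :=
    MorphismProperty.of_isPullback (P := @IsProper) hP.flip h
  have h2 : (pullback.lift (𝟙 L) (𝟙 L) rfl : L ⟶ pullback l l).left ≫ (pullback.fst l l).left =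
      𝟙 _ := by
    rw [← Over.comp_left, pullback.lift_fst]
    rfl
  have h3 : IsClosedImmersion ((pullback.lift (𝟙 L) (𝟙 L) rfl : L ⟶ pullback l l).left ≫
      (pullback.fst l l).left) := by
    rw [h2]
    infer_instance
  exact IsClosedImmersion.of_comp _ (pullback.fst l l).left

end WCAux

open WCAux

theorem tWC : StWC := by
  intro k₀ k _ _ _ _ C Φ x hx hO
  have P : IsPullback (pullback.fst Φ.f x).left (pullback.snd Φ.f x).left Φ.f.left x.left :=
    (IsPullback.of_hasPullback Φ.f x).map (Over.forget _)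
  have h3 : SmoothOfRelativeDimension Φ.m ((pullback.snd Φ.f x).left ∣_ (x.left ⁻¹ᵁ Φ.S)) :=
    Two.USmAux.res P Φ.S Φ.smooth
  have hl : IsProper (l1 k₀ k).left := (l1_var (k₀ := k₀) (k := k)).proper
  have hcomm : pullback.fst Φ.f x ≫ Φ.V.str = pullback.snd Φ.f x ≫ C.str :=
    comm Φ.f x (l1 k₀ k) Φ.V.str C.str Φ.f_str hx
  refine ⟨?_, ?_, h3, ?_, ?_⟩
  · choose O hO1 hO2 using hO
    let Q : Option {t : (L1 k₀ k).left // t ∉ Φ.S} → (pullback Φ.f x).left.Opens := fun i =>
      match i with
      | none => (pullback.snd Φ.f x).left ⁻¹ᵁ (x.left ⁻¹ᵁ Φ.S)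
      | some t => (pullback.fst Φ.f x).left ⁻¹ᵁ (Φ.f.left ⁻¹ᵁ O t.1 t.2)
    have hQ : iSup Q = ⊤ := by
      rw [eq_top_iff]
      intro z _
      rw [TopologicalSpace.Opens.mem_iSup]
      by_cases hz : Φ.f.left ((pullback.fst Φ.f x).left z) ∈ Φ.S
      · refine ⟨none, ?_⟩
        change x.left ((pullback.snd Φ.f x).left z) ∈ Φ.S
        have h1 : Φ.f.left ((pullback.fst Φ.f x).left z) = x.left ((pullback.snd Φ.f x).left z) := by
          have h2 := P.w
          have h4 : ((pullback.fst Φ.f x).left ≫ Φ.f.left) z =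
              ((pullback.snd Φ.f x).left ≫ x.left) z := by rw [h2]
          exact h4
        rw [← h1]
        exact hz
      · exact ⟨some ⟨_, hz⟩, hO1 _ hz⟩
    refine cover _ Q hQ fun i => ?_
    cases i with
    | none =>
      have h1 := locOn (x.left ⁻¹ᵁ Φ.S) h3 C.isVar.smooth
      rw [Φ.dim]
      exact h1
    | some t =>
      have h1 : SmoothOfRelativeDimension 0
          ((pullback.fst Φ.f x).left ∣_ (Φ.f.left ⁻¹ᵁ O t.1 t.2)) :=
        Two.USmAux.res P.flip (O t.1 t.2) (hO2 t.1 t.2)
      have h2 := locOn (Φ.f.left ⁻¹ᵁ O t.1 t.2) h1 Φ.V.isVar.smooth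
      rw [zero_add] at h2
      rw [← hcomm]
      exact h2
  · have hf : IsProper Φ.f.left := by
      have h5 : IsProper (Φ.f.left ≫ (PSo.str k₀ k (Fin 2)).left) := by
        rw [← Over.comp_left, Φ.f_str]
        exact Φ.V.isVar.proper
      exact IsProper.of_comp _ (PSo.str k₀ k (Fin 2)).left
    have hg : IsProper (pullback.snd Φ.f x).left :=
      MorphismProperty.of_isPullback (P := @IsProper) P hf
    have hc : IsProper C.str.left := C.isVar.proper
    rw [Over.comp_left]
    infer_instance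
  · obtain ⟨q, hq⟩ := C.isVar.exists_point
    have e : ((q ≫ x) ≫ Φ.σ) ≫ Φ.f = q ≫ x := by
      rw [Category.assoc, Φ.σ_f]
      exact Category.comp_id _
    have y : pt k₀ k ⟶ pullback Φ.f x := pullback.lift ((q ≫ x) ≫ Φ.σ) q e
    have hn : Nonempty (pt k₀ k).left :=
      inferInstanceAs (Nonempty (Spec (CommRingCat.of k)))
    exact hn.map y.left
  · have h1 := (sq Φ.f x (l1 k₀ k) Φ.V.str C.str Φ.f_str hx).map (Over.forget _)
    exact MorphismProperty.of_isPullback (P := @IsClosedImmersion) h1 (diag_closed (l1 k₀ k) hl)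

end Pool.Agent.Lib.MP_4ca46c_ag.C5
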