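import Mathlib
import Pool.Agent.Lib.MP_4ca46c_ag.C5.SpecA
import Pool.Agent.Lib.MP_4ca46c_ag.Two.Idem

/-!
# The idempotent on the cohomology of the fibration over the curve (`StZgC`)
-/

set_option autoImplicit false

namespace Pool.Agent.Lib.MP_4ca46c_ag.C5

open CategoryTheory MonoidalCategory CartesianMonoidalCategory TensorProduct
open Pool.Agent.Lib.MP_4ca46c_ag.Geo Pool.Agent.Lib.MP_4ca46c_ag.Geo.WeilCohomology
open Pool.Agent.Lib.MP_4ca46c_ag.Two (tIdem)

namespace ZgCAux

open Polynomial

section top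

variable {K : Type} [Field K] [CharZero K] {𝒱 : Type 1} [Category.{0} 𝒱]
  [CartesianMonoidalCategory 𝒱] (W : WeilCohomology K 𝒱) {C : 𝒱}

/-- A class of top degree with trace zero is zero. -/
theorem top_zero {i : ℕ} {x : W.H C} (hx : x ∈ W.gr C i) (hi : i = 2 * W.dim C)
    (h0 : W.tr C x = 0) : x = 0 := by
  refine W.duality x fun y => ?_
  refine W.ind (P := fun y => W.tr C (x * y) = 0) y (by simp) (fun j y hy => ?_)
    (fun r s hr hs => by simp only [mul_add, map_add, hr, hs, add_zero])
  by_cases hj : j = 0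
  · subst hj
    obtain ⟨a, rfl⟩ := W.connected hy
    rw [← Algebra.commutes, ← Algebra.smul_def, map_smul, h0, smul_zero]
  · exact W.tr_gr (SetLike.mul_mem_graded hx hy) (by omega)

/-- A nonzero homogeneous class has a dual homogeneous class. -/
theorem exists_dual {i j : ℕ} (hij : i + j = 2 * W.dim C) {y : W.H C} (hy : y ∈ W.gr C i)
    (h0 : y ≠ 0) : ∃ y' ∈ W.gr C j, W.tr C (y * y') ≠ 0 := by
  by_contra hcon
  push Not at hcon
  refine h0 (W.duality y fun z => ?_)
  refine W.ind (P := fun z => W.tr C (y * z) = 0) z (by simp) (fun l z hz => ?_)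
    (fun r s hr hs => by simp only [mul_add, map_add, hr, hs, add_zero])
  by_cases hl : l = j
  · subst hl
    exact hcon z hz
  · exact W.tr_gr (SetLike.mul_mem_graded hy hz) (by omega)

end top

/-- Polynomials in an operator commute with everything which commutes with the operator. -/
theorem comm_aeval {K A : Type} [Field K] [Ring A] [Algebra K A] {p m : A} (h : Commute p m)
    (q : K[X]) : Commute (aeval p q) m := by
  rw [aeval_eq_sum_range]
  exact Commute.sum_left _ _ _ fun i _ => (h.pow_left i).smul_left _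

/-- The algebra of the last part. -/
theorem ring_part {A : Type} [Ring A] {T G p g vp : A} (h1 : T * g = 0) (h2 : 1 - g = vp * p)
    (h3 : Commute p vp) (h4 : T * p = T * G * T) (h5 : Commute T vp) :
    T * (G * vp) * T = T := by
  have h6 : T = T * (1 - g) := by rw [mul_sub, mul_one, h1, sub_zero]
  have h7 : T * (1 - g) = T * (G * vp) * T := by
    rw [h2, ← h3.eq, ← mul_assoc, h4, mul_assoc, h5.eq, ← mul_assoc, ← mul_assoc]
  exact (h6.trans h7).symm

end ZgCAux

open ZgCAux in
theorem tZgC (h1 : StDelC) (h2 : StFitC) : StZgC := by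
  intro K _ _ 𝒱 _ _ W Z C π δ hC hδ
  have hδ2 : δ ∈ W.gr C 2 := W.alg_gr hδ
  have hc : W.pull π δ ∈ W.Alg Z 1 := W.alg_pull π hδ
  obtain ⟨T, hTdef⟩ : ∃ T : W.E Z, T = LinearMap.mulLeft K (W.pull π δ) := ⟨_, rfl⟩
  have hT : T ∈ W.R Z 1 := by
    rw [hTdef]
    exact R_cast (cor_le (W.cor_mul hc)) (by norm_num)
  obtain ⟨G, hG, hGT, hN⟩ := tIdem K 𝒱 W Z 1 T hT
  obtain ⟨p, hp, hpc, hpT⟩ := h1 K 𝒱 W Z C π δ hC hδ2 G hG
  obtain ⟨r, u, v, hr, hru, hrv⟩ := h2 K (W.H Z) p
  have hcomm : ∀ (q : Polynomial K) (b : W.H C),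
      Commute (Polynomial.aeval p q : W.E Z) (LinearMap.mulLeft K (W.pull π b)) := by
    intro q b
    refine comm_aeval ?_ q
    refine LinearMap.ext fun z => ?_
    exact hpc b z
  have hcomm' : ∀ (q : Polynomial K) (b : W.H C) (z : W.H Z),
      Polynomial.aeval p q (W.pull π b * z) = W.pull π b * Polynomial.aeval p q z := by
    intro q b z
    exact LinearMap.congr_fun (hcomm q b).eq z
  have hTp : T * p = T * G * T := by
    rw [hTdef]
    refine LinearMap.ext fun z => ?_
    exact hpT z
  have hgR : (Polynomial.aeval p r : W.E Z) ∈ W.R Z 0 := Two.IdemAux.R_aeval hp r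
  rw [← hTdef]
  refine ⟨Polynomial.aeval p r, hgR, hr, hcomm' r, ?_, ?_⟩
  · have e1 : T * (Polynomial.aeval p r : W.E Z) =
        (T - T * G * T) * (Polynomial.aeval p u : W.E Z) := by
      have e2 : (Polynomial.aeval p u : W.E Z) * (1 - p) = (1 - p) * Polynomial.aeval p u := by
        have e3 : Commute (Polynomial.aeval p u : W.E Z) p := comm_aeval (Commute.refl p) u
        exact ((Commute.one_right _).sub_right e3).eq
      rw [hru, e2, ← mul_assoc, mul_sub, mul_one, hTp]
    rw [e1]
    exact N_cast (N_mul_right hN (Two.IdemAux.R_aeval hp u)) (by norm_num)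
  · rintro ⟨y, hy, hy0⟩ hz
    obtain ⟨y', hy', htr⟩ := exists_dual W (i := 1) (j := 1) (by rw [hC]) hy hy0
    have hyy : y * y' ∈ W.gr C 2 := SetLike.mul_mem_graded hy hy'
    have hδe : δ = (W.tr C δ / W.tr C (y * y')) • (y * y') := by
      rw [← sub_eq_zero]
      refine top_zero W (i := 2) (Submodule.sub_mem _ hδ2 (Submodule.smul_mem _ _ hyy))
        (by rw [hC]) ?_
      rw [map_sub, map_smul, smul_eq_mul, div_mul_cancel₀ _ htr, sub_self]
    have hTg : T * (Polynomial.aeval p r : W.E Z) = 0 := by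
      rw [hTdef]
      refine LinearMap.ext fun z => ?_
      rw [Module.End.mul_apply, LinearMap.mulLeft_apply, LinearMap.zero_apply, hδe,
        map_smul (W.pull π), map_mul (W.pull π), smul_mul_assoc, mul_assoc, hz y' hy' z, mul_zero,
        smul_zero]
    have hTv : Commute T (Polynomial.aeval p v : W.E Z) := by
      rw [hTdef]
      exact (hcomm v δ).symm
    refine ⟨G * Polynomial.aeval p v, R_cast (R_mul hG (Two.IdemAux.R_aeval hp v)) (by norm_num),
      fun z => ?_⟩
    have h3 := ring_part hTg hrv (comm_aeval (Commute.refl p) v).symm hTp hTv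
    have h4 := LinearMap.congr_fun h3 z
    rw [hTdef] at h4
    exact h4

end Pool.Agent.Lib.MP_4ca46c_ag.C5
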