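import Mathlib
import Pool.Agent.Lib.MP_4ca46c_ag.C5.Fib5
import Pool.Agent.Lib.MP_4ca46c_ag.C5.MulC
import Pool.Agent.Lib.MP_4ca46c_ag.C5.NTensC
import Pool.Agent.Lib.MP_4ca46c_ag.C5.DelC
import Pool.Agent.Lib.MP_4ca46c_ag.C5.FitC
import Pool.Agent.Lib.MP_4ca46c_ag.C5.ZgC
import Pool.Agent.Lib.MP_4ca46c_ag.C5.TC
import Pool.Agent.Lib.MP_4ca46c_ag.C5.VRC
import Pool.Agent.Lib.MP_4ca46c_ag.C5.RelC
import Pool.Agent.Lib.MP_4ca46c_ag.C5.PushC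
import Pool.Agent.Lib.MP_4ca46c_ag.C5.DegC
import Pool.Agent.Lib.MP_4ca46c_ag.C5.DomC
import Pool.Agent.Lib.MP_4ca46c_ag.C5.EvC
import Pool.Agent.Lib.MP_4ca46c_ag.C5.NetDelC
import Pool.Agent.Lib.MP_4ca46c_ag.C5.NetAvgC
import Pool.Agent.Lib.MP_4ca46c_ag.C5.NetHC
import Pool.Agent.Lib.MP_4ca46c_ag.C5.NetHWZ
import Pool.Agent.Lib.MP_4ca46c_ag.C5.PCurve
import Pool.Agent.Lib.MP_4ca46c_ag.C5.SegVan
import Pool.Agent.Lib.MP_4ca46c_ag.C5.GraphC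
import Pool.Agent.Lib.MP_4ca46c_ag.C5.EtC
import Pool.Agent.Lib.MP_4ca46c_ag.C5.NoPairC
import Pool.Agent.Lib.MP_4ca46c_ag.C5.USmC
import Pool.Agent.Lib.MP_4ca46c_ag.C5.UConnC
import Pool.Agent.Lib.MP_4ca46c_ag.C5.Vec5
import Pool.Agent.Lib.MP_4ca46c_ag.C5.VecS
import Pool.Agent.Lib.MP_4ca46c_ag.C5.NetWZ
import Pool.Agent.Lib.MP_4ca46c_ag.C5.FinS
import Pool.Agent.Lib.MP_4ca46c_ag.C5.Choice
import Pool.Agent.Lib.MP_4ca46c_ag.C5.XC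
import Pool.Agent.Lib.MP_4ca46c_ag.C5.DegX
import Pool.Agent.Lib.MP_4ca46c_ag.C5.EtX
import Pool.Agent.Lib.MP_4ca46c_ag.C5.WC
import Pool.Agent.Lib.MP_4ca46c_ag.C5.EtPt
import Pool.Agent.Lib.MP_4ca46c_ag.C5.ComplX
import Pool.Agent.Lib.MP_4ca46c_ag.C5.Comp
import Pool.Agent.Lib.MP_4ca46c_ag.C5.BaseC
import Pool.Agent.Lib.MP_4ca46c_ag.C5.EvBC
import Pool.Agent.Lib.MP_4ca46c_ag.C5.Mem5
import Pool.Agent.Lib.MP_4ca46c_ag.C5.EvWZ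
import Pool.Agent.Lib.MP_4ca46c_ag.Two.NetSm

/-!
# The quasi-inverse for the class of a fibre of a pencil: all inputs
-/

set_option autoImplicit false

namespace Pool.Agent.Lib.MP_4ca46c_ag.C5

open Pool.Agent.Lib.MP_4ca46c_ag.Two (tNetVar tNetSm tNetCH)

variable (k₀ K : Type) [Field k₀] [Field K] [CharZero K]

theorem fNetHWZ : StNetHWZ k₀ K :=
  tNetHWZ k₀ K (tNetHC k₀ K (tNetSm k₀ (tNetVar k₀)) (tNetCH k₀ K (tNetSm k₀ (tNetVar k₀)))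
    (tNetDelC k₀ K (tNetSm k₀ (tNetVar k₀))) (T2.fNetCls k₀ K)
    (tNetAvgC k₀ K (tNetSm k₀ (tNetVar k₀))))

theorem fEtC : StEtC := tEtC tSegVan

theorem fNoPairC : StNoPairC := tNoPairC tSegVan

theorem fGraphC : StGraphC := tGraphC tSegVan

theorem fUSmC : StUSmC := tUSmC fGraphC

theorem fVRC : StVRC := tVRC (tZgC tDelC tFitC) (tTC tNTensC)

theorem fFib5 : StFib5 k₀ K :=
  tFib5 k₀ K (tNetVar k₀) (tPCurve k₀ K)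
    (tBaseC k₀ K tFinS tChoice fEtC (tXC fGraphC) (tDegX k₀ K) tEtX tWC (tComplX tEtPt) tComp)
    (tNetWZ k₀ K fEtC fNoPairC fUSmC (tUConnC fGraphC) tVecS)
    (tMem5 k₀ K fEtC fNoPairC fUSmC tVec5 (tEvBC k₀ K))
    (tEvWZ k₀ K (fNetHWZ k₀ K) (tEvC tDomC) (tEvBC k₀ K)) (fNetHWZ k₀ K) fVRC tRelC tPushC tDegC

end Pool.Agent.Lib.MP_4ca46c_ag.C5
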