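import Mathlib
import Pool.Agent.Lib.MP_4ca46c_ag.Std.Statement

/-!
# The sign conjecture, extensions of transcendence degree five
-/

set_option autoImplicit false

namespace Pool.Agent.Lib.MP_4ca46c_ag.C5

open Pool.Agent.Lib.MP_4ca46c_ag.Sign Pool.Agent.Lib.MP_4ca46c_ag.Std

/-- The sign conjecture: the sum of the Künneth components `π_i` of the diagonal, `i` even, is
algebraic. That is, there is a cycle `a` of codimension `n = dim V` on `V × V` which acts on `H(V)`
as the projector onto the part of even degree: `p₁_* (cl a ∪ p₂^* v)` is `v` for `v ∈ H^l(V)` with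
`l` even, and `0` for `v ∈ H^l(V)` with `l` odd. The equation is expressed by Poincaré duality. -/
def EvenPart {k₀ : Type} [Field k₀] {K : Type} [Field K] (D : CohData k₀ K) (V : PrVar k₀) :
    Prop := ∃ a, D.Codim V.n a ∧
  ∀ l v w, D.Deg l v → V.pair D a v w = if Even l then D.trace (D.cup v w) else 0

/-- The base field of `U` is an (algebraically closed) extension of transcendence degree `5` of
the base field of `V`. -/
def FiveParams {k₀ : Type} [Field k₀] (V U : PrVar k₀) : Prop :=
  ∃ φ : V.k →ₐ[k₀] U.k, @Algebra.trdeg V.k U.k _ _ φ.toRingHom.toAlgebra = 5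

end Pool.Agent.Lib.MP_4ca46c_ag.C5
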