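import Mathlib
import Pool.Agent.Lib.MP_4ca46c_ag.C5.Fib5
import Pool.Agent.Lib.MP_4ca46c_ag.C5.St
import Pool.Agent.Lib.MP_4ca46c_ag.Od.Fin
import Pool.Agent.Lib.MP_4ca46c_ag.Div.Bridge
import Pool.Agent.Lib.MP_4ca46c_ag.Std.Bridge4

/-!
# The sign conjecture in transcendence degree five: the final form
-/

set_option autoImplicit false

namespace Pool.Agent.Lib.MP_4ca46c_ag.C5

open CategoryTheory Limits AlgebraicGeometry MonoidalCategory CartesianMonoidalCategory
open Pool.Agent.Lib.MP_4ca46c_ag.Sign Pool.Agent.Lib.MP_4ca46c_ag.Hyp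
open Pool.Agent.Lib.MP_4ca46c_ag.Std Pool.Agent.Lib.MP_4ca46c_ag.Vtc
open Pool.Agent.Lib.MP_4ca46c_ag.T2 (pvar StPencilAsm WeakT)
open Pool.Agent.Lib.MP_4ca46c_ag.Od (WeakLefschetz)

variable {k₀ K : Type} [Field k₀] [Field K] {D : CohData k₀ K} (h : D.IsTheory)
  (h' : IsStandard D)

/-- The local form for projective varieties over `k`. -/
theorem proj5 [CharZero K] (hP : StPencilAsm k₀ K) (hF : StFib5 k₀ K) (hM : StMulC)
    (hT : WeakT (D.weil h)) (h' : IsStandard D) (k : Type) [Field k] [Algebra k₀ k]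
    [IsAlgClosed k] :
    ∀ (n : ℕ) (V : ProjVar k₀ k), V.n = n → ∃ U : ℕ → ProjVar k₀ (M5 k),
      (∀ i, i + 2 ≤ n → (U i).n = 2 * i + 3) ∧
      ((∀ i, i + 2 ≤ n → (weil (D.weil h) (M5 k)).even (pvar (U i)) ∈
        (weil (D.weil h) (M5 k)).Cor (pvar (U i)) (pvar (U i)) 0) →
        (weil (D.weil h) k).Lefschetz (pvar V) (D.cls (V.h (D.weil h)))) := by
  have E := bridge_extra h h'
  intro n
  induction n with
  | zero =>
    intro V hV
    refine ⟨fun _ => Two.P2 k₀ (M5 k), fun i hi => by omega, fun _ => ?_⟩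
    exact Two.tLow K (Var k₀ k) (weil (D.weil h) k) (pvar V) _ (h_alg h (ofProj V))
      (hard h h' (ofProj V)) (by
        change V.n ≤ 1
        omega)
  | succ m ih =>
    intro V hV
    rcases Nat.eq_zero_or_pos m with rfl | hm
    · refine ⟨fun _ => Two.P2 k₀ (M5 k), fun i hi => by omega, fun _ => ?_⟩
      exact Two.tLow K (Var k₀ k) (weil (D.weil h) k) (pvar V) _ (h_alg h (ofProj V))
        (hard h h' (ofProj V)) (by
          change V.n ≤ 1
          omega)
    · obtain ⟨Φ, Y, P, hη, hΦ, hΦn, hY, hh⟩ := hP (D.weil h) E hT k V m hm hV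
      obtain ⟨θ, hθ, hθ0⟩ := hM K (Var k₀ k) (weil (D.weil h) k) (pvar V) (pvar Y) Φ.VV _ P (by
        rw [hh]
        exact hard_proj E Y)
      have hθ' : θ ∈ (weil (D.weil h) k).Alg Φ.VV Φ.m := by
        have e : (weil (D.weil h) k).dim (pvar Y) = Φ.m := by
          change Y.n = Φ.m
          rw [hY, hΦ]
        rw [← e]
        exact hθ
      obtain ⟨V', hV', hQ⟩ := hF (D.weil h) E k Φ θ hθ' (by
        rw [← hη]
        exact hθ0)
      obtain ⟨U, hU, hUL⟩ := ih Y hY
      refine ⟨Function.update U (m - 1) V', fun i hi => ?_, fun H => ?_⟩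
      · by_cases h1 : i = m - 1
        · subst h1
          rw [Function.update_self, hV', hΦ, hΦn]
          omega
        · rw [Function.update_of_ne h1]
          exact hU i (by omega)
      · have h1 : (weil (D.weil h) (M5 k)).even (pvar V') ∈
            (weil (D.weil h) (M5 k)).Cor (pvar V') (pvar V') 0 := by
          have := H (m - 1) (by omega)
          rwa [Function.update_self] at this
        have h2 : (weil (D.weil h) k).Lefschetz (pvar Y) (D.cls (Y.h (D.weil h))) := by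
          refine hUL fun i hi => ?_
          have := H i (by omega)
          rwa [Function.update_of_ne (by omega)] at this
        refine T2.fLefUp K (Var k₀ k) (weil (D.weil h) k) (pvar V) (pvar Y) Φ.VV _ P ?_ ?_
        · rw [hη]
          exact hQ h1
        · have e : (weil (D.weil h) k).Lefschetz (pvar Y)
              ((weil (D.weil h) k).pull P.i ((D.weil h).cl V.X (V.h (D.weil h)))) := by
            rw [hh]
            exact h2
          exact e

theorem trdeg_M5 (k : Type) [Field k] : Algebra.trdeg k (M5 k) = 5 := by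
  have h := trdeg_closure k k (Fin 5) (FractionRing (MvPolynomial (Fin 5) k)) (M5 k)
  have h0 : Algebra.trdeg k k = 0 := trdeg_eq_zero
  rw [h, h0, zero_add, Cardinal.mk_fin]
  norm_cast

theorem fiveParams (V : PrVar k₀) (U : ProjVar k₀ (M5 V.k)) : FiveParams V (ofProj U) := by
  have e : (IsScalarTower.toAlgHom k₀ V.k (M5 V.k)).toRingHom.toAlgebra =
      (inferInstance : Algebra V.k (M5 V.k)) := Algebra.algebra_ext _ _ fun _ => rfl
  have e2 : @Algebra.trdeg V.k (M5 V.k) _ _
      (IsScalarTower.toAlgHom k₀ V.k (M5 V.k)).toRingHom.toAlgebra = 5 := by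
    rw [e]
    exact trdeg_M5 V.k
  exact ⟨IsScalarTower.toAlgHom k₀ V.k (M5 V.k), e2⟩

theorem FiveParams.trdeg {V U : PrVar k₀} (H : FiveParams V U) :
    Algebra.trdeg k₀ U.k = Algebra.trdeg k₀ V.k + 5 := by
  obtain ⟨φ, hφ⟩ := H
  let _ : Algebra V.k U.k := φ.toRingHom.toAlgebra
  have t : IsScalarTower k₀ V.k U.k := IsScalarTower.of_algebraMap_eq fun r => (φ.commutes r).symm
  have e := trdeg_add_eq k₀ V.k (A := U.k)
  rw [← hφ, e]

include h h' in
theorem kun_of_lef (V : PrVar k₀) (H : V.LefschetzConj D) : V.KunnethConj D := by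
  have := char_zero h h'
  exact (kunneth_iff h h' V.toProj).2
    ((tEasy' k₀ K (D.weil h) (V.toProj.toP (bridge_extra h h'))).1
      ((lefschetz_iff h h' V.toProj).1 H))

include h h' in
theorem sign_of_kun (V : PrVar k₀) (H : V.KunnethConj D) : V.SignConj D := by
  have := char_zero h h'
  exact (sign_iff h h' V.toProj).2
    ((tEasy' k₀ K (D.weil h) (V.toProj.toP (bridge_extra h h'))).2.1
      ((kunneth_iff h h' V.toProj).1 H))

include h h' in
theorem evenPart_iff [CharZero K] (V : PrVar k₀) : EvenPart D V ↔ V.SignConj D := by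
  obtain ⟨π, hπ, he, ho⟩ : ∃ π : D.H V.X →ₗ[K] D.H V.X,
      π = (weil (D.weil h) V.k).even (Div.xv V) ∧ (∀ l v, D.Deg l v → Even l → π v = v) ∧
        ∀ l v, D.Deg l v → ¬ Even l → π v = 0 :=
    ⟨(weil (D.weil h) V.k).even (Div.xv V), rfl,
      fun l v hv hl => (weil (D.weil h) V.k).even_even (X := Div.xv V) hv hl,
      fun l v hv hl => (weil (D.weil h) V.k).even_odd (X := Div.xv V) hv
        (Nat.not_even_iff_odd.1 hl)⟩
  refine Iff.trans ?_ ((Div.br_alg h h' V 0 π).trans (by rw [hπ]; exact (Div.br_sign h h' V).symm))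
  constructor
  · rintro ⟨a, ha, hp⟩
    refine ⟨a, Or.inl ⟨by omega, ?_⟩, fun v w => ?_⟩
    · simpa using ha
    · let f : D.H V.X →ₗ[K] K := D.tr V.X ∘ₗ LinearMap.mulRight K w ∘ₗ π
      let g : D.H V.X →ₗ[K] K := D.tr V.sq ∘ₗ LinearMap.mulRight K (D.pullH V.p₁ w) ∘ₗ
        LinearMap.mulLeft K (D.cls a) ∘ₗ (D.pullH V.p₂).toLinearMap
      have h1 : ∀ (l : ℕ) (v : D.H V.X), D.Deg l v → f v = g v := by
        intro l v hv
        have h2 : g v = if Even l then D.trace (D.cup v w) else 0 := hp l v w hv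
        rw [h2]
        change D.tr V.X (π v * w) = _
        by_cases hl : Even l
        · rw [if_pos hl, he l v hv hl]
          rfl
        · rw [if_neg hl, ho l v hv hl, zero_mul, map_zero]
      have h3 : f = g := (weil (D.weil h) V.k).hom_ext (X := Div.xv V) h1
      exact LinearMap.congr_fun h3 v
  · rintro ⟨a, ha, hp⟩
    refine ⟨a, ?_, fun l v w hv => ?_⟩
    · rcases ha with ⟨-, ha⟩ | ⟨h0, -⟩
      · simpa using ha
      · omega
    · rw [← hp v w]
      by_cases hl : Even l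
      · rw [if_pos hl, he l v hv hl]
      · rw [if_neg hl, ho l v hv hl, CohData.trace, CohData.cup, zero_mul, map_zero]

include h h' in
theorem evenPart_of_kun (V : PrVar k₀) (H : V.KunnethConj D) : EvenPart D V := by
  have := char_zero h h'
  exact (evenPart_iff h h' V).2 (sign_of_kun h h' V H)

include h h' in
/-- **The local form.** -/
theorem loc5 (hF : ∀ [CharZero K], StFib5 k₀ K) (hM : StMulC) (hW : WeakLefschetz D)
    (V : PrVar k₀) : ∃ U : Fin (V.n - 1) → PrVar k₀,
    (∀ j, FiveParams V (U j) ∧ (U j).n = 2 * j + 3 ∧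
      (Cardinal.aleph0 ≤ Algebra.trdeg k₀ V.k → (U j).IsOver V.k)) ∧
      ((∀ j, EvenPart D (U j)) → V.KunnethConj D ∧ V.LefschetzConj D) := by
  have := char_zero h h'
  obtain ⟨U, h1, h2⟩ := proj5 h (T2.fin_pencil k₀ K Cn.tHypConn) hF hM (Od.weakT h hW) h' V.k V.n
    V.toProj rfl
  refine ⟨fun j => ofProj (U j), fun j => ⟨fiveParams V (U j), h1 j (by omega), fun hk => ?_⟩,
    fun H => ?_⟩
  · exact closure_equiv k₀ V.k (Fin 5) (FractionRing (MvPolynomial (Fin 5) V.k)) (M5 V.k) hk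
  · have key : V.LefschetzConj D := by
      rw [lef_iff h h']
      exact h2 fun i hi => (Div.br_sign h h' (ofProj (U i))).1 ((evenPart_iff h h' _).1 (H ⟨i, by omega⟩))
    exact ⟨kun_of_lef h h' V key, key⟩

include h h' in
/-- **Finite transcendence degree.** -/
theorem fin5 (hF : ∀ [CharZero K], StFib5 k₀ K) (hM : StMulC) (hW : WeakLefschetz D)
    (V : PrVar k₀) (r m : ℕ) (hV : Algebra.trdeg k₀ V.k = r) (hr : r + 5 ≤ m)
    (H : ∀ U : PrVar k₀, Odd U.n → U.n < 2 * V.n → Algebra.trdeg k₀ U.k = m →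
      EvenPart D U) : V.KunnethConj D ∧ V.LefschetzConj D := by
  have := char_zero h h'
  obtain ⟨V', h1, h3, -, h2⟩ := Two.exists_pbc h h' V (m - 5 - r)
  have key : V.LefschetzConj D := by
    refine h2 ?_
    obtain ⟨U, hU, hUL⟩ := loc5 h h' hF hM hW V'
    refine (hUL fun j => H _ ⟨j + 1, by rw [(hU j).2.1]; ring⟩ (by rw [(hU j).2.1]; omega) ?_).2
    rw [(hU j).1.trdeg, h1, hV]
    norm_cast
    omega
  exact ⟨kun_of_lef h h' V key, key⟩

include h h' in
/-- All projective varieties. -/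
theorem all5 (hF : ∀ [CharZero K], StFib5 k₀ K) (hM : StMulC) (hW : WeakLefschetz D) :
    [∀ V : PrVar k₀, Odd V.n → EvenPart D V, ∀ V : PrVar k₀, V.KunnethConj D,
      ∀ V : PrVar k₀, V.LefschetzConj D].TFAE := by
  have key : (∀ V : PrVar k₀, Odd V.n → EvenPart D V) →
      ∀ V : PrVar k₀, V.KunnethConj D ∧ V.LefschetzConj D := fun H V => by
    obtain ⟨U, hU, hUL⟩ := loc5 h h' hF hM hW V
    exact hUL fun j => H _ ⟨j + 1, by rw [(hU j).2.1]; ring⟩
  tfae_have 1 → 3 := fun H V => (key H V).2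
  tfae_have 3 → 2 := fun H V => kun_of_lef h h' V (H V)
  tfae_have 2 → 1 := fun H V _ => evenPart_of_kun h h' V (H V)
  tfae_finish

include h h' in
/-- Projective varieties over a field of infinite transcendence degree. -/
theorem over5 (hF : ∀ [CharZero K], StFib5 k₀ K) (hM : StMulC) (hW : WeakLefschetz D)
    (k : Type) [Field k] [Algebra k₀ k] (hk : Cardinal.aleph0 ≤ Algebra.trdeg k₀ k) :
    [∀ V : PrVar k₀, V.IsOver k → Odd V.n → EvenPart D V,
      ∀ V : PrVar k₀, V.IsOver k → V.KunnethConj D,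
      ∀ V : PrVar k₀, V.IsOver k → V.LefschetzConj D].TFAE := by
  have key : (∀ V : PrVar k₀, V.IsOver k → Odd V.n → EvenPart D V) →
      ∀ V : PrVar k₀, V.IsOver k → V.KunnethConj D ∧ V.LefschetzConj D := fun H V hV => by
    obtain ⟨U, hU, hUL⟩ := loc5 h h' hF hM hW V
    obtain ⟨e⟩ := hV
    refine hUL fun j => H _ ?_ ⟨j + 1, by rw [(hU j).2.1]; ring⟩
    obtain ⟨e'⟩ := (hU j).2.2 (by rw [e.trdeg_eq]; exact hk)
    exact ⟨e'.trans e⟩
  tfae_have 1 → 3 := fun H V hV => (key H V hV).2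
  tfae_have 3 → 2 := fun H V hV => kun_of_lef h h' V (H V hV)
  tfae_have 2 → 1 := fun H V hV _ => evenPart_of_kun h h' V (H V hV)
  tfae_finish

include h h' in
/-- **The equivalence.** -/
theorem equiv5 [IsAlgClosed k₀] (hF₀ : ∀ [CharZero K], StFib5 k₀ K) (hM₀ : StMulC)
    (hW : WeakLefschetz D) (hF : HasFamilies D) (hM : HasModels k₀) (m : ℕ) (hm : 5 ≤ m) :
    [∀ V : PrVar k₀, V.KunnethConj D, ∀ V : PrVar k₀, V.LefschetzConj D,
      ∀ V : PrVar k₀, V.IsOver k₀ → V.LefschetzConj D,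
      ∀ V : PrVar k₀, Odd V.n → Algebra.trdeg k₀ V.k = m → EvenPart D V].TFAE := by
  have := char_zero h h'
  have h1 := final_tfae h h' hF hM
  tfae_have 1 ↔ 2 := h1.out 0 1
  tfae_have 2 ↔ 3 := h1.out 1 2
  tfae_have 1 → 4 := fun H V _ _ => evenPart_of_kun h h' V (H V)
  tfae_have 4 → 3 := fun H V hV => (fin5 h h' hF₀ hM₀ hW V 0 m (by
    rw [Nat.cast_zero]
    exact Vtc.IsOver.trdeg hV) (by omega) fun U hU _ => H U hU).2
  tfae_finish

end Pool.Agent.Lib.MP_4ca46c_ag.C5
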