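import Mathlib
import Pool.Agent.Lib.MP_4ca46c_ag.C5.SpecG
import Pool.Agent.Lib.MP_4ca46c_ag.Two.Graph

set_option autoImplicit false

/-!
# The curve `D_a` is isomorphic to `C`
-/

namespace Pool.Agent.Lib.MP_4ca46c_ag.C5

open CategoryTheory Limits AlgebraicGeometry TensorProduct MonoidalCategory
  CartesianMonoidalCategory
open Pool.Agent.Lib.MP_4ca46c_ag.Sign Pool.Agent.Lib.MP_4ca46c_ag.Hyp
open Pool.Agent.Lib.MP_4ca46c_ag.Std Pool.Agent.Lib.MP_4ca46c_ag.Geo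
open Pool.Agent.Lib.MP_4ca46c_ag.Two (IsMem)
open Pool.Agent.Lib.MP_4ca46c_ag.Two.GraphAux (co co_self unit_basic isPB_of van_loc
  van_congr)

namespace GraphCAux

section algebra

variable {R : Type} [CommRing R]

/-- the two linear forms -/
def mm (a : Fin 2 × Fin 3 → R) (y : Fin 3 → R) (i : Fin 2) : R := ∑ l, a (i, l) * y l

theorem sum_eq (a : Fin 2 × Fin 3 → R) (x : Fin 2 → R) (y : Fin 3 → R) :
    ∑ p : Fin 2 × Fin 3, a p * (x p.1 * y p.2) = mm a y 0 * x 0 + mm a y 1 * x 1 := by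
  simp only [Fintype.sum_prod_type, mm, Fin.sum_univ_two, Fin.sum_univ_three]
  ring

theorem crossId (a : Fin 2 × Fin 3 → R) (y : Fin 3 → R) (j l : Fin 3) :
    ∃ s t, y j * cr a l - y l * cr a j = s * mm a y 0 + t * mm a y 1 := by
  simp only [mm, Fin.sum_univ_three]
  fin_cases j <;> fin_cases l
  · exact ⟨0, 0, by ring⟩
  · refine ⟨-a (1, 2), a (0, 2), ?_⟩
    simp [cr]
    ring
  · refine ⟨a (1, 1), -a (0, 1), ?_⟩
    simp [cr]
    ring
  · refine ⟨a (1, 2), -a (0, 2), ?_⟩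
    simp [cr]
    ring
  · exact ⟨0, 0, by ring⟩
  · refine ⟨-a (1, 0), a (0, 0), ?_⟩
    simp [cr]
    ring
  · refine ⟨-a (1, 1), a (0, 1), ?_⟩
    simp [cr]
    ring
  · refine ⟨a (1, 0), -a (0, 0), ?_⟩
    simp [cr]
    ring
  · exact ⟨0, 0, by ring⟩

theorem key {d : ℕ} {a : Fin 2 × Fin 3 → R} (hd : IsUnit (fd d a)) {y : Fin 3 → R} {j : Fin 3}
    (hy : y j = 1) (he : ∑ l, y l ^ d = 0) : ∃ c e, c * mm a y 0 + e * mm a y 1 = 1 := by
  rw [← Ideal.mem_span_pair, ← Ideal.eq_top_iff_one]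
  refine Ideal.eq_top_of_isUnit_mem _ ?_ hd
  rw [← Ideal.Quotient.eq_zero_iff_mem]
  set φ := Ideal.Quotient.mk (Ideal.span {mm a y 0, mm a y 1}) with hφ
  have h0 : φ (mm a y 0) = 0 :=
    Ideal.Quotient.eq_zero_iff_mem.2 (Ideal.subset_span (by simp))
  have h1 : φ (mm a y 1) = 0 :=
    Ideal.Quotient.eq_zero_iff_mem.2 (Ideal.subset_span (by simp))
  have h2 : ∀ l, φ (cr a l) = φ (y l) * φ (cr a j) := by
    intro l
    obtain ⟨s, t, hst⟩ := crossId a y j l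
    have h3 := congrArg φ hst
    rw [hy, map_sub, map_add, map_mul, map_mul, map_mul, map_mul, h0, h1, map_one] at h3
    linear_combination h3
  rw [fd, map_sum]
  have h4 : ∀ l ∈ Finset.univ, φ (cr a l ^ d) = φ (y l ^ d) * φ (cr a j) ^ d := by
    intro l _
    rw [map_pow, h2 l, mul_pow, map_pow]
  rw [Finset.sum_congr rfl h4, ← Finset.sum_mul, ← map_sum, he, map_zero, zero_mul]

theorem cross {m0 m1 c e : R} (hce : c * m0 + e * m1 = 1) {x x' : Fin 2 → R}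
    (h : m0 * x 0 + m1 * x 1 = 0) (h' : m0 * x' 0 + m1 * x' 1 = 0) (p q : Fin 2) :
    x p * x' q = x q * x' p := by
  have h1 : x 0 * x' 1 - x 1 * x' 0 = 0 := by
    linear_combination (c * x' 1 - e * x' 0) * h + (e * x 0 - c * x 1) * h' -
      (x 0 * x' 1 - x 1 * x' 0) * hce
  fin_cases p <;> fin_cases q
  · rfl
  · change x 0 * x' 1 = x 1 * x' 0
    linear_combination h1
  · change x 1 * x' 0 = x 0 * x' 1
    linear_combination -h1
  · rfl

theorem map_mm {R' : Type} [CommRing R'] (φ : R →+* R') (a : Fin 2 × Fin 3 → R)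
    (y : Fin 3 → R) (i : Fin 2) :
    φ (mm a y i) = mm (fun j => φ (a j)) (fun j => φ (y j)) i := by
  simp [mm]

theorem map_fd {R' : Type} [CommRing R'] (φ : R →+* R') (d : ℕ) (a : Fin 2 × Fin 3 → R) :
    φ (fd d a) = fd d (fun j => φ (a j)) := by
  simp [fd, cr, Fin.sum_univ_three]

end algebra

section rel

variable {k₀ k : Type} [Field k₀] [Field k] [Algebra k₀ k]

theorem val_self {κ : Type} {T : Scheme.{0}} (z : T ⟶ PS k κ) (i : κ) (h : ⊤ ≤ z ⁻¹ᵁ psD i) :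
    (psCoord k κ).val z i h i = 1 := by
  change z.appLE (psD i) ⊤ h (psf i i) = 1
  rw [psf_self, map_one]

theorem val_congr {κ : Type} {T : Scheme.{0}} {z z' : T ⟶ PS k κ} (e : z = z') (i : κ)
    (h : ⊤ ≤ z ⁻¹ᵁ psD i) (h' : ⊤ ≤ z' ⁻¹ᵁ psD i) (l : κ) :
    (psCoord k κ).val z i h l = (psCoord k κ).val z' i h' l := by
  subst e
  rfl

variable (C : PCurve k₀ k)

/-- the structure morphism of the curve -/
noncomputable def sL : C.X.left ⟶ Spec (CommRingCat.of k) := C.str.left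

/-- the embedding of the curve -/
noncomputable def eL : C.X.left ⟶ PS k (Fin 3) := C.emb.left

/-- the coordinates of a point of the curve -/
noncomputable def cy {T : Scheme.{0}} (p : T ⟶ C.X.left) (j : Fin 3)
    (h : ⊤ ≤ (p ≫ eL C) ⁻¹ᵁ psD j) (l : Fin 3) : Γ(T, ⊤) :=
  (psCoord k (Fin 3)).val (p ≫ eL C) j h l

theorem cy_self {T : Scheme.{0}} (p : T ⟶ C.X.left) (j : Fin 3)
    (h : ⊤ ≤ (p ≫ eL C) ⁻¹ᵁ psD j) : cy C p j h j = 1 := val_self _ j h

theorem cy_comp {T T' : Scheme.{0}} (w : T' ⟶ T) (p : T ⟶ C.X.left) (j : Fin 3)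
    (h : ⊤ ≤ (p ≫ eL C) ⁻¹ᵁ psD j)
    (h' : ⊤ ≤ ((w ≫ p) ≫ eL C) ⁻¹ᵁ psD j) (l : Fin 3) :
    cy C (w ≫ p) j h' l = w.appTop (cy C p j h l) := by
  have h1 : ⊤ ≤ (w ≫ (p ≫ eL C)) ⁻¹ᵁ psD j :=
    fun x _ => h (Set.mem_univ (w x))
  rw [cy, cy, ← (psCoord k (Fin 3)).val_comp w (p ≫ eL C) j h h1 l]
  exact val_congr (Category.assoc w p (eL C)) j h' h1 l

/-- the relation given by `psi` -/
def RR (T : Scheme.{0}) (p : T ⟶ C.X.left) (q : T ⟶ PS k (Fin 2))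
    (a : Fin 2 × Fin 3 → Γ(T, ⊤)) : Prop :=
  ∃ z : T ⟶ (PC C).left, z ≫ (pullback.snd (l1 k₀ k) C.str).left = p ∧
    z ≫ (pullback.fst (l1 k₀ k) C.str).left = q ∧
    (psCoord k (Fin 2 × Fin 3)).Van (z ≫ (psi C).left : T ⟶ PS k (Fin 2 × Fin 3)) a

theorem pb : IsPullback (pullback.fst (l1 k₀ k) C.str).left (pullback.snd (l1 k₀ k) C.str).left
    (psStr k (Fin 2)) (sL C) :=
  (IsPullback.of_hasPullback (l1 k₀ k) C.str).map (Over.forget _)

variable {C}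

theorem RR.comp {T T' : Scheme.{0}} (w : T' ⟶ T) {p : T ⟶ C.X.left} {q : T ⟶ PS k (Fin 2)}
    {a : Fin 2 × Fin 3 → Γ(T, ⊤)} (h : RR C T p q a) :
    RR C T' (w ≫ p) (w ≫ q) (fun j => w.appTop (a j)) := by
  obtain ⟨z, h1, h2, h3⟩ := h
  refine ⟨w ≫ z, (Category.assoc _ _ _).trans (congrArg (w ≫ ·) h1),
    (Category.assoc _ _ _).trans (congrArg (w ≫ ·) h2), ?_⟩
  exact van_congr (Category.assoc _ _ _).symm (PreCoord.Van.comp _ w h3)

theorem RR.form (hV : StSegVan) {T : Scheme.{0}} (p : T ⟶ C.X.left) (q : T ⟶ PS k (Fin 2))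
    (hs : q ≫ psStr k (Fin 2) = p ≫ sL C) (j : Fin 3) (i : Fin 2)
    (h : ⊤ ≤ (p ≫ eL C) ⁻¹ᵁ psD j) (h' : ⊤ ≤ q ⁻¹ᵁ psD i)
    (a : Fin 2 × Fin 3 → Γ(T, ⊤)) :
    RR C T p q a ↔ mm a (cy C p j h) 0 * co q i h' 0 + mm a (cy C p j h) 1 * co q i h' 1 = 0 := by
  have key : ∀ z : T ⟶ (PC C).left, z ≫ (pullback.snd (l1 k₀ k) C.str).left = p →
      z ≫ (pullback.fst (l1 k₀ k) C.str).left = q →
      ((psCoord k (Fin 2 × Fin 3)).Van (z ≫ (psi C).left : T ⟶ PS k (Fin 2 × Fin 3)) a ↔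
        mm a (cy C p j h) 0 * co q i h' 0 + mm a (cy C p j h) 1 * co q i h' 1 = 0) := by
    rintro z rfl rfl
    have e : ((z ≫ (pullback.snd (l1 k₀ k) C.str).left) ≫ C.emb.left : T ⟶ PS k (Fin 3)) =
        z ≫ (pullback.snd (l1 k₀ k) C.str).left ≫ C.emb.left := Category.assoc _ _ _
    have h1 : ⊤ ≤ (z ≫ (pullback.snd (l1 k₀ k) C.str).left ≫ C.emb.left :
        T ⟶ PS k (Fin 3)) ⁻¹ᵁ psD j := e ▸ h
    rw [hV k₀ k C T z i j h' h1 a]
    have h2 : (fun l => (psCoord k (Fin 3)).val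
        (z ≫ (pullback.snd (l1 k₀ k) C.str).left ≫ C.emb.left : T ⟶ PS k (Fin 3)) j h1 l) =
        cy C (z ≫ (pullback.snd (l1 k₀ k) C.str).left) j h :=
      funext fun l => (val_congr e j h h1 l).symm
    rw [← h2, ← sum_eq]
    exact Iff.rfl
  constructor
  · rintro ⟨z, h1, h2, h3⟩
    exact (key z h1 h2).1 h3
  · intro hb
    obtain ⟨z, h1, h2⟩ : ∃ z : T ⟶ (PC C).left, z ≫ (pullback.fst (l1 k₀ k) C.str).left = q ∧
        z ≫ (pullback.snd (l1 k₀ k) C.str).left = p :=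
      ⟨(pb C).lift q p hs, (pb C).lift_fst _ _ _, (pb C).lift_snd _ _ _⟩
    exact ⟨z, h2, h1, (key z h2 h1).2 hb⟩

theorem RR.loc {T : Scheme.{0}} (p : T ⟶ C.X.left) (q : T ⟶ PS k (Fin 2))
    (hs : q ≫ psStr k (Fin 2) = p ≫ sL C) (a : Fin 2 × Fin 3 → Γ(T, ⊤)) {κ : Type}
    (U : κ → T.Opens) (hU : ⨆ i, U i = ⊤)
    (H : ∀ i, RR C (U i).toScheme ((U i).ι ≫ p) ((U i).ι ≫ q)
      (fun j => (U i).ι.appTop (a j))) : RR C T p q a := by
  obtain ⟨z, rfl, rfl⟩ : ∃ z : T ⟶ (PC C).left, z ≫ (pullback.fst (l1 k₀ k) C.str).left = q ∧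
      z ≫ (pullback.snd (l1 k₀ k) C.str).left = p :=
    ⟨(pb C).lift q p hs, (pb C).lift_fst _ _ _, (pb C).lift_snd _ _ _⟩
  refine ⟨z, rfl, rfl, van_loc _ a U hU fun i => ?_⟩
  obtain ⟨z', h1, h2, h3⟩ := H i
  have : z' = (U i).ι ≫ z := by
    refine (pb C).hom_ext ?_ ?_
    · exact h2.trans (Category.assoc _ _ _).symm
    · exact h1.trans (Category.assoc _ _ _).symm
  subst this
  exact van_congr (Category.assoc _ _ _) h3

theorem cy_key {T : Scheme.{0}} (p : T ⟶ C.X.left) (j : Fin 3)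
    (h : ⊤ ≤ (p ≫ eL C) ⁻¹ᵁ psD j) (a : Fin 2 × Fin 3 → Γ(T, ⊤))
    (hd : IsUnit (fd C.d a)) :
    ∃ c e, c * mm a (cy C p j h) 0 + e * mm a (cy C p j h) 1 = 1 :=
  key hd (cy_self C p j h) (C.eqn T p j h)

theorem uniq0 (hV : StSegVan) {T : Scheme.{0}} (p : T ⟶ C.X.left) (q q' : T ⟶ PS k (Fin 2))
    (j : Fin 3) (i' i'' : Fin 2) (h : ⊤ ≤ (p ≫ eL C) ⁻¹ᵁ psD j)
    (h' : ⊤ ≤ q ⁻¹ᵁ psD i') (h'' : ⊤ ≤ q' ⁻¹ᵁ psD i'')
    (hs : q ≫ psStr k (Fin 2) = p ≫ sL C) (hs' : q' ≫ psStr k (Fin 2) = p ≫ sL C)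
    (a : Fin 2 × Fin 3 → Γ(T, ⊤)) (hd : IsUnit (fd C.d a)) (h1 : RR C T p q a)
    (h2 : RR C T p q' a) : q = q' := by
  rw [RR.form hV p q hs j i' h h' a] at h1
  rw [RR.form hV p q' hs' j i'' h h'' a] at h2
  obtain ⟨c, e, hce⟩ := cy_key p j h a hd
  have hc := cross hce h1 h2
  have e1 : co q i' h' i'' * co q' i'' h'' i' = 1 := by
    rw [← hc i' i'', co_self, co_self, one_mul]
  have hu : IsUnit (co q' i'' h'' i') := IsUnit.of_mul_eq_one _ ((mul_comm _ _).trans e1)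
  have hi : ⊤ ≤ q' ⁻¹ᵁ psD i' := PreCoord.ps_le q' ⊤ i'' i' h'' hu
  refine ps_sep i' T q q' h' hi (hs.trans hs'.symm) fun l => ?_
  have e2 : co q' i'' h'' l = co q' i'' h'' i' * co q' i' hi l :=
    PreCoord.ps_mul q' ⊤ i'' i' l h'' hi
  have e3 := hc i' l
  rw [co_self, one_mul, e2, mul_comm (co q i' h' l)] at e3
  exact (hu.mul_left_cancel e3).symm

theorem uniq (hV : StSegVan) {T : Scheme.{0}} (p : T ⟶ C.X.left) (q q' : T ⟶ PS k (Fin 2))
    (hs : q ≫ psStr k (Fin 2) = p ≫ sL C) (hs' : q' ≫ psStr k (Fin 2) = p ≫ sL C)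
    (a : Fin 2 × Fin 3 → Γ(T, ⊤)) (hd : IsUnit (fd C.d a)) (h1 : RR C T p q a)
    (h2 : RR C T p q' a) : q = q' := by
  have hcov : ∀ (f : T ⟶ PS k (Fin 2)) (x : T), ∃ i, f x ∈ psD (k := k) (κ := Fin 2) i :=
    fun f x => TopologicalSpace.Opens.mem_iSup.1
      ((iSup_psD (k := k) (κ := Fin 2)).ge (Set.mem_univ (f x)))
  have hcov3 : ∀ (f : T ⟶ PS k (Fin 3)) (x : T), ∃ i, f x ∈ psD (k := k) (κ := Fin 3) i :=
    fun f x => TopologicalSpace.Opens.mem_iSup.1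
      ((iSup_psD (k := k) (κ := Fin 3)).ge (Set.mem_univ (f x)))
  refine hom_ext_of_opens (κ := Fin 3 × Fin 2 × Fin 2)
    (fun c => (p ≫ eL C) ⁻¹ᵁ psD c.1 ⊓ q ⁻¹ᵁ psD c.2.1 ⊓
      q' ⁻¹ᵁ psD c.2.2) ?_ ?_
  · rw [eq_top_iff]
    intro x _
    obtain ⟨j, hj⟩ := hcov3 (p ≫ eL C) x
    obtain ⟨i', hi'⟩ := hcov q x
    obtain ⟨i'', hi''⟩ := hcov q' x
    exact TopologicalSpace.Opens.mem_iSup.2 ⟨(j, i', i''), ⟨⟨hj, hi'⟩, hi''⟩⟩
  · rintro ⟨j, i', i''⟩
    set U : T.Opens := (p ≫ eL C) ⁻¹ᵁ psD j ⊓ q ⁻¹ᵁ psD i' ⊓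
      q' ⁻¹ᵁ psD i'' with hU
    have hm : ∀ x : U, (x : T) ∈ U := fun x => x.2
    refine uniq0 hV (U.ι ≫ p) (U.ι ≫ q) (U.ι ≫ q') j i' i'' (fun x _ => (hm x).1.1)
      (fun x _ => (hm x).1.2) (fun x _ => (hm x).2) (by rw [Category.assoc, Category.assoc, hs])
      (by rw [Category.assoc, Category.assoc, hs']) (fun j => U.ι.appTop (a j)) ?_
      (h1.comp U.ι) (h2.comp U.ι)
    have := (map_fd U.ι.appTop.hom C.d a) ▸ hd.map U.ι.appTop.hom
    exact this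

theorem ex0 (hV : StSegVan) {T : Scheme.{0}} (p : T ⟶ C.X.left) (j : Fin 3)
    (h : ⊤ ≤ (p ≫ eL C) ⁻¹ᵁ psD j) (a : Fin 2 × Fin 3 → Γ(T, ⊤))
    (hu : IsUnit (mm a (cy C p j h) 0) ∨ IsUnit (mm a (cy C p j h) 1)) :
    ∃ q : T ⟶ PS k (Fin 2), q ≫ psStr k (Fin 2) = p ≫ sL C ∧ RR C T p q a := by
  rcases hu with hu | hu
  · obtain ⟨e, he⟩ := hu.exists_right_inv
    obtain ⟨F, hF, hi, hc⟩ := exists_vec (k := k) (κ := Fin 2) (i := 1)
      (![-(mm a (cy C p j h) 1) * e, 1] : Fin 2 → Γ(T, ⊤)) rfl (p ≫ sL C)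
    refine ⟨F, hF, ?_⟩
    rw [RR.form hV p F hF j 1 h hi a]
    have e0 : co F 1 hi 0 = -(mm a (cy C p j h) 1) * e := hc 0
    have e1 : co F 1 hi 1 = 1 := hc 1
    rw [e0, e1]
    linear_combination (-(mm a (cy C p j h) 1)) * he
  · obtain ⟨e, he⟩ := hu.exists_right_inv
    obtain ⟨F, hF, hi, hc⟩ := exists_vec (k := k) (κ := Fin 2) (i := 0)
      (![1, -(mm a (cy C p j h) 0) * e] : Fin 2 → Γ(T, ⊤)) rfl (p ≫ sL C)
    refine ⟨F, hF, ?_⟩
    rw [RR.form hV p F hF j 0 h hi a]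
    have e0 : co F 0 hi 0 = 1 := hc 0
    have e1 : co F 0 hi 1 = -(mm a (cy C p j h) 0) * e := hc 1
    rw [e0, e1]
    linear_combination (-(mm a (cy C p j h) 0)) * he

theorem glue (hV : StSegVan) {T : Scheme.{0}} (p : T ⟶ C.X.left) (a : Fin 2 × Fin 3 → Γ(T, ⊤))
    (hd : IsUnit (fd C.d a)) {κ : Type} (U : κ → T.Opens) (hU : ⨆ i, U i = ⊤)
    (H : ∀ i, ∃ q : (U i).toScheme ⟶ PS k (Fin 2),
      q ≫ psStr k (Fin 2) = ((U i).ι ≫ p) ≫ sL C ∧
      RR C (U i).toScheme ((U i).ι ≫ p) q (fun j => (U i).ι.appTop (a j))) :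
    ∃ q : T ⟶ PS k (Fin 2), q ≫ psStr k (Fin 2) = p ≫ sL C ∧ RR C T p q a := by
  choose q hq1 hq2 using H
  have hg : ∀ i j, pullback.fst (U i).ι (U j).ι ≫ q i = pullback.snd (U i).ι (U j).ι ≫ q j := by
    intro i j
    set f := pullback.fst (U i).ι (U j).ι
    set g := pullback.snd (U i).ι (U j).ι
    have hfg : f ≫ (U i).ι = g ≫ (U j).ι := pullback.condition
    refine uniq hV (f ≫ (U i).ι ≫ p) _ _ ?_ ?_ (fun l => f.appTop ((U i).ι.appTop (a l))) ?_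
      ((hq2 i).comp f) ?_
    · rw [Category.assoc f (q i), hq1 i]
      simp only [Category.assoc]
    · rw [Category.assoc g (q j), hq1 j, ← Category.assoc f, hfg]
      simp only [Category.assoc]
    · have h1 := hd.map ((U i).ι.appTop.hom)
      rw [map_fd] at h1
      have h2 := h1.map f.appTop.hom
      rw [map_fd] at h2
      exact h2
    · have h3 := (hq2 j).comp g
      have e1 : f ≫ (U i).ι ≫ p = g ≫ (U j).ι ≫ p := by
        rw [← Category.assoc, hfg, Category.assoc]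
      have e2 : (fun l => f.appTop ((U i).ι.appTop (a l))) =
          fun l => g.appTop ((U j).ι.appTop (a l)) := by
        funext l
        have h4 : (f ≫ (U i).ι).appTop = (g ≫ (U j).ι).appTop := by rw [hfg]
        rw [Scheme.Hom.comp_appTop, Scheme.Hom.comp_appTop] at h4
        exact congrArg (fun φ => φ (a l)) h4
      rw [e1, e2]
      exact h3
  have hι : ∀ i, (U i).ι ≫ (T.openCoverOfIsOpenCover U (.mk hU)).glueMorphisms q hg = q i :=
    fun i => (T.openCoverOfIsOpenCover U (.mk hU)).ι_glueMorphisms q hg i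
  have hs : (T.openCoverOfIsOpenCover U (.mk hU)).glueMorphisms q hg ≫ psStr k (Fin 2) =
      p ≫ sL C := by
    refine hom_ext_of_opens U hU fun i => ?_
    rw [← Category.assoc, ← Category.assoc, hι i]
    exact hq1 i
  refine ⟨(T.openCoverOfIsOpenCover U (.mk hU)).glueMorphisms q hg, hs, ?_⟩
  refine RR.loc p _ hs a U hU fun i => ?_
  rw [hι i]
  exact hq2 i

theorem ex1 (hV : StSegVan) {T : Scheme.{0}} (p : T ⟶ C.X.left) (j : Fin 3)
    (h : ⊤ ≤ (p ≫ eL C) ⁻¹ᵁ psD j) (a : Fin 2 × Fin 3 → Γ(T, ⊤))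
    (hd : IsUnit (fd C.d a)) :
    ∃ q : T ⟶ PS k (Fin 2), q ≫ psStr k (Fin 2) = p ≫ sL C ∧ RR C T p q a := by
  obtain ⟨c, d, hcd⟩ := cy_key p j h a hd
  refine glue hV p a hd (κ := Bool)
    (fun b => T.basicOpen (if b then mm a (cy C p j h) 0 else mm a (cy C p j h) 1)) ?_ ?_
  · rw [eq_top_iff]
    intro x _
    rw [TopologicalSpace.Opens.mem_iSup]
    have h1 : IsUnit (T.presheaf.germ ⊤ x trivial
        (c * mm a (cy C p j h) 0 + d * mm a (cy C p j h) 1)) := by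
      rw [hcd, map_one]
      exact isUnit_one
    rw [map_add, map_mul, map_mul] at h1
    rcases IsLocalRing.isUnit_or_isUnit_of_isUnit_add h1 with h2 | h2
    · refine ⟨true, ?_⟩
      simp only [if_true]
      rw [Scheme.mem_basicOpen_top]
      exact isUnit_of_mul_isUnit_right h2
    · refine ⟨false, ?_⟩
      simp only [Bool.false_eq_true, if_false]
      rw [Scheme.mem_basicOpen_top]
      exact isUnit_of_mul_isUnit_right h2
  · intro b
    set f := if b then mm a (cy C p j h) 0 else mm a (cy C p j h) 1 with hf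
    set V := T.basicOpen f with hV'
    have ht : ⊤ ≤ ((V.ι ≫ p) ≫ eL C) ⁻¹ᵁ psD j :=
      fun x _ => h (Set.mem_univ (V.ι x))
    have hco : cy C (V.ι ≫ p) j ht = fun l => V.ι.appTop (cy C p j h l) :=
      funext fun l => cy_comp C V.ι p j h ht l
    refine ex0 hV (V.ι ≫ p) j ht _ ?_
    have hu : IsUnit (V.ι.appTop f) := unit_basic f
    rw [hco]
    cases b
    · right
      have e : V.ι.appTop (mm a (cy C p j h) 1) =
          mm (fun j => V.ι.appTop (a j)) (fun l => V.ι.appTop (cy C p j h l)) 1 :=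
        map_mm V.ι.appTop.hom a (cy C p j h) 1
      rw [← e]
      exact hu
    · left
      have e : V.ι.appTop (mm a (cy C p j h) 0) =
          mm (fun j => V.ι.appTop (a j)) (fun l => V.ι.appTop (cy C p j h l)) 0 :=
        map_mm V.ι.appTop.hom a (cy C p j h) 0
      rw [← e]
      exact hu

theorem ex (hV : StSegVan) {T : Scheme.{0}} (p : T ⟶ C.X.left) (a : Fin 2 × Fin 3 → Γ(T, ⊤))
    (hd : IsUnit (fd C.d a)) :
    ∃ q : T ⟶ PS k (Fin 2), q ≫ psStr k (Fin 2) = p ≫ sL C ∧ RR C T p q a := by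
  refine glue hV p a hd (κ := Fin 3)
    (fun i => (p ≫ eL C) ⁻¹ᵁ psD i) ?_ ?_
  · rw [eq_top_iff]
    intro x _
    obtain ⟨i, hi⟩ := TopologicalSpace.Opens.mem_iSup.1
      ((iSup_psD (k := k) (κ := Fin 3)).ge
        (Set.mem_univ ((p ≫ eL C) x)))
    exact TopologicalSpace.Opens.mem_iSup.2 ⟨i, hi⟩
  · intro i
    set V := (p ≫ eL C) ⁻¹ᵁ psD i with hV'
    have ht : ⊤ ≤ ((V.ι ≫ p) ≫ eL C) ⁻¹ᵁ psD i :=
      fun x _ => x.2
    refine ex1 hV (V.ι ≫ p) i ht (fun j => V.ι.appTop (a j)) ?_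
    have h1 := hd.map V.ι.appTop.hom
    rw [map_fd] at h1
    exact h1

end rel

end GraphCAux

open GraphCAux in
/-- **G03. The curve `D_a` is isomorphic to `C`** over `M`. -/
theorem tGraphC (h : StSegVan) : StGraphC := by
  intro k₀ k _ _ _ C M _ _ _ _ a ha D r u hC
  have hd : ∀ (T : Sch k₀) (s : T ⟶ pt k₀ M), IsUnit (fd C.d (fun j =>
      Hyp.val (s.left : T.left ⟶ Spec (CommRingCat.of M)) (a j))) := by
    intro T s
    have h1 : IsUnit (fd C.d a) := isUnit_iff_ne_zero.2 ha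
    have h2 := h1.map (Hyp.val (s.left : T.left ⟶ Spec (CommRingCat.of M)))
    have h3 := map_fd (Hyp.val (s.left : T.left ⟶ Spec (CommRingCat.of M))) C.d a
    exact h3 ▸ h2
  have hw : r ≫ pullback.fst (l1 k₀ k) C.str ≫ l1 k₀ k =
      r ≫ pullback.snd (l1 k₀ k) C.str ≫ C.str := by
    rw [pullback.condition]
  -- the relation holds on `D`
  have hmem : ∀ (T : Sch k₀) (f : T ⟶ D), RR C T.left
      ((f ≫ r ≫ pullback.snd (l1 k₀ k) C.str).left)
      ((f ≫ r ≫ pullback.fst (l1 k₀ k) C.str).left) (fun j => Hyp.val ((f ≫ u).left) (a j)) := by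
    intro T f
    refine ⟨(f ≫ r).left, by rw [← Over.comp_left, Category.assoc],
      by rw [← Over.comp_left, Category.assoc], ?_⟩
    have h1 := PreCoord.Van.comp _ f.left hC.mem
    have e : (fun j => f.left.appTop (Hyp.val (u.left : D.left ⟶ Spec (CommRingCat.of M)) (a j))) =
        fun j => Hyp.val ((f ≫ u).left : T.left ⟶ Spec (CommRingCat.of M)) (a j) := by
      funext j
      exact (DFunLike.congr_fun (Hyp.val_comp f.left u.left) (a j)).symm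
    rw [e] at h1
    exact van_congr (Category.assoc f.left r.left (psi C).left).symm h1
  -- existence of a lift
  have hlift : ∀ (T : Sch k₀) (z : T.left ⟶ (PC C).left) (t : T ⟶ C.X)
      (s : T ⟶ pt k₀ M), z ≫ (pullback.snd (l1 k₀ k) C.str).left = t.left →
      t ≫ C.str = s ≫ pm k₀ k M →
      (psCoord k (Fin 2 × Fin 3)).Van (z ≫ (psi C).left : T.left ⟶ PS k (Fin 2 × Fin 3))
        (fun j => Hyp.val (s.left : T.left ⟶ Spec (CommRingCat.of M)) (a j)) →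
      ∃ f : T ⟶ D, (f ≫ r).left = z ∧ f ≫ u = s := by
    intro T z t s h1 h2 h3
    have hT : z ≫ (PC C).hom = T.hom := by
      rw [← Over.w (pullback.snd (l1 k₀ k) C.str), ← Category.assoc, h1, Over.w]
    let z' : T ⟶ PC C := Over.homMk z hT
    have h4 : z' ≫ pc C = s ≫ ptMap k₀ (IsScalarTower.toAlgHom k₀ k M) := by
      have h5 : z' ≫ pullback.snd (l1 k₀ k) C.str = t := Over.OverMorphism.ext h1
      rw [pc, pullback.condition, ← Category.assoc, h5, h2]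
    obtain ⟨f, hf1, hf2⟩ := hC.lift T z' s h4 h3
    exact ⟨f, by rw [hf1]; rfl, hf2⟩
  refine isPB_of ?_ ?_ ?_
  · rw [Category.assoc, ← hw]
    exact hC.comm
  · intro T t s hts
    obtain ⟨q, hq1, z, hz1, hz2, hz3⟩ := ex h (C := C) (t.left : T.left ⟶ C.X.left)
      (fun j => Hyp.val (s.left : T.left ⟶ Spec (CommRingCat.of M)) (a j)) (hd T s)
    obtain ⟨f, hf1, hf2⟩ := hlift T z t s hz1 hts hz3
    refine ⟨f, Over.OverMorphism.ext ?_, hf2⟩
    rw [← Category.assoc, Over.comp_left, hf1]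
    exact hz1
  · intro T f g h1 h2
    refine hC.ext T f g ?_ h2
    have h3 := hmem T f
    have h4 := hmem T g
    have e2 : f ≫ r ≫ pullback.fst (l1 k₀ k) C.str = g ≫ r ≫ pullback.fst (l1 k₀ k) C.str := by
      refine Over.OverMorphism.ext ?_
      rw [← h1, ← h2] at h4
      refine uniq h (f ≫ r ≫ pullback.snd (l1 k₀ k) C.str).left _ _ ?_ ?_ _
        (hd T (f ≫ u)) h3 h4
      · have e3 : (f ≫ r ≫ pullback.fst (l1 k₀ k) C.str) ≫ l1 k₀ k =
            (f ≫ r ≫ pullback.snd (l1 k₀ k) C.str) ≫ C.str := by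
          simp only [Category.assoc, hw]
        exact congrArg (fun f => f.left) e3
      · have e3 : (g ≫ r ≫ pullback.fst (l1 k₀ k) C.str) ≫ l1 k₀ k =
            (f ≫ r ≫ pullback.snd (l1 k₀ k) C.str) ≫ C.str := by
          rw [h1]
          simp only [Category.assoc, hw]
        exact congrArg (fun f => f.left) e3
    refine pullback.hom_ext ?_ ?_
    · rw [Category.assoc, Category.assoc]
      exact e2
    · rw [Category.assoc, Category.assoc]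
      exact h1

end Pool.Agent.Lib.MP_4ca46c_ag.C5
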