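import Mathlib
import Pool.Agent.Lib.MP_4ca46c_ag.C5.Fin
import Pool.Agent.Lib.MP_4ca46c_ag.C5.Facts
import Pool.Agent.Lib.MP_4ca46c_ag.M4.Fin

/-!
# The sign conjecture in transcendence degree five: a single variety
-/

set_option autoImplicit false

namespace Pool.Agent.Lib.MP_4ca46c_ag.C5

open CategoryTheory Limits AlgebraicGeometry MonoidalCategory CartesianMonoidalCategory
open Pool.Agent.Lib.MP_4ca46c_ag.Sign Pool.Agent.Lib.MP_4ca46c_ag.Hyp
open Pool.Agent.Lib.MP_4ca46c_ag.Std Pool.Agent.Lib.MP_4ca46c_ag.Vtc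
open Pool.Agent.Lib.MP_4ca46c_ag.Geo
open Pool.Agent.Lib.MP_4ca46c_ag.T2 (pvar StPencilAsm WeakT)
open Pool.Agent.Lib.MP_4ca46c_ag.Od (WeakLefschetz)

namespace OneAux

section abstract

variable {K : Type} [Field K] [CharZero K] {𝒱 : Type 1} [Category.{0} 𝒱]
  [CartesianMonoidalCategory 𝒱] {W : WeilCohomology K 𝒱}

/-- The even projector of a retract. -/
theorem even_retract {U Z : 𝒱} (s : Z ⟶ U) (p : U ⟶ Z) (h : s ≫ p = 𝟙 Z)
    (hU : W.even U ∈ W.Cor U U 0) : W.even Z ∈ W.Cor Z Z 0 := by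
  have h1 := W.cor_comp (W.cor_pull s) (W.cor_comp hU (W.cor_pull p))
  have h2 : (W.pull s).toLinearMap ∘ₗ W.even U ∘ₗ (W.pull p).toLinearMap = W.even Z := by
    refine W.hom_ext fun l x hx => ?_
    change W.pull s (W.even U (W.pull p x)) = W.even Z x
    rcases Nat.even_or_odd l with hl | hl
    · rw [W.even_even hx hl, W.even_even (W.pull_gr p hx) hl, ← W.pull_comp, h, W.pull_id]
    · rw [W.even_odd hx hl, W.even_odd (W.pull_gr p hx) hl, map_zero]
  rw [h2] at h1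
  simpa only [add_zero] using h1

theorem even_left {X Y : 𝒱} (h : W.even (X ⊗ Y) ∈ W.Cor (X ⊗ Y) (X ⊗ Y) 0) :
    W.even X ∈ W.Cor X X 0 := by
  obtain ⟨s⟩ := W.point Y
  exact even_retract (lift (𝟙 X) (toUnit X ≫ s)) (fst X Y) (lift_fst _ _) h

theorem even_right {X Y : 𝒱} (h : W.even (X ⊗ Y) ∈ W.Cor (X ⊗ Y) (X ⊗ Y) 0) :
    W.even Y ∈ W.Cor Y Y 0 := by
  obtain ⟨s⟩ := W.point X
  exact even_retract (lift (toUnit Y ≫ s) (𝟙 Y)) (snd X Y) (lift_snd _ _) h

end abstract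

variable {k₀ K : Type} [Field k₀] [Field K] {D : CohData k₀ K} (h : D.IsTheory)
  (h' : IsStandard D)

/-- The product of a family. -/
theorem exists_prod [CharZero K] (k : Type) [Field k] [Algebra k₀ k] [IsAlgClosed k]
    (U : ℕ → ProjVar k₀ k) (B : ProjVar k₀ k) (m : ℕ) : ∃ P : ProjVar k₀ k,
      P.n = B.n + ∑ i ∈ Finset.range m, (U i).n ∧
      ((weil (D.weil h) k).even (pvar P) ∈ (weil (D.weil h) k).Cor (pvar P) (pvar P) 0 →
        ∀ i < m, (weil (D.weil h) k).even (pvar (U i)) ∈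
          (weil (D.weil h) k).Cor (pvar (U i)) (pvar (U i)) 0) := by
  induction m with
  | zero => exact ⟨B, by simp, fun _ i hi => by omega⟩
  | succ m ih =>
    obtain ⟨P, hP, H⟩ := ih
    refine ⟨P.prod (U m) tSegreGeo, ?_, fun hK i hi => ?_⟩
    · change P.n + (U m).n = _
      rw [hP, Finset.sum_range_succ]
      ring
    · have hK' : (weil (D.weil h) k).even (pvar P ⊗ pvar (U m)) ∈
          (weil (D.weil h) k).Cor (pvar P ⊗ pvar (U m)) (pvar P ⊗ pvar (U m)) 0 := hK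
      rcases Nat.lt_or_ge i m with h1 | h1
      · exact H (even_left hK') i h1
      · obtain rfl : i = m := by omega
        exact even_right hK'

theorem exists_base (k : Type) [Field k] [Algebra k₀ k] [IsAlgClosed k] (n : ℕ)
    (U : ℕ → ProjVar k₀ k) (h1 : ∀ i, i + 2 ≤ n → (U i).n = 2 * i + 3) :
    ∃ B : ProjVar k₀ k, Odd (B.n + ∑ i ∈ Finset.range (n - 1), (U i).n) ∧
        B.n + ∑ i ∈ Finset.range (n - 1), (U i).n ≤ n ^ 2 + 1 := by
  have hs : ∑ i ∈ Finset.range (n - 1), (U i).n + 1 ≤ n ^ 2 + 1 ∧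
      (Odd (∑ i ∈ Finset.range (n - 1), (U i).n) →
        ∑ i ∈ Finset.range (n - 1), (U i).n + 2 ≤ n ^ 2 + 1) := by
    have e : ∀ m, m ≤ n - 1 → ∑ i ∈ Finset.range m, (U i).n = m ^ 2 + 2 * m := by
      intro m
      induction m with
      | zero => simp
      | succ m ih =>
        intro hm
        rw [Finset.sum_range_succ, ih (by omega), h1 m (by omega)]
        ring
    rw [e _ le_rfl]
    rcases Nat.eq_zero_or_pos n with h0 | h0
    · rw [h0]
      simp
    · obtain ⟨r, hr⟩ : ∃ r, n = r + 1 := ⟨n - 1, by omega⟩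
      rw [hr, Nat.add_sub_cancel]
      constructor
      · nlinarith
      · intro _
        nlinarith
  rcases Nat.even_or_odd (∑ i ∈ Finset.range (n - 1), (U i).n) with h3 | h3
  · refine ⟨M4.line k, ?_, ?_⟩
    · change Odd (1 + _)
      exact odd_one.add_even h3
    · change 1 + _ ≤ _
      have := hs.1
      omega
  · refine ⟨Two.P2 k₀ k, ?_, ?_⟩
    · change Odd (2 + _)
      exact even_two.add_odd h3
    · change 2 + _ ≤ _
      have := hs.2 h3
      omega

end OneAux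

open OneAux

variable {k₀ K : Type} [Field k₀] [Field K] {D : CohData k₀ K} (h : D.IsTheory)
  (h' : IsStandard D)

include h h' in
/-- **One variety, one class.** -/
theorem one5 (hF : ∀ [CharZero K], StFib5 k₀ K) (hM : StMulC) (hW : WeakLefschetz D)
    (V : PrVar k₀) : ∃ U : PrVar k₀, FiveParams V U ∧ Odd U.n ∧ U.n ≤ V.n ^ 2 + 1 ∧
      (Cardinal.aleph0 ≤ Algebra.trdeg k₀ V.k → U.IsOver V.k) ∧
      (EvenPart D U → V.KunnethConj D ∧ V.LefschetzConj D) := by
  have := char_zero h h'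
  obtain ⟨U, h1, h2⟩ := proj5 h (T2.fin_pencil k₀ K Cn.tHypConn) hF hM (Od.weakT h hW) h' V.k V.n
    V.toProj rfl
  obtain ⟨B, hB, hB'⟩ := exists_base (M5 V.k) V.n U h1
  obtain ⟨P, hP, H⟩ := exists_prod (D := D) h (M5 V.k) U B (V.n - 1)
  have hPn : (ofProj P).n = B.n + ∑ i ∈ Finset.range (V.n - 1), (U i).n := hP
  refine ⟨ofProj P, fiveParams V P, by rw [hPn]; exact hB, by rw [hPn]; exact hB', fun hk => ?_,
    fun hE => ?_⟩
  · exact closure_equiv k₀ V.k (Fin 5) (FractionRing (MvPolynomial (Fin 5) V.k)) (M5 V.k) hk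
  · have key : V.LefschetzConj D := by
      rw [lef_iff h h']
      exact h2 fun i hi => H ((Div.br_sign h h' (ofProj P)).1
        ((evenPart_iff h h' (ofProj P)).1 hE)) i (by omega)
    exact ⟨kun_of_lef h h' V key, key⟩

end Pool.Agent.Lib.MP_4ca46c_ag.C5
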