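import Mathlib
import Pool.Agent.Lib.MP_4ca46c_ag.C5.SpecA

/-!
# Push-forward of a quasi-inverse
-/

set_option autoImplicit false

namespace Pool.Agent.Lib.MP_4ca46c_ag.C5

open CategoryTheory MonoidalCategory CartesianMonoidalCategory TensorProduct
open Pool.Agent.Lib.MP_4ca46c_ag.Geo Pool.Agent.Lib.MP_4ca46c_ag.Geo.WeilCohomology
open Pool.Agent.Lib.MP_4ca46c_ag.Two (Hard QInv)

namespace PushCAux

variable {K : Type} [Field K] [CharZero K] {𝒱 : Type 1} [Category.{0} 𝒱]
  [CartesianMonoidalCategory 𝒱] (W : WeilCohomology K 𝒱) {X Z : 𝒱}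

/-- Classes of degree two are central. -/
theorem central {X : 𝒱} {e : W.H X} (he : e ∈ W.gr X 2) (z : W.H X) : e * z = z * e := by
  refine W.ind (P := fun z => e * z = z * e) z (by simp) (fun j z hz => ?_)
    (fun r s hr hs => by rw [mul_add, add_mul, hr, hs])
  rw [W.comm he hz]
  have h : Even (2 * j) := ⟨j, by ring⟩
  rw [h.neg_one_pow, one_mul]

/-- Projection formula for a class of degree two. -/
theorem mul_push (r : Z ⟶ X) {a : W.H X} (ha : a ∈ W.gr X 2) (y : W.H Z) :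
    a * W.push r y = W.push r (W.pull r a * y) := by
  symm
  refine W.push_eq r _ _ fun y' => ?_
  have hc : W.pull r a ∈ W.gr Z 2 := W.pull_gr r ha
  rw [central W ha, central W hc y, mul_assoc, mul_assoc, W.push_spec,
    map_mul (W.pull r)]

/-- The operator on `H(X)` is a correspondence. -/
theorem mem_R (r : Z ⟶ X) (hd : W.dim Z = W.dim X) (G : W.E Z) (hG : G ∈ W.R Z (-1)) :
    (W.push r ∘ₗ G ∘ₗ (W.pull r).toLinearMap : W.E X) ∈ W.R X (-1) := by
  refine Submodule.span_induction (p := fun G _ =>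
    (W.push r ∘ₗ G ∘ₗ (W.pull r).toLinearMap : W.E X) ∈ W.R X (-1)) (fun g hg => ?_) ?_
    (fun g g' _ _ h h' => ?_) (fun s g _ h => ?_) hG
  · refine Submodule.subset_span ?_
    have h1 := W.cor_comp (W.cor_push r) (W.cor_comp hg (W.cor_pull r))
    have h2 : (W.dim X : ℤ) - W.dim Z + (-1 + 0) = -1 := by rw [hd]; ring
    rw [h2] at h1
    exact h1
  · rw [LinearMap.zero_comp, LinearMap.comp_zero]
    exact Submodule.zero_mem _
  · rw [LinearMap.add_comp, LinearMap.comp_add]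
    exact Submodule.add_mem _ h h'
  · rw [LinearMap.smul_comp, LinearMap.comp_smul]
    exact Submodule.smul_mem _ _ h

end PushCAux

theorem tPushC : StPushC := by
  intro K _ _ 𝒱 _ _ W X Z r a d ha hd hpush hd0 hVR
  obtain ⟨G, hG, hGz⟩ := hVR
  refine ⟨d⁻¹ • (W.push r ∘ₗ G ∘ₗ (W.pull r).toLinearMap : W.E X),
    Submodule.smul_mem _ _ (PushCAux.mem_R W r hd G hG), fun z => ?_⟩
  have h1 : (d⁻¹ • (W.push r ∘ₗ G ∘ₗ (W.pull r).toLinearMap : W.E X)) (a * z) =
      d⁻¹ • W.push r (G (W.pull r a * W.pull r z)) := by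
    rw [LinearMap.smul_apply, LinearMap.comp_apply, LinearMap.comp_apply,
      AlgHom.toLinearMap_apply, map_mul]
  rw [h1, mul_smul_comm, PushCAux.mul_push W r ha, hGz, ← map_mul, W.push_pull, hpush,
    smul_mul_assoc, one_mul, smul_smul, inv_mul_cancel₀ hd0, one_smul]

end Pool.Agent.Lib.MP_4ca46c_ag.C5
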