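import Mathlib
import Pool.Agent.Lib.MP_4ca46c_ag.C5.SpecH
import Pool.Agent.Lib.MP_4ca46c_ag.Two.MemEx
import Pool.Agent.Lib.MP_4ca46c_ag.Two.MemBC

/-!
# C5, module H03: the morphism from the curve to the projective line
-/

set_option autoImplicit false

namespace Pool.Agent.Lib.MP_4ca46c_ag.C5

open CategoryTheory Limits AlgebraicGeometry
open Pool.Agent.Lib.MP_4ca46c_ag.Sign Pool.Agent.Lib.MP_4ca46c_ag.Hyp
open Pool.Agent.Lib.MP_4ca46c_ag.Std Pool.Agent.Lib.MP_4ca46c_ag.Geo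
open Pool.Agent.Lib.MP_4ca46c_ag.Two (IsMem Mem tMemEx)

namespace XCAux

variable {k₀ k : Type} [Field k₀] [Field k] [Algebra k₀ k]

theorem pm_self : pm k₀ k k = 𝟙 (pt k₀ k) := by
  ext : 1
  change Spec.map (CommRingCat.ofHom (algebraMap k k)) = 𝟙 _
  rw [Algebra.algebraMap_self]
  exact Spec.map_id _

theorem isMem_iso {κ : Type} [Fintype κ] {M : Type} [Field M] [Algebra k₀ M] [Algebra k M]
    [IsScalarTower k₀ k M] {Z : Sch k₀} {z : Z ⟶ pt k₀ k} {φ : Z ⟶ PSo k₀ k κ} {a : κ → M}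
    {U U' : Sch k₀} {r : U ⟶ Z} {u : U ⟶ pt k₀ M} (h : IsMem z φ a r u) (e : U' ⟶ U) [IsIso e] :
    IsMem z φ a (e ≫ r) (e ≫ u) where
  comm := by rw [Category.assoc, Category.assoc, h.comm]
  mem := Two.MemBCAux.mem_comp e h.mem
  lift T t s h1 h2 := by
    obtain ⟨t', h3, h4⟩ := h.lift T t s h1 h2
    exact ⟨t' ≫ inv e, by rw [Category.assoc, IsIso.inv_hom_id_assoc, h3],
      by rw [Category.assoc, IsIso.inv_hom_id_assoc, h4]⟩
  ext T t t' h1 h2 := by
    rw [← cancel_mono e]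
    apply h.ext T
    · rw [Category.assoc, Category.assoc, h1]
    · rw [Category.assoc, Category.assoc, h2]

end XCAux

theorem tXC (h : StGraphC) : StXC := by
  intro k₀ k _ _ _ C l hl
  obtain ⟨D, r, u, hD⟩ := tMemEx k₀ k (Fin 2 × Fin 3) k (PC C) (pc C) (psi C) (psi_str C) l
  have hpb := h k₀ k C k l hl D r u hD
  rw [XCAux.pm_self] at hpb
  have hs : IsIso (r ≫ pullback.snd (l1 k₀ k) C.str) := hpb.isIso_fst_of_isIso
  have hw : (r ≫ pullback.snd (l1 k₀ k) C.str) ≫ C.str = u := by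
    rw [hpb.w, Category.comp_id]
  have hx : (inv (r ≫ pullback.snd (l1 k₀ k) C.str) ≫ r ≫ pullback.fst (l1 k₀ k) C.str) ≫
      l1 k₀ k = C.str := by
    rw [Category.assoc, Category.assoc, pullback.condition, IsIso.inv_comp_eq, Category.assoc]
  refine ⟨inv (r ≫ pullback.snd (l1 k₀ k) C.str) ≫ r ≫ pullback.fst (l1 k₀ k) C.str, hx, ?_⟩
  have h1 : pullback.lift (inv (r ≫ pullback.snd (l1 k₀ k) C.str) ≫ r ≫
      pullback.fst (l1 k₀ k) C.str) (𝟙 C.X) (by rw [hx, Category.id_comp]) =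
      inv (r ≫ pullback.snd (l1 k₀ k) C.str) ≫ r := by
    apply pullback.hom_ext
    · rw [pullback.lift_fst, Category.assoc]
    · rw [pullback.lift_snd, Category.assoc, IsIso.inv_hom_id]
  have h2 : C.str = inv (r ≫ pullback.snd (l1 k₀ k) C.str) ≫ u := by
    rw [← hw, IsIso.inv_hom_id_assoc]
  have h3 := XCAux.isMem_iso hD (inv (r ≫ pullback.snd (l1 k₀ k) C.str))
  rw [h1]
  rw [← h2] at h3
  exact h3

end Pool.Agent.Lib.MP_4ca46c_ag.C5
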